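import Pool.Agent.Helper3.TCV.StB
import Pool.Agent.Helper3.TCM.Ball

/-!
# TCV: module AF2 (helper75): the tests for (F2)
-/

set_option autoImplicit false

namespace Pool.TCV

open Pool.TC Pool.TCM Pool.TCS Pool.TN Finset
open scoped Classical

section

variable {V κ : Type} [Fintype V] [Fintype κ]

/-- the colours in question, first kind -/
private noncomputable def AF2_S1 (P : Par) (e : Ed V κ) (v : V) : Finset κ :=
  univ.filter (fun a => a ∉ e.J0 ∧ e.E.N a v ≠ v ∧ e.A P (e.E.N a v))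

/-- the colours in question, second kind -/
private noncomputable def AF2_S2 (P : Par) (e : Ed V κ) (v : V) : Finset κ :=
  univ.filter (fun a => (a ∉ e.J0 ∧ e.E.N a v ≠ v ∧ e.A P (e.E.N a v)) ∧ e.m (e.E.N a v) ∈ e.J0)

/-- the vertices in question -/
private noncomputable def AF2_Q (P : Par) (e : Ed V κ) (v : V) : Finset V :=
  (AF2_S2 P e v).image (fun a => e.E.N a v)

private theorem AF2_Q_card (P : Par) (e : Ed V κ) (v : V) :
    (AF2_Q P e v).card = (AF2_S2 P e v).card := by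
  unfold AF2_Q
  refine card_image_of_injOn ?_
  intro a ha b hb hab
  have h1 : a ∈ AF2_S2 P e v := ha
  unfold AF2_S2 at h1
  exact e.E.uniq a b v hab (mem_filter.1 h1).2.1.2.1

private theorem AF2_Q_spec {P : Par} {e : Ed V κ} {v w : V} (h : w ∈ AF2_Q P e v) :
    ∃ a, a ∉ e.J0 ∧ e.E.N a v ≠ v ∧ e.A P w ∧ e.m w ∈ e.J0 ∧ e.E.N a v = w := by
  unfold AF2_Q at h
  obtain ⟨a, ha, hw⟩ := mem_image.1 h
  unfold AF2_S2 at ha
  obtain ⟨⟨h1, h2, h3⟩, h4⟩ := (mem_filter.1 ha).2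
  subst hw
  exact ⟨a, h1, h2, h3, h4, rfl⟩

/-- the partners of a vertex and the vertex itself -/
private noncomputable def AF2_R (P : Par) (e : Ed V κ) (w : V) : Finset V :=
  insert w (univ.filter (fun u => e.cf P u w))

private theorem AF2_num {P : Par} (hn : Num10 P) (hL : NumL P) :
    ((1 + 2 * (P.t0 : ℝ)) ^ 2 * ((P.D : ℝ) + 1)) ≤ (P.X : ℝ) ^ 12 * P.D ∧
    0 < (1 + 2 * (P.t0 : ℝ)) ^ 2 * ((P.D : ℝ) + 1) ∧ (1 : ℝ) ≤ P.D ∧ (1 : ℝ) ≤ P.X := by
  have hX := hL.X1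
  have hX1 : (1 : ℝ) ≤ P.X := le_trans (by norm_num) hX
  have hD : (1 : ℝ) ≤ P.D := by
    have := hL.XD 0 (by norm_num)
    simpa using this
  have ht : (P.t0 : ℝ) = (P.X : ℝ) ^ 4 := by
    rw [hn.t0]
    push_cast
    rfl
  have ht1 : (1 : ℝ) ≤ (P.X : ℝ) ^ 4 := one_le_pow₀ hX1
  refine ⟨?_, by positivity, hD, hX1⟩
  rw [ht]
  have h1 : (1 + 2 * (P.X : ℝ) ^ 4) ^ 2 ≤ 9 * (P.X : ℝ) ^ 8 := by
    have h2 : (P.X : ℝ) ^ 8 = ((P.X : ℝ) ^ 4) ^ 2 := by ring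
    rw [h2]
    nlinarith
  have h3 : (18 : ℝ) ≤ (P.X : ℝ) ^ 4 := by
    have h4 : (18 : ℝ) ≤ P.X := le_trans (by norm_num) hX
    calc (18 : ℝ) ≤ P.X := h4
      _ = (P.X : ℝ) ^ 1 := (pow_one _).symm
      _ ≤ (P.X : ℝ) ^ 4 := pow_le_pow_right₀ hX1 (by norm_num)
  have h8 : (0 : ℝ) ≤ (P.X : ℝ) ^ 8 := by positivity
  calc (1 + 2 * (P.X : ℝ) ^ 4) ^ 2 * ((P.D : ℝ) + 1)
      ≤ (9 * (P.X : ℝ) ^ 8) * (2 * P.D) := by
        apply mul_le_mul h1 (by linarith) (by linarith) (by positivity)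
    _ = 18 * ((P.X : ℝ) ^ 8 * P.D) := by ring
    _ ≤ (P.X : ℝ) ^ 4 * ((P.X : ℝ) ^ 8 * P.D) := by
        apply mul_le_mul_of_nonneg_right h3
        positivity
    _ = (P.X : ℝ) ^ 12 * P.D := by ring

private theorem AF2_test (hNumL : St_NumL) (hCnt : St_CntQ) (hCf : St_Cf) (hPrA : St_PrA)
    (P : Par) (e : Ed V κ) (h3 : Hy3 P e) (v : V) :
    Tst e.G P.Lam v (fun ω : V → Fin P.pa => ∑ w ∈ AF2_Q P e v,
      (if (fdA P e ω).F0 w then (-1 : ℝ) else 0))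
      (-((AF2_Q P e v).card / (2 * (P.pa : ℝ))) + P.nz) := by
  obtain ⟨c1, c2, c3, c4, -, -, -⟩ := hCf P V κ e h3
  obtain ⟨-, -, p3, p4⟩ := hPrA P V κ e h3
  have hL := hNumL P h3.nm
  obtain ⟨n1, n2, n3, n4⟩ := AF2_num h3.nm hL
  have hpa : (0 : ℝ) < P.pa := by exact_mod_cast hL.pa0
  have hcand : ∀ w ∈ AF2_Q P e v, e.cand P w := by
    intro w hw
    obtain ⟨a, -, -, h5, h6, -⟩ := AF2_Q_spec hw
    exact Or.inl ⟨h5, h6⟩
  have hQD : (AF2_Q P e v).card ≤ P.D + 1 := by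
    rw [AF2_Q_card, ← h3.ed.col]
    exact card_le_univ _
  have hRc : ∀ w, (AF2_R P e w).card ≤ 1 + 2 * P.t0 := by
    intro w
    unfold AF2_R
    have h5 := c3 w
    have h6 := card_insert_le w (univ.filter (fun u => e.cf P u w))
    omega
  refine hCnt V (Fin P.pa) V e.G (AF2_Q P e v)
    (fun w ω => if (fdA P e ω).F0 w then (-1 : ℝ) else 0) (fun _ => 1) (AF2_R P e)
    (1 + 2 * (P.t0 : ℝ)) ((1 + 2 * (P.t0 : ℝ)) ^ 2 * ((P.D : ℝ) + 1)) P.Lam _ v
    (fun _ _ => zero_le_one) ?_ ?_ ?_ ?_ ?_ n2 ?_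
  · intro w _ ω ω'
    show |(if (fdA P e ω).F0 w then (-1 : ℝ) else 0) -
      (if (fdA P e ω').F0 w then (-1 : ℝ) else 0)| ≤ 1
    split_ifs <;> norm_num
  · intro w _ ω ω' hw
    show (if (fdA P e ω).F0 w then (-1 : ℝ) else 0) = if (fdA P e ω').F0 w then (-1 : ℝ) else 0
    have h5 := p4 w ω ω' hw
    by_cases h6 : (fdA P e ω).F0 w
    · rw [if_pos h6, if_pos (h5.1 h6)]
    · rw [if_neg h6, if_neg (fun h7 => h6 (h5.2 h7))]
  · intro w hw t ht
    obtain ⟨a, -, h5, -, -, h6⟩ := AF2_Q_spec hw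
    have h7 : w ∈ ball e.G 1 v := by
      rw [← h6]
      exact adj_mem_ball (h3.ed.sub a v h5)
    unfold AF2_R at ht
    rcases mem_insert.1 ht with h8 | h8
    · rw [h8]
      exact ball_mono (by norm_num) h7
    · have h9 := c4 t w (mem_filter.1 h8).2
      exact ball_mono (by norm_num) (ball_trans h7 h9)
  · intro t
    rw [sum_const, nsmul_eq_mul, mul_one]
    have h5 : (AF2_Q P e v).filter (fun w => t ∈ AF2_R P e w) ⊆
        insert t (univ.filter (fun u => e.cf P u t)) := by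
      intro w hw
      have h6 := (mem_filter.1 hw).2
      unfold AF2_R at h6
      rw [mem_insert]
      rcases mem_insert.1 h6 with h7 | h7
      · exact Or.inl h7.symm
      · exact Or.inr (mem_filter.2 ⟨mem_univ _, c2 t w (mem_filter.1 h7).2⟩)
    have h6 := (card_le_card h5).trans (hRc t)
    exact_mod_cast h6
  · have h5 : ∑ w ∈ AF2_Q P e v, (1 : ℝ) * ((AF2_R P e w).card : ℝ) ≤
        ∑ w ∈ AF2_Q P e v, (1 + 2 * (P.t0 : ℝ)) := by
      refine sum_le_sum fun w _ => ?_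
      rw [one_mul]
      exact_mod_cast hRc w
    rw [sum_const, nsmul_eq_mul] at h5
    have h6 : ((AF2_Q P e v).card : ℝ) ≤ (P.D : ℝ) + 1 := by exact_mod_cast hQD
    have h7 : (0 : ℝ) ≤ 1 + 2 * (P.t0 : ℝ) := by positivity
    calc (1 + 2 * (P.t0 : ℝ)) * ∑ w ∈ AF2_Q P e v, (1 : ℝ) * ((AF2_R P e w).card : ℝ)
        ≤ (1 + 2 * (P.t0 : ℝ)) * (((AF2_Q P e v).card : ℝ) * (1 + 2 * (P.t0 : ℝ))) :=
          mul_le_mul_of_nonneg_left h5 h7
      _ ≤ (1 + 2 * (P.t0 : ℝ)) * (((P.D : ℝ) + 1) * (1 + 2 * (P.t0 : ℝ))) := by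
          apply mul_le_mul_of_nonneg_left _ h7
          exact mul_le_mul_of_nonneg_right h6 h7
      _ = _ := by ring
  · have h5 : ∀ w ∈ AF2_Q P e v,
        mean (fun ω : V → Fin P.pa => if (fdA P e ω).F0 w then (-1 : ℝ) else 0) ≤
          -(1 / (2 * (P.pa : ℝ))) := by
      intro w hw
      have h6 := p3 w (hcand w hw)
      have h7 : mean (fun ω : V → Fin P.pa => if (fdA P e ω).F0 w then (-1 : ℝ) else 0) =
          -mean (fun ω : V → Fin P.pa => if (fdA P e ω).F0 w then (1 : ℝ) else 0) := by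
        unfold mean
        rw [← neg_div, ← sum_neg_distrib]
        congr 1
        refine sum_congr rfl fun ω _ => ?_
        by_cases h9 : (fdA P e ω).F0 w
        · simp only [if_pos h9]
        · simp only [if_neg h9, neg_zero]
      rw [h7]
      have h8 : 1 / (2 * (P.pa : ℝ)) ≤ (1 - 1 / 10 ^ 10) / P.pa := by
        rw [div_le_div_iff₀ (by positivity) hpa]
        nlinarith
      linarith
    have h6 := sum_le_sum h5
    rw [sum_const, nsmul_eq_mul] at h6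
    have h7 := hL.dev _ n2.le n1
    have h8 : Real.sqrt (2 * ((1 + 2 * (P.t0 : ℝ)) ^ 2 * ((P.D : ℝ) + 1)) * P.Lam) ≤ P.nz := by
      refine le_trans ?_ h7
      have h9 : (1 : ℝ) ≤ (P.X : ℝ) ^ 2 := one_le_pow₀ n4
      have h10 := Real.sqrt_nonneg (2 * ((1 + 2 * (P.t0 : ℝ)) ^ 2 * ((P.D : ℝ) + 1)) * P.Lam)
      nlinarith
    have h9 : ((AF2_Q P e v).card : ℝ) * -(1 / (2 * (P.pa : ℝ))) =
        -((AF2_Q P e v).card / (2 * (P.pa : ℝ))) := by ring
    rw [h9] at h6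
    exact add_le_add h6 h8

private theorem AF2_fin (P : Par) (e : Ed V κ) (h3 : Hy3 P e) (v : V) (ω : V → Fin P.pa)
    (h : ∑ w ∈ AF2_Q P e v, (if (fdA P e ω).F0 w then (-1 : ℝ) else 0) ≤
      -((AF2_Q P e v).card / (2 * (P.pa : ℝ))) + P.nz) :
    ((fdA P e ω).cj (fun w => e.A P w ∧ ¬ (fdA P e ω).F0 w) v : ℝ) +
      (1 - P.thp) * ((fdA P e ω).cj (fun w => ¬ e.A P w) v : ℝ) ≤
      ((P.D : ℝ) + 1 - e.J0.card) * (1 - P.thp) + 2 * P.nz := by
  have hr := h3.ed.r1 v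
  have e1 : (fdA P e ω).cj (fun w => e.A P w ∧ ¬ (fdA P e ω).F0 w) v =
      (univ.filter (fun a => a ∉ e.J0 ∧ e.E.N a v ≠ v ∧
        (e.A P (e.E.N a v) ∧ ¬ (fdA P e ω).F0 (e.E.N a v)))).card := by
    unfold Ed.cj
    congr
  have e2 : (fdA P e ω).cj (fun w => ¬ e.A P w) v =
      (univ.filter (fun a => a ∉ e.J0 ∧ e.E.N a v ≠ v ∧ ¬ e.A P (e.E.N a v))).card := by
    unfold Ed.cj
    congr
  rw [e1, e2]
  -- the sum of `r1`
  have e3 : (∑ a, if a ∉ e.J0 ∧ e.E.N a v ≠ v then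
      (if e.A P (e.E.N a v) then (if e.m (e.E.N a v) ∈ e.J0 then 1 - 1 / (2 * (P.pa : ℝ)) else 1)
        else 1 - P.thp) else 0) =
      ((AF2_S1 P e v).card : ℝ) - (AF2_S2 P e v).card / (2 * (P.pa : ℝ)) + (1 - P.thp) *
        ((univ.filter (fun a => a ∉ e.J0 ∧ e.E.N a v ≠ v ∧ ¬ e.A P (e.E.N a v))).card : ℝ) := by
    have k1 : ((AF2_S1 P e v).card : ℝ) =
        ∑ a, if a ∉ e.J0 ∧ e.E.N a v ≠ v ∧ e.A P (e.E.N a v) then (1 : ℝ) else 0 := by
      unfold AF2_S1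
      rw [← sum_boole]
    have k2 : ((AF2_S2 P e v).card : ℝ) =
        ∑ a, if (a ∉ e.J0 ∧ e.E.N a v ≠ v ∧ e.A P (e.E.N a v)) ∧ e.m (e.E.N a v) ∈ e.J0
          then (1 : ℝ) else 0 := by
      unfold AF2_S2
      rw [← sum_boole]
    have k3 : ((univ.filter (fun a => a ∉ e.J0 ∧ e.E.N a v ≠ v ∧
        ¬ e.A P (e.E.N a v))).card : ℝ) =
        ∑ a, if a ∉ e.J0 ∧ e.E.N a v ≠ v ∧ ¬ e.A P (e.E.N a v) then (1 : ℝ) else 0 := by
      rw [← sum_boole]
    rw [k1, k2, k3, sum_div, mul_sum, ← sum_sub_distrib, ← sum_add_distrib]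
    refine sum_congr rfl fun a _ => ?_
    by_cases q1 : a ∉ e.J0
    · by_cases q2 : e.E.N a v ≠ v
      · by_cases q3 : e.A P (e.E.N a v)
        · by_cases q4 : e.m (e.E.N a v) ∈ e.J0
          · rw [if_pos ⟨q1, q2⟩, if_pos q3, if_pos q4, if_pos ⟨q1, q2, q3⟩,
              if_pos ⟨⟨q1, q2, q3⟩, q4⟩, if_neg (fun k => k.2.2 q3)]
            ring
          · rw [if_pos ⟨q1, q2⟩, if_pos q3, if_neg q4, if_pos ⟨q1, q2, q3⟩,
              if_neg (fun k => q4 k.2), if_neg (fun k => k.2.2 q3)]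
            ring
        · rw [if_pos ⟨q1, q2⟩, if_neg q3, if_neg (fun k => q3 k.2.2),
            if_neg (fun k => q3 k.1.2.2), if_pos ⟨q1, q2, q3⟩]
          ring
      · rw [if_neg (fun k => q2 k.2), if_neg (fun k => q2 k.2.1), if_neg (fun k => q2 k.1.2.1),
          if_neg (fun k => q2 k.2.1)]
        ring
    · rw [if_neg (fun k => q1 k.1), if_neg (fun k => q1 k.1), if_neg (fun k => q1 k.1.1),
        if_neg (fun k => q1 k.1)]
      ring
  rw [e3] at hr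
  -- the free rows among the vertices in question
  have e4 : ∑ w ∈ AF2_Q P e v, (if (fdA P e ω).F0 w then (-1 : ℝ) else 0) =
      -(((AF2_Q P e v).filter (fun w => (fdA P e ω).F0 w)).card : ℝ) := by
    rw [← sum_boole, ← sum_neg_distrib]
    refine sum_congr rfl fun w _ => ?_
    split_ifs <;> norm_num
  rw [e4, AF2_Q_card] at h
  have e5 : (univ.filter (fun a => a ∉ e.J0 ∧ e.E.N a v ≠ v ∧
        (e.A P (e.E.N a v) ∧ ¬ (fdA P e ω).F0 (e.E.N a v)))).card +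
      ((AF2_Q P e v).filter (fun w => (fdA P e ω).F0 w)).card ≤ (AF2_S1 P e v).card := by
    have k1 : (AF2_Q P e v).filter (fun w => (fdA P e ω).F0 w) ⊆
        ((AF2_S1 P e v).filter (fun a => (fdA P e ω).F0 (e.E.N a v))).image
          (fun a => e.E.N a v) := by
      intro w hw
      obtain ⟨hw1, hw2⟩ := mem_filter.1 hw
      obtain ⟨a, h5, h6, h7, -, h8⟩ := AF2_Q_spec hw1
      refine mem_image.2 ⟨a, mem_filter.2 ⟨?_, ?_⟩, h8⟩
      · unfold AF2_S1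
        refine mem_filter.2 ⟨mem_univ _, h5, h6, ?_⟩
        rw [h8]
        exact h7
      · rw [h8]
        exact hw2
    have k2 := (card_le_card k1).trans card_image_le
    have k3 := card_filter_add_card_filter_not (s := AF2_S1 P e v)
      (fun a => (fdA P e ω).F0 (e.E.N a v))
    have k4 : (univ.filter (fun a => a ∉ e.J0 ∧ e.E.N a v ≠ v ∧
        (e.A P (e.E.N a v) ∧ ¬ (fdA P e ω).F0 (e.E.N a v)))) =
        (AF2_S1 P e v).filter (fun a => ¬ (fdA P e ω).F0 (e.E.N a v)) := by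
      unfold AF2_S1
      ext a
      simp only [mem_filter, mem_univ, true_and]
      tauto
    rw [k4]
    omega
  have e6 : (((univ.filter (fun a => a ∉ e.J0 ∧ e.E.N a v ≠ v ∧
        (e.A P (e.E.N a v) ∧ ¬ (fdA P e ω).F0 (e.E.N a v)))).card : ℕ) : ℝ) +
      ((AF2_Q P e v).filter (fun w => (fdA P e ω).F0 w)).card ≤ (AF2_S1 P e v).card := by
    exact_mod_cast e5
  linarith

end

theorem thm_AF2 (hNumL : St_NumL) (hCnt : St_CntQ) (hCf : St_Cf) (hPrA : St_PrA) : St_AF2 := by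
  intro P V κ _ _ e h3
  refine ⟨V, univ, fun v => v, fun v ω => ∑ w ∈ AF2_Q P e v,
      (if (fdA P e ω).F0 w then (-1 : ℝ) else 0),
    fun v => -((AF2_Q P e v).card / (2 * (P.pa : ℝ))) + P.nz, ?_, ?_, ?_⟩
  · intro u
    have h1 : ((univ : Finset V).filter (fun j => j = u)).card ≤ 1 := by
      rw [card_le_one]
      intro x hx y hy
      rw [(mem_filter.1 hx).2, (mem_filter.1 hy).2]
    exact h1.trans (Nat.one_le_pow _ _ (by omega))
  · intro v _
    exact AF2_test hNumL hCnt hCf hPrA P e h3 v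
  · intro ω hω v
    exact AF2_fin P e h3 v ω (hω v (mem_univ v))

end Pool.TCV
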