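import Pool.Agent.Helper3.TCV.AFx

set_option autoImplicit false

namespace Pool.TCV

open Pool.TC Pool.TCM Pool.TCS Pool.TN Finset
open scoped Classical

namespace AF3

open Pool.TCV.AFx

variable {V κ : Type} [Fintype V] [Fintype κ] {P : Par} {e : Ed V κ}

/-- the candidates of the cluster `i` -/
noncomputable def Cc (P : Par) (e : Ed V κ) (i : V) : Finset V :=
  univ.filter (fun w => e.K w = some i ∧ e.cand P w)

/-- `w` and its partners -/
noncomputable def Rr (P : Par) (e : Ed V κ) (w : V) : Finset V :=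
  insert w (univ.filter (fun u => e.cf P u w))

theorem lower (hL : NumL P) (hCnt : St_CntQ) (hCf : St_Cf) (hPrA : St_PrA) (hH : Hy3 P e)
    (i : V) (hi : e.K i = some i) :
    Tst e.G P.Lam i (fun ω : V → Fin P.pa => ∑ w ∈ Cc P e i,
      -(if (fdA P e ω).F0 w then (1 : ℝ) else 0)) (-(P.fmin * P.D)) := by
  obtain ⟨c1, c2, c3, c4, c5, c6, c7⟩ := hCf P V κ e hH
  obtain ⟨p1, p2, p3, p4⟩ := hPrA P V κ e hH
  have hX20 : (10 : ℝ) ^ 20 ≤ P.X := hL.X1
  have hX1 : (1 : ℝ) ≤ P.X := le_trans (by norm_num) hX20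
  have hX0 : (0 : ℝ) < P.X := by linarith
  have hD1 : (P.X : ℝ) ^ 1 ≤ P.D := hL.XD 1 (by norm_num)
  rw [pow_one] at hD1
  have hD0 : (0 : ℝ) < P.D := by linarith
  have ht0 : (P.t0 : ℝ) = (P.X : ℝ) ^ 4 := by
    rw [hH.nm.t0]; push_cast; ring
  have hpa : (P.pa : ℝ) = (P.X : ℝ) ^ 5 := by
    rw [hH.nm.pa]; push_cast; ring
  have hcard : ((Cc P e i).card : ℝ) ≤ 2 * P.D := by
    refine le_trans ?_ (card_Ki hH hL i)
    have : Cc P e i ⊆ e.Ki i := by
      intro w hw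
      simp only [Cc, mem_filter, mem_univ, true_and] at hw
      simp only [Gd.Ki, mem_filter, mem_univ, true_and]
      exact hw.1
    exact_mod_cast card_le_card this
  have hRr : ∀ w, ((Rr P e w).card : ℝ) ≤ 1 + 2 * P.t0 := by
    intro w
    have h1 : (Rr P e w).card ≤ (univ.filter (fun u => e.cf P u w)).card + 1 := by
      unfold Rr
      exact card_insert_le _ _
    have h2 := c3 w
    have h3 : (Rr P e w).card ≤ 1 + 2 * P.t0 := by omega
    exact_mod_cast h3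
  have hW : (1 + 2 * (P.t0 : ℝ)) ^ 2 * (2 * P.D) ≤ (P.X : ℝ) ^ 12 * P.D := by
    have h1 : (1 + 2 * (P.t0 : ℝ)) ≤ (P.X : ℝ) ^ 5 := by
      rw [ht0]
      have h4 : (1 : ℝ) ≤ (P.X : ℝ) ^ 4 := one_le_pow₀ hX1
      have h5 : (P.X : ℝ) ^ 5 = (P.X : ℝ) ^ 4 * P.X := by ring
      rw [h5]
      nlinarith
    have h2 : (1 + 2 * (P.t0 : ℝ)) ^ 2 ≤ ((P.X : ℝ) ^ 5) ^ 2 :=
      pow_le_pow_left₀ (by positivity) h1 2
    have h3 : ((P.X : ℝ) ^ 5) ^ 2 * 2 ≤ (P.X : ℝ) ^ 12 := by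
      have h6 : (P.X : ℝ) ^ 12 = ((P.X : ℝ) ^ 5) ^ 2 * (P.X * P.X) := by ring
      rw [h6]
      have h7 : (2 : ℝ) ≤ P.X * P.X := by nlinarith
      exact mul_le_mul_of_nonneg_left h7 (by positivity)
    calc (1 + 2 * (P.t0 : ℝ)) ^ 2 * (2 * P.D) ≤ ((P.X : ℝ) ^ 5) ^ 2 * (2 * P.D) :=
          mul_le_mul_of_nonneg_right h2 (by positivity)
      _ = (((P.X : ℝ) ^ 5) ^ 2 * 2) * P.D := by ring
      _ ≤ (P.X : ℝ) ^ 12 * P.D := mul_le_mul_of_nonneg_right h3 hD0.le
  refine hCnt V (Fin P.pa) V e.G (Cc P e i)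
    (fun w ω => -(if (fdA P e ω).F0 w then (1 : ℝ) else 0)) (fun _ => 1) (Rr P e)
    (1 + 2 * P.t0) ((1 + 2 * (P.t0 : ℝ)) ^ 2 * (2 * P.D)) P.Lam (-(P.fmin * P.D)) i
    ?_ ?_ ?_ ?_ ?_ ?_ ?_ ?_
  · intro j _
    exact zero_le_one
  · intro j _ ω ω'
    have h := ind_abs ((fdA P e ω').F0 j) ((fdA P e ω).F0 j)
    have h2 : -(if (fdA P e ω).F0 j then (1 : ℝ) else 0) -
        -(if (fdA P e ω').F0 j then (1 : ℝ) else 0) =
        (if (fdA P e ω').F0 j then (1 : ℝ) else 0) -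
        (if (fdA P e ω).F0 j then (1 : ℝ) else 0) := by ring
    simp only [h2]
    exact h
  · intro j _ ω ω' hω
    have h := p4 j ω ω' hω
    simp only [ind_iff h]
  · intro j hj
    simp only [Cc, mem_filter, mem_univ, true_and] at hj
    have hj2 : j ∈ ball e.G 2 i := hH.gr.loc i j hj.1
    intro x hx
    simp only [Rr, mem_insert, mem_filter, mem_univ, true_and] at hx
    rcases hx with rfl | hx
    · exact ball_mono (by norm_num) hj2
    · exact ball_mono (by norm_num) (ball_trans hj2 (c4 x j hx))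
  · intro t
    rw [Finset.sum_const, nsmul_eq_mul, mul_one]
    have h1 : (Cc P e i).filter (fun j => t ∈ Rr P e j) ⊆ Rr P e t := by
      intro x hx
      simp only [mem_filter, Rr, mem_insert, mem_univ, true_and] at hx
      simp only [Rr, mem_insert, mem_filter, mem_univ, true_and]
      rcases hx.2 with h | h
      · exact Or.inl h.symm
      · exact Or.inr (c2 t x h)
    exact le_trans (by exact_mod_cast card_le_card h1) (hRr t)
  · have h1 : (∑ j ∈ Cc P e i, (1 : ℝ) * (Rr P e j).card) ≤ (2 * P.D) * (1 + 2 * P.t0) := by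
      calc (∑ j ∈ Cc P e i, (1 : ℝ) * (Rr P e j).card) ≤ ∑ _j ∈ Cc P e i, (1 + 2 * (P.t0 : ℝ)) :=
            sum_le_sum (fun j _ => by rw [one_mul]; exact hRr j)
        _ = (Cc P e i).card * (1 + 2 * (P.t0 : ℝ)) := by rw [sum_const, nsmul_eq_mul]
        _ ≤ (2 * P.D) * (1 + 2 * P.t0) := mul_le_mul_of_nonneg_right hcard (by positivity)
    calc (1 + 2 * (P.t0 : ℝ)) * (∑ j ∈ Cc P e i, (1 : ℝ) * (Rr P e j).card)
        ≤ (1 + 2 * (P.t0 : ℝ)) * ((2 * P.D) * (1 + 2 * P.t0)) :=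
          mul_le_mul_of_nonneg_left h1 (by positivity)
      _ = (1 + 2 * (P.t0 : ℝ)) ^ 2 * (2 * P.D) := by ring
      _ ≤ _ := le_refl _
  · positivity
  · have hs := sqrt_small' hL ((1 + 2 * (P.t0 : ℝ)) ^ 2 * (2 * P.D)) (by positivity) hW
    have hm : (∑ j ∈ Cc P e i, mean (fun ω : V → Fin P.pa =>
        -(if (fdA P e ω).F0 j then (1 : ℝ) else 0))) ≤
        -((Cc P e i).card * ((1 - 1 / 10 ^ 10) / P.pa)) := by
      rw [← nsmul_eq_mul, ← smul_neg, ← sum_const]
      apply sum_le_sum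
      intro j hj
      simp only [Cc, mem_filter, mem_univ, true_and] at hj
      rw [mean_neg]
      exact neg_le_neg (p3 j hj.2)
    have hC : (P.D : ℝ) ≤ 400 * (Cc P e i).card := by exact_mod_cast c6 i hi
    have hfm : P.fmin = 1 / (500 * P.pa) := hH.nm.fmin
    rw [hfm]
    have hpa0 : (0 : ℝ) < P.pa := by rw [hpa]; positivity
    -- the numbers
    have h1 : (P.D : ℝ) / 400 * ((1 - 1 / 10 ^ 10) / P.pa) ≤
        (Cc P e i).card * ((1 - 1 / 10 ^ 10) / P.pa) := by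
      apply mul_le_mul_of_nonneg_right _ (by norm_num; positivity)
      linarith
    have h2 : (P.D : ℝ) / (P.X : ℝ) ^ 10 ≤ P.D / P.pa * (1 / 10 ^ 5) := by
      rw [hpa]
      have h5 : (P.X : ℝ) ^ 10 = (P.X : ℝ) ^ 5 * (P.X : ℝ) ^ 5 := by ring
      have h6 : (10 : ℝ) ^ 5 ≤ (P.X : ℝ) ^ 5 := pow_le_pow_left₀ (by norm_num) (le_trans (by norm_num) hX20) 5
      rw [h5, div_mul_eq_div_div, div_eq_mul_one_div (P.D / (P.X : ℝ) ^ 5)]
      apply mul_le_mul_of_nonneg_left _ (by positivity)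
      exact one_div_le_one_div_of_le (by positivity) h6
    have h3 : (P.D : ℝ) / 400 * ((1 - 1 / 10 ^ 10) / P.pa) =
        P.D / P.pa * ((1 - 1 / 10 ^ 10) / 400) := by ring
    have h4 : 1 / (500 * (P.pa : ℝ)) * P.D = P.D / P.pa * (1 / 500) := by
      field_simp
    have h5 : 0 ≤ (P.D : ℝ) / P.pa := by positivity
    rw [h4]
    have h6 : (P.D : ℝ) / P.pa * (1 / 500) + P.D / P.pa * (1 / 10 ^ 5) ≤
        P.D / P.pa * ((1 - 1 / 10 ^ 10) / 400) := by
      rw [← mul_add]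
      exact mul_le_mul_of_nonneg_left (by norm_num) h5
    linarith

theorem upper (hL : NumL P) (hCnt : St_CntQ) (_hCf : St_Cf) (hPrA : St_PrA) (hH : Hy3 P e)
    (i : V) :
    Tst e.G P.Lam i (fun ω : V → Fin P.pa => ∑ w ∈ Cc P e i,
      (if (ω w).val = 0 then (1 : ℝ) else 0)) (2 * P.D / P.pa) := by
  obtain ⟨p1, p2, p3, p4⟩ := hPrA P V κ e hH
  have hX20 : (10 : ℝ) ^ 20 ≤ P.X := hL.X1
  have hX1 : (1 : ℝ) ≤ P.X := le_trans (by norm_num) hX20
  have hX0 : (0 : ℝ) < P.X := by linarith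
  have hD1 : (P.X : ℝ) ^ 1 ≤ P.D := hL.XD 1 (by norm_num)
  rw [pow_one] at hD1
  have hD0 : (0 : ℝ) < P.D := by linarith
  have hpa : (P.pa : ℝ) = (P.X : ℝ) ^ 5 := by
    rw [hH.nm.pa]; push_cast; ring
  have hpa0 : (0 : ℝ) < P.pa := by rw [hpa]; positivity
  have hsub : Cc P e i ⊆ e.Ki i := by
    intro w hw
    simp only [Cc, mem_filter, mem_univ, true_and] at hw
    simp only [Gd.Ki, mem_filter, mem_univ, true_and]
    exact hw.1
  have hcard2 : ((Cc P e i).card : ℝ) ≤ (P.D : ℝ) + 1 + 102 * P.delta * P.D :=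
    le_trans (by exact_mod_cast card_le_card hsub) (hH.gr.k2 i)
  have hcard : ((Cc P e i).card : ℝ) ≤ 2 * P.D :=
    le_trans (by exact_mod_cast card_le_card hsub) (card_Ki hH hL i)
  have hW : (2 * (P.D : ℝ)) ≤ (P.X : ℝ) ^ 12 * P.D := by
    apply mul_le_mul_of_nonneg_right _ hD0.le
    have h4 : (P.X : ℝ) ^ 1 ≤ (P.X : ℝ) ^ 12 := pow_le_pow_right₀ hX1 (by norm_num)
    rw [pow_one] at h4
    have h5 : (2 : ℝ) ≤ P.X := le_trans (by norm_num) hX20
    linarith
  refine hCnt V (Fin P.pa) V e.G (Cc P e i)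
    (fun w ω => (if (ω w).val = 0 then (1 : ℝ) else 0)) (fun _ => 1) (fun w => {w})
    1 (2 * P.D) P.Lam (2 * P.D / P.pa) i
    ?_ ?_ ?_ ?_ ?_ ?_ ?_ ?_
  · intro j _
    exact zero_le_one
  · intro j _ ω ω'
    exact ind_abs _ _
  · intro j _ ω ω' hω
    have h := hω j (mem_singleton_self j)
    simp only [h]
  · intro j hj
    simp only [Cc, mem_filter, mem_univ, true_and] at hj
    have hj2 : j ∈ ball e.G 2 i := hH.gr.loc i j hj.1
    intro x hx
    rw [mem_singleton] at hx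
    rw [hx]
    exact ball_mono (by norm_num) hj2
  · intro t
    rw [Finset.sum_const, nsmul_eq_mul, mul_one]
    have h1 : (Cc P e i).filter (fun j => t ∈ ({j} : Finset V)) ⊆ {t} := by
      intro x hx
      simp only [mem_filter, mem_singleton] at hx
      rw [mem_singleton]
      exact hx.2.symm
    have h2 := card_le_card h1
    rw [card_singleton] at h2
    exact_mod_cast h2
  · have h1 : (∑ j ∈ Cc P e i, (1 : ℝ) * (({j} : Finset V).card : ℝ)) = (Cc P e i).card := by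
      simp
    rw [h1, one_mul]
    exact hcard
  · positivity
  · have hs := sqrt_small' hL (2 * P.D) (by positivity) hW
    have hm : (∑ j ∈ Cc P e i, mean (fun ω : V → Fin P.pa =>
        (if (ω j).val = 0 then (1 : ℝ) else 0))) = (Cc P e i).card * (1 / P.pa) := by
      rw [← nsmul_eq_mul, ← sum_const]
      apply sum_congr rfl
      intro j _
      exact p1 j
    have h3 := hL.del3
    have h4 : 102 * P.delta * P.D ≤ 102 * (1 / 10 ^ 6) * P.D := by
      have : (0 : ℝ) ≤ P.D := by positivity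
      nlinarith
    have h5 : ((Cc P e i).card : ℝ) ≤ (3 / 2) * P.D := by
      have h6 : (100 : ℝ) ≤ P.X := le_trans (by norm_num) hX20
      norm_num at h4
      linarith
    have h6 : (Cc P e i).card * (1 / (P.pa : ℝ)) ≤ (3 / 2) * P.D * (1 / (P.pa : ℝ)) :=
      mul_le_mul_of_nonneg_right h5 (by positivity)
    have h2 : (P.D : ℝ) / (P.X : ℝ) ^ 10 ≤ P.D / P.pa * (1 / 10 ^ 5) := by
      rw [hpa]
      have h5 : (P.X : ℝ) ^ 10 = (P.X : ℝ) ^ 5 * (P.X : ℝ) ^ 5 := by ring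
      have h6 : (10 : ℝ) ^ 5 ≤ (P.X : ℝ) ^ 5 := pow_le_pow_left₀ (by norm_num) (le_trans (by norm_num) hX20) 5
      rw [h5, div_mul_eq_div_div, div_eq_mul_one_div (P.D / (P.X : ℝ) ^ 5)]
      apply mul_le_mul_of_nonneg_left _ (by positivity)
      exact one_div_le_one_div_of_le (by positivity) h6
    have h7 : 0 ≤ (P.D : ℝ) / P.pa := by positivity
    rw [hm]
    have h8 : (3 / 2) * (P.D : ℝ) * (1 / (P.pa : ℝ)) = P.D / P.pa * (3 / 2) := by ring
    have h9 : 2 * (P.D : ℝ) / P.pa = P.D / P.pa * 2 := by ring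
    rw [h9]
    have h10 : (P.D : ℝ) / P.pa * (3 / 2) + P.D / P.pa * (1 / 10 ^ 5) ≤ P.D / P.pa * 2 := by
      rw [← mul_add]
      exact mul_le_mul_of_nonneg_left (by norm_num) h7
    linarith

theorem F0i_empty (hH : Hy3 P e) (ω : V → Fin P.pa) (i : V) (hi : e.K i ≠ some i) :
    (fdA P e ω).F0i i = ∅ := by
  rw [Fd.F0i, filter_eq_empty_iff]
  intro w _ hw
  exact hi (hH.gr.rt i w hw.1)

theorem F0i_eq (ω : V → Fin P.pa) (i : V) :
    (fdA P e ω).F0i i = (Cc P e i).filter (fun w => (fdA P e ω).F0 w) := by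
  ext w
  simp only [Fd.F0i, Cc, mem_filter, mem_univ, true_and]
  constructor
  · rintro ⟨h1, h2⟩
    exact ⟨⟨h1, h2.1⟩, h2⟩
  · rintro ⟨⟨h1, _⟩, h2⟩
    exact ⟨h1, h2⟩

end AF3

open AF3 AFx in
theorem thm_AF3 (hNumL : St_NumL) (_hImpA : St_ImpA) (hCnt : St_CntQ) (hCf : St_Cf)
    (hPrA : St_PrA) : St_AF3 := by
  intro P V κ _ _ e hH
  have hL := hNumL P hH.nm
  have hpa0 : (0 : ℝ) < P.pa := by exact_mod_cast hL.pa0
  refine ⟨V × Bool, (univ : Finset (V × Bool)).filter (fun j => e.K j.1 = some j.1),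
    fun j => j.1,
    fun j ω => if j.2 then ∑ w ∈ Cc P e j.1, (if (ω w).val = 0 then (1 : ℝ) else 0)
      else ∑ w ∈ Cc P e j.1, -(if (fdA P e ω).F0 w then (1 : ℝ) else 0),
    fun j => if j.2 then 2 * P.D / P.pa else -(P.fmin * P.D), ?_, ?_, ?_⟩
  · intro u
    have h1 : ((univ : Finset (V × Bool)).filter (fun j => e.K j.1 = some j.1)).filter
        (fun j => j.1 = u) ⊆ ({(u, true), (u, false)} : Finset (V × Bool)) := by
      intro j hj
      simp only [mem_filter, mem_univ, true_and] at hj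
      obtain ⟨a, b⟩ := j
      have hau : a = u := hj.2
      subst hau
      cases b <;> simp
    have h2 := (card_le_card h1).trans card_le_two
    have h3 : 2 ^ 10 ≤ (P.D + 2) ^ 10 := Nat.pow_le_pow_left (by omega) 10
    have h4 : (2 : ℕ) ≤ 2 ^ 10 := by norm_num
    exact h2.trans (h4.trans h3)
  · rintro ⟨i, b⟩ hj
    simp only [mem_filter, mem_univ, true_and] at hj
    cases b
    · have h := lower hL hCnt hCf hPrA hH i hj
      simpa using h
    · have h := upper hL hCnt hCf hPrA hH i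
      simpa using h
  · intro ω hω
    have hlow : ∀ i, e.K i = some i → P.fmin * P.D ≤ ((fdA P e ω).F0i i).card := by
      intro i hi
      have h := hω (i, false) (by simp only [mem_filter, mem_univ, true_and]; exact hi)
      have h2 : (∑ w ∈ Cc P e i, -(if (fdA P e ω).F0 w then (1 : ℝ) else 0)) ≤
          -(P.fmin * P.D) := by simpa using h
      rw [sum_neg_distrib, sum_ind_card, ← F0i_eq] at h2
      linarith
    refine ⟨hlow, ?_⟩
    intro i
    by_cases hi : e.K i = some i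
    · have h := hω (i, true) (by simp only [mem_filter, mem_univ, true_and]; exact hi)
      have h2 : (∑ w ∈ Cc P e i, (if (ω w).val = 0 then (1 : ℝ) else 0)) ≤
          2 * P.D / P.pa := by simpa using h
      rw [sum_ind_card] at h2
      have h3 : (fdA P e ω).F0i i ⊆ (Cc P e i).filter (fun w => (ω w).val = 0) := by
        rw [F0i_eq]
        intro w hw
        rw [mem_filter] at hw ⊢
        exact ⟨hw.1, hw.2.2.1⟩
      have h4 : (((fdA P e ω).F0i i).card : ℝ) ≤ 2 * P.D / P.pa :=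
        le_trans (by exact_mod_cast card_le_card h3) h2
      rw [le_div_iff₀ hpa0] at h4
      have h5 : ((P.pa * ((fdA P e ω).F0i i).card : ℕ) : ℝ) ≤ ((2 * P.D : ℕ) : ℝ) := by
        push_cast
        linarith
      exact_mod_cast h5
    · rw [F0i_empty hH ω i hi, card_empty, mul_zero]
      exact Nat.zero_le _

end Pool.TCV
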