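import Pool.Agent.Helper3.TCV.AFx

set_option autoImplicit false

namespace Pool.TCV

open Pool.TC Pool.TCM Pool.TCS Pool.TN Finset
open scoped Classical

namespace AF4

open Pool.TCV.AFx

variable {V κ : Type} [Fintype V] [Fintype κ] {P : Par} {e : Ed V κ}

/-- the candidates of colour `a` outside of the cluster `i` with a neighbour in it -/
noncomputable def Cx (P : Par) (e : Ed V κ) (i : V) (a : κ) : Finset V :=
  univ.filter (fun x => e.cand P x ∧ e.K x ≠ some i ∧ e.m x = a ∧ 0 < e.dk i x)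

theorem sum_dk (hL : NumL P) (hCf : St_Cf) (hH : Hy3 P e) (i : V) (a : κ) :
    (∑ x ∈ Cx P e i a, (e.dk i x : ℝ)) ≤ P.t0 * (2 * P.D) := by
  obtain ⟨c1, c2, c3, c4, c5, c6, c7⟩ := hCf P V κ e hH
  by_cases ha : a ∈ e.J1
  · have h1 : (∑ x ∈ Cx P e i a, e.dk i x) ≤ P.t0 * (e.Ki i).card := by
      have h2 : (∑ x ∈ Cx P e i a, e.dk i x) =
          ∑ x ∈ Cx P e i a, ((e.Ki i).filter (fun v => e.G.Adj x v)).card := by
        apply sum_congr rfl
        intro x _
        unfold Gd.dk Gd.Ki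
        congr 1
        ext v
        simp only [mem_filter, mem_nb, mem_univ, true_and]
        exact and_comm
      have h3 : (∑ x ∈ Cx P e i a, ((e.Ki i).filter (fun v => e.G.Adj x v)).card) =
          ∑ v ∈ e.Ki i, ((Cx P e i a).filter (fun x => e.G.Adj x v)).card :=
        Finset.sum_card_bipartiteAbove_eq_sum_card_bipartiteBelow (fun x v => e.G.Adj x v)
      rw [h2, h3]
      calc (∑ v ∈ e.Ki i, ((Cx P e i a).filter (fun x => e.G.Adj x v)).card)
          ≤ ∑ _v ∈ e.Ki i, P.t0 := by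
            apply sum_le_sum
            intro v _
            refine le_trans (card_le_card ?_) (hH.ed.r3 v a ha)
            intro x hx
            simp only [Cx, mem_filter, mem_univ, true_and] at hx
            simp only [mem_filter, mem_nb]
            exact ⟨hx.2.symm, hx.1.2.2.1⟩
        _ = P.t0 * (e.Ki i).card := by rw [sum_const, smul_eq_mul, mul_comm]
    have h4 : ((∑ x ∈ Cx P e i a, e.dk i x : ℕ) : ℝ) ≤ ((P.t0 * (e.Ki i).card : ℕ) : ℝ) := by
      exact_mod_cast h1
    push_cast at h4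
    refine le_trans h4 ?_
    exact mul_le_mul_of_nonneg_left (card_Ki hH hL i) (by positivity)
  · have h1 : Cx P e i a = ∅ := by
      rw [Cx, filter_eq_empty_iff]
      intro x _ hx
      apply ha
      rw [← hx.2.2.1]
      exact c1 x hx.1
    rw [h1, sum_empty]
    positivity

theorem tst (hL : NumL P) (hCnt : St_CntQ) (hCf : St_Cf) (hPrA : St_PrA) (hH : Hy3 P e)
    (i : V) (a : κ) :
    Tst e.G P.Lam i (fun ω : V → Fin P.pa => ∑ x ∈ Cx P e i a,
      (e.dk i x : ℝ) * (if (ω x).val = 0 then (1 : ℝ) else 0)) (P.D / 1000) := by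
  obtain ⟨c1, c2, c3, c4, c5, c6, c7⟩ := hCf P V κ e hH
  obtain ⟨p1, p2, p3, p4⟩ := hPrA P V κ e hH
  have hX20 : (10 : ℝ) ^ 20 ≤ P.X := hL.X1
  have hX1 : (1 : ℝ) ≤ P.X := le_trans (by norm_num) hX20
  have hX0 : (0 : ℝ) < P.X := by linarith
  have hD1 : (P.X : ℝ) ^ 1 ≤ P.D := hL.XD 1 (by norm_num)
  rw [pow_one] at hD1
  have hD0 : (0 : ℝ) < P.D := by linarith
  have ht0 : (P.t0 : ℝ) = (P.X : ℝ) ^ 4 := by
    rw [hH.nm.t0]; push_cast; ring
  have hpa : (P.pa : ℝ) = (P.X : ℝ) ^ 5 := by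
    rw [hH.nm.pa]; push_cast; ring
  have hLam : P.Lam = (P.X : ℝ) ^ 3 := hH.nm.Lam
  have hpa0 : (0 : ℝ) < P.pa := by rw [hpa]; positivity
  have heta := hL.eta0
  have hsum := sum_dk hL hCf hH i a
  have hdk : ∀ x ∈ Cx P e i a, (e.dk i x : ℝ) ≤ P.eta * P.D := by
    intro x hx
    simp only [Cx, mem_filter, mem_univ, true_and] at hx
    exact c5 i x hx.1 hx.2.1
  refine hCnt V (Fin P.pa) V e.G (Cx P e i a)
    (fun x ω => (e.dk i x : ℝ) * (if (ω x).val = 0 then (1 : ℝ) else 0))
    (fun x => (e.dk i x : ℝ)) (fun w => {w})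
    (P.eta * P.D) (P.eta * P.D * (P.t0 * (2 * P.D))) P.Lam (P.D / 1000) i
    ?_ ?_ ?_ ?_ ?_ ?_ ?_ ?_
  · intro j _
    positivity
  · intro j _ ω ω'
    have h := ind_abs ((ω j).val = 0) ((ω' j).val = 0)
    have h2 : (e.dk i j : ℝ) * (if (ω j).val = 0 then (1 : ℝ) else 0) -
        (e.dk i j : ℝ) * (if (ω' j).val = 0 then (1 : ℝ) else 0) =
        (e.dk i j : ℝ) * ((if (ω j).val = 0 then (1 : ℝ) else 0) -
        (if (ω' j).val = 0 then (1 : ℝ) else 0)) := by ring
    simp only [h2]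
    rw [abs_mul, abs_of_nonneg (Nat.cast_nonneg _)]
    calc (e.dk i j : ℝ) * |(if (ω j).val = 0 then (1 : ℝ) else 0) -
        (if (ω' j).val = 0 then (1 : ℝ) else 0)| ≤ (e.dk i j : ℝ) * 1 :=
          mul_le_mul_of_nonneg_left h (Nat.cast_nonneg _)
      _ = _ := mul_one _
  · intro j _ ω ω' hω
    have h := hω j (mem_singleton_self j)
    simp only [h]
  · intro j hj
    simp only [Cx, mem_filter, mem_univ, true_and] at hj
    have h1 : 0 < ((nb e.G j).filter (fun v => e.K v = some i)).card := hj.2.2.2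
    obtain ⟨v, hv⟩ := card_pos.1 h1
    rw [mem_filter, mem_nb] at hv
    have hv2 : v ∈ ball e.G 2 i := hH.gr.loc i v hv.2
    intro x hx
    rw [mem_singleton] at hx
    rw [hx]
    exact ball_mono (by norm_num) (ball_trans hv2 (adj_mem_ball hv.1.symm))
  · intro t
    by_cases ht : t ∈ Cx P e i a
    · have h1 : (Cx P e i a).filter (fun j => t ∈ ({j} : Finset V)) = {t} := by
        ext j
        simp only [mem_filter, mem_singleton]
        constructor
        · rintro ⟨_, h2⟩
          exact h2.symm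
        · intro h2
          rw [h2]
          exact ⟨ht, rfl⟩
      rw [h1, sum_singleton]
      exact hdk t ht
    · have h1 : (Cx P e i a).filter (fun j => t ∈ ({j} : Finset V)) = ∅ := by
        rw [filter_eq_empty_iff]
        intro j hj h2
        rw [mem_singleton] at h2
        rw [h2] at ht
        exact ht hj
      rw [h1, sum_empty]
      positivity
  · have h1 : (∑ j ∈ Cx P e i a, (e.dk i j : ℝ) * (({j} : Finset V).card : ℝ)) =
        ∑ j ∈ Cx P e i a, (e.dk i j : ℝ) := by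
      apply sum_congr rfl
      intro j _
      rw [card_singleton, Nat.cast_one, mul_one]
    rw [h1]
    exact mul_le_mul_of_nonneg_left hsum (by positivity)
  · rw [ht0]
    positivity
  · have hm : (∑ j ∈ Cx P e i a, mean (fun ω : V → Fin P.pa =>
        (e.dk i j : ℝ) * (if (ω j).val = 0 then (1 : ℝ) else 0))) ≤
        P.t0 * (2 * P.D) * (1 / P.pa) := by
      have h2 : (∑ j ∈ Cx P e i a, mean (fun ω : V → Fin P.pa =>
          (e.dk i j : ℝ) * (if (ω j).val = 0 then (1 : ℝ) else 0))) =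
          ∑ j ∈ Cx P e i a, (e.dk i j : ℝ) * (1 / P.pa) := by
        apply sum_congr rfl
        intro j _
        rw [mean_smul, p1 j]
      rw [h2, ← sum_mul]
      exact mul_le_mul_of_nonneg_right hsum (by positivity)
    have h3 : (P.t0 : ℝ) * (2 * P.D) * (1 / P.pa) = P.D * (2 / P.X) := by
      rw [ht0, hpa]
      field_simp
    have h4 : (P.D : ℝ) * (2 / P.X) ≤ P.D * (1 / 10000) := by
      apply mul_le_mul_of_nonneg_left _ hD0.le
      rw [div_le_div_iff₀ hX0 (by norm_num)]
      have : (10 : ℝ) ^ 5 ≤ P.X := le_trans (by norm_num) hX20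
      linarith
    have h5 : Real.sqrt (2 * (P.eta * P.D * (P.t0 * (2 * P.D))) * P.Lam) ≤ P.D * (1 / 10000) := by
      apply Real.sqrt_le_iff.2
      refine ⟨by positivity, ?_⟩
      rw [ht0, hLam]
      have h6 : 2 * (P.eta * (P.D : ℝ) * ((P.X : ℝ) ^ 4 * (2 * P.D))) * (P.X : ℝ) ^ 3 =
          (P.D : ℝ) ^ 2 * (4 * ((P.X : ℝ) ^ 7 * P.eta)) := by ring
      have h7 : ((P.D : ℝ) * (1 / 10000)) ^ 2 = (P.D : ℝ) ^ 2 * (1 / 10 ^ 8) := by ring
      rw [h6, h7]
      apply mul_le_mul_of_nonneg_left _ (by positivity)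
      have h8 : (P.X : ℝ) ^ 8 * P.eta ≤ 1 := by
        refine le_trans ?_ hL.eta1
        apply mul_le_mul_of_nonneg_right _ heta.le
        exact pow_le_pow_right₀ hX1 (by norm_num)
      have h9 : (P.X : ℝ) ^ 8 * P.eta = P.X * ((P.X : ℝ) ^ 7 * P.eta) := by ring
      rw [h9] at h8
      have h10 : (10 : ℝ) ^ 20 * ((P.X : ℝ) ^ 7 * P.eta) ≤ 1 := by
        refine le_trans ?_ h8
        exact mul_le_mul_of_nonneg_right hX20 (by positivity)
      norm_num at h10 ⊢
      linarith
    rw [h3] at hm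
    linarith

theorem dk_zero (hH : Hy3 P e) (i : V) (hi : e.K i ≠ some i) (x : V) : e.dk i x = 0 := by
  rw [Gd.dk, card_eq_zero, filter_eq_empty_iff]
  intro v _ hv
  exact hi (hH.gr.rt i v hv)

/-- f4' from f4 -/
theorem FB_le (ω : V → Fin P.pa) (i : V) (a : κ) : ((fdA P e ω).FB i a).card ≤
    ∑ x ∈ univ.filter (fun x => (fdA P e ω).F0 x ∧ e.K x ≠ some i ∧ e.m x = a), e.dk i x := by
  have h1 : (fdA P e ω).FB i a ⊆
      (univ.filter (fun x => (fdA P e ω).F0 x ∧ e.K x ≠ some i ∧ e.m x = a)).biUnion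
        (fun x => (nb e.G x).filter (fun v => e.K v = some i)) := by
    intro w hw
    simp only [Fd.FB, mem_filter, mem_univ, true_and] at hw
    obtain ⟨hw1, x, hx1, hx2, hx3, hx4⟩ := hw
    rw [mem_biUnion]
    refine ⟨x, ?_, ?_⟩
    · simp only [mem_filter, mem_univ, true_and]
      exact ⟨hx1, hx2, hx4⟩
    · rw [mem_filter, mem_nb]
      exact ⟨hx3, hw1⟩
  exact (card_le_card h1).trans card_biUnion_le

end AF4

open AF4 AFx in
theorem thm_AF4 (hNumL : St_NumL) (hCnt : St_CntQ) (hCf : St_Cf) (hPrA : St_PrA) : St_AF4 := by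
  intro P V κ _ _ e hH
  have hL := hNumL P hH.nm
  refine ⟨V × κ, univ, fun j => j.1,
    fun j ω => ∑ x ∈ Cx P e j.1 j.2,
      (e.dk j.1 x : ℝ) * (if (ω x).val = 0 then (1 : ℝ) else 0),
    fun _ => P.D / 1000, ?_, ?_, ?_⟩
  · intro u
    have h1 : ((univ : Finset (V × κ)).filter (fun j => j.1 = u)).card ≤ Fintype.card κ := by
      have h2 : ((univ : Finset (V × κ)).filter (fun j => j.1 = u)) =
          ({u} : Finset V) ×ˢ (univ : Finset κ) := by
        ext j
        simp only [mem_filter, mem_univ, true_and, mem_product, mem_singleton, and_true]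
      rw [h2, card_product, card_singleton, one_mul, card_univ]
    refine h1.trans ?_
    rw [hH.ed.col]
    calc P.D + 1 ≤ P.D + 2 := by omega
      _ = (P.D + 2) ^ 1 := (pow_one _).symm
      _ ≤ (P.D + 2) ^ 10 := Nat.pow_le_pow_right (by omega) (by norm_num)
  · rintro ⟨i, a⟩ _
    exact tst hL hCnt hCf hPrA hH i a
  · intro ω hω
    have hf4 : ∀ i a, 1000 * (∑ x ∈ univ.filter (fun x => (fdA P e ω).F0 x ∧ e.K x ≠ some i ∧
        e.m x = a), e.dk i x) ≤ P.D := by
      intro i a
      have h := hω (i, a) (mem_univ _)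
      have h1 : (∑ x ∈ Cx P e i a,
        (e.dk i x : ℝ) * (if (ω x).val = 0 then (1 : ℝ) else 0)) ≤ P.D / 1000 := h
      have h2 : ((∑ x ∈ univ.filter (fun x => (fdA P e ω).F0 x ∧ e.K x ≠ some i ∧
          e.m x = a), e.dk i x : ℕ) : ℝ) ≤ ∑ x ∈ Cx P e i a,
          (e.dk i x : ℝ) * (if (ω x).val = 0 then (1 : ℝ) else 0) := by
        obtain ⟨S, hS⟩ : ∃ S, S = univ.filter (fun x => (fdA P e ω).F0 x ∧ e.K x ≠ some i ∧
          e.m x = a) := ⟨_, rfl⟩
        rw [← hS]
        have h3 : (∑ x ∈ S, e.dk i x) = ∑ x ∈ S.filter (fun x => 0 < e.dk i x), e.dk i x := by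
          rw [sum_filter]
          apply sum_congr rfl
          intro x _
          split_ifs with h
          · rfl
          · omega
        rw [h3]
        push_cast
        have h4 : (∑ x ∈ S.filter (fun x => 0 < e.dk i x), (e.dk i x : ℝ)) =
            ∑ x ∈ S.filter (fun x => 0 < e.dk i x),
              (e.dk i x : ℝ) * (if (ω x).val = 0 then (1 : ℝ) else 0) := by
          apply sum_congr rfl
          intro x hx
          rw [hS] at hx
          simp only [mem_filter, mem_univ, true_and] at hx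
          rw [if_pos hx.1.1.2.1, mul_one]
        rw [h4]
        apply sum_le_sum_of_subset_of_nonneg
        · intro x hx
          rw [hS] at hx
          simp only [mem_filter, mem_univ, true_and] at hx
          simp only [Cx, mem_filter, mem_univ, true_and]
          exact ⟨hx.1.1.1, hx.1.2.1, hx.1.2.2, hx.2⟩
        · intro x _ _
          exact mul_nonneg (Nat.cast_nonneg _) (ind_nonneg _)
      have h5 := h2.trans h1
      have h6 : ((1000 * (∑ x ∈ univ.filter (fun x => (fdA P e ω).F0 x ∧ e.K x ≠ some i ∧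
          e.m x = a), e.dk i x) : ℕ) : ℝ) ≤ ((P.D : ℕ) : ℝ) := by
        rw [Nat.cast_mul]
        have h7 : ((1000 : ℕ) : ℝ) = 1000 := by norm_num
        rw [h7]
        linarith
      exact_mod_cast h6
    refine ⟨hf4, ?_⟩
    intro i a
    exact (Nat.mul_le_mul_left 1000 (FB_le ω i a)).trans (hf4 i a)

end Pool.TCV
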