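import Pool.Agent.Helper3.TCV.AFx

set_option autoImplicit false

namespace Pool.TCV

open Pool.TC Pool.TCM Pool.TCS Pool.TN Finset
open scoped Classical

namespace AF5

open Pool.TCV.AFx

variable {V κ : Type} [Fintype V] [Fintype κ] {P : Par} {e : Ed V κ}

/-- the candidates `w` of the cluster `i`, `w = N_a v ≠ v`, `a ∈ Q` -/
noncomputable def Y1 (P : Par) (e : Ed V κ) (i v : V) : Finset V :=
  univ.filter (fun w => e.K w = some i ∧ e.cand P w ∧ w ≠ v ∧ ∃ a ∈ e.Q, e.E.N a v = w)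

/-- the pairs of candidates -/
noncomputable def Y2 (P : Par) (e : Ed V κ) (i v : V) : Finset (V × V) :=
  univ.filter (fun p => p.1 ≠ p.2 ∧ e.K p.1 = some i ∧ e.cand P p.1 ∧ e.K p.2 = some i ∧
    e.cand P p.2 ∧ p.1 ≠ v ∧ e.E.N (e.m p.2) v = p.1)

theorem card_Y1 (hL : NumL P) (hH : Hy3 P e) (i v : V) :
    ((Y1 P e i v).card : ℝ) ≤ P.rho * P.D := by
  have h1 : Y1 P e i v ⊆ e.Q.image (fun a => e.E.N a v) := by
    intro w hw
    simp only [Y1, mem_filter, mem_univ, true_and] at hw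
    obtain ⟨_, _, _, a, ha, h⟩ := hw
    exact mem_image.2 ⟨a, ha, h⟩
  have h2 := (card_le_card h1).trans card_image_le
  rw [hH.ed.q2] at h2
  exact le_trans (by exact_mod_cast h2) hL.rhoQ.2

/-- for a given first entry -/
theorem fst_Y2 (hCf : St_Cf) (hH : Hy3 P e) (i v w : V) :
    ((Y2 P e i v).filter (fun p => p.1 = w)).card ≤ P.t0 := by
  obtain ⟨c1, c2, c3, c4, c5, c6, c7⟩ := hCf P V κ e hH
  by_cases hne : ((Y2 P e i v).filter (fun p => p.1 = w)).Nonempty
  · obtain ⟨q, hq⟩ := hne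
    simp only [Y2, mem_filter, mem_univ, true_and] at hq
    obtain ⟨⟨q1, q2, q3, q4, q5, q6, q7⟩, q8⟩ := hq
    refine le_trans ?_ (c7 i (e.m q.2))
    refine card_le_card_of_injOn (fun p => p.2) ?_ ?_
    · intro p hp
      simp only [Y2, coe_filter, mem_filter, mem_univ, true_and, Set.mem_ofPred_eq] at hp
      obtain ⟨⟨p1, p2, p3, p4, p5, p6, p7⟩, p8⟩ := hp
      simp only [coe_filter, mem_univ, true_and, Set.mem_ofPred_eq]
      refine ⟨p4, p5, ?_⟩
      apply e.E.uniq (e.m p.2) (e.m q.2) v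
      · rw [p7, q7, p8, q8]
      · rw [p7]
        exact p6
    · intro p hp p' hp' h
      simp only [coe_filter, mem_filter, mem_univ, true_and, Set.mem_ofPred_eq] at hp hp'
      have h2 : p.1 = p'.1 := by rw [hp.2, hp'.2]
      exact Prod.ext h2 h
  · rw [not_nonempty_iff_eq_empty] at hne
    rw [hne, card_empty]
    exact Nat.zero_le _

theorem snd_Y2 (i v w : V) : ((Y2 P e i v).filter (fun p => p.2 = w)).card ≤ 1 := by
  rw [card_le_one]
  intro p hp q hq
  simp only [Y2, mem_filter, mem_univ, true_and] at hp hq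
  have h2 : p.2 = q.2 := by rw [hp.2, hq.2]
  have h1 : p.1 = q.1 := by
    rw [← hp.1.2.2.2.2.2.2, ← hq.1.2.2.2.2.2.2, h2]
  exact Prod.ext h1 h2

theorem card_Y2 (hCf : St_Cf) (hH : Hy3 P e) (i v : V) :
    (Y2 P e i v).card ≤ P.t0 * P.D := by
  have h1 : (Y2 P e i v).card ≤ P.t0 * ((Y2 P e i v).image Prod.fst).card := by
    apply card_le_mul_card_image
    intro w _
    exact fst_Y2 hCf hH i v w
  refine h1.trans (Nat.mul_le_mul_left _ ?_)
  rw [← hH.gr.reg v]
  apply card_le_card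
  intro w hw
  rw [mem_image] at hw
  obtain ⟨p, hp, hpw⟩ := hw
  simp only [Y2, mem_filter, mem_univ, true_and] at hp
  obtain ⟨p1, p2, p3, p4, p5, p6, p7⟩ := hp
  rw [mem_nb, ← hpw, ← p7]
  apply hH.ed.sub
  rw [p7]
  exact p6

theorem tst (hL : NumL P) (hCnt : St_CntQ) (hCf : St_Cf) (hPrA : St_PrA) (hH : Hy3 P e)
    (i v : V) (hv : v ∈ e.Rg P i) :
    Tst e.G P.Lam v (fun ω : V → Fin P.pa =>
      ∑ j ∈ (Y1 P e i v).disjSum (Y2 P e i v),
        (if ∀ t ∈ Sum.elim (fun w => ({w} : Finset V)) (fun p => ({p.1, p.2} : Finset V)) j,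
          (ω t).val = 0 then (1 : ℝ) else 0)) (P.fmin * P.D / 8) := by
  obtain ⟨p1, p2, p3, p4⟩ := hPrA P V κ e hH
  have hX20 : (10 : ℝ) ^ 20 ≤ P.X := hL.X1
  have hX1 : (1 : ℝ) ≤ P.X := le_trans (by norm_num) hX20
  have hX0 : (0 : ℝ) < P.X := by linarith
  have hD1 : (P.X : ℝ) ^ 1 ≤ P.D := hL.XD 1 (by norm_num)
  rw [pow_one] at hD1
  have hD0 : (0 : ℝ) < P.D := by linarith
  have ht0 : (P.t0 : ℝ) = (P.X : ℝ) ^ 4 := by
    rw [hH.nm.t0]; push_cast; ring
  have hpa : (P.pa : ℝ) = (P.X : ℝ) ^ 5 := by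
    rw [hH.nm.pa]; push_cast; ring
  have hpa0 : (0 : ℝ) < P.pa := by rw [hpa]; positivity
  have hKv : e.K v = some i := by
    simp only [Gd.Rg, mem_filter, mem_univ, true_and] at hv
    exact hv.1
  have hy1 := card_Y1 hL hH i v
  have hy2 : ((Y2 P e i v).card : ℝ) ≤ P.t0 * P.D := by exact_mod_cast card_Y2 hCf hH i v
  have hrho0 := hL.rho0
  have hrho : P.rho * (P.X : ℝ) ^ 13 = 1 := by rw [mul_comm]; exact hL.rho1
  have hrho1 : P.rho ≤ 1 := by
    have h1 : (1 : ℝ) ≤ (P.X : ℝ) ^ 13 := one_le_pow₀ hX1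
    nlinarith
  have hX4 : (1 : ℝ) ≤ (P.X : ℝ) ^ 4 := one_le_pow₀ hX1
  -- the two coordinates
  obtain ⟨R, hR⟩ : ∃ R : V ⊕ (V × V) → Finset V,
      R = Sum.elim (fun w => ({w} : Finset V)) (fun p => ({p.1, p.2} : Finset V)) := ⟨_, rfl⟩
  have hRl : ∀ w, R (Sum.inl w) = {w} := by intro w; rw [hR]; rfl
  have hRr : ∀ p : V × V, R (Sum.inr p) = {p.1, p.2} := by intro p; rw [hR]; rfl
  have hRc : ∀ j, ((R j).card : ℝ) ≤ 2 := by
    intro j
    rcases j with w | p
    · rw [hRl, card_singleton]; norm_num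
    · rw [hRr]
      have h := card_le_two (a := p.1) (b := p.2)
      exact_mod_cast h
  have hWc : (2 + (P.t0 : ℝ)) * (2 * (P.D + P.t0 * P.D)) ≤ (P.X : ℝ) ^ 12 * P.D := by
    rw [ht0]
    have h1 : (2 + (P.X : ℝ) ^ 4) ≤ 3 * (P.X : ℝ) ^ 4 := by linarith
    have h2 : 2 * ((P.D : ℝ) + (P.X : ℝ) ^ 4 * P.D) ≤ 4 * (P.X : ℝ) ^ 4 * P.D := by nlinarith
    calc (2 + (P.X : ℝ) ^ 4) * (2 * (P.D + (P.X : ℝ) ^ 4 * P.D))
        ≤ (3 * (P.X : ℝ) ^ 4) * (4 * (P.X : ℝ) ^ 4 * P.D) :=
          mul_le_mul h1 h2 (by positivity) (by positivity)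
      _ = (12 * (P.X : ℝ) ^ 8) * P.D := by ring
      _ ≤ (P.X : ℝ) ^ 12 * P.D := by
        apply mul_le_mul_of_nonneg_right _ hD0.le
        have h3 : (P.X : ℝ) ^ 12 = (P.X : ℝ) ^ 4 * (P.X : ℝ) ^ 8 := by ring
        rw [h3]
        apply mul_le_mul_of_nonneg_right _ (by positivity)
        have h4 : (P.X : ℝ) ^ 1 ≤ (P.X : ℝ) ^ 4 := pow_le_pow_right₀ hX1 (by norm_num)
        rw [pow_one] at h4
        have h5 : (12 : ℝ) ≤ P.X := le_trans (by norm_num) hX20
        linarith
  rw [← hR]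
  refine hCnt V (Fin P.pa) (V ⊕ (V × V)) e.G ((Y1 P e i v).disjSum (Y2 P e i v))
    (fun j ω => if ∀ t ∈ R j, (ω t).val = 0 then (1 : ℝ) else 0) (fun _ => 1) R
    (2 + P.t0) ((2 + P.t0) * (2 * (P.D + P.t0 * P.D))) P.Lam (P.fmin * P.D / 8) v
    ?_ ?_ ?_ ?_ ?_ ?_ ?_ ?_
  · intro j _
    exact zero_le_one
  · intro j _ ω ω'
    exact ind_abs _ _
  · intro j _ ω ω' hω
    apply ind_iff
    constructor
    · intro h t ht
      rw [← hω t ht]
      exact h t ht
    · intro h t ht
      rw [hω t ht]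
      exact h t ht
  · intro j hj
    have hiv : i ∈ ball e.G 2 v := ball_symm (hH.gr.loc i v hKv)
    have hin : ∀ w, e.K w = some i → w ∈ ball e.G 8 v := by
      intro w hw
      exact ball_mono (by norm_num) (ball_trans hiv (hH.gr.loc i w hw))
    rcases j with w | p
    · rw [inl_mem_disjSum] at hj
      simp only [Y1, mem_filter, mem_univ, true_and] at hj
      rw [hRl]
      intro x hx
      rw [mem_singleton] at hx
      rw [hx]
      exact hin w hj.1
    · rw [inr_mem_disjSum] at hj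
      simp only [Y2, mem_filter, mem_univ, true_and] at hj
      rw [hRr]
      intro x hx
      rw [mem_insert, mem_singleton] at hx
      rcases hx with h | h
      · rw [h]
        exact hin _ hj.2.1
      · rw [h]
        exact hin _ hj.2.2.2.1
  · intro t
    rw [Finset.sum_const, nsmul_eq_mul, mul_one]
    have h1 : ((Y1 P e i v).disjSum (Y2 P e i v)).filter (fun j => t ∈ R j) ⊆
        ({t} : Finset V).disjSum ((Y2 P e i v).filter (fun p => p.1 = t) ∪
          (Y2 P e i v).filter (fun p => p.2 = t)) := by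
      intro j hj
      rw [mem_filter] at hj
      rcases j with w | p
      · rw [hRl, mem_singleton] at hj
        rw [inl_mem_disjSum, mem_singleton]
        exact hj.2.symm
      · rw [hRr, inr_mem_disjSum, mem_insert, mem_singleton] at hj
        rw [inr_mem_disjSum, mem_union, mem_filter, mem_filter]
        rcases hj.2 with h | h
        · exact Or.inl ⟨hj.1, h.symm⟩
        · exact Or.inr ⟨hj.1, h.symm⟩
    have h2 := card_le_card h1
    rw [card_disjSum, card_singleton] at h2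
    have h3 := card_union_le ((Y2 P e i v).filter (fun p => p.1 = t))
      ((Y2 P e i v).filter (fun p => p.2 = t))
    have h4 := fst_Y2 hCf hH i v t
    have h5 := snd_Y2 (P := P) (e := e) i v t
    have h6 : (((Y1 P e i v).disjSum (Y2 P e i v)).filter (fun j => t ∈ R j)).card ≤
      2 + P.t0 := by omega
    exact_mod_cast h6
  · have h1 : (∑ j ∈ (Y1 P e i v).disjSum (Y2 P e i v), (1 : ℝ) * ((R j).card : ℝ)) ≤
        2 * (P.D + P.t0 * P.D) := by
      calc (∑ j ∈ (Y1 P e i v).disjSum (Y2 P e i v), (1 : ℝ) * ((R j).card : ℝ))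
          ≤ ∑ _j ∈ (Y1 P e i v).disjSum (Y2 P e i v), (2 : ℝ) :=
            sum_le_sum (fun j _ => by rw [one_mul]; exact hRc j)
        _ = (((Y1 P e i v).card : ℝ) + (Y2 P e i v).card) * 2 := by
            rw [sum_const, nsmul_eq_mul, card_disjSum, Nat.cast_add]
        _ ≤ 2 * (P.D + P.t0 * P.D) := by
            have h2 : P.rho * P.D ≤ P.D := by nlinarith
            linarith
    exact mul_le_mul_of_nonneg_left h1 (by positivity)
  · rw [ht0]
    positivity
  · have hs := sqrt_small' hL ((2 + P.t0) * (2 * (P.D + P.t0 * P.D))) (by positivity) hWc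
    have hm : (∑ j ∈ (Y1 P e i v).disjSum (Y2 P e i v), mean (fun ω : V → Fin P.pa =>
        if ∀ t ∈ R j, (ω t).val = 0 then (1 : ℝ) else 0)) =
        (Y1 P e i v).card * (1 / P.pa) + (Y2 P e i v).card * (1 / (P.pa : ℝ) ^ 2) := by
      rw [sum_disjSum]
      congr 1
      · rw [← nsmul_eq_mul, ← sum_const]
        apply sum_congr rfl
        intro w _
        rw [← p1 w]
        congr 1
        funext ω
        apply ind_iff
        rw [hRl]
        simp only [mem_singleton, forall_eq]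
      · rw [← nsmul_eq_mul, ← sum_const]
        apply sum_congr rfl
        intro p hp
        simp only [Y2, mem_filter, mem_univ, true_and] at hp
        rw [← p2 p.1 p.2 hp.1]
        congr 1
        funext ω
        apply ind_iff
        rw [hRr]
        simp only [mem_insert, mem_singleton, forall_eq_or_imp, forall_eq]
    rw [hm]
    have hfm : P.fmin = 1 / (500 * P.pa) := hH.nm.fmin
    rw [hfm]
    have h1 : ((Y1 P e i v).card : ℝ) * (1 / P.pa) ≤ P.rho * P.D * (1 / P.pa) :=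
      mul_le_mul_of_nonneg_right hy1 (by positivity)
    have h2 : ((Y2 P e i v).card : ℝ) * (1 / (P.pa : ℝ) ^ 2) ≤
        P.t0 * P.D * (1 / (P.pa : ℝ) ^ 2) :=
      mul_le_mul_of_nonneg_right hy2 (by positivity)
    have h3 : (P.t0 : ℝ) * P.D * (1 / (P.pa : ℝ) ^ 2) = P.D / P.pa * (1 / P.X) := by
      rw [ht0, hpa]
      field_simp
    have h4 : P.rho * P.D * (1 / (P.pa : ℝ)) = P.D / P.pa * P.rho := by ring
    have h5 : 1 / (500 * (P.pa : ℝ)) * P.D / 8 = P.D / P.pa * (1 / 4000) := by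
      field_simp
      norm_num
    have h6 : (P.D : ℝ) / (P.X : ℝ) ^ 10 = P.D / P.pa * (1 / (P.X : ℝ) ^ 5) := by
      rw [hpa]
      field_simp
    have h7 : 0 ≤ (P.D : ℝ) / P.pa := by positivity
    have h8 : 1 / (P.X : ℝ) ≤ 1 / 10 ^ 20 := one_div_le_one_div_of_le (by norm_num) hX20
    have h9 : 1 / (P.X : ℝ) ^ 5 ≤ 1 / P.X := by
      apply one_div_le_one_div_of_le hX0
      have h10 : (P.X : ℝ) ^ 1 ≤ (P.X : ℝ) ^ 5 := pow_le_pow_right₀ hX1 (by norm_num)
      rwa [pow_one] at h10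
    have h10 : P.rho ≤ 1 / P.X := by
      rw [le_div_iff₀ hX0]
      have h11 : (P.X : ℝ) ^ 1 ≤ (P.X : ℝ) ^ 13 := pow_le_pow_right₀ hX1 (by norm_num)
      rw [pow_one] at h11
      calc P.rho * P.X ≤ P.rho * (P.X : ℝ) ^ 13 := mul_le_mul_of_nonneg_left h11 hrho0.le
        _ = 1 := hrho
    have h12 : P.rho + 1 / (P.X : ℝ) + 1 / (P.X : ℝ) ^ 5 ≤ 1 / 4000 := by
      have h8' : 1 / (P.X : ℝ) ≤ 1 / 100000 := h8.trans (by norm_num)
      linarith
    have h13 : (P.D : ℝ) / P.pa * P.rho + P.D / P.pa * (1 / P.X) +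
        P.D / P.pa * (1 / (P.X : ℝ) ^ 5) ≤ P.D / P.pa * (1 / 4000) := by
      rw [← mul_add, ← mul_add]
      exact mul_le_mul_of_nonneg_left h12 h7
    rw [h3] at h2
    rw [h4] at h1
    rw [h6] at hs
    rw [h5]
    linarith

end AF5

open AF5 AFx in
theorem thm_AF5 (hNumL : St_NumL) (hCnt : St_CntQ) (hCf : St_Cf) (hPrA : St_PrA) : St_AF5 := by
  intro P V κ _ _ e hH
  have hL := hNumL P hH.nm
  refine ⟨V × V, (univ : Finset (V × V)).filter (fun j => j.2 ∈ e.Rg P j.1), fun j => j.2,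
    fun j ω => ∑ j' ∈ (Y1 P e j.1 j.2).disjSum (Y2 P e j.1 j.2),
        (if ∀ t ∈ Sum.elim (fun w => ({w} : Finset V)) (fun p => ({p.1, p.2} : Finset V)) j',
          (ω t).val = 0 then (1 : ℝ) else 0),
    fun _ => P.fmin * P.D / 8, ?_, ?_, ?_⟩
  · intro u
    have h1 : (((univ : Finset (V × V)).filter (fun j => j.2 ∈ e.Rg P j.1)).filter
        (fun j => j.2 = u)).card ≤ 1 := by
      rw [card_le_one]
      intro p hp q hq
      simp only [Gd.Rg, mem_filter, mem_univ, true_and] at hp hq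
      have h2 : p.2 = q.2 := by rw [hp.2, hq.2]
      have h3 : some p.1 = some q.1 := by rw [← hp.1.1, ← hq.1.1, h2]
      exact Prod.ext (Option.some.inj h3) h2
    exact h1.trans (Nat.one_le_pow _ _ (by omega))
  · rintro ⟨i, v⟩ hj
    simp only [mem_filter, mem_univ, true_and] at hj
    exact tst hL hCnt hCf hPrA hH i v hj
  · intro ω hω i v hv
    have h := hω (i, v) (by simp only [mem_filter, mem_univ, true_and]; exact hv)
    refine le_trans ?_ h
    show _ ≤ (∑ j' ∈ (Y1 P e i v).disjSum (Y2 P e i v),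
        (if ∀ t ∈ Sum.elim (fun w => ({w} : Finset V)) (fun p => ({p.1, p.2} : Finset V)) j',
          (ω t).val = 0 then (1 : ℝ) else 0))
    rw [sum_disjSum, sum_ind_card, sum_ind_card]
    rw [← Nat.cast_add]
    have hsub : (univ.filter (fun w => (fdA P e ω).F0 w ∧ e.K w = some i ∧
        e.G.Adj v w ∧ ∃ a, e.E.N a v = w ∧ (a ∈ e.Q ∨ a ∈ (fdA P e ω).mF i))) ⊆
        ((Y1 P e i v).filter (fun w => ∀ t ∈ Sum.elim (fun w => ({w} : Finset V))
          (fun p => ({p.1, p.2} : Finset V)) (Sum.inl w : V ⊕ (V × V)), (ω t).val = 0)) ∪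
        (((Y2 P e i v).filter (fun p => ∀ t ∈ Sum.elim (fun w => ({w} : Finset V))
          (fun p => ({p.1, p.2} : Finset V)) (Sum.inr p : V ⊕ (V × V)),
            (ω t).val = 0)).image Prod.fst) := by
      intro w hw
      simp only [mem_filter, mem_univ, true_and] at hw
      obtain ⟨hw1, hw2, hw3, a, ha1, ha2⟩ := hw
      have hwv : w ≠ v := fun h => e.G.loopless.irrefl v (by rw [h] at hw3; exact hw3)
      have hcw : e.cand P w := hw1.1
      have hlw : (ω w).val = 0 := hw1.2.1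
      rw [mem_union]
      rcases ha2 with ha2 | ha2
      · left
        rw [mem_filter]
        refine ⟨?_, ?_⟩
        · simp only [Y1, mem_filter, mem_univ, true_and]
          exact ⟨hw2, hcw, hwv, a, ha2, ha1⟩
        · intro t ht
          rw [Sum.elim_inl, mem_singleton] at ht
          rw [ht]
          exact hlw
      · right
        rw [Fd.mF, mem_image] at ha2
        obtain ⟨w', hw', hm'⟩ := ha2
        simp only [Fd.F0i, mem_filter, mem_univ, true_and] at hw'
        have hmw : e.m w' = a := hm'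
        have hKw' : e.K w' = some i := hw'.1
        have hcw' : e.cand P w' := hw'.2.1
        have hlw' : (ω w').val = 0 := hw'.2.2.1
        have hne : w ≠ w' := by
          intro h
          have h1 : e.E.N (e.m w) w = w := hH.ed.miss w
          rw [h, hmw, ← h, ← ha1, e.E.inv] at h1
          rw [← ha1] at hwv
          exact hwv h1.symm
        rw [mem_image]
        refine ⟨(w, w'), ?_, rfl⟩
        rw [mem_filter]
        refine ⟨?_, ?_⟩
        · simp only [Y2, mem_filter, mem_univ, true_and]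
          refine ⟨hne, hw2, hcw, hKw', hcw', hwv, ?_⟩
          rw [hmw]
          exact ha1
        · intro t ht
          rw [Sum.elim_inr, mem_insert, mem_singleton] at ht
          rcases ht with h | h
          · rw [h]; exact hlw
          · rw [h]; exact hlw'
    have h5 := (card_le_card hsub).trans (card_union_le _ _)
    have h6 := h5.trans (Nat.add_le_add_left card_image_le _)
    exact_mod_cast h6

end Pool.TCV
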