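import Pool.Agent.Helper3.TCV.StB
import Pool.Agent.Helper3.TCM.Ball

/-!
# AF6: the block property (F6)
-/

set_option autoImplicit false
set_option linter.unusedSectionVars false

namespace Pool.TCV

open Pool.TC Pool.TCM Pool.TCS Pool.TN Finset
open scoped Classical

section

variable {V κ : Type} [Fintype V] [Fintype κ] {P : Par} {e : Ed V κ}

/-- the weight of a candidate -/
private noncomputable def bb (P : Par) (e : Ed V κ) (i x : V) : ℕ :=
  ((e.W0 P i (e.m x)).filter (fun w => e.G.Adj x w)).card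

/-- the relevant candidates -/
private noncomputable def Xs (P : Par) (e : Ed V κ) (i : V) (k : ℕ) : Finset V :=
  univ.filter (fun x => e.cand P x ∧ e.K x ≠ some i ∧ e.m x ∈ e.Gam i k ∧ 0 < bb P e i x)

private theorem W0_K {i : V} {a : κ} {w : V} (h : w ∈ e.W0 P i a) : e.K w = some i := by
  unfold Ed.W0 at h
  have h1 := (mem_filter.1 h).2.1
  unfold Gd.Rg at h1
  exact (mem_filter.1 h1).2.1

private theorem bb_le (i x : V) : bb P e i x ≤ e.dk i x := by
  unfold bb Gd.dk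
  refine card_le_card fun w hw => ?_
  obtain ⟨h1, h2⟩ := mem_filter.1 hw
  exact mem_filter.2 ⟨mem_nb.2 h2, W0_K h1⟩

/-- the total weight -/
private theorem bb_sum (hCf : St_Cf) (h : Hy3 P e) (i : V) (k : ℕ) :
    ∑ x ∈ Xs P e i k, bb P e i x ≤ P.t0 * e.Wt P i k := by
  have hc := hCf P V κ e h
  have h1 : ∑ x ∈ Xs P e i k, bb P e i x =
      ∑ a ∈ e.Gam i k, ∑ x ∈ (Xs P e i k).filter (fun x => e.m x = a), bb P e i x :=
    (sum_fiberwise_of_maps_to (fun x hx => (mem_filter.1 hx).2.2.2.1) _).symm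
  rw [h1]
  unfold Ed.Wt
  rw [mul_sum]
  refine sum_le_sum fun a ha => ?_
  have h2 : ∑ x ∈ (Xs P e i k).filter (fun x => e.m x = a), bb P e i x =
      ∑ x ∈ (Xs P e i k).filter (fun x => e.m x = a),
        ((e.W0 P i a).filter (fun w => e.G.Adj x w)).card := by
    refine sum_congr rfl fun x hx => ?_
    unfold bb
    rw [(mem_filter.1 hx).2]
  rw [h2]
  have h3 : ∑ x ∈ (Xs P e i k).filter (fun x => e.m x = a),
      ((e.W0 P i a).filter (fun w => e.G.Adj x w)).card =
      ∑ w ∈ e.W0 P i a, (((Xs P e i k).filter (fun x => e.m x = a)).filter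
        (fun x => e.G.Adj x w)).card := by
    simp only [card_filter]
    exact sum_comm
  rw [h3, mul_comm, ← smul_eq_mul]
  refine sum_le_card_nsmul _ _ _ fun w hw => ?_
  by_cases hne : ((Xs P e i k).filter (fun x => e.m x = a)).Nonempty
  · obtain ⟨x, hx⟩ := hne
    have hxa := (mem_filter.1 hx).2
    have hxc := (mem_filter.1 (mem_filter.1 hx).1).2.1
    have haJ : a ∈ e.J1 := hxa ▸ hc.1 x hxc
    refine (card_le_card fun y hy => ?_).trans (h.ed.r3 w a haJ)
    obtain ⟨h4, h5⟩ := mem_filter.1 hy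
    exact mem_filter.2 ⟨mem_nb.2 h5.symm, (mem_filter.1 h4).2⟩
  · rw [not_nonempty_iff_eq_empty] at hne
    rw [hne, filter_empty, card_empty]
    exact Nat.zero_le _

/-- the deterministic inequality -/
private theorem bb_ge (i : V) (k : ℕ) (ω : V → Fin P.pa) :
    (∑ a ∈ e.Gam i k, ((e.W0 P i a) ∩ ((fdA P e ω).FB i a)).card) ≤
      ∑ x ∈ Xs P e i k, if (ω x).val = 0 then bb P e i x else 0 := by
  have h1 : (∑ x ∈ Xs P e i k, if (ω x).val = 0 then bb P e i x else 0) =
      ∑ a ∈ e.Gam i k, ∑ x ∈ (Xs P e i k).filter (fun x => e.m x = a),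
        if (ω x).val = 0 then bb P e i x else 0 :=
    (sum_fiberwise_of_maps_to (fun x hx => (mem_filter.1 hx).2.2.2.1) _).symm
  rw [h1]
  refine sum_le_sum fun a ha => ?_
  have h2 : (e.W0 P i a) ∩ ((fdA P e ω).FB i a) ⊆
      (((Xs P e i k).filter (fun x => e.m x = a)).filter (fun x => (ω x).val = 0)).biUnion
        (fun x => (e.W0 P i (e.m x)).filter (fun w => e.G.Adj x w)) := by
    intro w hw
    obtain ⟨hw1, hw2⟩ := mem_inter.1 hw
    unfold Fd.FB at hw2
    obtain ⟨-, -, x, hx1, hx2, hx3, hx4⟩ := mem_filter.1 hw2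
    change e.cand P x ∧ (ω x).val = 0 ∧ _ at hx1
    change e.K x ≠ some i at hx2
    change e.G.Adj x w at hx3
    change e.m x = a at hx4
    have hmem : w ∈ (e.W0 P i (e.m x)).filter (fun w => e.G.Adj x w) := by
      rw [mem_filter, hx4]
      exact ⟨hw1, hx3⟩
    refine mem_biUnion.2 ⟨x, mem_filter.2 ⟨mem_filter.2 ⟨mem_filter.2 ⟨mem_univ _, hx1.1, hx2, ?_, ?_⟩,
      hx4⟩, hx1.2.1⟩, hmem⟩
    · rw [hx4]
      exact ha
    · unfold bb
      exact card_pos.2 ⟨w, hmem⟩
  refine (card_le_card h2).trans (card_biUnion_le.trans ?_)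
  rw [← sum_filter]
  exact le_rfl

private theorem cast_ge (i : V) (k : ℕ) (ω : V → Fin P.pa) :
    ((∑ a ∈ e.Gam i k, ((e.W0 P i a) ∩ ((fdA P e ω).FB i a)).card : ℕ) : ℝ) ≤
      ∑ x ∈ Xs P e i k, (bb P e i x : ℝ) * (if (ω x).val = 0 then (1 : ℝ) else 0) := by
  have h1 : ((∑ a ∈ e.Gam i k, ((e.W0 P i a) ∩ ((fdA P e ω).FB i a)).card : ℕ) : ℝ) ≤
      ((∑ x ∈ Xs P e i k, if (ω x).val = 0 then bb P e i x else 0 : ℕ) : ℝ) :=
    Nat.cast_le.2 (bb_ge i k ω)
  refine h1.trans (le_of_eq ?_)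
  push_cast
  refine sum_congr rfl fun x _ => ?_
  split_ifs <;> simp

/-- numerics -/
private theorem num {D X t0 eta Lam W pa : ℝ} (hX : (10 : ℝ) ^ 20 ≤ X)
    (hXD : X ^ 4 ≤ D) (ht : t0 = X ^ 4) (hL : Lam = X ^ 3) (he0 : 0 < eta)
    (he : X ^ 1600 * eta ≤ 1) (hpa : X * t0 = pa) (hW : D ≤ 5 * W) {s : ℝ} (hs : s ≤ t0 * W) :
    s / pa + Real.sqrt (2 * (eta * D * (t0 * W) + 1) * Lam) ≤ W / 100 := by
  have hX0 : 0 < X := lt_of_lt_of_le (by positivity) hX
  have ht0 : 0 < t0 := by rw [ht]; positivity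
  have hpa0 : 0 < pa := by rw [← hpa]; positivity
  have hD0 : 0 < D := lt_of_lt_of_le (by positivity) hXD
  have hW0 : 0 < W := by linarith
  have hX1 : (1 : ℝ) ≤ X := le_trans (by norm_num) hX
  have h1 : s / pa ≤ W / 1000 := by
    rw [div_le_iff₀ hpa0, ← hpa]
    have : W / 1000 * (X * t0) = t0 * W * (X / 1000) := by ring
    rw [this]
    refine hs.trans (le_mul_of_one_le_right (by positivity) ?_)
    rw [le_div_iff₀ (by norm_num)]
    linarith [le_trans (by norm_num : (1 : ℝ) * 1000 ≤ 10 ^ 20) hX]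
  have h2 : X ^ 8 * eta ≤ 1 :=
    (mul_le_mul_of_nonneg_right (pow_le_pow_right₀ hX1 (by norm_num)) he0.le).trans he
  have h3 : X ^ 7 * eta ≤ 1 / 10 ^ 20 := by
    rw [le_div_iff₀ (by positivity)]
    calc X ^ 7 * eta * 10 ^ 20 ≤ X ^ 7 * eta * X := mul_le_mul_of_nonneg_left hX (by positivity)
      _ = X ^ 8 * eta := by ring
      _ ≤ 1 := h2
  have h4 : Real.sqrt (2 * (eta * D * (t0 * W) + 1) * Lam) ≤ W / 1000 := by
    rw [Real.sqrt_le_left (by positivity)]
    rw [ht, hL]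
    have h5 : 2 * (eta * D * (X ^ 4 * W) + 1) * X ^ 3 = 2 * (X ^ 7 * eta) * (D * W) + 2 * X ^ 3 := by
      ring
    rw [h5]
    have h6 : 2 * (X ^ 7 * eta) * (D * W) ≤ 2 * (1 / 10 ^ 20) * (5 * W * W) := by
      refine mul_le_mul (mul_le_mul_of_nonneg_left h3 (by norm_num))
        (mul_le_mul_of_nonneg_right hW hW0.le) (by positivity) (by positivity)
    have h7 : X ^ 3 * 10 ^ 20 ≤ D := by
      calc X ^ 3 * 10 ^ 20 ≤ X ^ 3 * X := mul_le_mul_of_nonneg_left hX (by positivity)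
        _ = X ^ 4 := by ring
        _ ≤ D := hXD
    have h8 : (1 : ℝ) ≤ X ^ 3 := one_le_pow₀ hX1
    have h9 : (1 : ℝ) ≤ W := by linarith
    have h10 : W ≤ W * W := le_mul_of_one_le_right hW0.le h9
    have h11 : 2 * X ^ 3 ≤ 1 / 10 ^ 10 * (W * W) := by linarith
    have h12 : (W / 1000) ^ 2 = W * W / 10 ^ 6 := by ring
    rw [h12]
    have h13 : 0 < W * W := by positivity
    nlinarith
  linarith

end

theorem thm_AF6 (hNumL : St_NumL) (hCnt : St_CntQ) (hCf : St_Cf) (hPrA : St_PrA) : St_AF6 := by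
  intro P V κ _ _ e h
  have hN := hNumL P h.nm
  have hc := hCf P V κ e h
  have hp := hPrA P V κ e h
  refine ⟨V × ℕ, (univ ×ˢ range (P.D + 2)).filter (fun j => e.K j.1 = some j.1 ∧ j.2 < e.nbl j.1),
    Prod.fst, fun j ω => ∑ x ∈ Xs P e j.1 j.2,
      (bb P e j.1 x : ℝ) * (if (ω x).val = 0 then (1 : ℝ) else 0),
    fun j => (e.Wt P j.1 j.2 : ℝ) / 100, ?_, ?_, ?_⟩
  · intro u
    have h1 : (((univ ×ˢ range (P.D + 2)).filter
        (fun j : V × ℕ => e.K j.1 = some j.1 ∧ j.2 < e.nbl j.1)).filter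
          (fun j => j.1 = u)) ⊆ (range (P.D + 2)).image (fun k => (u, k)) := by
      intro j hj
      obtain ⟨hj1, hj2⟩ := mem_filter.1 hj
      obtain ⟨hj3, -⟩ := mem_filter.1 hj1
      refine mem_image.2 ⟨j.2, (mem_product.1 hj3).2, ?_⟩
      rw [← hj2]
    refine (card_le_card h1).trans (card_image_le.trans ?_)
    rw [card_range]
    exact Nat.le_self_pow (by norm_num) _
  · rintro ⟨i, k⟩ hj
    obtain ⟨-, hKi, hk⟩ := mem_filter.1 hj
    change e.K i = some i at hKi
    change k < e.nbl i at hk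
    have hWt4 : ((e.Rg P i).card : ℝ) ≤ 4 * e.Wt P i k := by exact_mod_cast h.ed.gm4 i k hk
    have hn1 : 999 * (P.D : ℝ) ≤ 1000 * (e.Rg P i).card := by exact_mod_cast h.gr.n1 i hKi
    have hD0 : (0 : ℝ) ≤ P.D := Nat.cast_nonneg _
    have hW : (P.D : ℝ) ≤ 5 * e.Wt P i k := by linarith
    have ht0 : (P.t0 : ℝ) = (P.X : ℝ) ^ 4 := by rw [h.nm.t0]; push_cast; rfl
    have hs : (∑ x ∈ Xs P e i k, (bb P e i x : ℝ)) ≤ P.t0 * e.Wt P i k := by
      exact_mod_cast bb_sum hCf h i k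
    have hnum := num (D := P.D) (X := P.X) (t0 := P.t0) (eta := P.eta) (Lam := P.Lam)
      (W := e.Wt P i k) (pa := P.pa) hN.X1 (hN.XD 4 (by norm_num)) ht0 h.nm.Lam hN.eta0 hN.eta1
      hN.pat hW hs
    have hs0 : (0 : ℝ) ≤ ∑ x ∈ Xs P e i k, (bb P e i x : ℝ) := sum_nonneg fun _ _ => Nat.cast_nonneg _
    have hbk : ∀ x ∈ Xs P e i k, (bb P e i x : ℝ) ≤ P.eta * P.D := by
      intro x hx
      obtain ⟨-, hx1, hx2, -, -⟩ := mem_filter.1 hx
      exact le_trans (by exact_mod_cast bb_le i x) (hc.2.2.2.2.1 i x hx1 hx2)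
    have heD : (0 : ℝ) ≤ P.eta * P.D := mul_nonneg hN.eta0.le hD0
    refine hCnt V (Fin P.pa) V e.G (Xs P e i k)
      (fun x ω => (bb P e i x : ℝ) * (if (ω x).val = 0 then (1 : ℝ) else 0))
      (fun x => (bb P e i x : ℝ)) (fun x => {x}) (P.eta * P.D)
      (P.eta * P.D * (P.t0 * e.Wt P i k) + 1) P.Lam _ i ?_ ?_ ?_ ?_ ?_ ?_ ?_ ?_
    · intro x _
      exact Nat.cast_nonneg _
    · intro x _ ω ω'
      rw [← mul_sub, abs_mul, abs_of_nonneg (Nat.cast_nonneg _)]
      refine mul_le_of_le_one_right (Nat.cast_nonneg _) ?_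
      split_ifs <;> norm_num
    · intro x _ ω ω' hω
      show (bb P e i x : ℝ) * _ = (bb P e i x : ℝ) * _
      rw [hω x (mem_singleton_self x)]
    · intro x hx y hy
      rw [mem_singleton] at hy
      subst hy
      obtain ⟨-, -, -, -, hx3⟩ := mem_filter.1 hx
      unfold bb at hx3
      obtain ⟨w, hw⟩ := card_pos.1 hx3
      obtain ⟨hw1, hw2⟩ := mem_filter.1 hw
      have h1 := h.gr.loc i w (W0_K hw1)
      exact ball_mono (by norm_num) (ball_trans h1 (adj_mem_ball hw2.symm))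
    · intro t
      by_cases ht : t ∈ Xs P e i k
      · have h1 : (Xs P e i k).filter (fun j => t ∈ ({j} : Finset V)) = {t} := by
          ext y
          rw [mem_filter, mem_singleton, mem_singleton]
          constructor
          · rintro ⟨-, h2⟩
            exact h2.symm
          · rintro rfl
            exact ⟨ht, rfl⟩
        rw [h1, sum_singleton]
        exact hbk t ht
      · have h1 : (Xs P e i k).filter (fun j => t ∈ ({j} : Finset V)) = ∅ := by
          rw [filter_eq_empty_iff]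
          intro y hy h2
          rw [mem_singleton] at h2
          exact ht (h2 ▸ hy)
        rw [h1, sum_empty]
        exact heD
    · simp only [card_singleton, Nat.cast_one, mul_one]
      have h1 := mul_le_mul_of_nonneg_left hs heD
      linarith
    · have h1 := mul_nonneg heD (hs0.trans hs)
      linarith
    · have h1 : ∀ x, mean (fun ω : V → Fin P.pa =>
          (bb P e i x : ℝ) * (if (ω x).val = 0 then (1 : ℝ) else 0)) = (bb P e i x : ℝ) / P.pa := by
        intro x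
        have h2 := hp.1 x
        unfold mean at h2 ⊢
        rw [← mul_sum, mul_div_assoc, h2, mul_one_div]
      rw [sum_congr rfl fun x _ => h1 x, ← sum_div]
      exact hnum
  · intro ω hω i k hk
    have hKi : e.K i = some i := by
      by_contra h1
      rw [h.ed.gm6 i h1] at hk
      exact absurd hk (Nat.not_lt_zero _)
    have hk2 : k < P.D + 2 := by
      have h1 := h.ed.gm5 i
      have h2 : (e.Pb P i).card ≤ P.D + 1 := by
        rw [← h.ed.col]
        exact card_le_univ _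
      omega
    have h1 := hω (i, k) (mem_filter.2 ⟨mem_product.2 ⟨mem_univ _, mem_range.2 hk2⟩, hKi, hk⟩)
    have h2 := cast_ge (P := P) (e := e) i k ω
    have h3 : (100 : ℝ) * ((∑ a ∈ e.Gam i k,
      ((e.W0 P i a) ∩ ((fdA P e ω).FB i a)).card : ℕ) : ℝ) ≤ (e.Wt P i k : ℝ) := by
      have h4 := h2.trans h1
      change _ ≤ (e.Wt P i k : ℝ) / 100 at h4
      linarith
    exact_mod_cast h3

end Pool.TCV
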