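import Pool.Agent.Helper3.TCV.StB
import Pool.Agent.Helper3.TCM.Ball

/-!
Tools for the modules AF3, AF4, AF5.
-/

set_option autoImplicit false

namespace Pool.TCV.AFx

open Pool.TC Pool.TCM Pool.TCS Pool.TN Finset
open scoped Classical

theorem sqrt_small {P : Par} (hL : NumL P) (W : ℝ) (h0 : 0 ≤ W) (h1 : W ≤ (P.X : ℝ) ^ 12 * P.D) :
    (P.X : ℝ) ^ 22 * Real.sqrt (2 * W * P.Lam) ≤ P.D := by
  have h := hL.dev W h0 h1
  have h2 := hL.nzD 20 (by norm_num)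
  have hX : (0 : ℝ) ≤ (P.X : ℝ) ^ 20 := by positivity
  calc (P.X : ℝ) ^ 22 * Real.sqrt (2 * W * P.Lam)
      = (P.X : ℝ) ^ 20 * ((P.X : ℝ) ^ 2 * Real.sqrt (2 * W * P.Lam)) := by ring
    _ ≤ (P.X : ℝ) ^ 20 * P.nz := mul_le_mul_of_nonneg_left h hX
    _ ≤ P.D := h2

theorem sqrt_small' {P : Par} (hL : NumL P) (W : ℝ) (h0 : 0 ≤ W)
    (h1 : W ≤ (P.X : ℝ) ^ 12 * P.D) :
    Real.sqrt (2 * W * P.Lam) ≤ P.D / (P.X : ℝ) ^ 10 := by
  have h := sqrt_small hL W h0 h1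
  have hX1 : (1 : ℝ) ≤ P.X := le_trans (by norm_num) hL.X1
  have hX0 : (0 : ℝ) < P.X := by linarith
  rw [le_div_iff₀ (by positivity)]
  have h2 : (P.X : ℝ) ^ 10 ≤ (P.X : ℝ) ^ 22 := pow_le_pow_right₀ hX1 (by norm_num)
  have h3 : 0 ≤ Real.sqrt (2 * W * P.Lam) := Real.sqrt_nonneg _
  nlinarith

theorem mean_neg {Ω : Type} [Fintype Ω] (F : Ω → ℝ) : mean (fun ω => -F ω) = -mean F := by
  unfold mean
  rw [Finset.sum_neg_distrib, neg_div]

theorem mean_smul {Ω : Type} [Fintype Ω] (c : ℝ) (F : Ω → ℝ) :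
    mean (fun ω => c * F ω) = c * mean F := by
  unfold mean
  rw [← Finset.mul_sum, mul_div_assoc]

theorem ind_le_one (p : Prop) [Decidable p] : (if p then (1 : ℝ) else 0) ≤ 1 := by
  split_ifs <;> norm_num

theorem ind_nonneg (p : Prop) [Decidable p] : (0 : ℝ) ≤ (if p then (1 : ℝ) else 0) := by
  split_ifs <;> norm_num

theorem ind_abs (p q : Prop) [Decidable p] [Decidable q] : |(if p then (1 : ℝ) else 0) - (if q then (1 : ℝ) else 0)| ≤ 1 := by
  rw [abs_le]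
  have h1 := ind_le_one p
  have h2 := ind_le_one q
  have h3 := ind_nonneg p
  have h4 := ind_nonneg q
  constructor <;> linarith

theorem ind_iff {p q : Prop} [Decidable p] [Decidable q] (h : p ↔ q) :
    (if p then (1 : ℝ) else 0) = (if q then (1 : ℝ) else 0) := by
  by_cases hq : q
  · rw [if_pos hq, if_pos (h.2 hq)]
  · rw [if_neg hq, if_neg (fun hp => hq (h.1 hp))]

theorem sum_ind_card {α : Type} (s : Finset α) (p : α → Prop) [DecidablePred p] :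
    (∑ w ∈ s, (if p w then (1 : ℝ) else 0)) = ((s.filter p).card : ℝ) := by
  rw [Finset.sum_boole]

section basic

variable {V κ : Type} [Fintype V] [Fintype κ] {P : Par} {e : Ed V κ}

theorem card_Ki (hH : Hy3 P e) (hL : NumL P) (i : V) : ((e.Ki i).card : ℝ) ≤ 2 * P.D := by
  have h := hH.gr.k2 i
  have h3 := hL.del3
  have hX1 : (10 : ℝ) ^ 20 ≤ P.X := hL.X1
  have hD : (P.X : ℝ) ^ 1 ≤ P.D := hL.XD 1 (by norm_num)
  rw [pow_one] at hD
  have hD1 : (1 : ℝ) * 10 ^ 20 ≤ P.D := by linarith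
  have h4 : 102 * P.delta * P.D ≤ 102 * (1 / 10 ^ 6) * P.D := by
    have : (0 : ℝ) ≤ P.D := by positivity
    nlinarith
  norm_num at h4 hD1 ⊢
  linarith

theorem K_rt (hH : Hy3 P e) {i w : V} (h : e.K w = some i) : e.K i = some i := hH.gr.rt i w h

theorem mem_ball_of_K (hH : Hy3 P e) {i w : V} (h : e.K w = some i) : w ∈ ball e.G 2 i :=
  hH.gr.loc i w h

end basic

end Pool.TCV.AFx
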