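import Pool.Agent.Helper3.TCV.StB

/-!
# Acc: the free rows
-/

set_option autoImplicit false

namespace Pool.TCV

open Pool.TC Pool.TCM Pool.TCS Pool.TN Finset
open scoped Classical

theorem thm_Acc (hNumL : St_NumL) (hTstL : St_TstL) (hImpA : St_ImpA) (_hCf : St_Cf)
    (h2 : St_AF2) (h3 : St_AF3) (h4 : St_AF4) (h5 : St_AF5) (h6 : St_AF6) : St_Ac10 := by
  intro P V κ _ _ e hN hG hE
  have hy : Hy3 P e := ⟨hN, hG, hE⟩
  have hL := hNumL P hN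
  have : Nonempty (Fin P.pa) := ⟨⟨0, hL.pa0⟩⟩
  have hI := hImpA V (Fin P.pa) e.G P.Lam
  have c1 := hI.1 _ _ _ _ (h2 P V κ e hy) (hI.1 _ _ _ _ (h3 P V κ e hy)
    (hI.1 _ _ _ _ (h4 P V κ e hy) (hI.1 _ _ _ _ (h5 P V κ e hy) (h6 P V κ e hy))))
  have hex : 4 * Real.exp (-P.Lam) * (((P.D : ℝ) + 1) ^ 16 *
      (((P.D + 2) ^ 10 + ((P.D + 2) ^ 10 + ((P.D + 2) ^ 10 + ((P.D + 2) ^ 10 +
        (P.D + 2) ^ 10))) : ℕ) : ℝ) + 1) ≤ 1 := by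
    have h := hL.ex 27 (by norm_num)
    have hD : (5 : ℝ) ≤ P.D + 2 := by
      have h1 := hL.XD 1 (by norm_num)
      have h2 := hL.X1
      have h3 : (10 : ℝ) ^ 20 ≤ P.D := by
        rw [pow_one] at h1
        exact h2.trans h1
      have h4 : (3 : ℝ) ≤ (10 : ℝ) ^ 20 := by norm_num
      linarith
    have hD1 : (0 : ℝ) ≤ P.D + 1 := by positivity
    have hpow : ((P.D : ℝ) + 1) ^ 16 * (5 * ((P.D : ℝ) + 2) ^ 10) ≤ ((P.D : ℝ) + 2) ^ 27 := by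
      have h1 : ((P.D : ℝ) + 1) ^ 16 ≤ ((P.D : ℝ) + 2) ^ 16 :=
        pow_le_pow_left₀ hD1 (by linarith) 16
      have h2 : 5 * ((P.D : ℝ) + 2) ^ 10 ≤ ((P.D : ℝ) + 2) * ((P.D : ℝ) + 2) ^ 10 :=
        mul_le_mul_of_nonneg_right hD (by positivity)
      calc ((P.D : ℝ) + 1) ^ 16 * (5 * ((P.D : ℝ) + 2) ^ 10) ≤
          ((P.D : ℝ) + 2) ^ 16 * (((P.D : ℝ) + 2) * ((P.D : ℝ) + 2) ^ 10) :=
            mul_le_mul h1 h2 (by positivity) (by positivity)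
        _ = ((P.D : ℝ) + 2) ^ 27 := by ring
    have hcast : ((((P.D + 2) ^ 10 + ((P.D + 2) ^ 10 + ((P.D + 2) ^ 10 + ((P.D + 2) ^ 10 +
        (P.D + 2) ^ 10))) : ℕ)) : ℝ) = 5 * ((P.D : ℝ) + 2) ^ 10 := by
      push_cast
      ring
    rw [hcast]
    have he : 0 < Real.exp (-P.Lam) := Real.exp_pos _
    have h5 : 4 * Real.exp (-P.Lam) * (((P.D : ℝ) + 1) ^ 16 * (5 * ((P.D : ℝ) + 2) ^ 10) + 1) ≤
        8 * Real.exp (-P.Lam) * (((P.D : ℝ) + 2) ^ 27 + 1) := by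
      apply mul_le_mul
      · linarith
      · linarith
      · positivity
      · positivity
    exact h5.trans h
  obtain ⟨ω, c2, ⟨c3, c3'⟩, ⟨c4, c4'⟩, c5, c6⟩ := hTstL V (Fin P.pa) e.G P.D _ P.Lam _
    (fun u => (hG.reg u).le) (lt_of_lt_of_le one_pos hL.La) hex c1
  refine ⟨fdA P e ω, rfl, ?_⟩
  exact
    { f0 := fun w hw => hw.1
      f1 := fun u w hu hw hc => hw.2.2 u hc hu.2.1
      f2 := c2
      f3 := c3
      f3' := c3'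
      f4 := c4
      f4' := c4'
      f5 := c5
      f6 := c6 }

end Pool.TCV
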