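import Pool.Agent.Helper3.TCV.StA

/-!
# T10, section 3: disjoint blocks of large sum (`St_Blk`)
-/

set_option autoImplicit false

namespace Pool.TCV

open Finset
open scoped Classical

/-- One block: `4 ∑ ≥ n`, and `4 ∑ < 2 n` when `0 < n`; `4 ∑ = n` when `n = 0`. -/
private theorem Blk_block (A : Type) (J : Finset A) (x : A → ℕ) (n : ℕ)
    (hx : ∀ a ∈ J, 4 * x a < n) (hS : n ≤ 4 * ∑ a ∈ J, x a) :
    ∃ B ⊆ J, n ≤ 4 * ∑ a ∈ B, x a ∧ 4 * ∑ a ∈ B, x a ≤ 2 * n := by
  obtain ⟨B, hB, hmin⟩ := (J.powerset.filter (fun B => n ≤ 4 * ∑ a ∈ B, x a)).exists_min_image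
    Finset.card ⟨J, Finset.mem_filter.mpr ⟨Finset.mem_powerset_self J, hS⟩⟩
  rw [Finset.mem_filter, Finset.mem_powerset] at hB
  refine ⟨B, hB.1, hB.2, ?_⟩
  rcases B.eq_empty_or_nonempty with h | ⟨b, hb⟩
  · rw [h, Finset.sum_empty]
    omega
  · have h1 : 4 * ∑ a ∈ B.erase b, x a < n := by
      by_contra hc
      have h2 := hmin (B.erase b) (Finset.mem_filter.mpr
        ⟨Finset.mem_powerset.mpr ((Finset.erase_subset _ _).trans hB.1), not_lt.mp hc⟩)
      have h3 := Finset.card_erase_lt_of_mem hb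
      omega
    have h4 := Finset.add_sum_erase B x hb
    have h5 := hx b (hB.1 hb)
    omega

theorem thm_Blk : St_Blk := by
  intro A J x N n hx
  revert J
  induction N with
  | zero =>
    intro J _ _
    exact ⟨fun _ => ∅, fun k hk => absurd hk (Nat.not_lt_zero k),
      fun k _ hk => absurd hk (Nat.not_lt_zero k)⟩
  | succ N ih =>
    intro J hx hS
    have hS1 : (2 * (N + 1) - 1) * n ≤ 4 * ∑ a ∈ J, x a := hS (Nat.succ_pos N)
    have e1 : 2 * (N + 1) - 1 = 2 * N + 1 := by omega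
    rw [e1] at hS1
    have hN : (2 * N + 1) * n = 2 * N * n + n := by ring
    obtain ⟨B, hBJ, hB1, hB2⟩ := Blk_block A J x n hx (by omega)
    have hsum : ∑ a ∈ J \ B, x a + ∑ a ∈ B, x a = ∑ a ∈ J, x a := Finset.sum_sdiff hBJ
    obtain ⟨Γ, hΓ1, hΓ2⟩ := ih (J \ B) (fun a ha => hx a (Finset.mem_sdiff.mp ha).1) (by
      intro hpos
      obtain ⟨m, rfl⟩ : ∃ m, N = m + 1 := ⟨N - 1, by omega⟩
      have e2 : 2 * (m + 1) - 1 = 2 * m + 1 := by omega
      rw [e2]
      have e3 : 2 * (m + 1) * n = (2 * m + 1) * n + n := by ring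
      omega)
    refine ⟨fun k => Nat.rec B (fun i _ => Γ i) k, ?_, ?_⟩
    · intro k hk
      rcases k with _ | k
      · exact ⟨hBJ, hB1⟩
      · have h := hΓ1 k (by omega)
        exact ⟨h.1.trans Finset.sdiff_subset, h.2⟩
    · intro k k' hk hk' hne
      rcases k with _ | k
      · rcases k' with _ | k'
        · exact absurd rfl hne
        · exact Finset.disjoint_of_subset_right (hΓ1 k' (by omega)).1 Finset.disjoint_sdiff
      · rcases k' with _ | k'
        · exact (Finset.disjoint_of_subset_right (hΓ1 k (by omega)).1 Finset.disjoint_sdiff).symm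
        · exact hΓ2 k k' (by omega) (by omega) (by omega)

end Pool.TCV
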