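import Pool.Agent.Helper3.TCV.StB
import Pool.Agent.Helper3.TCM.Ball

/-!
# T10, section 4, [Cf]: candidates (helper17)
-/

set_option autoImplicit false

namespace Pool.TCV

open Pool.TC Pool.TCM Pool.TCS Pool.TN Finset
open scoped Classical

section

variable {V κ : Type} [Fintype V] [Fintype κ] {P : Par} {e : Ed V κ}

theorem Cf_in {i w : V} (hw : e.K w = some i) (hc : e.cand P w) : w ∈ e.Rg P i ∧ e.G.Adj i w := by
  rcases hc with h | ⟨j, h1, h2, -⟩
  · have h3 := h.1.1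
    rw [hw] at h3
    cases h3
  · have h3 : e.K w = some j := (mem_filter.1 h1).2.1
    rw [hw] at h3
    have h4 : i = j := Option.some.inj h3
    subst h4
    exact ⟨h1, h2⟩

theorem Cf_J1 (hj : e.J0 ⊆ e.J1) {w : V} (hc : e.cand P w) : e.m w ∈ e.J1 := by
  rcases hc with h | ⟨_, _, _, h, _⟩
  · exact hj h.2
  · exact h

/-- a set of neighbours of `i` with missing colours in `A ⊆ J1` -/
theorem Cf_cnt (he : EdP P e) (i : V) (A : Finset κ) (hA : ∀ a ∈ A, a ∈ e.J1) :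
    ((nb e.G i).filter (fun w => e.m w ∈ A)).card ≤ A.card * P.t0 := by
  have h1 : (nb e.G i).filter (fun w => e.m w ∈ A) ⊆
      A.biUnion (fun a => (nb e.G i).filter (fun w => e.m w = a)) := by
    intro w hw
    obtain ⟨h2, h3⟩ := mem_filter.1 hw
    exact mem_biUnion.2 ⟨e.m w, h3, mem_filter.2 ⟨h2, rfl⟩⟩
  refine (card_le_card h1).trans (card_biUnion_le.trans ?_)
  refine (sum_le_sum fun a ha => he.r3 i a (hA a ha)).trans ?_
  rw [sum_const, smul_eq_mul]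

theorem Cf_six (hn : NumL P) (hg : GrP P e.toGd) (he : EdP P e) (hP : P.t0 = P.X ^ 4) (i : V)
    (hi : e.K i = some i) :
    P.D ≤ 400 * (univ.filter (fun w => e.K w = some i ∧ e.cand P w)).card := by
  set N := (nb e.G i).filter (fun w => e.m w ∈ e.J1) with hN
  set C := univ.filter (fun w => e.K w = some i ∧ e.cand P w) with hC
  set B1 := (nb e.G i).filter (fun w => e.m w ∈ e.J0) with hB1
  set B2 := (nb e.G i).filter (fun w => e.m w ∈ (e.Pb P i).filter (fun a => a ∈ e.J1)) with hB2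
  set B3 := cnb e.G i \ e.Ki i with hB3
  set B4 := e.Spi P i with hB4
  have h0 : N ⊆ C ∪ (B1 ∪ (B2 ∪ (B3 ∪ B4))) := by
    intro w hw
    obtain ⟨h1, h2⟩ := mem_filter.1 hw
    have hadj : e.G.Adj i w := mem_nb.1 h1
    by_cases k3 : e.K w = some i
    · by_cases k4 : e.Sp P w
      · exact mem_union_right _ (mem_union_right _ (mem_union_right _ (mem_union_right _
          (mem_filter.2 ⟨mem_univ _, k3, k4⟩))))
      · by_cases k1 : e.m w ∈ e.J0
        · exact mem_union_right _ (mem_union_left _ (mem_filter.2 ⟨h1, k1⟩))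
        · by_cases k2 : e.m w ∈ e.Pb P i
          · exact mem_union_right _ (mem_union_right _ (mem_union_left _
              (mem_filter.2 ⟨h1, mem_filter.2 ⟨k2, h2⟩⟩)))
          · exact mem_union_left _ (mem_filter.2 ⟨mem_univ _, k3, Or.inr
              ⟨i, mem_filter.2 ⟨mem_univ _, k3, k4⟩, hadj, h2, k1, k2⟩⟩)
    · refine mem_union_right _ (mem_union_right _ (mem_union_right _ (mem_union_left _ ?_)))
      refine mem_sdiff.2 ⟨mem_insert_of_mem h1, fun h => k3 (mem_filter.1 h).2⟩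
  have c0 : N.card ≤ C.card + (B1.card + (B2.card + (B3.card + B4.card))) := by
    refine (card_le_card h0).trans ((card_union_le _ _).trans (Nat.add_le_add_left ?_ _))
    refine (card_union_le _ _).trans (Nat.add_le_add_left ?_ _)
    exact (card_union_le _ _).trans (Nat.add_le_add_left (card_union_le _ _) _)
  have c1 : B1.card ≤ e.J0.card * P.t0 := Cf_cnt he i e.J0 fun a ha => he.j01 ha
  have c2 : B2.card ≤ (e.Pb P i).card * P.t0 :=
    (Cf_cnt he i _ fun a ha => (mem_filter.1 ha).2).trans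
      (Nat.mul_le_mul_right _ (card_le_card (filter_subset _ _)))
  have c3 : (B3.card : ℝ) ≤ 102 * P.delta * P.D := by
    have h1 := hg.d3 i hi
    have h2 : (0 : ℝ) ≤ ((e.Ki i \ cnb e.G i).card : ℝ) := Nat.cast_nonneg _
    linarith
  have c4 : (B4.card : ℝ) ≤ 104 * P.delta * P.D / P.eta := hg.sp1 i
  have c5 : P.D ≤ 300 * N.card := he.r2 i
  -- numerics
  have hX1 := hn.X1
  have hX0 : (0 : ℝ) < P.X := lt_of_lt_of_le (by norm_num) hX1
  have hXge1 : (1 : ℝ) ≤ P.X := le_trans (by norm_num) hX1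
  have hD1 : (1 : ℝ) ≤ P.D := by
    have := hn.XD 0 (by norm_num)
    rwa [pow_zero] at this
  have ht : (P.t0 : ℝ) = (P.X : ℝ) ^ 4 := by
    rw [hP]
    push_cast
    ring
  -- `X ^ 20 ≤ X ^ k` for the powers at hand
  have hbig : (10 : ℝ) ^ 20 ≤ (P.X : ℝ) ^ 2 := by
    calc (10 : ℝ) ^ 20 ≤ P.X := hX1
      _ = (P.X : ℝ) ^ 1 := (pow_one _).symm
      _ ≤ (P.X : ℝ) ^ 2 := pow_le_pow_right₀ hXge1 (by norm_num)
  have hJ : (P.X : ℝ) ^ 4 * (1 / 2 : ℝ) ^ P.r ≤ 1 / 10 ^ 20 := by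
    have h1 := hn.r0
    have h2 : (0 : ℝ) ≤ (1 / 2 : ℝ) ^ P.r := by positivity
    have h3 : (P.X : ℝ) ^ 6 ≤ (P.X : ℝ) ^ 4000 := pow_le_pow_right₀ hXge1 (by norm_num)
    have h4 : (P.X : ℝ) ^ 2 * ((P.X : ℝ) ^ 4 * (1 / 2 : ℝ) ^ P.r) ≤ 1 := by
      calc (P.X : ℝ) ^ 2 * ((P.X : ℝ) ^ 4 * (1 / 2 : ℝ) ^ P.r)
          = (P.X : ℝ) ^ 6 * (1 / 2 : ℝ) ^ P.r := by rw [← mul_assoc, ← pow_add]
        _ ≤ (P.X : ℝ) ^ 4000 * (1 / 2 : ℝ) ^ P.r := mul_le_mul_of_nonneg_right h3 h2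
        _ ≤ 1 := h1
    have h5 : 0 ≤ (P.X : ℝ) ^ 4 * (1 / 2 : ℝ) ^ P.r := by positivity
    rw [le_div_iff₀ (by positivity)]
    calc (P.X : ℝ) ^ 4 * (1 / 2 : ℝ) ^ P.r * 10 ^ 20
        ≤ (P.X : ℝ) ^ 4 * (1 / 2 : ℝ) ^ P.r * (P.X : ℝ) ^ 2 := mul_le_mul_of_nonneg_left hbig h5
      _ = (P.X : ℝ) ^ 2 * ((P.X : ℝ) ^ 4 * (1 / 2 : ℝ) ^ P.r) := by ring
      _ ≤ 1 := h4
  have hPb : (P.X : ℝ) ^ 4 * P.pmax ≤ 1 / 10 ^ 20 := by
    have h1 := hn.pm1
    have h2 : (0 : ℝ) ≤ P.pmax := hn.pm0.le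
    have h3 : (P.X : ℝ) ^ 6 ≤ (P.X : ℝ) ^ 4000 := pow_le_pow_right₀ hXge1 (by norm_num)
    have h4 : (P.X : ℝ) ^ 2 * ((P.X : ℝ) ^ 4 * P.pmax) ≤ 1 := by
      calc (P.X : ℝ) ^ 2 * ((P.X : ℝ) ^ 4 * P.pmax)
          = (P.X : ℝ) ^ 6 * P.pmax := by rw [← mul_assoc, ← pow_add]
        _ ≤ (P.X : ℝ) ^ 4000 * P.pmax := mul_le_mul_of_nonneg_right h3 h2
        _ ≤ 1 := h1
    have h5 : 0 ≤ (P.X : ℝ) ^ 4 * P.pmax := by positivity
    rw [le_div_iff₀ (by positivity)]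
    calc (P.X : ℝ) ^ 4 * P.pmax * 10 ^ 20
        ≤ (P.X : ℝ) ^ 4 * P.pmax * (P.X : ℝ) ^ 2 := mul_le_mul_of_nonneg_left hbig h5
      _ = (P.X : ℝ) ^ 2 * ((P.X : ℝ) ^ 4 * P.pmax) := by ring
      _ ≤ 1 := h4
  have hde : P.delta / P.eta ≤ 1 / 10 ^ 20 := by
    rw [div_le_iff₀ hn.eta0]
    have h3 : (P.X : ℝ) ^ 2 ≤ (P.X : ℝ) ^ 3000 := pow_le_pow_right₀ hXge1 (by norm_num)
    have h4 : (10 : ℝ) ^ 20 * P.delta ≤ P.eta :=
      (mul_le_mul_of_nonneg_right (hbig.trans h3) hn.del0.le).trans hn.del1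
    calc P.delta = 1 / 10 ^ 20 * (10 ^ 20 * P.delta) := by ring
      _ ≤ 1 / 10 ^ 20 * P.eta := mul_le_mul_of_nonneg_left h4 (by positivity)
  have d1 : (B1.card : ℝ) ≤ 1 / 10 ^ 20 * ((P.D : ℝ) + 1) := by
    have h1 : (B1.card : ℝ) ≤ (e.J0.card : ℝ) * P.t0 := by exact_mod_cast c1
    refine h1.trans ?_
    rw [ht]
    calc (e.J0.card : ℝ) * (P.X : ℝ) ^ 4 ≤ ((1 / 2) ^ P.r * ((P.D : ℝ) + 1)) * (P.X : ℝ) ^ 4 :=
          mul_le_mul_of_nonneg_right he.j0 (by positivity)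
      _ = (P.X : ℝ) ^ 4 * (1 / 2 : ℝ) ^ P.r * ((P.D : ℝ) + 1) := by ring
      _ ≤ 1 / 10 ^ 20 * ((P.D : ℝ) + 1) := mul_le_mul_of_nonneg_right hJ (by linarith)
  have d2 : (B2.card : ℝ) ≤ 1 / 10 ^ 20 * P.D := by
    have h1 : (B2.card : ℝ) ≤ ((e.Pb P i).card : ℝ) * P.t0 := by exact_mod_cast c2
    refine h1.trans ?_
    rw [ht]
    calc ((e.Pb P i).card : ℝ) * (P.X : ℝ) ^ 4 ≤ (P.pmax * P.D) * (P.X : ℝ) ^ 4 :=
          mul_le_mul_of_nonneg_right (he.pb i) (by positivity)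
      _ = (P.X : ℝ) ^ 4 * P.pmax * P.D := by ring
      _ ≤ 1 / 10 ^ 20 * P.D := mul_le_mul_of_nonneg_right hPb (by linarith)
  have d3 : (B3.card : ℝ) ≤ 102 / 10 ^ 6 * P.D := by
    refine c3.trans ?_
    have h1 : P.delta * P.D ≤ 1 / 10 ^ 6 * P.D := mul_le_mul_of_nonneg_right hn.del3 (by linarith)
    calc 102 * P.delta * P.D = 102 * (P.delta * P.D) := by ring
      _ ≤ 102 * (1 / 10 ^ 6 * P.D) := mul_le_mul_of_nonneg_left h1 (by norm_num)
      _ = 102 / 10 ^ 6 * P.D := by ring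
  have d4 : (B4.card : ℝ) ≤ 104 / 10 ^ 20 * P.D := by
    refine c4.trans ?_
    calc 104 * P.delta * P.D / P.eta = 104 * ((P.delta / P.eta) * P.D) := by ring
      _ ≤ 104 * (1 / 10 ^ 20 * P.D) :=
        mul_le_mul_of_nonneg_left (mul_le_mul_of_nonneg_right hde (by linarith)) (by norm_num)
      _ = 104 / 10 ^ 20 * P.D := by ring
  have c0' : (N.card : ℝ) ≤ C.card + (B1.card + (B2.card + (B3.card + B4.card))) := by exact_mod_cast c0
  have c5' : (P.D : ℝ) ≤ 300 * N.card := by exact_mod_cast c5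
  have hfin : (P.D : ℝ) ≤ 400 * C.card := by
    norm_num at d1 d2 d3 d4 ⊢
    linarith
  exact_mod_cast hfin

end

theorem thm_Cf (hNumL : St_NumL) : St_Cf := by
  intro P V κ _ _ e hy
  have hn := hNumL P hy.nm
  have hg := hy.gr
  have he := hy.ed
  have hJ1 : ∀ w, e.cand P w → e.m w ∈ e.J1 := fun w hc => Cf_J1 he.j01 hc
  refine ⟨hJ1, ?_, ?_, ?_, ?_, fun i hi => Cf_six hn hg he hy.nm.t0 i hi, ?_⟩
  · rintro u w ⟨h1, h2, h3, h4, h5⟩
    refine ⟨h1.symm, h3, h2, h4.symm, ?_⟩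
    rcases h5 with h | ⟨h, h'⟩
    · exact Or.inl h.symm
    · exact Or.inr ⟨fun h0 => h (h'.trans h0), h'.symm⟩
  · intro w
    by_cases hw : e.cand P w
    · have hm := hJ1 w hw
      have ha : ((nb e.G w).filter (fun u => e.m u = e.m w)).card ≤ P.t0 := he.r3 w _ hm
      rcases hK : e.K w with _ | i
      · have hs : univ.filter (fun u => e.cf P u w) ⊆ (nb e.G w).filter (fun u => e.m u = e.m w) := by
          intro u hu
          obtain ⟨h1, h2, h3, h4, h5⟩ := (mem_filter.1 hu).2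
          rcases h5 with h | ⟨h, h'⟩
          · exact mem_filter.2 ⟨mem_nb.2 h.symm, h4⟩
          · exact absurd (h'.trans hK) h
        have := card_le_card hs
        omega
      · have hb : ((nb e.G i).filter (fun u => e.m u = e.m w)).card ≤ P.t0 := he.r3 i _ hm
        have hs : univ.filter (fun u => e.cf P u w) ⊆ (nb e.G w).filter (fun u => e.m u = e.m w) ∪
            (nb e.G i).filter (fun u => e.m u = e.m w) := by
          intro u hu
          obtain ⟨h1, h2, h3, h4, h5⟩ := (mem_filter.1 hu).2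
          rcases h5 with h | ⟨h, h'⟩
          · exact mem_union_left _ (mem_filter.2 ⟨mem_nb.2 h.symm, h4⟩)
          · exact mem_union_right _ (mem_filter.2 ⟨mem_nb.2 (Cf_in (h'.trans hK) h2).2, h4⟩)
        have := (card_le_card hs).trans (card_union_le _ _)
        omega
    · have hs : univ.filter (fun u => e.cf P u w) = ∅ := by
        refine filter_eq_empty_iff.2 fun u _ h => hw h.2.2.1
      rw [hs, card_empty]
      exact Nat.zero_le _
  · rintro u w ⟨h1, h2, h3, h4, h5⟩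
    rcases h5 with h | ⟨h, h'⟩
    · exact ball_mono (by norm_num) (adj_mem_ball h.symm)
    · obtain ⟨i, hi⟩ := Option.ne_none_iff_exists'.1 h
      have hu := hg.loc i u hi
      have hw := hg.loc i w (h'.symm.trans hi)
      exact ball_trans (ball_symm hw) hu
  · intro i x hc hx
    rcases hc with h | ⟨j, h1, -⟩
    · have h2 := h.1.2 i
      by_contra h3
      exact h2 ⟨hx, (not_le.1 h3).le⟩
    · have h3 : e.K x = some j := (mem_filter.1 h1).2.1
      exact hg.lig i j x h1 fun h => hx (by rw [h3, h])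
  · intro i a
    by_cases ha : a ∈ e.J1
    · refine le_trans (card_le_card ?_) (he.r3 i a ha)
      intro w hw
      obtain ⟨h1, h2, h3⟩ := (mem_filter.1 hw).2
      exact mem_filter.2 ⟨mem_nb.2 (Cf_in h1 h2).2, h3⟩
    · have hs : univ.filter (fun w => e.K w = some i ∧ e.cand P w ∧ e.m w = a) = ∅ := by
        refine filter_eq_empty_iff.2 fun w _ h => ha ?_
        rw [← h.2.2]
        exact hJ1 w h.2.1
      rw [hs, card_empty]
      exact Nat.zero_le _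

end Pool.TCV
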