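import Pool.Agent.Helper3.TCV.StB

/-!
# Cnt: sums of local functions
-/

set_option autoImplicit false

namespace Pool.TCV

open Pool.TC Pool.TCM Pool.TCS Pool.TN Finset
open scoped Classical

theorem thm_CntQ : St_CntQ := by
  intro V α J _ _ G Js g wt R M W Lam b u hwt hbd hloc hball hM hW hW0 hb
  obtain ⟨cc, hcc⟩ : ∃ cc : V → ℝ, cc = fun t => ∑ j ∈ Js.filter (fun j => t ∈ R j), wt j :=
    ⟨_, rfl⟩
  have hcc0 : ∀ t, 0 ≤ cc t := by
    intro t
    rw [hcc]
    exact sum_nonneg fun j hj => hwt j (mem_filter.1 hj).1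
  have hccM : ∀ t, cc t ≤ M := by
    intro t
    rw [hcc]
    exact hM t
  refine ⟨cc, W, hcc0, ?_, ?_, ?_, hW0, ?_⟩
  · intro t ω ω' hω
    have h1 : (∑ j ∈ Js, g j ω) - ∑ j ∈ Js, g j ω' =
        ∑ j ∈ Js.filter (fun j => t ∈ R j), (g j ω - g j ω') := by
      rw [← sum_sub_distrib, sum_filter]
      refine sum_congr rfl fun j hj => ?_
      split_ifs with h
      · rfl
      · rw [hloc j hj ω ω' (fun t' ht' => hω t' (fun h' => h (h' ▸ ht'))), sub_self]
    rw [h1, hcc]
    refine (abs_sum_le_sum_abs _ _).trans ?_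
    exact sum_le_sum fun j hj => hbd j (mem_filter.1 hj).1 ω ω'
  · intro t ht
    rw [hcc]
    refine sum_eq_zero fun j hj => ?_
    exact absurd (hball j (mem_filter.1 hj).1 (mem_filter.1 hj).2) ht
  · calc ∑ t, cc t ^ 2 ≤ ∑ t, M * cc t := by
          refine sum_le_sum fun t _ => ?_
          rw [pow_two]
          exact mul_le_mul_of_nonneg_right (hccM t) (hcc0 t)
      _ = M * ∑ j ∈ Js, wt j * (R j).card := by
          rw [← mul_sum]
          congr 1
          rw [hcc]
          have h2 : ∀ t, ∑ j ∈ Js.filter (fun j => t ∈ R j), wt j =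
              ∑ j ∈ Js, if t ∈ R j then wt j else 0 := fun t => sum_filter _ _
          simp only [h2]
          rw [sum_comm]
          refine sum_congr rfl fun j _ => ?_
          rw [← sum_filter, sum_const, nsmul_eq_mul, mul_comm]
          have h3 : univ.filter (fun t => t ∈ R j) = R j := by
            ext t
            simp
          rw [h3]
      _ ≤ W := hW
  · have h4 : mean (fun ω => ∑ j ∈ Js, g j ω) = ∑ j ∈ Js, mean (g j) := by
      unfold mean
      rw [sum_comm, sum_div]
    rw [h4]
    exact hb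

end Pool.TCV
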