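import Pool.Agent.Helper3.TCV.StA

/-!
# [Dec10] the clusters (helper38)
-/

set_option autoImplicit false

namespace Pool.TCV

open Pool.TC Pool.TCM Pool.TCS Pool.TN Finset
open scoped Classical

section

variable {V : Type} [Fintype V]

private theorem Dec10_self (G : SimpleGraph V) (u : V) : dd G u u = 0 := by
  unfold dd; rw [Finset.sdiff_self]; rfl

private theorem Dec10_KH {G : SimpleGraph V} {H : ℕ} {u x : V} : x ∈ KH G H u ↔ dd G u x ≤ H := by
  unfold KH; simp

private theorem Dec10_cnb {G : SimpleGraph V} {u x : V} : x ∈ cnb G u ↔ x = u ∨ G.Adj u x := by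
  unfold cnb nb; simp

private theorem Dec10_D {D : ℕ} {δ : ℝ} (_h0 : 0 < δ) (h1 : δ ≤ 1 / 10 ^ 6) (h2 : 1 ≤ δ * D) :
    10 ^ 6 ≤ D := by
  have hD : (0 : ℝ) ≤ D := Nat.cast_nonneg D
  have : (10 : ℝ) ^ 6 ≤ D := by nlinarith
  exact_mod_cast this

/-- two dense vertices at distance at most `2 (D / 100)` are at distance at most `8 δ D` -/
private theorem Dec10_near (hMet : Pool.TN.St_Met) (hKb : St_Kb) (G : SimpleGraph V) (D : ℕ)
    (δ : ℝ) (hreg : ∀ u, (nb G u).card = D) (h0 : 0 < δ) (h1 : δ ≤ 1 / 10 ^ 6) (h2 : 1 ≤ δ * D)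
    (u u' : V) (hu : (npr G u : ℝ) < δ * (D : ℝ) ^ 2) (hu' : (npr G u' : ℝ) < δ * (D : ℝ) ^ 2)
    (hd : dd G u u' ≤ 2 * (D / 100)) : dd G u u' ≤ D / 100 := by
  obtain ⟨hsym, hint, htri, -⟩ := hMet V G D hreg
  have c1 := (hKb V G D δ u hreg h0 h1 h2 hu).2.2.2.2.2.2.1
  have c2 := (hKb V G D δ u' hreg h0 h1 h2 hu').2.2.2.2.2.2.1
  have c1' : 4 * ((cnb G u).filter (fun x => 4 * δ * D < dd G u x)).card ≤ D := by
    exact_mod_cast c1
  have c2' : 4 * ((cnb G u').filter (fun x => 4 * δ * D < dd G u' x)).card ≤ D := by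
    exact_mod_cast c2
  have hD := Dec10_D h0 h1 h2
  have hI := hint u u'
  have hne : ((cnb G u ∩ cnb G u') \ ((cnb G u).filter (fun x => 4 * δ * D < dd G u x) ∪
      (cnb G u').filter (fun x => 4 * δ * D < dd G u' x))).Nonempty := by
    rw [← Finset.card_pos]
    have e1 := Finset.le_card_sdiff ((cnb G u).filter (fun x => 4 * δ * D < dd G u x) ∪
      (cnb G u').filter (fun x => 4 * δ * D < dd G u' x)) (cnb G u ∩ cnb G u')
    have e2 := Finset.card_union_le ((cnb G u).filter (fun x => 4 * δ * D < dd G u x))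
      ((cnb G u').filter (fun x => 4 * δ * D < dd G u' x))
    omega
  obtain ⟨y, hy⟩ := hne
  rw [mem_sdiff, mem_inter, mem_union, mem_filter, mem_filter] at hy
  obtain ⟨⟨a1, a2⟩, a3⟩ := hy
  push Not at a3
  have b1 := a3.1 a1
  have b2 := a3.2 a2
  have b3 := htri u y u'
  rw [hsym y u'] at b3
  have b4 : (dd G u u' : ℝ) ≤ dd G u y + dd G u' y := by exact_mod_cast b3
  have hDr : (10 : ℝ) ^ 6 ≤ D := by exact_mod_cast hD
  have b5 : (dd G u u' : ℝ) ≤ 8 / 10 ^ 6 * D := by nlinarith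
  have b6 : (D : ℝ) < 100 * ((D / 100 : ℕ) : ℝ) + 100 := by
    have : D < 100 * (D / 100) + 100 := by omega
    exact_mod_cast this
  have b7 : (dd G u u' : ℝ) ≤ ((D / 100 : ℕ) : ℝ) := by linarith
  exact_mod_cast b7

end

theorem thm_Dec10 (hMet : Pool.TN.St_Met) (hKb : St_Kb) : St_Dec10 := by
  intro V _ g D δ hreg h0 h1 h2
  obtain ⟨hsym, hint, htri, -⟩ := hMet V g.G D hreg
  have near := Dec10_near hMet hKb g.G D δ hreg h0 h1 h2
  have hD := Dec10_D h0 h1 h2
  have hδD : 0 ≤ δ * (D : ℝ) ^ 2 := by positivity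
  generalize hH : D / 100 = H at near
  -- maximal set
  let Q : Finset V → Prop := fun R => (∀ u ∈ R, (npr g.G u : ℝ) < δ * (D : ℝ) ^ 2) ∧
    ∀ u ∈ R, ∀ u' ∈ R, u ≠ u' → 2 * H < dd g.G u u'
  obtain ⟨R, hRm, hRmax⟩ := Finset.exists_max_image ((univ : Finset (Finset V)).filter Q)
    Finset.card ⟨∅, by rw [mem_filter]; exact ⟨mem_univ _, by simp [Q]⟩⟩
  have hRQ : Q R := (mem_filter.1 hRm).2
  have hcovR : ∀ u, (npr g.G u : ℝ) < δ * (D : ℝ) ^ 2 → ∃ u' ∈ R, dd g.G u' u ≤ H := by
    intro u hu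
    by_contra hcon
    push Not at hcon
    have huR : u ∉ R := by
      intro h3
      have := hcon u h3
      rw [Dec10_self] at this
      omega
    have key : ∀ v ∈ R, 2 * H < dd g.G v u := by
      intro v hv
      by_contra h3
      have h4 := near v u (hRQ.1 v hv) hu (not_lt.1 h3)
      have := hcon v hv
      omega
    have hQ : Q (insert u R) := by
      refine ⟨?_, ?_⟩
      · intro v hv
        rcases mem_insert.1 hv with h3 | h3
        · rw [h3]; exact hu
        · exact hRQ.1 v h3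
      · intro v hv v' hv' hne
        rcases mem_insert.1 hv with h3 | h3
        · rcases mem_insert.1 hv' with h4 | h4
          · exact absurd (h3.trans h4.symm) hne
          · rw [h3, hsym]
            exact key v' h4
        · rcases mem_insert.1 hv' with h4 | h4
          · rw [h4]
            exact key v h3
          · exact hRQ.2 v h3 v' h4 hne
    have := hRmax (insert u R) (mem_filter.2 ⟨mem_univ _, hQ⟩)
    rw [card_insert_of_notMem huR] at this
    omega
  have huniq : ∀ x, ∀ u ∈ R, ∀ u' ∈ R, x ∈ KH g.G H u → x ∈ KH g.G H u' → u = u' := by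
    intro x u hu u' hu' hx hx'
    by_contra hne
    rw [Dec10_KH] at hx hx'
    have a := htri u x u'
    rw [hsym x u'] at a
    have c := hRQ.2 u hu u' hu' hne
    omega
  let K : V → Option V :=
    fun v => if hx : ∃ u, u ∈ R ∧ v ∈ KH g.G H u then some hx.choose else none
  have hK1 : ∀ v u, u ∈ R → v ∈ KH g.G H u → K v = some u := by
    intro v u hu hv
    have hx : ∃ u, u ∈ R ∧ v ∈ KH g.G H u := ⟨u, hu, hv⟩
    have e : K v = some hx.choose := dif_pos hx
    rw [e]
    exact congrArg some (huniq v _ hx.choose_spec.1 u hu hx.choose_spec.2 hv)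
  have hK2 : ∀ v u, K v = some u → u ∈ R ∧ v ∈ KH g.G H u := by
    intro v u hv
    by_cases hx : ∃ u, u ∈ R ∧ v ∈ KH g.G H u
    · have e : K v = some hx.choose := dif_pos hx
      rw [e] at hv
      have : hx.choose = u := Option.some.inj hv
      rw [← this]
      exact hx.choose_spec
    · have e : K v = none := dif_neg hx
      rw [e] at hv
      cases hv
  have hself : ∀ u, u ∈ KH g.G H u := fun u => by
    rw [Dec10_KH, Dec10_self]; exact Nat.zero_le _
  have hKi : ∀ i ∈ R, univ.filter (fun v => K v = some i) = KH g.G H i := by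
    intro i hi
    ext v
    rw [mem_filter]
    exact ⟨fun h => (hK2 v i h.2).2, fun h => ⟨mem_univ _, hK1 v i hi h⟩⟩
  have hKi' : ∀ i, i ∉ R → univ.filter (fun v => K v = some i) = ∅ := by
    intro i hi
    rw [filter_eq_empty_iff]
    intro v _ hv
    exact hi (hK2 v i hv).1
  have hRi : ∀ i, K i = some i → i ∈ R := fun i h => (hK2 i i h).1
  have kb : ∀ u ∈ R, _ := fun u hu => hKb V g.G D δ u hreg h0 h1 h2 (hRQ.1 u hu)
  rw [hH] at kb
  have hout : ∀ w i, K w = some i →
      (nb g.G w).filter (fun v => K v ≠ K w) ⊆ nb g.G w \ KH g.G H i := by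
    intro w i hwi v hv
    rw [mem_filter] at hv
    rw [mem_sdiff]
    exact ⟨hv.1, fun hvK => hv.2 ((hK1 v i (hK2 w i hwi).1 hvK).trans hwi.symm)⟩
  refine ⟨K, ⟨hreg, ?_, ?_, ?_, ?_, ?_, ?_, ?_, ?_⟩⟩
  · -- rt
    intro i w hw
    exact hK1 i i (hK2 w i hw).1 (hself i)
  · -- loc
    intro i w hw
    exact (kb i (hK2 w i hw).1).2.2.2.2.2.2.2 w (hK2 w i hw).2
  · -- d2
    intro x hx
    by_contra hcon
    obtain ⟨u', hu', hd⟩ := hcovR x (not_le.1 hcon)
    have h3 : K x = some u' := hK1 x u' hu' (Dec10_KH.2 hd)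
    have h4 : K x = none := hx
    rw [h3] at h4
    cases h4
  · -- d3
    intro i hi
    have hiR := hRi i hi
    have k := kb i hiR
    have e : Gd.Ki { g with K := K } i = KH g.G H i := hKi i hiR
    rw [e]
    have k1 := k.1
    have k2 := k.2.1
    show ((KH g.G H i \ cnb g.G i).card : ℝ) + ((cnb g.G i \ KH g.G H i).card : ℝ) ≤ 102 * δ * D
    have h3 : 0 ≤ δ * D := by linarith
    nlinarith
  · -- d4
    intro w hw
    obtain ⟨i, hwi⟩ := Option.ne_none_iff_exists'.1 hw
    have hwi' : K w = some i := hwi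
    obtain ⟨hiR, hwK⟩ := hK2 w i hwi'
    have k := (kb i hiR).2.2.1 w hwK
    have := card_le_card (hout w i hwi')
    show 99 * ((nb g.G w).filter (fun v => K v ≠ K w)).card ≤ D
    omega
  · -- d4'
    intro w hw
    obtain ⟨i, hwi⟩ := Option.ne_none_iff_exists'.1 hw
    have hwi' : K w = some i := hwi
    obtain ⟨hiR, hwK⟩ := hK2 w i hwi'
    have k := (kb i hiR).2.2.2.1 w hwK
    have hsub : univ.filter (fun v => K v = K w ∧ v ≠ w ∧ ¬ g.G.Adj w v) ⊆
        KH g.G H i \ cnb g.G w := by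
      intro v hv
      rw [mem_filter] at hv
      rw [mem_sdiff]
      refine ⟨(hK2 v i (hv.2.1.trans hwi')).2, ?_⟩
      rw [Dec10_cnb]
      rintro (h3 | h3)
      · exact hv.2.2.1 h3
      · exact hv.2.2.2 h3
    have := card_le_card hsub
    show 98 * (univ.filter (fun v => K v = K w ∧ v ≠ w ∧ ¬ g.G.Adj w v)).card ≤ D
    omega
  · -- d5
    intro i
    by_cases hiR : i ∈ R
    · have e : Gd.Ki { g with K := K } i = KH g.G H i := hKi i hiR
      rw [e]
      have k := (kb i hiR).2.2.2.2.1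
      refine le_trans (sum_le_sum fun w hw => ?_) k
      have hwi : K w = some i := hK1 w i hiR hw
      have := card_le_card (hout w i hwi)
      show (((nb g.G w).filter (fun v => K v ≠ K w)).card : ℝ) ≤ _
      exact_mod_cast this
    · have e : Gd.Ki { g with K := K } i = ∅ := hKi' i hiR
      rw [e, sum_empty]
      nlinarith
  · -- d6
    intro i x hi hx
    have hiR := hRi i hi
    have e : Gd.Ki { g with K := K } i = KH g.G H i := hKi i hiR
    rw [e]
    have hxK : x ∉ KH g.G H i := fun h3 => hx (hK1 x i hiR h3)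
    exact (kb i hiR).2.2.2.2.2.1 x hxK

end Pool.TCV
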