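import Pool.Agent.Helper3.TCV.StA

/-!
# T10: the problem colours (helper35)
-/

set_option autoImplicit false

namespace Pool.TCV

open Pool.TC Pool.TCM Pool.TCS Pool.TN Finset
open scoped Classical

/-- double counting of the cells which leave the cluster -/
private theorem E31_out {P : Par} {V κ : Type} [Fintype V] [Fintype κ] {e : Ed V κ}
    (hQ : EdQ P e) (i : V) (A : Finset κ) (R : Finset V) (hR : ∀ w ∈ R, e.K w = some i) :
    ∑ a ∈ A, (R.filter (fun w => e.K (e.E.N a w) ≠ some i)).card ≤ ∑ w ∈ R, e.oo w := by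
  have h1 : ∑ a ∈ A, (R.filter (fun w => e.K (e.E.N a w) ≠ some i)).card =
      ∑ w ∈ R, (A.filter (fun a => e.K (e.E.N a w) ≠ some i)).card := by
    simp only [Finset.card_filter]
    exact Finset.sum_comm
  rw [h1]
  refine Finset.sum_le_sum fun w hw => ?_
  have hne : ∀ a, e.K (e.E.N a w) ≠ some i → e.E.N a w ≠ w := by
    intro a ha h
    rw [h] at ha
    exact ha (hR w hw)
  refine Finset.card_le_card_of_injOn (fun a => e.E.N a w) ?_ ?_
  · intro a ha
    have ha' : e.K (e.E.N a w) ≠ some i := (Finset.mem_filter.1 ha).2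
    rw [Finset.mem_coe, Finset.mem_filter]
    refine ⟨?_, ?_⟩
    · unfold nb
      rw [Finset.mem_filter]
      exact ⟨Finset.mem_univ _, hQ.sub a w (hne a ha')⟩
    · rw [hR w hw]
      exact ha'
  · intro a ha b hb hab
    have ha' : e.K (e.E.N a w) ≠ some i := (Finset.mem_filter.1 ha).2
    exact e.E.uniq a b w hab (hne a ha')

/-- [E31] the problem colours -/
theorem thm_E31 (hNumL : St_NumL) : St_E31 := by
  intro P V κ _ _ e hN hG hQ
  have L := hNumL P hN
  have X1 := L.X1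
  have hX1 : (1 : ℝ) ≤ P.X := le_trans (by norm_num) X1
  have hX0 : (0 : ℝ) < P.X := by linarith
  have hD1 : (1 : ℝ) ≤ P.D := by
    have := L.XD 0 (by norm_num)
    rwa [pow_zero] at this
  have hD0 : (0 : ℝ) < P.D := by linarith
  have hp1 : ∀ i, ((e.Pb P i).card : ℝ) ≤ P.pmax * P.D := by
    intro i
    have h1 : P.theta * P.D * ((e.Pb P i).card : ℝ) ≤
        ∑ a ∈ e.Pb P i, (((e.Ki i).filter (fun w => e.K (e.E.N a w) ≠ some i)).card : ℝ) := by
      rw [mul_comm, ← nsmul_eq_mul]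
      refine Finset.card_nsmul_le_sum _ _ _ fun a ha => ?_
      have h2 := (Finset.mem_filter.1 ha).2
      have h3 : (e.Ki i).filter (fun w => e.K (e.E.N a w) ≠ some i) =
          univ.filter (fun w => e.K w = some i ∧ e.K (e.E.N a w) ≠ some i) := by
        unfold Gd.Ki
        rw [Finset.filter_filter]
      rw [h3]
      exact h2.le
    have h4 := E31_out hQ i (e.Pb P i) (e.Ki i) (fun w hw => (Finset.mem_filter.1 hw).2)
    have h5 : ∑ a ∈ e.Pb P i, (((e.Ki i).filter (fun w => e.K (e.E.N a w) ≠ some i)).card : ℝ) ≤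
        ∑ w ∈ e.Ki i, (e.oo w : ℝ) := by
      exact_mod_cast h4
    have h6 := hG.d5 i
    have h7 : P.theta * P.D * ((e.Pb P i).card : ℝ) ≤ P.theta * P.D * (P.pmax * P.D) := by
      calc P.theta * P.D * ((e.Pb P i).card : ℝ) ≤ 103 * P.delta * P.D ^ 2 := (h1.trans h5).trans h6
        _ = P.pmax * P.theta * P.D ^ 2 := by rw [L.pm2]
        _ = _ := by ring
    exact le_of_mul_le_mul_left h7 (mul_pos L.th0 hD0)
  refine ⟨hp1, fun i hi => ?_⟩
  have hcell : ∀ a, (e.Rg P i).card ≤ (e.W0 P i a).card +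
      ((e.Rg P i).filter (fun w => e.K (e.E.N a w) ≠ some i)).card + 2 * P.X := by
    intro a
    set B : Finset V := (e.Rg P i).filter (fun w => e.K (e.E.N a w) = some i ∧
      e.z (e.E.N a w) ≠ e.E.N a w) with hB
    have h1 : e.Rg P i ⊆ e.W0 P i a ∪ (e.Rg P i).filter (fun w => e.K (e.E.N a w) ≠ some i) ∪ B := by
      intro w hw
      rw [Finset.mem_union, Finset.mem_union]
      by_cases h2 : e.K (e.E.N a w) = some i
      · by_cases h3 : e.z (e.E.N a w) = e.E.N a w
        · left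
          left
          unfold Ed.W0
          rw [Finset.mem_filter]
          refine ⟨Finset.mem_univ _, hw, ?_⟩
          by_cases h4 : e.E.N a w = w
          · exact Or.inl h4
          · exact Or.inr ⟨⟨h4, h3⟩, h2⟩
        · right
          rw [hB, Finset.mem_filter]
          exact ⟨hw, h2, h3⟩
      · left
        right
        rw [Finset.mem_filter]
        exact ⟨hw, h2⟩
    have h5 : B.card ≤ 2 * P.X := by
      refine le_trans ?_ (hQ.r4' i)
      refine Finset.card_le_card_of_injOn (fun w => e.E.N a w) ?_ ?_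
      · intro w hw
        rw [Finset.mem_coe, hB, Finset.mem_filter] at hw
        rw [Finset.mem_coe, Finset.mem_filter]
        exact ⟨Finset.mem_univ _, hw.2⟩
      · intro w _ w' _ hww
        have h6 : e.E.N a w = e.E.N a w' := hww
        rw [← e.E.inv a w, h6, e.E.inv]
    calc (e.Rg P i).card ≤ (e.W0 P i a ∪ (e.Rg P i).filter (fun w => e.K (e.E.N a w) ≠ some i) ∪ B).card :=
          Finset.card_le_card h1
      _ ≤ (e.W0 P i a ∪ (e.Rg P i).filter (fun w => e.K (e.E.N a w) ≠ some i)).card + B.card :=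
          Finset.card_union_le _ _
      _ ≤ (e.W0 P i a).card + ((e.Rg P i).filter (fun w => e.K (e.E.N a w) ≠ some i)).card + B.card := by
          gcongr
          exact Finset.card_union_le _ _
      _ ≤ _ := by gcongr
  have hsum : (e.Pb P i).card * (e.Rg P i).card ≤ ∑ a ∈ e.Pb P i, (e.W0 P i a).card +
      (e.Rg P i).card * e.lam i + (e.Pb P i).card * (2 * P.X) := by
    have h1 : (e.Pb P i).card * (e.Rg P i).card ≤ ∑ a ∈ e.Pb P i, ((e.W0 P i a).card +
      ((e.Rg P i).filter (fun w => e.K (e.E.N a w) ≠ some i)).card + 2 * P.X) := by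
      rw [← smul_eq_mul]
      exact Finset.card_nsmul_le_sum _ _ _ fun a _ => hcell a
    rw [Finset.sum_add_distrib, Finset.sum_add_distrib, Finset.sum_const, smul_eq_mul] at h1
    have h2 := E31_out hQ i (e.Pb P i) (e.Rg P i) (fun w hw => (Finset.mem_filter.1 hw).2.1)
    have h3 := hG.ss i
    have h4 : ∑ a ∈ e.Pb P i, ((e.Rg P i).filter (fun w => e.K (e.E.N a w) ≠ some i)).card ≤
        (e.Rg P i).card * e.lam i := h2.trans h3
    omega
  have hsumR : ((e.Pb P i).card : ℝ) * (e.Rg P i).card ≤ ∑ a ∈ e.Pb P i, ((e.W0 P i a).card : ℝ) +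
      (e.Rg P i).card * e.lam i + (e.Pb P i).card * (2 * P.X) := by
    exact_mod_cast hsum
  have hn : (999 : ℝ) * P.D ≤ 1000 * (e.Rg P i).card := by
    exact_mod_cast hG.n1 i hi
  have hpx : (P.X : ℝ) * P.pmax ≤ 1 / 10 ^ 20 := by
    have h1 : (P.X : ℝ) ^ 2 ≤ (P.X : ℝ) ^ 4000 := pow_le_pow_right₀ hX1 (by norm_num)
    have h2 : (P.X : ℝ) ^ 2 * P.pmax ≤ 1 := (mul_le_mul_of_nonneg_right h1 L.pm0.le).trans L.pm1
    have h3 : (P.X : ℝ) * (P.X * P.pmax) ≤ 1 := by
      calc (P.X : ℝ) * (P.X * P.pmax) = (P.X : ℝ) ^ 2 * P.pmax := by ring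
        _ ≤ 1 := h2
    rw [le_div_iff₀ (by norm_num)]
    have h4 : 0 ≤ (P.X : ℝ) * P.pmax := mul_nonneg hX0.le L.pm0.le
    calc (P.X : ℝ) * P.pmax * 10 ^ 20 ≤ (P.X : ℝ) * P.pmax * P.X := by gcongr
      _ = (P.X : ℝ) * (P.X * P.pmax) := by ring
      _ ≤ 1 := h3
  have hPX : ((e.Pb P i).card : ℝ) * (2 * P.X) ≤ 1 / 1000 * (e.Rg P i).card := by
    calc ((e.Pb P i).card : ℝ) * (2 * P.X) ≤ (P.pmax * P.D) * (2 * P.X) := by
          gcongr
          exact hp1 i
      _ = 2 * (P.X * P.pmax) * P.D := by ring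
      _ ≤ 2 * (1 / 10 ^ 20) * P.D := by gcongr
      _ ≤ 1 / 1000 * (e.Rg P i).card := by nlinarith
  nlinarith

end Pool.TCV
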