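import Pool.Agent.Helper3.TCV.StA
import Pool.Agent.Helper3.TCM.Core
import Pool.Agent.Helper3.TCM.Ball

/-!
EDA: the edge colouring (helper16).
-/

set_option autoImplicit false

namespace Pool.TCV

open Pool.TC Pool.TCM Pool.TCS Pool.TN Finset
open scoped Classical

private theorem eda_mem_J0 {s l ρ : ℕ} (r : ℕ) (c : Col s l ρ) :
    c ∈ (J0 r : Finset (Col s l ρ)) ↔
      ∃ q a, c = Sum.inl (q, a) ∧ ∀ i : Fin l, i.val < r → a i = false := by
  simp only [J0, mem_filter, mem_univ, true_and]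

private theorem eda_MJ {s l ρ : ℕ} {r : ℕ} (hrl : r ≤ l) (c : Col s l ρ) :
    MJ r l c = if c ∈ (J0 r : Finset (Col s l ρ)) then 1 else 0 := by
  rcases c with ⟨q, a⟩ | i
  · have h2 : r - l = 0 := by omega
    by_cases h : ∀ i : Fin l, i.val < r → a i = false
    · have h1 : (Sum.inl (q, a) : Col s l ρ) ∈ (J0 r : Finset (Col s l ρ)) :=
        (eda_mem_J0 r _).2 ⟨q, a, rfl, h⟩
      rw [if_pos h1]
      show (if (∀ i : Fin l, i.val < r → i.val < l → a i = false) then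
        (1 / 2 : ℝ) ^ (r - l) else 0) = 1
      rw [if_pos (fun i hi _ => h i hi), h2, pow_zero]
    · have h1 : (Sum.inl (q, a) : Col s l ρ) ∉ (J0 r : Finset (Col s l ρ)) := by
        rw [eda_mem_J0]
        rintro ⟨q', a', h3, h4⟩
        have h5 := Sum.inl_injective h3
        rw [Prod.mk.injEq] at h5
        exact h (by rw [h5.2]; exact h4)
      rw [if_neg h1]
      show (if (∀ i : Fin l, i.val < r → i.val < l → a i = false) then
        (1 / 2 : ℝ) ^ (r - l) else 0) = 0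
      rw [if_neg (fun h3 => h (fun i hi => h3 i hi i.isLt))]
  · have h1 : (Sum.inr i : Col s l ρ) ∉ (J0 r : Finset (Col s l ρ)) := by
      rw [eda_mem_J0]
      rintro ⟨q, a, h, _⟩
      cases h
    rw [if_neg h1]
    rfl

private theorem eda_card_J0 {s l ρ : ℕ} {r : ℕ} (hrl : r ≤ l) :
    (J0 r : Finset (Col s l ρ)).card = s * 2 ^ (l - r) := by
  have h := card_Jp (V := Unit) (s := s) (l := l) (ρ := ρ) r hrl (fun _ _ => false) ()
  rw [← h]
  congr 1

private theorem eda_card_filter {A : Type} (s : Finset A) (p : A → Prop)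
    (i1 i2 : DecidablePred p) :
    (@Finset.filter A p i1 s).card = (@Finset.filter A p i2 s).card := by
  have h : i1 = i2 := Subsingleton.elim _ _
  rw [h]

/-- the local lemma condition, natural numbers -/
private theorem eda_nat {D X l : ℕ} (hX : 10 ^ 20 ≤ X) (hXD : X = Nat.log 2 D) (hl : l + 1 ≤ X) :
    4 * (2 * (D + 1) ^ 2 * LL D (l + 1) * (D + 3) + 1) ≤ 2 ^ X ^ 3 := by
  have hD : D + 1 ≤ 2 ^ (X + 1) := by
    have := Nat.lt_pow_succ_log_self (b := 2) (by norm_num) D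
    rw [← hXD] at this
    exact this
  have h1 : (D + 1) ^ (16 * (l + 1) + 3) ≤ 2 ^ ((X + 1) * (16 * X + 3)) := by
    calc (D + 1) ^ (16 * (l + 1) + 3) ≤ (2 ^ (X + 1)) ^ (16 * (l + 1) + 3) :=
          Nat.pow_le_pow_left hD _
      _ ≤ (2 ^ (X + 1)) ^ (16 * X + 3) :=
          Nat.pow_le_pow_right (Nat.pow_pos (by norm_num)) (by omega)
      _ = 2 ^ ((X + 1) * (16 * X + 3)) := (pow_mul _ _ _).symm
  have hX2 : X ≤ 2 ^ X := Nat.lt_two_pow_self.le
  have h2 : LL D (l + 1) ≤ 2 ^ (10 + X + (X + 1) * (16 * X + 3)) := by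
    unfold LL
    have h3 : 384 * (l + 1) * (D + 1) ^ (16 * (l + 1) + 3) ≤
        2 ^ 9 * 2 ^ X * 2 ^ ((X + 1) * (16 * X + 3)) :=
      Nat.mul_le_mul (Nat.mul_le_mul (by norm_num) (hl.trans hX2)) h1
    have h4 : 2 ^ 9 * 2 ^ X * 2 ^ ((X + 1) * (16 * X + 3)) =
        2 ^ (9 + X + (X + 1) * (16 * X + 3)) := by
      rw [← pow_add, ← pow_add]
    have h5 : 4 ≤ 2 ^ (9 + X + (X + 1) * (16 * X + 3)) := by
      calc 4 = 2 ^ 2 := by norm_num
        _ ≤ 2 ^ (9 + X + (X + 1) * (16 * X + 3)) := Nat.pow_le_pow_right (by norm_num) (by omega)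
    have h6 : 2 ^ (10 + X + (X + 1) * (16 * X + 3)) =
        2 * 2 ^ (9 + X + (X + 1) * (16 * X + 3)) := by
      rw [← pow_succ']
      congr 1
      omega
    rw [h6]
    omega
  have h3 : (D + 1) ^ 2 ≤ 2 ^ (2 * X + 2) := by
    calc (D + 1) ^ 2 ≤ (2 ^ (X + 1)) ^ 2 := Nat.pow_le_pow_left hD 2
      _ = 2 ^ (2 * X + 2) := by rw [← pow_mul]; congr 1; ring
  have h4 : D + 3 ≤ 2 ^ (X + 2) := by
    have h5 : 2 ^ (X + 2) = 2 * 2 ^ (X + 1) := by rw [← pow_succ']
    have h6 : 2 ≤ 2 ^ (X + 1) := by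
      calc 2 = 2 ^ 1 := by norm_num
        _ ≤ 2 ^ (X + 1) := Nat.pow_le_pow_right (by norm_num) (by omega)
    rw [h5]
    omega
  have h5 : 2 * (D + 1) ^ 2 * LL D (l + 1) * (D + 3) ≤
      2 * 2 ^ (2 * X + 2) * 2 ^ (10 + X + (X + 1) * (16 * X + 3)) * 2 ^ (X + 2) :=
    Nat.mul_le_mul (Nat.mul_le_mul (Nat.mul_le_mul le_rfl h3) h2) h4
  have h6 : 2 * 2 ^ (2 * X + 2) * 2 ^ (10 + X + (X + 1) * (16 * X + 3)) * 2 ^ (X + 2) =
      2 ^ (15 + 4 * X + (X + 1) * (16 * X + 3)) := by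
    rw [← pow_succ', ← pow_add, ← pow_add]
    congr 1
    ring
  rw [h6] at h5
  have h7 : 1 ≤ 2 ^ (15 + 4 * X + (X + 1) * (16 * X + 3)) := Nat.one_le_two_pow
  have h8 : 2 ^ (18 + 4 * X + (X + 1) * (16 * X + 3)) =
      8 * 2 ^ (15 + 4 * X + (X + 1) * (16 * X + 3)) := by
    have : 18 + 4 * X + (X + 1) * (16 * X + 3) =
        3 + (15 + 4 * X + (X + 1) * (16 * X + 3)) := by ring
    rw [this, pow_add]
    norm_num
  have h9 : 18 + 4 * X + (X + 1) * (16 * X + 3) ≤ X ^ 3 := by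
    have h10 : 100 ≤ X := le_trans (by norm_num) hX
    have h11 : 100 * X ^ 2 ≤ X ^ 3 := by
      calc 100 * X ^ 2 ≤ X * X ^ 2 := Nat.mul_le_mul_right _ h10
        _ = X ^ 3 := by ring
    nlinarith
  have h10 : 2 ^ (18 + 4 * X + (X + 1) * (16 * X + 3)) ≤ 2 ^ X ^ 3 :=
    Nat.pow_le_pow_right (by norm_num) h9
  rw [h8] at h10
  omega

private theorem eda_exp {P : Par} (hN : Num10 P) :
    4 * Real.exp (-P.Lam) * (2 * ((P.D : ℝ) + 1) ^ 2 * LL P.D (P.l + 1) * (P.D + 3) + 1) ≤ 1 := by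
  have h1 := eda_nat hN.X0 hN.XL hN.lX
  have h2 : (4 : ℝ) * (2 * ((P.D : ℝ) + 1) ^ 2 * LL P.D (P.l + 1) * (P.D + 3) + 1) ≤
      (2 : ℝ) ^ (P.X ^ 3) := by
    exact_mod_cast h1
  have h3 : (2 : ℝ) ^ (P.X ^ 3) ≤ Real.exp P.Lam := by
    rw [hN.Lam]
    have h4 : Real.exp ((P.X : ℝ) ^ 3) = Real.exp 1 ^ (P.X ^ 3) := by
      rw [← Real.exp_nat_mul]
      congr 1
      push_cast
      ring
    rw [h4]
    exact pow_le_pow_left₀ (by norm_num) (by linarith [Real.exp_one_gt_d9]) _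
  calc 4 * Real.exp (-P.Lam) * (2 * ((P.D : ℝ) + 1) ^ 2 * LL P.D (P.l + 1) * (P.D + 3) + 1)
      = Real.exp (-P.Lam) *
        (4 * (2 * ((P.D : ℝ) + 1) ^ 2 * LL P.D (P.l + 1) * (P.D + 3) + 1)) := by ring
    _ ≤ Real.exp (-P.Lam) * Real.exp P.Lam :=
        mul_le_mul_of_nonneg_left (h2.trans h3) (Real.exp_pos _).le
    _ = 1 := by rw [← Real.exp_add]; simp

private theorem eda_dev {P : Par} (hN : Num10 P) (hL : NumL P) :
    8 * ((P.l : ℝ) + 1) * Real.sqrt (2 * ((P.D : ℝ) + 1) * P.Lam) ≤ P.nz := by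
  have hD1 : (1 : ℝ) ≤ P.D := by simpa using hL.XD 0 (by norm_num)
  have hX := hL.X1
  have hX1 : (8 : ℝ) ≤ P.X := le_trans (by norm_num) hX
  have hX12 : (2 : ℝ) ≤ (P.X : ℝ) ^ 12 := by
    calc (2 : ℝ) ≤ P.X := by linarith
      _ ≤ (P.X : ℝ) ^ 12 := le_self_pow₀ (by linarith) (by norm_num)
  have h1 := hL.dev ((P.D : ℝ) + 1) (by linarith) (by nlinarith)
  refine le_trans ?_ h1
  refine mul_le_mul_of_nonneg_right ?_ (Real.sqrt_nonneg _)
  have h2 : ((P.l : ℝ) + 1) ≤ P.X := by exact_mod_cast hN.lX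
  have h3 : (0 : ℝ) ≤ P.l := Nat.cast_nonneg _
  nlinarith

private theorem eda_gY {P : Par} (hN : Num10 P) (hL : NumL P) :
    (Real.sqrt ((P.D : ℝ) + 1) * (1 / Real.sqrt 2) ^ P.l + 14 * Real.sqrt P.Lam) ^ 2 + 1 ≤
      P.t0 := by
  have hX := hL.X1
  have h1 : (Real.sqrt ((P.D : ℝ) + 1) * (1 / Real.sqrt 2) ^ P.l) ^ 2 ≤ 17 := by
    rw [mul_pow, Real.sq_sqrt (by positivity), ← pow_mul, mul_comm P.l 2, pow_mul, div_pow,
      Real.sq_sqrt (by norm_num), one_pow]
    have h2 : ((P.D : ℝ)) ≤ 16 * 2 ^ P.l := by exact_mod_cast hN.lD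
    have h3 : (1 : ℝ) ≤ 2 ^ P.l := one_le_pow₀ (by norm_num)
    have h4 : (0 : ℝ) < 2 ^ P.l := by positivity
    rw [one_div, inv_pow, ← div_eq_mul_inv, div_le_iff₀ h4]
    linarith
  have h2 : (14 * Real.sqrt P.Lam) ^ 2 = 196 * (P.X : ℝ) ^ 3 := by
    rw [mul_pow, Real.sq_sqrt (by linarith [hL.La]), hN.Lam]
    norm_num
  have h3 : (P.t0 : ℝ) = (P.X : ℝ) ^ 4 := by
    rw [hN.t0]
    push_cast
    ring
  rw [h3]
  have h4 : (Real.sqrt ((P.D : ℝ) + 1) * (1 / Real.sqrt 2) ^ P.l + 14 * Real.sqrt P.Lam) ^ 2 ≤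
      2 * 17 + 2 * (196 * (P.X : ℝ) ^ 3) := by
    rw [← h2]
    nlinarith [sq_nonneg (Real.sqrt ((P.D : ℝ) + 1) * (1 / Real.sqrt 2) ^ P.l -
      14 * Real.sqrt P.Lam)]
  have h5 : (P.X : ℝ) ^ 4 = P.X * (P.X : ℝ) ^ 3 := by ring
  have h6 : (1000 : ℝ) ≤ P.X := le_trans (by norm_num) hX
  have h7 : (1 : ℝ) ≤ (P.X : ℝ) ^ 3 := one_le_pow₀ (by linarith)
  nlinarith

theorem thm_EdA (hNumL : St_NumL) (hRun10 : St_Run10) : St_EdA := by
  intro P V _ g hN hG
  have hL := hNumL P hN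
  have hD : ∀ u, (nb g.G u).card ≤ P.D := fun u => (hG.reg u).le
  have hX := hL.X1
  have hX1 : (1000000 : ℝ) ≤ P.X := le_trans (by norm_num) hX
  have hDX : (P.X : ℝ) ≤ P.D := by simpa using hL.XD 1 (by norm_num)
  have hDR : (1000000 : ℝ) ≤ P.D := hX1.trans hDX
  have hnz : (P.X : ℝ) * P.nz ≤ P.D := by simpa using hL.nzD 1 (by norm_num)
  have hnz0 := hL.nz1
  have hnzD : 1000000 * P.nz ≤ P.D := by nlinarith
  have hpa : (1 : ℝ) ≤ P.pa := by
    have : (0 : ℝ) < P.pa := by exact_mod_cast hL.pa0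
    have h1 : 0 < P.pa := by exact_mod_cast this
    exact_mod_cast h1
  have hφ0 : (0 : ℝ) ≤ 1 / (2 * (P.pa : ℝ)) := by positivity
  have hφ1 : 1 / (2 * (P.pa : ℝ)) ≤ 1 := by
    rw [div_le_one (by positivity)]
    linarith
  have hdev := eda_dev hN hL
  have hgY := eda_gY hN hL
  obtain ⟨E, z, m, hst, hX2, hX7, hY⟩ := hRun10 V g.G (g.A P) P.D P.s P.l P.lo P.r
    (1 / (2 * (P.pa : ℝ))) P.Lam hD hN.s2 hN.lol hN.sum hN.r7 hN.rl hφ0 hφ1
    (by linarith [hL.La]) (eda_exp hN) (by linarith)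
  rw [← hL.thp1] at hX2
  have hl7 : 7 ≤ P.l := hN.r7.trans hN.rl
  have hcol : Fintype.card (Col P.s P.l P.lo) = P.D + 1 := by
    rw [← hN.sum]
    simp
  have hJr : (J0 P.r : Finset (Col P.s P.l P.lo)).card = P.s * 2 ^ (P.l - P.r) :=
    eda_card_J0 hN.rl
  have hJ7 : (J0 7 : Finset (Col P.s P.l P.lo)).card = P.s * 2 ^ (P.l - 7) := eda_card_J0 hl7
  have hJ1 : 128 * (J0 7 : Finset (Col P.s P.l P.lo)).card ≤ P.D + 1 := by
    rw [hJ7, ← hN.sum]
    have h1 : 2 ^ P.l = 128 * 2 ^ (P.l - 7) := by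
      have : P.l = 7 + (P.l - 7) := by omega
      conv_lhs => rw [this, pow_add]
      norm_num
    have h2 : 128 * (P.s * 2 ^ (P.l - 7)) = P.s * 2 ^ P.l := by rw [h1]; ring
    omega
  have hJ1R : 128 * ((J0 7 : Finset (Col P.s P.l P.lo)).card : ℝ) ≤ (P.D : ℝ) + 1 := by
    exact_mod_cast hJ1
  -- the colours of the set `Q`
  obtain ⟨Q, hQ1, hQ2⟩ : ∃ Q ⊆ (J0 7 : Finset (Col P.s P.l P.lo))ᶜ,
      Q.card = ⌊P.rho * P.D⌋₊ := by
    apply Finset.exists_subset_card_eq
    rw [card_compl, hcol]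
    have h1 : ((⌊P.rho * P.D⌋₊ : ℕ) : ℝ) ≤ P.rho * P.D := hL.rhoQ.2
    have h2 : P.rho ≤ 1 / 2 := by
      have h3 := hL.rho1
      have h4 : (2 : ℝ) ≤ (P.X : ℝ) ^ 13 := by
        calc (2 : ℝ) ≤ P.X := by linarith
          _ ≤ (P.X : ℝ) ^ 13 := le_self_pow₀ (by linarith) (by norm_num)
      have h5 := hL.rho0
      nlinarith
    have h3 : ((⌊P.rho * P.D⌋₊ : ℕ) : ℝ) + (J0 7 : Finset (Col P.s P.l P.lo)).card ≤
        (P.D : ℝ) + 1 := by nlinarith
    have h4 : ⌊P.rho * P.D⌋₊ + (J0 7 : Finset (Col P.s P.l P.lo)).card ≤ P.D + 1 := by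
      exact_mod_cast h3
    omega
  have hnb : ∀ u w, w ∈ nb g.G u ↔ g.G.Adj u w := by
    intro u w
    simp [nb]
  -- the colours which are not fixed
  have hfix : ∀ v, P.D ≤ (univ.filter (fun c => E.N c v ≠ v)).card + 1 := by
    intro u
    have h1 : nb g.G u ⊆ insert (z u) ((univ.filter (fun c => E.N c u ≠ u)).image
        (fun c => E.N c u)) := by
      intro v hv
      have hv' := (hnb u v).1 hv
      rw [mem_insert]
      rcases hst.cov u v hv' with ⟨c, hc⟩ | h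
      · right
        rw [mem_image]
        refine ⟨c, ?_, hc⟩
        rw [mem_filter]
        refine ⟨mem_univ _, ?_⟩
        rw [hc]
        exact hv'.ne.symm
      · exact Or.inl h.symm
    rw [← hG.reg u]
    exact (card_le_card h1).trans ((card_insert_le _ _).trans
      (Nat.add_le_add_right card_image_le 1))
  refine ⟨{ g with
    E := E
    z := z
    m := m
    J0 := J0 P.r
    J1 := J0 7
    Q := Q
    nbl := fun _ => 0
    Gam := fun _ _ => ∅ }, rfl, ?_⟩
  refine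
    { col := hcol
      zinv := hst.zinv
      zadj := hst.zadj
      sub := hst.sub
      cov := hst.cov
      miss := hst.miss
      j01 := ?_
      j0 := ?_
      j1 := hJ1
      q1 := fun a ha => mem_compl.1 (hQ1 ha)
      q2 := hQ2
      r1 := ?_
      r2 := ?_
      r3 := ?_
      r4 := ?_
      r4' := ?_ }
  · -- j01
    intro c hc
    obtain ⟨q, a, h1, h2⟩ := (eda_mem_J0 _ _).1 hc
    exact (eda_mem_J0 _ _).2 ⟨q, a, h1, fun i hi => h2 i (lt_of_lt_of_le hi hN.r7)⟩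
  · -- j0
    show ((J0 P.r : Finset (Col P.s P.l P.lo)).card : ℝ) ≤ (1 / 2) ^ P.r * ((P.D : ℝ) + 1)
    rw [hJr]
    have h1 : ((P.s * 2 ^ P.l : ℕ) : ℝ) ≤ (P.D : ℝ) + 1 := by
      have := hN.sum
      have h2 : P.s * 2 ^ P.l ≤ P.D + 1 := by omega
      exact_mod_cast h2
    have h3 : ((P.s * 2 ^ (P.l - P.r) : ℕ) : ℝ) = (1 / 2) ^ P.r * ((P.s * 2 ^ P.l : ℕ) : ℝ) := by
      have h4 : (2 : ℝ) ^ P.l = 2 ^ P.r * 2 ^ (P.l - P.r) := by
        rw [← pow_add]
        congr 1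
        have := hN.rl
        omega
      push_cast
      rw [h4, one_div, inv_pow]
      field_simp
    rw [h3]
    exact mul_le_mul_of_nonneg_left h1 (by positivity)
  · -- r1
    intro v
    have h1 := hX2 v
    rw [← hJr] at h1
    refine le_trans (le_of_eq ?_) (h1.trans (by linarith))
    unfold X
    refine sum_congr rfl (fun c _ => ?_)
    dsimp only
    by_cases h3 : E.N c v = v
    · simp [h3]
    · rw [if_neg h3]
      unfold G10
      rw [eda_MJ hN.rl, eda_MJ hN.rl]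
      by_cases h4 : c ∈ (J0 P.r : Finset (Col P.s P.l P.lo))
      · simp [h4]
      · by_cases h5 : g.A P (E.N c v)
        · by_cases h6 : m (E.N c v) ∈ (J0 P.r : Finset (Col P.s P.l P.lo))
          · simp [h3, h4, h5, h6]
          · simp [h3, h4, h5, h6]
        · simp [h3, h4, h5]
  · -- r2
    intro v
    suffices hs : P.D ≤ 300 * ((nb g.G v).filter
        (fun w => m w ∈ (J0 7 : Finset (Col P.s P.l P.lo)))).card by
      exact hs.trans (Nat.mul_le_mul_left _ (le_of_eq (eda_card_filter _ _ _ _)))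
    have h1 := hX7 v
    rw [← hJ7] at h1
    have h2 : X E m (G5 7 1 P.l) v = ((univ.filter (fun c => E.N c v ≠ v ∧
        c ∉ (J0 7 : Finset (Col P.s P.l P.lo)) ∧
        m (E.N c v) ∉ (J0 7 : Finset (Col P.s P.l P.lo)))).card : ℝ) := by
      unfold X
      rw [card_filter]
      push_cast
      refine sum_congr rfl (fun c _ => ?_)
      by_cases h3 : E.N c v = v
      · simp [h3]
      · rw [if_neg h3]
        unfold G5
        rw [eda_MJ hl7, eda_MJ hl7]
        by_cases h4 : c ∈ (J0 7 : Finset (Col P.s P.l P.lo))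
        · simp [h4]
        · by_cases h5 : m (E.N c v) ∈ (J0 7 : Finset (Col P.s P.l P.lo))
          · simp [h3, h4, h5]
          · simp [h3, h4, h5]
    rw [h2] at h1
    -- counting
    have h3 : (univ.filter (fun c => E.N c v ≠ v)) ⊆
        (J0 7 : Finset (Col P.s P.l P.lo)) ∪ (univ.filter (fun c => E.N c v ≠ v ∧
          c ∉ (J0 7 : Finset (Col P.s P.l P.lo)) ∧
          m (E.N c v) ∉ (J0 7 : Finset (Col P.s P.l P.lo)))) ∪
        (univ.filter (fun c => E.N c v ≠ v ∧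
          c ∉ (J0 7 : Finset (Col P.s P.l P.lo)) ∧
          m (E.N c v) ∈ (J0 7 : Finset (Col P.s P.l P.lo)))) := by
      intro c hc
      rw [mem_filter] at hc
      rw [mem_union, mem_union, mem_filter, mem_filter]
      by_cases h4 : c ∈ (J0 7 : Finset (Col P.s P.l P.lo))
      · exact Or.inl (Or.inl h4)
      · by_cases h5 : m (E.N c v) ∈ (J0 7 : Finset (Col P.s P.l P.lo))
        · exact Or.inr ⟨mem_univ _, hc.2, h4, h5⟩
        · exact Or.inl (Or.inr ⟨mem_univ _, hc.2, h4, h5⟩)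
    have h4 := (card_le_card h3).trans ((card_union_le _ _).trans
      (Nat.add_le_add_right (card_union_le _ _) _))
    have h5 : (univ.filter (fun c => E.N c v ≠ v ∧
          c ∉ (J0 7 : Finset (Col P.s P.l P.lo)) ∧
          m (E.N c v) ∈ (J0 7 : Finset (Col P.s P.l P.lo)))).card ≤
        ((nb g.G v).filter (fun w => m w ∈ (J0 7 : Finset (Col P.s P.l P.lo)))).card := by
      apply card_le_card_of_injOn (fun c => E.N c v)
      · intro c hc
        have hc' := (mem_filter.1 (mem_coe.1 hc)).2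
        exact mem_coe.2 (mem_filter.2 ⟨(hnb _ _).2 (hst.sub c v hc'.1), hc'.2.2⟩)
      · intro c hc c' _ h
        have hc' := (mem_filter.1 (mem_coe.1 hc)).2
        exact E.uniq _ _ _ h hc'.1
    have h6 := hfix v
    have h7 : (P.D : ℝ) ≤ (J0 7 : Finset (Col P.s P.l P.lo)).card +
        ((univ.filter (fun c => E.N c v ≠ v ∧
          c ∉ (J0 7 : Finset (Col P.s P.l P.lo)) ∧
          m (E.N c v) ∉ (J0 7 : Finset (Col P.s P.l P.lo)))).card : ℝ) +
        ((nb g.G v).filter (fun w => m w ∈ (J0 7 : Finset (Col P.s P.l P.lo)))).card + 1 := by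
      have := h6.trans (Nat.add_le_add_right (h4.trans (Nat.add_le_add_left h5 _)) 1)
      exact_mod_cast this
    have h8 : ((1 : ℝ) / 2) ^ 7 / 2 = 1 / 256 := by norm_num
    rw [h8] at h1
    have h9 : (P.D : ℝ) ≤ 300 * (((nb g.G v).filter
        (fun w => m w ∈ (J0 7 : Finset (Col P.s P.l P.lo)))).card : ℝ) := by
      linarith
    exact_mod_cast h9
  · -- r3
    intro v a ha
    suffices hs : ((nb g.G v).filter (fun w => m w = a)).card ≤ P.t0 by
      exact le_trans (le_of_eq (eda_card_filter _ _ _ _)) hs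
    obtain ⟨q', a', ha', _⟩ := (eda_mem_J0 7 a).1 ha
    have h1 : (nb g.G v).filter (fun w => m w = a) ⊆
        insert (z v) ((univ.filter (fun c => E.N c v ≠ v ∧
          m (E.N c v) = Sum.inl (q', a'))).image (fun c => E.N c v)) := by
      intro u hu
      rw [mem_filter, hnb] at hu
      obtain ⟨h2, h3⟩ := hu
      rw [mem_insert]
      rcases hst.cov v u h2 with ⟨c, hc⟩ | h4
      · right
        rw [mem_image]
        refine ⟨c, ?_, hc⟩
        simp only [mem_filter, mem_univ, true_and]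
        rw [hc, h3, ha']
        exact ⟨h2.ne.symm, rfl⟩
      · exact Or.inl h4.symm
    have h2 : ((univ.filter (fun c => E.N c v ≠ v ∧
        m (E.N c v) = Sum.inl (q', a'))).card : ℝ) ≤ X E m (gY P.l (q', a')) v := by
      unfold X
      rw [card_filter]
      push_cast
      refine sum_le_sum (fun c _ => ?_)
      by_cases h3 : E.N c v = v
      · simp [h3]
      · simp only [h3, not_false_eq_true, true_and, if_false, ne_eq]
        by_cases h4 : m (E.N c v) = Sum.inl (q', a')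
        · rw [h4]
          simp [gY]
        · simp only [h4, if_false]
          unfold gY
          rcases m (E.N c v) with ⟨q, b⟩ | i
          · dsimp only
            split_ifs
            · exact zero_le_one
            · exact le_refl _
          · exact le_refl _
    have h3 : (((nb g.G v).filter (fun w => m w = a)).card : ℝ) ≤ P.t0 := by
      have h4 := (card_le_card h1).trans ((card_insert_le _ _).trans
        (Nat.add_le_add_right card_image_le 1))
      have h5 : (((nb g.G v).filter (fun w => m w = a)).card : ℝ) ≤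
          ((univ.filter (fun c => E.N c v ≠ v ∧
            m (E.N c v) = Sum.inl (q', a'))).card : ℝ) + 1 := by
        exact_mod_cast h4
      have h6 := hY v (q', a')
      linarith
    exact_mod_cast h3
  · -- r4
    intro v
    show ((ball g.G 8 v).filter (fun w => z w ≠ w)).card ≤ 2 * P.X
    have h1 : (ball g.G 8 v).filter (fun w => z w ≠ w) ⊆
        (ball g.G (8 * (P.l + 1)) v).filter (fun w => z w ≠ w) := by
      intro w hw
      rw [mem_filter] at hw ⊢
      exact ⟨ball_mono (by omega) hw.1, hw.2⟩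
    have h2 := (card_le_card h1).trans (hst.spr v)
    have h3 := hN.lX
    omega
  · -- r4'
    intro i
    show (univ.filter (fun w => g.K w = some i ∧ z w ≠ w)).card ≤ 2 * P.X
    have h1 : univ.filter (fun w => g.K w = some i ∧ z w ≠ w) ⊆
        (ball g.G (8 * (P.l + 1)) i).filter (fun w => z w ≠ w) := by
      intro w hw
      rw [mem_filter] at hw ⊢
      exact ⟨ball_mono (by omega) (hG.loc i w hw.2.1), hw.2.2⟩
    have h2 := (card_le_card h1).trans (hst.spr i)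
    have h3 := hN.lX
    omega

end Pool.TCV
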