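import Pool.Agent.Helper3.TCV.StA

/-!
# T10, section 3: assembly of the edge colouring and the blocks
-/

set_option autoImplicit false

namespace Pool.TCV

open Pool.TC Pool.TCM Pool.TCS Pool.TN Finset
open scoped Classical

/-- the blocks of one cluster -/
theorem EdB_blocks (hBlk : St_Blk) {κ : Type} (Pb : Finset κ) (x : κ → ℕ) (n lam : ℕ)
    (hx : ∀ a, x a ≤ n)
    (hs : ((Pb.card : ℝ) - lam - 1 / 1000) * n ≤ ∑ a ∈ Pb, (x a : ℝ)) :
    ∃ (N : ℕ) (Gm : ℕ → Finset κ), (∀ k, k < N → Gm k ⊆ Pb) ∧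
      (∀ k k', k < N → k' < N → k ≠ k' → Disjoint (Gm k) (Gm k')) ∧
      Pb.card ≤ N + lam ∧ (∀ k, k < N → n ≤ 4 * ∑ a ∈ Gm k, x a) ∧ N ≤ Pb.card := by
  obtain ⟨sm, hsm⟩ : ∃ sm : Finset κ, sm = Pb.filter (fun a => 4 * x a < n) := ⟨_, rfl⟩
  obtain ⟨big, hbig⟩ : ∃ big : Finset κ, big = Pb.filter (fun a => ¬ 4 * x a < n) := ⟨_, rfl⟩
  have hcard : sm.card + big.card = Pb.card := by
    rw [hsm, hbig]
    exact card_filter_add_card_filter_not _
  have hsum : ∑ a ∈ Pb, x a = ∑ a ∈ sm, x a + ∑ a ∈ big, x a := by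
    rw [hsm, hbig]
    exact (sum_filter_add_sum_filter_not _ _ _).symm
  have hbn : ∑ a ∈ big, x a ≤ big.card * n := by
    calc ∑ a ∈ big, x a ≤ ∑ _a ∈ big, n := sum_le_sum fun a _ => hx a
      _ = big.card * n := by rw [sum_const, smul_eq_mul]
  obtain ⟨N, hN⟩ : ∃ N : ℕ, N = Pb.card - lam - big.card := ⟨_, rfl⟩
  have hblk : 0 < N → (2 * N - 1) * n ≤ 4 * ∑ a ∈ sm, x a := by
    intro h0
    have h1 : Pb.card = N + lam + big.card := by omega
    have h2 : (Pb.card : ℝ) = N + lam + big.card := by exact_mod_cast h1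
    have h3 : ∑ a ∈ Pb, (x a : ℝ) = ((∑ a ∈ sm, x a : ℕ) : ℝ) + ((∑ a ∈ big, x a : ℕ) : ℝ) := by
      rw [← Nat.cast_add, ← hsum]
      push_cast
      rfl
    have h4 : ((∑ a ∈ big, x a : ℕ) : ℝ) ≤ big.card * n := by exact_mod_cast hbn
    rw [h2, h3] at hs
    have hn0 : (0 : ℝ) ≤ n := by positivity
    have hN1 : (1 : ℝ) ≤ N := by exact_mod_cast h0
    have h5 : ((N : ℝ) - 1 / 1000) * n ≤ ((∑ a ∈ sm, x a : ℕ) : ℝ) := by nlinarith
    have h6 : (2 * (N : ℝ) - 1) * n ≤ 4 * ((∑ a ∈ sm, x a : ℕ) : ℝ) := by nlinarith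
    have h7 : (((2 * N - 1) * n : ℕ) : ℝ) ≤ ((4 * ∑ a ∈ sm, x a : ℕ) : ℝ) := by
      rw [Nat.cast_mul, Nat.cast_sub (by omega), Nat.cast_mul 4]
      push_cast at h6 ⊢
      exact h6
    exact_mod_cast h7
  obtain ⟨G0, hG1, hG2⟩ := hBlk κ sm x N n (fun a ha => by
    rw [hsm, mem_filter] at ha
    exact ha.2) hblk
  obtain ⟨Gm, hGm⟩ : ∃ Gm : ℕ → Finset κ, ∀ k, Gm k =
      if h : k < big.card then {((big.equivFin.symm ⟨k, h⟩ : big) : κ)} else G0 (k - big.card) :=
    ⟨_, fun _ => rfl⟩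
  have hL : ∀ k (h : k < big.card), Gm k = {((big.equivFin.symm ⟨k, h⟩ : big) : κ)} := by
    intro k h
    rw [hGm, dif_pos h]
  have hR : ∀ k, ¬ k < big.card → Gm k = G0 (k - big.card) := by
    intro k h
    rw [hGm, dif_neg h]
  have hLb : ∀ k, k < big.card → Gm k ⊆ big := by
    intro k h
    rw [hL k h, singleton_subset_iff]
    exact (big.equivFin.symm ⟨k, h⟩).2
  have hRs : ∀ k, ¬ k < big.card → k < big.card + N → Gm k ⊆ sm := by
    intro k h h'
    rw [hR k h]
    exact (hG1 _ (by omega)).1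
  have hsb : Disjoint sm big := by
    rw [hsm, hbig]
    exact disjoint_filter_filter_not _ _ _
  have hsP : sm ⊆ Pb := by rw [hsm]; exact filter_subset _ _
  have hbP : big ⊆ Pb := by rw [hbig]; exact filter_subset _ _
  refine ⟨big.card + N, Gm, ?_, ?_, ?_, ?_, ?_⟩
  · intro k hk
    by_cases h : k < big.card
    · exact (hLb k h).trans hbP
    · exact (hRs k h hk).trans hsP
  · intro k k' hk hk' hkk
    by_cases h : k < big.card
    · by_cases h' : k' < big.card
      · rw [hL k h, hL k' h', disjoint_singleton]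
        intro h1
        have h2 := big.equivFin.symm.injective (Subtype.ext h1)
        exact hkk (Fin.mk.inj_iff.1 h2)
      · exact (disjoint_of_subset_left (hRs k' h' hk') (disjoint_of_subset_right (hLb k h) hsb)).symm
    · by_cases h' : k' < big.card
      · exact disjoint_of_subset_left (hRs k h hk) (disjoint_of_subset_right (hLb k' h') hsb)
      · rw [hR k h, hR k' h']
        exact hG2 _ _ (by omega) (by omega) (by omega)
  · omega
  · intro k hk
    by_cases h : k < big.card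
    · rw [hL k h, sum_singleton]
      have h3 : ∀ a ∈ big, n ≤ 4 * x a := by
        intro a ha
        rw [hbig, mem_filter] at ha
        exact Nat.le_of_not_lt ha.2
      exact h3 _ (big.equivFin.symm ⟨k, h⟩).2
    · rw [hR k h]
      exact (hG1 _ (by omega)).2
  · omega

/-- [EdB] Section 3. -/
theorem thm_EdB (hNumL : St_NumL) (hEdA : St_EdA) (hE31 : St_E31) (hBlk : St_Blk) : St_Ed10 := by
  intro P V _ g hP hg
  have hL := hNumL P hP
  obtain ⟨e, he, hQ⟩ := hEdA P V g hP hg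
  have hge : GrP P e.toGd := by rw [he]; exact hg
  obtain ⟨h1, h2⟩ := hE31 P V _ e hP hge hQ
  have hempty : ∀ i, e.K i ≠ some i → e.Pb P i = ∅ := by
    intro i hi
    unfold Ed.Pb
    rw [filter_eq_empty_iff]
    intro a _ h
    have h3 : (univ.filter (fun w => e.K w = some i ∧ e.K (e.E.N a w) ≠ some i)) = ∅ := by
      rw [filter_eq_empty_iff]
      intro w _ hw
      exact hi (hge.rt i w hw.1)
    rw [h3, card_empty] at h
    have h4 : 0 ≤ P.theta * P.D := mul_nonneg hL.th0.le (Nat.cast_nonneg _)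
    push_cast at h
    linarith
  have key : ∀ i, ∃ (N : ℕ) (Gm : ℕ → Finset (Col P.s P.l P.lo)),
      (∀ k, k < N → Gm k ⊆ e.Pb P i) ∧
      (∀ k k', k < N → k' < N → k ≠ k' → Disjoint (Gm k) (Gm k')) ∧
      (e.Pb P i).card ≤ N + e.lam i ∧
      (∀ k, k < N → (e.Rg P i).card ≤ 4 * ∑ a ∈ Gm k, (e.W0 P i a).card) ∧
      N ≤ (e.Pb P i).card ∧ (e.K i ≠ some i → N = 0) := by
    intro i
    by_cases hi : e.K i = some i
    · obtain ⟨N, Gm, k1, k2, k3, k4, k5⟩ := EdB_blocks hBlk (e.Pb P i)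
        (fun a => (e.W0 P i a).card) (e.Rg P i).card (e.lam i) (fun a => by
          refine card_le_card fun w hw => ?_
          unfold Ed.W0 at hw
          rw [mem_filter] at hw
          exact hw.2.1) (h2 i hi)
      exact ⟨N, Gm, k1, k2, k3, k4, k5, fun h => absurd hi h⟩
    · refine ⟨0, fun _ => ∅, ?_, ?_, ?_, ?_, ?_, fun _ => rfl⟩
      · intro k hk
        omega
      · intro k k' hk
        omega
      · rw [hempty i hi, card_empty]
        omega
      · intro k hk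
        omega
      · omega
  choose Nb Gm k1 k2 k3 k4 k5 k6 using key
  refine ⟨{ e with nbl := Nb, Gam := Gm }, he, ?_⟩
  exact
    { col := hQ.col
      zinv := hQ.zinv
      zadj := hQ.zadj
      sub := hQ.sub
      cov := hQ.cov
      miss := hQ.miss
      j01 := hQ.j01
      j0 := hQ.j0
      j1 := hQ.j1
      q1 := hQ.q1
      q2 := hQ.q2
      r1 := hQ.r1
      r2 := hQ.r2
      r3 := hQ.r3
      r4 := hQ.r4
      r4' := hQ.r4'
      pb := h1
      gm1 := k1
      gm2 := k2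
      gm3 := k3
      gm4 := k4
      gm5 := k5
      gm6 := k6 }

end Pool.TCV
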