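import Pool.Agent.Helper3.TCV.StA

/-!
# T10, sections 1 and 2: assembly
-/

set_option autoImplicit false

namespace Pool.TCV

open Pool.TC Pool.TCM Pool.TCS Pool.TN Finset
open scoped Classical

/-- the regular and the special rows of a cluster -/
theorem Grr_card {V : Type} [Fintype V] (P : Par) (g : Gd V) (i : V) :
    (g.Spi P i).card + (g.Rg P i).card = (g.Ki i).card := by
  have h1 : g.Spi P i = (g.Ki i).filter (fun w => g.Sp P w) := by
    unfold Gd.Spi Gd.Ki
    rw [Finset.filter_filter]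
  have h2 : g.Rg P i = (g.Ki i).filter (fun w => ¬ g.Sp P w) := by
    unfold Gd.Rg Gd.Ki
    rw [Finset.filter_filter]
  rw [h1, h2]
  exact Finset.card_filter_add_card_filter_not _

theorem Grr_sp {V : Type} [Fintype V] (P : Par) (g : Gd V) (i : V) :
    (g.Spi P i).card ≤ ((g.Ki i).filter (fun w => g.pr w ≠ w)).card +
      (univ.filter (fun w => g.K w = some i ∧ g.Irr P w)).card := by
  refine le_trans (Finset.card_le_card ?_) (Finset.card_union_le _ _)
  intro w hw
  unfold Gd.Spi at hw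
  rw [Finset.mem_filter] at hw
  obtain ⟨_, hk, hs⟩ := hw
  rw [Finset.mem_union]
  rcases hs.2 with h | h
  · left
    rw [Finset.mem_filter]
    refine ⟨?_, h⟩
    unfold Gd.Ki
    rw [Finset.mem_filter]
    exact ⟨Finset.mem_univ _, hk⟩
  · right
    rw [Finset.mem_filter]
    exact ⟨Finset.mem_univ _, hk, hs.1, h⟩

theorem Grr_ss {V : Type} [Fintype V] (P : Par) (g : Gd V) (i : V)
    (hk : ∀ w, g.K w = some i → (g.Ki i).card + g.oo w = P.D + 1 + g.aw w)
    (hl : (g.Ki i).card + g.lam i = P.D + 1 + g.mu i)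
    (hA : 2 * (∑ w ∈ g.Ki i, g.aw w) ≤ P.D * g.mu i)
    (hn : P.D ≤ 2 * (g.Rg P i).card) :
    ∑ w ∈ g.Rg P i, g.oo w ≤ (g.Rg P i).card * g.lam i := by
  have h1 : ∑ w ∈ g.Rg P i, (g.oo w + g.mu i) = ∑ w ∈ g.Rg P i, (g.aw w + g.lam i) := by
    refine Finset.sum_congr rfl (fun w hw => ?_)
    unfold Gd.Rg at hw
    rw [Finset.mem_filter] at hw
    have := hk w hw.2.1
    omega
  rw [Finset.sum_add_distrib, Finset.sum_add_distrib, Finset.sum_const, Finset.sum_const,
    smul_eq_mul, smul_eq_mul] at h1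
  have h2 : ∑ w ∈ g.Rg P i, g.aw w ≤ ∑ w ∈ g.Ki i, g.aw w := by
    refine Finset.sum_le_sum_of_subset ?_
    intro w hw
    unfold Gd.Rg at hw
    rw [Finset.mem_filter] at hw
    unfold Gd.Ki
    rw [Finset.mem_filter]
    exact ⟨Finset.mem_univ _, hw.2.1⟩
  have h3 : P.D * g.mu i ≤ 2 * (g.Rg P i).card * g.mu i := Nat.mul_le_mul_right _ hn
  have h4 : 2 * (g.Rg P i).card * g.mu i = 2 * ((g.Rg P i).card * g.mu i) := by ring
  rw [h4] at h3
  omega

/-- [Grr] Sections 1 and 2. -/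
theorem thm_Grr (hNumL : St_NumL) (hDec10 : St_Dec10) (hKs : St_Ks) (hPq : St_Pq)
    (hHv : St_Hv) : St_Gr10 := by
  intro P V _ G hP hreg
  have N := hNumL P hP
  have hX0 : (1 : ℝ) ≤ P.X := le_trans (by norm_num) N.X1
  have h1 : 1 ≤ P.delta * P.D := le_trans (one_le_pow₀ hX0) N.del2
  obtain ⟨K, hK⟩ := hDec10 V
    { G := G, K := fun _ => none, pr := id, mu := fun _ => 0, lam := fun _ => 0 } P.D P.delta
    hreg N.del0 N.del3 h1
  obtain ⟨pr, mu, lam, p1, p2, p3, p4, p5, p6, p7⟩ := hPq V _ P.D P.delta hK N.del0 N.del3 h1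
  obtain ⟨g, hgG, hgK, hgp, hgm, hgl⟩ : ∃ g : Gd V, g.G = G ∧ g.K = K ∧ g.pr = pr ∧
      g.mu = mu ∧ g.lam = lam := ⟨{ G := G, K := K, pr := pr, mu := mu, lam := lam },
      rfl, rfl, rfl, rfl, rfl⟩
  subst hgG hgK hgp hgm hgl
  have hg : DcP P.D P.delta g := ⟨hK.reg, hK.rt, hK.loc, hK.d2, hK.d3, hK.d4, hK.d4', hK.d5,
    hK.d6⟩
  obtain ⟨k1, k2, k3, k4, _⟩ := hKs V g P.D P.delta hg N.del0 N.del3 h1
  obtain ⟨v1, v2, v3, v4, v5, v6, v7⟩ := hHv P V g hP hg
  have hD0 : (0 : ℝ) ≤ P.D := Nat.cast_nonneg _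
  have hdD : 0 ≤ P.delta * P.D := mul_nonneg N.del0.le hD0
  have heta : 830 * P.eta ≤ 1 := by
    refine le_trans (mul_le_mul_of_nonneg_right ?_ N.eta0.le) N.eta1
    have : (P.X : ℝ) ≤ (P.X : ℝ) ^ 1600 := le_self_pow₀ hX0 (by norm_num)
    have h2 : (830 : ℝ) ≤ P.X := le_trans (by norm_num) N.X1
    linarith
  have hde : P.delta * P.D / P.eta ≤ P.D / 10 ^ 20 := by
    have h3 : (10 : ℝ) ^ 20 * P.delta ≤ P.eta := by
      refine le_trans (mul_le_mul_of_nonneg_right ?_ N.del0.le) N.del1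
      exact le_trans N.X1 (le_self_pow₀ hX0 (by norm_num))
    rw [div_le_div_iff₀ N.eta0 (by positivity)]
    calc P.delta * P.D * 10 ^ 20 = (10 ^ 20 * P.delta) * P.D := by ring
      _ ≤ P.eta * P.D := mul_le_mul_of_nonneg_right h3 hD0
      _ = P.D * P.eta := by ring
  have hsp : ∀ i, ((g.Spi P i).card : ℝ) ≤ 104 * P.delta * P.D / P.eta := by
    intro i
    have h2 : ((g.Spi P i).card : ℝ) ≤ (((g.Ki i).filter (fun w => g.pr w ≠ w)).card : ℝ) +
        ((univ.filter (fun w => g.K w = some i ∧ g.Irr P w)).card : ℝ) := by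
      exact_mod_cast Grr_sp P g i
    have h3 : (((g.Ki i).filter (fun w => g.pr w ≠ w)).card : ℝ) = 2 * (g.mu i : ℝ) := by
      have := p3 i
      exact_mod_cast this
    have h4 := p4 i
    have h5 := v1 i
    have h6 : 830 * (P.delta * P.D) ≤ P.delta * P.D / P.eta := by
      rw [le_div_iff₀ N.eta0]
      calc 830 * (P.delta * P.D) * P.eta = (830 * P.eta) * (P.delta * P.D) := by ring
        _ ≤ 1 * (P.delta * P.D) := mul_le_mul_of_nonneg_right heta hdD
        _ = P.delta * P.D := one_mul _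
    have h7 : 103 * P.delta * P.D / P.eta = 103 * (P.delta * P.D / P.eta) := by ring
    have h8 : 104 * P.delta * P.D / P.eta = 104 * (P.delta * P.D / P.eta) := by ring
    rw [h7] at h5
    rw [h8]
    have h9 : 415 * P.delta * P.D = 415 * (P.delta * P.D) := by ring
    rw [h9] at h4
    linarith
  have hn1 : ∀ i, g.K i = some i → 999 * P.D ≤ 1000 * (g.Rg P i).card := by
    intro i hi
    have h2 : ((g.Spi P i).card : ℝ) + ((g.Rg P i).card : ℝ) = ((g.Ki i).card : ℝ) := by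
      exact_mod_cast Grr_card P g i
    have h3 := hsp i
    have h4 := k2 i hi
    have h8 : 104 * P.delta * P.D / P.eta = 104 * (P.delta * P.D / P.eta) := by ring
    rw [h8] at h3
    have h5 : P.delta * P.D ≤ 1 / 10 ^ 6 * P.D := mul_le_mul_of_nonneg_right N.del3 hD0
    have h6 : 102 * P.delta * P.D = 102 * (P.delta * P.D) := by ring
    rw [h6] at h4
    have h7 : (999 : ℝ) * P.D ≤ 1000 * ((g.Rg P i).card : ℝ) := by
      have h9 : (0 : ℝ) ≤ P.D / 10 ^ 20 := by positivity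
      have e1 : (P.D : ℝ) / 10 ^ 20 = 1 / 10 ^ 20 * P.D := by ring
      rw [e1] at hde h9
      norm_num at hde h5 h9 ⊢
      linarith
    exact_mod_cast h7
  have hss : ∀ i, ∑ w ∈ g.Rg P i, g.oo w ≤ (g.Rg P i).card * g.lam i := by
    intro i
    by_cases hi : g.K i = some i
    · refine Grr_ss P g i (fun w hw => k1 i w hw) (p5 i hi) (p7 i) ?_
      have := hn1 i hi
      omega
    · have h2 : g.Rg P i = ∅ := by
        unfold Gd.Rg
        rw [Finset.filter_eq_empty_iff]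
        intro w _ hw
        exact hi (hg.rt i w hw.1)
      rw [h2]
      simp
  exact ⟨g, rfl, {
    reg := hg.reg
    rt := hg.rt
    loc := hg.loc
    d2 := hg.d2
    d3 := hg.d3
    d4 := hg.d4
    d4' := hg.d4'
    d5 := hg.d5
    d6 := hg.d6
    pinv := p1
    padj := p2
    pcard := p3
    mu1 := p4
    lm := p5
    lm1 := p6
    ss := hss
    k1 := k2
    k2 := k3
    aw1 := k4
    irr := v1
    sp1 := hsp
    n1 := hn1
    hv1 := v2
    hv2 := v3
    hv3 := v4
    hvI := v5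
    hvk := v6
    lig := v7 }⟩

end Pool.TCV
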