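import Pool.Agent.Helper3.TCV.StB

/-!
# T10, module ImpA: rules for `Impl`
-/

set_option autoImplicit false

namespace Pool.TCV

open Pool.TC Pool.TCM Pool.TCS Pool.TN Finset
open scoped Classical

theorem thm_ImpA : St_ImpA := by
  intro V α _ _ G Lam
  constructor
  · rintro N1 N2 C1 C2 ⟨J1, Js1, ctr1, F1, b1, hN1, hT1, hC1⟩ ⟨J2, Js2, ctr2, F2, b2, hN2, hT2, hC2⟩
    refine ⟨J1 ⊕ J2, Js1.disjSum Js2, Sum.elim ctr1 ctr2, Sum.elim F1 F2, Sum.elim b1 b2,
      fun u => ?_, ?_, ?_⟩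
    · have e : (Js1.disjSum Js2).filter (fun j => Sum.elim ctr1 ctr2 j = u) =
          (Js1.filter (fun j => ctr1 j = u)).disjSum (Js2.filter (fun j => ctr2 j = u)) := by
        ext j
        rcases j with j | j
        · simp only [mem_filter, inl_mem_disjSum, Sum.elim_inl]
        · simp only [mem_filter, inr_mem_disjSum, Sum.elim_inr]
      rw [e, card_disjSum]
      exact Nat.add_le_add (hN1 u) (hN2 u)
    · intro j hj
      rcases j with j | j
      · exact hT1 j (inl_mem_disjSum.1 hj)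
      · exact hT2 j (inr_mem_disjSum.1 hj)
    · intro ω hω
      exact ⟨hC1 ω fun j hj => hω (Sum.inl j) (inl_mem_disjSum.2 hj),
        hC2 ω fun j hj => hω (Sum.inr j) (inr_mem_disjSum.2 hj)⟩
  · rintro N N' C C' ⟨J, Js, ctr, F, b, hN, hT, hC⟩ hNN hCC
    exact ⟨J, Js, ctr, F, b, fun u => (hN u).trans hNN, hT, fun ω hω => hCC ω (hC ω hω)⟩

end Pool.TCV
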