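import Pool.Agent.Helper3.TCV.StA
import Pool.Agent.Helper3.TCM.Ball
import Pool.Agent.Helper32.TN.Cor

/-!
# [Kb] The ball of a dense vertex
-/

set_option autoImplicit false

namespace Pool.TCV

open Pool.TC Pool.TCM Pool.TCS Pool.TN Finset
open scoped Classical

section

variable {V : Type} [Fintype V]

private lemma kb_mem_cnb {G : SimpleGraph V} {u x : V} : x ∈ cnb G u ↔ x = u ∨ G.Adj u x := by
  unfold cnb nb
  rw [mem_insert, mem_filter]
  exact ⟨fun h => h.imp id (fun h => h.2), fun h => h.imp id (fun h => ⟨mem_univ _, h⟩)⟩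

private lemma kb_cnb_symm {G : SimpleGraph V} {u x : V} : x ∈ cnb G u ↔ u ∈ cnb G x := by
  rw [kb_mem_cnb, kb_mem_cnb]
  constructor
  · rintro (h | h)
    · exact Or.inl h.symm
    · exact Or.inr h.symm
  · rintro (h | h)
    · exact Or.inl h.symm
    · exact Or.inr h.symm

private lemma kb_mem_KH {G : SimpleGraph V} {H : ℕ} {u x : V} : x ∈ KH G H u ↔ dd G u x ≤ H := by
  unfold KH
  rw [mem_filter]
  exact ⟨fun h => h.2, fun h => ⟨mem_univ _, h⟩⟩

private lemma kb_nb_sub {G : SimpleGraph V} (w : V) : nb G w ⊆ cnb G w := by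
  unfold cnb
  exact subset_insert _ _

/-- the sum of `dd` over the closed neighbourhood -/
private lemma kb_sum (G : SimpleGraph V) (u : V) (h4 : ∑ x ∈ nb G u, dd G u x = npr G u) :
    ∑ y ∈ cnb G u, dd G u y = npr G u := by
  unfold cnb
  rw [Finset.sum_insert (Cor_notMem G u), Cor_self, zero_add, h4]

/-- Markov inequality in the closed neighbourhood -/
private lemma kb_markov (G : SimpleGraph V) (u : V) (h4 : ∑ x ∈ nb G u, dd G u x = npr G u)
    (M : Finset V) (c : ℝ) (hM : ∀ x ∈ M, x ∈ cnb G u ∧ c ≤ (dd G u x : ℝ)) :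
    (M.card : ℝ) * c ≤ npr G u := by
  have e1 : (M.card : ℝ) * c ≤ ∑ x ∈ M, (dd G u x : ℝ) := by
    rw [← nsmul_eq_mul]
    exact Finset.card_nsmul_le_sum _ _ _ fun x hx => (hM x hx).2
  have e2 : ∑ x ∈ M, (dd G u x : ℝ) ≤ ∑ x ∈ cnb G u, (dd G u x : ℝ) :=
    Finset.sum_le_sum_of_subset_of_nonneg (fun x hx => (hM x hx).1) fun x _ _ => Nat.cast_nonneg _
  have e3 : ∑ x ∈ cnb G u, (dd G u x : ℝ) = npr G u := by
    rw [← kb_sum G u h4]
    push_cast
    rfl
  linarith

/-- double counting -/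
private lemma kb_double (G : SimpleGraph V) (D : ℕ) (hc : ∀ x, (cnb G x).card = D + 1)
    (A W : Finset V) : ∑ w ∈ W, (cnb G w ∩ A).card ≤ (D + 1) * A.card := by
  calc ∑ w ∈ W, (cnb G w ∩ A).card
      = ∑ w ∈ W, (A.filter (fun x => x ∈ cnb G w)).card := by
        refine sum_congr rfl fun w _ => ?_
        congr 1
        ext x
        rw [mem_inter, mem_filter]
        exact ⟨fun h => ⟨h.2, h.1⟩, fun h => ⟨h.2, h.1⟩⟩
    _ = ∑ x ∈ A, (W.filter (fun w => x ∈ cnb G w)).card := by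
        simp only [Finset.card_filter]
        exact Finset.sum_comm
    _ ≤ ∑ _x ∈ A, (D + 1) := by
        refine sum_le_sum fun x _ => ?_
        rw [← hc x]
        refine card_le_card fun w hw => ?_
        exact kb_cnb_symm.1 (mem_filter.1 hw).2
    _ = (D + 1) * A.card := by rw [sum_const, smul_eq_mul, mul_comm]

end

/-- [Kb] -/
theorem thm_Kb (hMet : Pool.TN.St_Met) : St_Kb := by
  intro V _ G D δ u hreg hδ hδ1 hδD hnp
  obtain ⟨m1, m2, m3, m4⟩ := hMet V G D hreg
  have hD6 : (10 : ℝ) ^ 6 ≤ D := by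
    by_contra hc
    push Not at hc
    have h1 : δ * D < 1 / 10 ^ 6 * 10 ^ 6 := by
      have hD0 : (0 : ℝ) ≤ D := Nat.cast_nonneg _
      nlinarith
    norm_num at h1
    linarith
  have hD0 : (0 : ℝ) < D := by linarith [show (0 : ℝ) < 10 ^ 6 by norm_num]
  set H : ℕ := D / 100 with hH
  have hH1 : (H : ℝ) ≤ D / 100 := by
    have h1 : H * 100 ≤ D := Nat.div_mul_le_self D 100
    have h2 : (H : ℝ) * 100 ≤ D := by exact_mod_cast h1
    linarith
  have hH2 : (D : ℝ) / 100 ≤ (H : ℝ) + 1 := by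
    have h1 : D < (H + 1) * 100 := by omega
    have h2 : (D : ℝ) < ((H : ℝ) + 1) * 100 := by exact_mod_cast h1
    linarith
  have hccard : ∀ x, (cnb G x).card = D + 1 := by
    intro x
    have h1 := m2 x x
    rw [inter_self, Cor_self, add_zero] at h1
    exact h1
  have hδD2 : 0 < δ * (D : ℝ) := by positivity
  -- (a)
  have ha : ((cnb G u \ KH G H u).card : ℝ) ≤ 100 * δ * D := by
    have h1 := kb_markov G u (m4 u) (cnb G u \ KH G H u) ((D : ℝ) / 100) (by
      intro x hx
      obtain ⟨hx1, hx2⟩ := mem_sdiff.1 hx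
      refine ⟨hx1, ?_⟩
      rw [kb_mem_KH] at hx2
      have h3 : H + 1 ≤ dd G u x := by omega
      have h4 : (H : ℝ) + 1 ≤ dd G u x := by exact_mod_cast h3
      linarith)
    by_contra hc
    push Not at hc
    have h2 : 100 * δ * D * (D / 100) < ((cnb G u \ KH G H u).card : ℝ) * (D / 100) :=
      mul_lt_mul_of_pos_right hc (by positivity)
    have h3 : 100 * δ * (D : ℝ) * (D / 100) = δ * D ^ 2 := by ring
    linarith
  -- (b)
  have hb : ((KH G H u \ cnb G u).card : ℝ) ≤ 102 / 100 * δ * D := by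
    have h1 := Cor_count G D u (KH G H u \ cnb G u) (m2 u) (m1 u) (m4 u) H (by
      intro x hx
      obtain ⟨hx1, hx2⟩ := mem_sdiff.1 hx
      exact ⟨hx2, kb_mem_KH.1 hx1⟩)
    have h2 : (((D + 1 - H : ℕ)) : ℝ) = (D : ℝ) + 1 - H := by
      have h3 : H ≤ D + 1 := by omega
      rw [Nat.cast_sub h3]
      push_cast
      ring
    have h4 : ((KH G H u \ cnb G u).card : ℝ) * ((D : ℝ) + 1 - H) ≤ npr G u := by
      rw [← h2]
      exact_mod_cast h1
    by_contra hc
    push Not at hc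
    have h5 : (99 : ℝ) / 100 * D ≤ (D : ℝ) + 1 - H := by linarith
    have h6 : 102 / 100 * δ * D * (99 / 100 * D) ≤
        ((KH G H u \ cnb G u).card : ℝ) * ((D : ℝ) + 1 - H) :=
      mul_le_mul hc.le h5 (by positivity) (Nat.cast_nonneg _)
    have h7 : 102 / 100 * δ * (D : ℝ) * (99 / 100 * D) = 10098 / 10000 * (δ * D ^ 2) := by ring
    have h8 : 0 < δ * (D : ℝ) ^ 2 := by positivity
    linarith
  have hδ6 : δ * D ≤ 1 / 10 ^ 6 * D := mul_le_mul_of_nonneg_right hδ1 hD0.le
  -- the basic inclusions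
  have hsub1 : ∀ w, nb G w \ KH G H u ⊆ (cnb G w \ cnb G u) ∪ (cnb G u \ KH G H u) := by
    intro w x hx
    obtain ⟨hx1, hx2⟩ := mem_sdiff.1 hx
    by_cases hxu : x ∈ cnb G u
    · exact mem_union_right _ (mem_sdiff.2 ⟨hxu, hx2⟩)
    · exact mem_union_left _ (mem_sdiff.2 ⟨kb_nb_sub w hx1, hxu⟩)
  have hc : ∀ w ∈ KH G H u, ((nb G w \ KH G H u).card : ℝ) ≤ D / 99 := by
    intro w hw
    have h1 := (card_le_card (hsub1 w)).trans (card_union_le _ _)
    have h2 : (cnb G w \ cnb G u).card ≤ H := by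
      have h3 := kb_mem_KH.1 hw
      rw [m1 u w] at h3
      exact h3
    have h3 : ((nb G w \ KH G H u).card : ℝ) ≤ (H : ℝ) + (cnb G u \ KH G H u).card := by
      have h4 : (nb G w \ KH G H u).card ≤ H + (cnb G u \ KH G H u).card := by omega
      exact_mod_cast h4
    have h5 : (100 : ℝ) * δ * D ≤ 1 / 10 ^ 4 * D := by
      calc (100 : ℝ) * δ * D = 100 * (δ * D) := by ring
        _ ≤ 100 * (1 / 10 ^ 6 * D) := by linarith
        _ = 1 / 10 ^ 4 * D := by ring
    have h6 : (D : ℝ) / 100 + 1 / 10 ^ 4 * D ≤ D / 99 := by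
      have : (D : ℝ) / 100 + 1 / 10 ^ 4 * D = (101 / 10000) * D := by ring
      rw [this]
      have : (D : ℝ) / 99 = (1 / 99) * D := by ring
      rw [this]
      exact mul_le_mul_of_nonneg_right (by norm_num) hD0.le
    linarith
  refine ⟨ha, hb, ?_, ?_, ?_, ?_, ?_, ?_⟩
  · -- (c)
    intro w hw
    have h1 := hc w hw
    have h2 : (99 : ℝ) * (nb G w \ KH G H u).card ≤ D := by
      rw [le_div_iff₀ (by norm_num)] at h1
      linarith
    exact_mod_cast h2
  · -- (d)
    intro w hw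
    have h1 : KH G H u \ cnb G w ⊆ (KH G H u \ cnb G u) ∪ (cnb G u \ cnb G w) := by
      intro x hx
      obtain ⟨hx1, hx2⟩ := mem_sdiff.1 hx
      by_cases hxu : x ∈ cnb G u
      · exact mem_union_right _ (mem_sdiff.2 ⟨hxu, hx2⟩)
      · exact mem_union_left _ (mem_sdiff.2 ⟨hx1, hxu⟩)
    have h2 := (card_le_card h1).trans (card_union_le _ _)
    have h3 : (cnb G u \ cnb G w).card ≤ H := kb_mem_KH.1 hw
    have h4 : ((KH G H u \ cnb G w).card : ℝ) ≤ ((KH G H u \ cnb G u).card : ℝ) + H := by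
      have h5 : (KH G H u \ cnb G w).card ≤ (KH G H u \ cnb G u).card + H := by omega
      exact_mod_cast h5
    have h5 : (98 : ℝ) * (KH G H u \ cnb G w).card ≤ D := by
      have h6 : (102 : ℝ) / 100 * δ * D ≤ 102 / 100 * (1 / 10 ^ 6) * D := by
        calc (102 : ℝ) / 100 * δ * D = 102 / 100 * (δ * D) := by ring
          _ ≤ 102 / 100 * (1 / 10 ^ 6 * D) := by linarith
          _ = 102 / 100 * (1 / 10 ^ 6) * D := by ring
      have h7 : (98 : ℝ) * (102 / 100 * (1 / 10 ^ 6) * D + D / 100) ≤ D := by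
        have : (98 : ℝ) * (102 / 100 * (1 / 10 ^ 6) * D + D / 100) =
          (98 * (102 / 100 * (1 / 10 ^ 6) + 1 / 100)) * D := by ring
        rw [this]
        calc (98 * (102 / 100 * (1 / 10 ^ 6) + 1 / 100) : ℝ) * D ≤ 1 * D :=
              mul_le_mul_of_nonneg_right (by norm_num) hD0.le
          _ = D := one_mul _
      linarith
    exact_mod_cast h5
  · -- (e)
    have hsplit : ∑ w ∈ KH G H u, ((nb G w \ KH G H u).card : ℝ) =
        ∑ w ∈ KH G H u ∩ cnb G u, ((nb G w \ KH G H u).card : ℝ) +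
        ∑ w ∈ KH G H u \ cnb G u, ((nb G w \ KH G H u).card : ℝ) := by
      rw [← sum_union (disjoint_sdiff_inter _ _).symm]
      congr 1
      rw [union_comm]
      exact (sdiff_union_inter _ _).symm
    have h1 : ∑ w ∈ KH G H u \ cnb G u, ((nb G w \ KH G H u).card : ℝ) ≤
        102 / 100 * δ * D * (D / 99) := by
      calc ∑ w ∈ KH G H u \ cnb G u, ((nb G w \ KH G H u).card : ℝ)
          ≤ ∑ _w ∈ KH G H u \ cnb G u, ((D : ℝ) / 99) :=
            sum_le_sum fun w hw => hc w (mem_sdiff.1 hw).1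
        _ = ((KH G H u \ cnb G u).card : ℝ) * (D / 99) := by rw [sum_const, nsmul_eq_mul]
        _ ≤ 102 / 100 * δ * D * (D / 99) := mul_le_mul_of_nonneg_right hb (by positivity)
    have h2 : ∑ w ∈ KH G H u ∩ cnb G u, ((nb G w \ KH G H u).card : ℝ) ≤
        npr G u + ((D : ℝ) + 1) * (cnb G u \ KH G H u).card := by
      have h3 : ∑ w ∈ KH G H u ∩ cnb G u, (nb G w \ KH G H u).card ≤
          ∑ w ∈ KH G H u ∩ cnb G u, (dd G u w + (cnb G w ∩ (cnb G u \ KH G H u)).card) := by
        refine sum_le_sum fun w _ => ?_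
        have h4 : nb G w \ KH G H u ⊆ (cnb G w \ cnb G u) ∪
            (cnb G w ∩ (cnb G u \ KH G H u)) := by
          intro x hx
          obtain ⟨hx1, hx2⟩ := mem_sdiff.1 hx
          by_cases hxu : x ∈ cnb G u
          · exact mem_union_right _ (mem_inter.2 ⟨kb_nb_sub w hx1, mem_sdiff.2 ⟨hxu, hx2⟩⟩)
          · exact mem_union_left _ (mem_sdiff.2 ⟨kb_nb_sub w hx1, hxu⟩)
        have h5 := (card_le_card h4).trans (card_union_le _ _)
        have h6 : (cnb G w \ cnb G u).card = dd G u w := by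
          rw [m1 u w]
          rfl
        rw [h6] at h5
        exact h5
      rw [sum_add_distrib] at h3
      have h4 : ∑ w ∈ KH G H u ∩ cnb G u, dd G u w ≤ npr G u := by
        rw [← kb_sum G u (m4 u)]
        exact sum_le_sum_of_subset inter_subset_right
      have h5 := kb_double G D hccard (cnb G u \ KH G H u) (KH G H u ∩ cnb G u)
      have h6 : ∑ w ∈ KH G H u ∩ cnb G u, (nb G w \ KH G H u).card ≤
          npr G u + (D + 1) * (cnb G u \ KH G H u).card := by omega
      have h7 : ((∑ w ∈ KH G H u ∩ cnb G u, (nb G w \ KH G H u).card : ℕ) : ℝ) ≤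
          ((npr G u + (D + 1) * (cnb G u \ KH G H u).card : ℕ) : ℝ) := by exact_mod_cast h6
      push_cast at h7
      exact h7
    have h3 : ((D : ℝ) + 1) * (cnb G u \ KH G H u).card ≤ ((D : ℝ) + 1) * (100 * δ * D) :=
      mul_le_mul_of_nonneg_left ha (by positivity)
    rw [hsplit]
    have h4 : δ * (D : ℝ) ≤ 1 / 10 ^ 6 * (δ * D ^ 2) := by
      have h5 : (1 : ℝ) ≤ 1 / 10 ^ 6 * D := by
        rw [div_mul_eq_mul_div, le_div_iff₀ (by norm_num)]
        linarith
      calc δ * (D : ℝ) = δ * D * 1 := by ring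
        _ ≤ δ * D * (1 / 10 ^ 6 * D) := mul_le_mul_of_nonneg_left h5 hδD2.le
        _ = 1 / 10 ^ 6 * (δ * D ^ 2) := by ring
    have h5 : ((D : ℝ) + 1) * (100 * δ * D) = 100 * (δ * D ^ 2) + 100 * (δ * D) := by ring
    have h6 : 102 / 100 * δ * (D : ℝ) * (D / 99) = 102 / 9900 * (δ * D ^ 2) := by ring
    have h7 : (103 : ℝ) * δ * D ^ 2 = 103 * (δ * D ^ 2) := by ring
    rw [h7]
    rw [h5] at h3
    rw [h6] at h1
    have h8 : 0 < δ * (D : ℝ) ^ 2 := by positivity
    linarith
  · -- (f)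
    intro x hx
    have h1 : H + 1 ≤ dd G u x := by
      have := kb_mem_KH.not.1 hx
      omega
    have h2 : cnb G u \ cnb G x ⊆ (KH G H u \ nb G x) ∪ (cnb G u \ KH G H u) := by
      intro y hy
      obtain ⟨hy1, hy2⟩ := mem_sdiff.1 hy
      by_cases hyK : y ∈ KH G H u
      · exact mem_union_left _ (mem_sdiff.2 ⟨hyK, fun h => hy2 (kb_nb_sub x h)⟩)
      · exact mem_union_right _ (mem_sdiff.2 ⟨hy1, hyK⟩)
    have h3 := (card_le_card h2).trans (card_union_le _ _)
    have h4 : dd G u x ≤ (KH G H u \ nb G x).card + (cnb G u \ KH G H u).card := h3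
    have h5 : (H : ℝ) + 1 ≤ (KH G H u \ nb G x).card + (cnb G u \ KH G H u).card := by
      have h6 : H + 1 ≤ (KH G H u \ nb G x).card + (cnb G u \ KH G H u).card := by omega
      exact_mod_cast h6
    have h6 : (100 : ℝ) * δ * D ≤ 1 / 10 ^ 4 * D := by
      calc (100 : ℝ) * δ * D = 100 * (δ * D) := by ring
        _ ≤ 100 * (1 / 10 ^ 6 * D) := by linarith
        _ = 1 / 10 ^ 4 * D := by ring
    have h7 : (D : ℝ) ≤ 113 * (KH G H u \ nb G x).card := by
      have h8 : (D : ℝ) / 100 - 1 / 10 ^ 4 * D ≤ (KH G H u \ nb G x).card := by linarith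
      have h9 : (D : ℝ) ≤ 113 * (D / 100 - 1 / 10 ^ 4 * D) := by
        have : (113 : ℝ) * (D / 100 - 1 / 10 ^ 4 * D) = (113 * (1 / 100 - 1 / 10 ^ 4)) * D := by
          ring
        rw [this]
        calc (D : ℝ) = 1 * D := (one_mul _).symm
          _ ≤ (113 * (1 / 100 - 1 / 10 ^ 4)) * D :=
            mul_le_mul_of_nonneg_right (by norm_num) hD0.le
      linarith
    exact_mod_cast h7
  · -- (g)
    have h1 := kb_markov G u (m4 u) ((cnb G u).filter (fun x => 4 * δ * D < dd G u x))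
      (4 * δ * D) (by
      intro x hx
      obtain ⟨hx1, hx2⟩ := mem_filter.1 hx
      exact ⟨hx1, hx2.le⟩)
    by_contra hcon
    push Not at hcon
    have h2 : (D : ℝ) * (δ * D) <
        4 * (((cnb G u).filter (fun x => 4 * δ * D < dd G u x)).card : ℝ) * (δ * D) :=
      mul_lt_mul_of_pos_right hcon hδD2
    have h3 : (((cnb G u).filter (fun x => 4 * δ * D < dd G u x)).card : ℝ) * (4 * δ * D) =
        4 * (((cnb G u).filter (fun x => 4 * δ * D < dd G u x)).card : ℝ) * (δ * D) := by ring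
    have h4 : (D : ℝ) * (δ * D) = δ * D ^ 2 := by ring
    linarith
  · -- (h)
    intro x hx
    have h1 := m2 u x
    have h2 := kb_mem_KH.1 hx
    have h3 : 0 < (cnb G u ∩ cnb G x).card := by
      have : H ≤ D := Nat.div_le_self _ _
      omega
    obtain ⟨y, hy⟩ := card_pos.1 h3
    obtain ⟨hy1, hy2⟩ := mem_inter.1 hy
    have h4 : y ∈ ball G 1 u := by
      rcases kb_mem_cnb.1 hy1 with h | h
      · rw [h]
        exact mem_ball_self 1 u
      · exact adj_mem_ball h
    have h5 : x ∈ ball G 1 y := by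
      rcases kb_mem_cnb.1 (kb_cnb_symm.1 hy2) with h | h
      · rw [h]
        exact mem_ball_self 1 y
      · exact adj_mem_ball h
    exact ball_trans h4 h5

end Pool.TCV
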