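import Pool.Agent.Helper3.TCV.StA

/-!
# T10: sizes of the clusters (helper42)
-/

set_option autoImplicit false

namespace Pool.TCV

open Pool.TC Pool.TCM Pool.TCS Pool.TN Finset
open scoped Classical

section ks

variable {V : Type} [Fintype V]

theorem Ks_mem (g : Gd V) (i v : V) : v ∈ g.Ki i ↔ g.K v = some i := by
  unfold Gd.Ki
  simp

/-- `|K_i| + o(w) = D + 1 + a_w` -/
theorem Ks_size (g : Gd V) (D : ℕ) (hreg : ∀ u, (nb g.G u).card = D) (i w : V)
    (h : g.K w = some i) : (g.Ki i).card + g.oo w = D + 1 + g.aw w := by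
  have hw : w ∈ g.Ki i := (Ks_mem g i w).2 h
  have h1 : ((g.Ki i).erase w).card + 1 = (g.Ki i).card := card_erase_add_one hw
  have h2 := card_filter_add_card_filter_not (s := (g.Ki i).erase w) (fun v => g.G.Adj w v)
  have h3 := card_filter_add_card_filter_not (s := nb g.G w) (fun v => g.K v = g.K w)
  rw [hreg w] at h3
  have h4 : ((g.Ki i).erase w).filter (fun v => g.G.Adj w v) =
      (nb g.G w).filter (fun v => g.K v = g.K w) := by
    ext v
    rw [mem_filter, mem_erase, Ks_mem, mem_filter, nb, mem_filter, h]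
    constructor
    · rintro ⟨⟨-, h5⟩, h6⟩
      exact ⟨⟨mem_univ _, h6⟩, h5⟩
    · rintro ⟨⟨-, h5⟩, h6⟩
      exact ⟨⟨fun e => (g.G.ne_of_adj h5) e.symm, h6⟩, h5⟩
  have h5 : ((g.Ki i).erase w).filter (fun v => ¬ g.G.Adj w v) =
      univ.filter (fun v => g.K v = g.K w ∧ v ≠ w ∧ ¬ g.G.Adj w v) := by
    ext v
    rw [mem_filter, mem_erase, Ks_mem, mem_filter, h]
    constructor
    · rintro ⟨⟨h6, h7⟩, h8⟩
      exact ⟨mem_univ _, h7, h6, h8⟩
    · rintro ⟨-, h7, h6, h8⟩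
      exact ⟨⟨h6, h7⟩, h8⟩
  have h6 : g.oo w = ((nb g.G w).filter (fun v => ¬ g.K v = g.K w)).card := rfl
  have h7 : g.aw w = (univ.filter (fun v => g.K v = g.K w ∧ v ≠ w ∧ ¬ g.G.Adj w v)).card := rfl
  rw [h4, h5] at h2
  omega

theorem Ks_cnb (G : SimpleGraph V) (D : ℕ) (h : ∀ u, (nb G u).card = D) (u : V) :
    (cnb G u).card = D + 1 := by
  unfold cnb
  rw [card_insert_of_notMem, h u]
  unfold nb
  simp

end ks

theorem thm_Ks : St_Ks := by
  intro V _ g D δ hP hδ0 hδ1 hδD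
  have hD : (10 : ℝ) ^ 6 ≤ D := by
    have hD0 : (0 : ℝ) ≤ D := Nat.cast_nonneg _
    have h1 : δ * D ≤ 1 / 10 ^ 6 * D := mul_le_mul_of_nonneg_right hδ1 hD0
    nlinarith
  have hδD0 : 0 ≤ δ * D := by linarith
  have hs : ∀ i w, g.K w = some i → (g.Ki i).card + g.oo w = D + 1 + g.aw w :=
    fun i w h => Ks_size g D hP.reg i w h
  have hc := fun u => Ks_cnb g.G D hP.reg u
  have k1 : ∀ i, g.K i = some i → (D : ℝ) + 1 - 102 * δ * D ≤ (g.Ki i).card := by
    intro i hi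
    have h1 := hP.d3 i hi
    have h2 : (cnb g.G i).card ≤ (g.Ki i).card + (cnb g.G i \ g.Ki i).card := by
      have h3 := card_le_card_sdiff_add_card (t := g.Ki i) (s := cnb g.G i)
      omega
    rw [hc i] at h2
    have h3 : ((D : ℝ) + 1) ≤ (g.Ki i).card + (cnb g.G i \ g.Ki i).card := by exact_mod_cast h2
    have h4 : (0 : ℝ) ≤ ((g.Ki i \ cnb g.G i).card : ℝ) := Nat.cast_nonneg _
    linarith
  have k2 : ∀ i, ((g.Ki i).card : ℝ) ≤ (D : ℝ) + 1 + 102 * δ * D := by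
    intro i
    by_cases hi : g.K i = some i
    · have h1 := hP.d3 i hi
      have h2 : (g.Ki i).card ≤ (cnb g.G i).card + (g.Ki i \ cnb g.G i).card := by
        have h3 := card_le_card_sdiff_add_card (t := cnb g.G i) (s := g.Ki i)
        omega
      rw [hc i] at h2
      have h3 : ((g.Ki i).card : ℝ) ≤ (D : ℝ) + 1 + (g.Ki i \ cnb g.G i).card := by
        exact_mod_cast h2
      have h4 : (0 : ℝ) ≤ ((cnb g.G i \ g.Ki i).card : ℝ) := Nat.cast_nonneg _
      linarith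
    · have h1 : g.Ki i = ∅ := by
        refine eq_empty_of_forall_notMem fun w hw => hi ?_
        exact hP.rt i w ((Ks_mem g i w).1 hw)
      rw [h1, card_empty]
      push_cast
      nlinarith
  have k3 : ∀ w, g.K w ≠ none → (g.aw w : ℝ) ≤ g.oo w + 102 * δ * D := by
    intro w hw
    obtain ⟨i, hi⟩ := Option.ne_none_iff_exists'.1 hw
    have h1 := hs i w hi
    have h2 : ((g.Ki i).card : ℝ) + g.oo w = D + 1 + g.aw w := by exact_mod_cast h1
    have h3 := k2 i
    linarith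
  refine ⟨hs, k1, k2, k3, fun i => ?_⟩
  have h1 : ∑ w ∈ g.Ki i, (g.aw w : ℝ) ≤ ∑ w ∈ g.Ki i, ((g.oo w : ℝ) + 102 * δ * D) := by
    refine sum_le_sum fun w hw => k3 w ?_
    rw [(Ks_mem g i w).1 hw]
    exact Option.some_ne_none i
  rw [sum_add_distrib, sum_const, nsmul_eq_mul] at h1
  have h2 := hP.d5 i
  have h3 := k2 i
  have h4 : ((g.Ki i).card : ℝ) * (102 * δ * D) ≤ (D + 1 + 102 * δ * D) * (102 * δ * D) :=
    mul_le_mul_of_nonneg_right h3 (by linarith)
  have h5 : (D : ℝ) + 1 + 102 * δ * D ≤ 1001 / 1000 * D := by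
    have h6 : δ * D ≤ 1 / 10 ^ 6 * D := mul_le_mul_of_nonneg_right hδ1 (by linarith)
    nlinarith
  have h6 : ((D : ℝ) + 1 + 102 * δ * D) * (102 * δ * D) ≤ 1001 / 1000 * D * (102 * δ * D) :=
    mul_le_mul_of_nonneg_right h5 (by linarith)
  have h7 : (0 : ℝ) ≤ δ * D ^ 2 := by positivity
  nlinarith

end Pool.TCV
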