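import Pool.Agent.Helper3.TCV.Defs
import Pool.Agent.Helper3.TCM.Fin

/-!
MAIN10: the theorem from the stages.
-/

set_option autoImplicit false

namespace Pool.TCV

open Pool.TC Pool.TCM Pool.TCS Pool.TN Finset
open scoped Classical

/-- The total colouring from the vertex colouring. -/
theorem end10 {V κ : Type} [Fintype V] [Fintype κ] {P : Par} {t : Td V κ} (h : Bse P t)
    {c : V → κ} (hc : Fin10 t c) :
    ∃ e : Sym2 V → κ ⊕ Bool,
      (∀ u v w, t.G.Adj u v → t.G.Adj u w → v ≠ w → e s(u, v) ≠ e s(u, w)) ∧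
      (∀ u v, t.G.Adj u v → e s(u, v) ≠ Sum.inl (c u)) := by
  refine fin_end t.G t.E t.z t.tau {u | ¬ t.fx u (c u)} (fun u => t.E.N (c u) u) c h.ed.zinv
    h.ed.cov h.ts.tz ?_ ?_ ?_ (fun _ _ => rfl) ?_
  · intro u hu
    rcases hc.cell u with h1 | h1
    · exact absurd h1 hu
    · exact h1.1.2
  · intro u hu
    rcases hc.cell u with h1 | h1
    · exact absurd h1 hu
    · exact h1.2
  · intro u hu v hv huv
    exact hc.inj u v hu hv huv
  · intro u hu
    exact not_not.1 hu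

/-- The main theorem. -/
theorem thm_Main10 (hReg : St_Reg) (hNum : St_Num10) (hGr : St_Gr10) (hEd : St_Ed10)
    (hAc : St_Ac10) (hTa : St_Ta10) (hX : St_X10) (hS : St_S10) (hK : St_K10) : St_Main10 := by
  obtain ⟨D0, hD0⟩ := hNum
  refine ⟨D0, fun D hD V _ G hdeg => ?_⟩
  obtain ⟨P, hPD, hP⟩ := hD0 D hD
  obtain ⟨W, _, H, f, hf, hadj, hreg, -⟩ := hReg V G D (D * D) hdeg (fun u => by
    refine (card_filter_le _ _).trans ?_
    rw [card_product]
    exact Nat.mul_le_mul (hdeg u) (hdeg u))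
  subst hPD
  obtain ⟨g, hgG, hg⟩ := hGr P W H hP hreg
  obtain ⟨e, heg, he⟩ := hEd P W g hP hg
  subst heg
  obtain ⟨f0, hfe, hf0⟩ := hAc P W _ e hP hg he
  subst hfe
  obtain ⟨t, htf, hts, htk⟩ := hTa P W _ f0 hP hg he hf0
  subst htf
  have hB : Bse P t := ⟨hg, he, hf0, hts, htk⟩
  obtain ⟨X, cX, hXP⟩ := hX P W _ t hP hB
  obtain ⟨cS, hSP⟩ := hS P W _ t X cX hP hB hXP
  obtain ⟨c, hc⟩ := hK P W _ t X cX cS hP hB hXP hSP
  obtain ⟨ee, h2, h3⟩ := end10 hB hc
  have h1 := hc.prop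
  have hG : t.G = H := hgG
  rw [hG] at h1 h2 h3
  have hcol : Fintype.card (Col P.s P.l P.lo ⊕ Bool) = P.D + 3 := by
    rw [Fintype.card_sum, he.col, Fintype.card_bool]
  let φ : Col P.s P.l P.lo ⊕ Bool ≃ Fin (P.D + 3) := Fintype.equivFinOfCardEq hcol
  refine ⟨fun u => φ (Sum.inl (c (f u))), fun x => φ (ee (x.map f)), ?_, ?_, ?_⟩
  · intro u v huv h
    exact h1 _ _ (hadj u v huv) (Sum.inl_injective (φ.injective h))
  · intro u v w huv huw hvw h
    simp only [Sym2.map_mk] at h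
    exact h2 (f u) (f v) (f w) (hadj u v huv) (hadj u w huw) (fun h' => hvw (hf h'))
      (φ.injective h)
  · intro u v huv h
    simp only [Sym2.map_mk] at h
    exact h3 (f u) (f v) (hadj u v huv) (φ.injective h)

/-- The main theorem for all types. -/
theorem main10 (hM : St_Main10) :
    ∃ D0 : ℕ, ∀ D ≥ D0, ∀ {V : Type*} [Fintype V] (G : SimpleGraph V),
    (∀ u, (univ.filter (fun v => G.Adj u v)).card ≤ D) →
    ∃ (c : V → Fin (D + 3)) (e : Sym2 V → Fin (D + 3)), IsTotalColouring G c e := by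
  obtain ⟨D0, hD0⟩ := hM
  refine ⟨D0, fun D hD V _ G hdeg => ?_⟩
  let φ : V ≃ Fin (Fintype.card V) := Fintype.equivFin V
  let G' : SimpleGraph (Fin (Fintype.card V)) := G.comap φ.symm
  have hadj : ∀ a b, G'.Adj a b ↔ G.Adj (φ.symm a) (φ.symm b) := fun a b => Iff.rfl
  have hnb : ∀ a, (nb G' a) = (univ.filter (fun v => G.Adj (φ.symm a) v)).map φ.toEmbedding := by
    intro a
    ext b
    simp only [nb, mem_filter, mem_univ, true_and, mem_map, Equiv.coe_toEmbedding]
    constructor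
    · intro h
      exact ⟨φ.symm b, h, by simp⟩
    · rintro ⟨v, h, rfl⟩
      rw [hadj]
      simpa using h
  obtain ⟨c, e, hce⟩ := hD0 D hD (Fin (Fintype.card V)) G'
    (by
      intro a
      rw [hnb, card_map]
      exact hdeg _)
  refine ⟨fun v => c (φ v), fun x => e (x.map φ), ?_, ?_, ?_⟩
  · intro u v huv
    exact hce.vertex_vertex (φ u) (φ v) (by simpa [hadj] using huv)
  · intro u v w h1 h2 h3
    simp only [Sym2.map_mk]
    exact hce.edge_edge (φ u) (φ v) (φ w) (by simpa [hadj] using h1) (by simpa [hadj] using h2)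
      (fun h => h3 (φ.injective h))
  · intro u v huv
    simp only [Sym2.map_mk]
    exact hce.vertex_edge (φ u) (φ v) (by simpa [hadj] using huv)

end Pool.TCV
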