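import Pool.Agent.Helper3.TCV.StA
import Pool.Agent.Helper3.TCS.Num5

/-!
# T10: consequences of the values of the parameters (helper96)
-/

set_option autoImplicit false

namespace Pool.TCV

open Pool.TC Pool.TCM Pool.TCS Pool.TN Finset
open scoped Classical

theorem numL_inv {x : ℝ} (hx : 1 ≤ x) {a b c : ℕ} (h : a + c ≤ b) :
    x ^ a * (1 / x ^ b) ≤ 1 / x ^ c := by
  have h0 : 0 < x := by linarith
  have hb : 0 < x ^ b := pow_pos h0 b
  have hc : 0 < x ^ c := pow_pos h0 c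
  rw [mul_one_div, div_le_div_iff₀ hb hc, one_mul, ← pow_add]
  exact pow_le_pow_right₀ hx h

theorem numL_one {x : ℝ} (hx : 1 ≤ x) (a : ℕ) : x ^ a * (1 / x ^ a) = 1 := by
  have h0 : 0 < x ^ a := pow_pos (by linarith) a
  rw [mul_one_div, div_self h0.ne']

theorem numL_div {x D : ℝ} (hx : 1 ≤ x) {a b c : ℕ} (hD : x ^ c ≤ D) (h : a + b ≤ c) :
    x ^ a ≤ 1 / x ^ b * D := by
  have h0 : 0 < x := by linarith
  have hb : 0 < x ^ b := pow_pos h0 b
  rw [one_div, inv_mul_eq_div, le_div_iff₀ hb, ← pow_add]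
  exact (pow_le_pow_right₀ hx h).trans hD

/-- the local lemma -/
theorem numL_ex (X D k : ℕ) (hX : 10 ^ 20 ≤ X) (hD : D < 2 ^ (X + 1)) (hk : k ≤ 1000) :
    8 * Real.exp (-((X : ℝ) ^ 3)) * (((D : ℝ) + 2) ^ k + 1) ≤ 1 := by
  have h1 : D + 2 ≤ 2 ^ (X + 2) := by
    have h2 : 2 ^ (X + 2) = 2 ^ (X + 1) + 2 ^ (X + 1) := by rw [pow_succ 2 (X + 1)]; ring
    have h3 : 2 ≤ 2 ^ (X + 1) := by
      have : 2 ^ 1 ≤ 2 ^ (X + 1) := Nat.pow_le_pow_right (by norm_num) (by omega)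
      simpa using this
    omega
  have h2 : (D + 2) ^ k ≤ 2 ^ (1000 * X + 2000) := by
    calc (D + 2) ^ k ≤ (D + 2) ^ 1000 := Nat.pow_le_pow_right (by omega) hk
      _ ≤ (2 ^ (X + 2)) ^ 1000 := Nat.pow_le_pow_left h1 1000
      _ = 2 ^ (1000 * X + 2000) := by rw [← pow_mul]; congr 1; ring
  have h3 : 8 * ((D + 2) ^ k + 1) ≤ 2 ^ (1000 * X + 2004) := by
    have h4 : 1 ≤ 2 ^ (1000 * X + 2000) := Nat.one_le_two_pow
    have h5 : 2 ^ (1000 * X + 2004) = 16 * 2 ^ (1000 * X + 2000) := by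
      rw [show 1000 * X + 2004 = 4 + (1000 * X + 2000) by omega, pow_add]
      norm_num
    omega
  have h4 : 1000 * X + 2004 ≤ X ^ 3 := by
    have h5 : 10 ^ 20 * (10 ^ 20 * X) ≤ X * (X * X) :=
      Nat.mul_le_mul hX (Nat.mul_le_mul hX le_rfl)
    have h6 : X ^ 3 = X * (X * X) := by ring
    rw [h6]
    omega
  have h5 : 8 * ((D + 2) ^ k + 1) ≤ 2 ^ (X ^ 3) :=
    h3.trans (Nat.pow_le_pow_right (by norm_num) h4)
  have h6 : (8 : ℝ) * (((D : ℝ) + 2) ^ k + 1) ≤ 2 ^ (X ^ 3) := by exact_mod_cast h5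
  have h7 : (2 : ℝ) ^ (X ^ 3) ≤ Real.exp ((X : ℝ) ^ 3) := by
    have h8 : Real.exp ((X : ℝ) ^ 3) = Real.exp 1 ^ (X ^ 3) := by
      rw [Real.exp_one_pow]
      push_cast
      rfl
    rw [h8]
    apply pow_le_pow_left₀ (by norm_num)
    have := Real.add_one_le_exp (1 : ℝ)
    linarith
  rw [Real.exp_neg]
  have h8 : 0 < Real.exp ((X : ℝ) ^ 3) := Real.exp_pos _
  have h9 : 8 * (Real.exp ((X : ℝ) ^ 3))⁻¹ * (((D : ℝ) + 2) ^ k + 1) =
      (8 * (((D : ℝ) + 2) ^ k + 1)) / Real.exp ((X : ℝ) ^ 3) := by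
    rw [div_eq_mul_inv]; ring
  rw [h9, div_le_one h8]
  exact h6.trans h7

theorem numL_sqrt {x D : ℝ} (hx : 1 ≤ x) {k : ℕ} (hD : x ^ (2 * (k + 10)) ≤ D) :
    x ^ k * (x ^ 10 * Real.sqrt D) ≤ D := by
  have h0 : 0 < x := by linarith
  have hD0 : 0 ≤ D := (pow_pos h0 _).le.trans hD
  have h1 : x ^ (k + 10) ≤ Real.sqrt D := by
    apply Real.le_sqrt_of_sq_le
    rw [← pow_mul, mul_comm]
    exact hD
  calc x ^ k * (x ^ 10 * Real.sqrt D) = x ^ (k + 10) * Real.sqrt D := by rw [pow_add]; ring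
    _ ≤ Real.sqrt D * Real.sqrt D := mul_le_mul_of_nonneg_right h1 (Real.sqrt_nonneg _)
    _ = D := Real.mul_self_sqrt hD0

theorem numL_dev {x D W : ℝ} (hx : 2 ≤ x) (hD : 0 ≤ D) (hW : 0 ≤ W) (h : W ≤ x ^ 12 * D) :
    x ^ 2 * Real.sqrt (2 * W * x ^ 3) ≤ x ^ 10 * Real.sqrt D := by
  have h0 : 0 < x := by linarith
  have h1 : 2 * W * x ^ 3 ≤ (x ^ 8) ^ 2 * D := by
    have h2 : 2 * W * x ^ 3 ≤ 2 * (x ^ 12 * D) * x ^ 3 :=
      mul_le_mul_of_nonneg_right (mul_le_mul_of_nonneg_left h (by norm_num)) (pow_pos h0 3).le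
    have h3 : (x ^ 8) ^ 2 * D = x * (x ^ 12 * D) * x ^ 3 := by ring
    rw [h3]
    refine h2.trans (mul_le_mul_of_nonneg_right (mul_le_mul_of_nonneg_right hx ?_) (pow_pos h0 3).le)
    exact mul_nonneg (pow_pos h0 12).le hD
  have h2 : Real.sqrt (2 * W * x ^ 3) ≤ x ^ 8 * Real.sqrt D := by
    refine (Real.sqrt_le_sqrt h1).trans (le_of_eq ?_)
    rw [Real.sqrt_mul (sq_nonneg _), Real.sqrt_sq (pow_pos h0 8).le]
  calc x ^ 2 * Real.sqrt (2 * W * x ^ 3) ≤ x ^ 2 * (x ^ 8 * Real.sqrt D) :=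
        mul_le_mul_of_nonneg_left h2 (pow_pos h0 2).le
    _ = _ := by ring

/-- [NumL] -/
theorem thm_NumL : St_NumL := by
  intro P h
  have hX0 := h.X0
  have hXN : 0 < P.X := by
    have : 0 < 10 ^ 20 := by norm_num
    omega
  have hx20 : (10 : ℝ) ^ 20 ≤ P.X := by exact_mod_cast hX0
  have hD0 : P.D ≠ 0 := by
    intro h0
    have h1 := h.XD
    rw [h0] at h1
    have h2 : (0 : ℝ) < (P.X : ℝ) ^ 4000000 := pow_pos (by exact_mod_cast hXN) _
    simp only [Nat.cast_zero] at h1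
    linarith
  have hDl : P.D < 2 ^ (P.X + 1) := by
    rw [h.XL]
    exact Nat.lt_pow_succ_log_self (by norm_num) P.D
  obtain ⟨x, hx⟩ : ∃ x : ℝ, x = P.X := ⟨_, rfl⟩
  obtain ⟨D, hD⟩ : ∃ D : ℝ, D = P.D := ⟨_, rfl⟩
  have hXD := h.XD
  rw [← hx] at hx20
  rw [← hx, ← hD] at hXD
  have hx1 : 1 ≤ x := le_trans (by norm_num) hx20
  have hx2 : 2 ≤ x := le_trans (by norm_num) hx20
  have hx0 : 0 < x := by linarith
  have hall : ∀ k : ℕ, k ≤ 4000000 → x ^ k ≤ D := fun k hk =>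
    (pow_le_pow_right₀ hx1 hk).trans hXD
  have hDp : 0 < D := lt_of_lt_of_le (pow_pos hx0 0) (hall 0 (by norm_num))
  have hLam : P.Lam = x ^ 3 := by rw [h.Lam, hx]
  have hnz : P.nz = x ^ 10 * Real.sqrt D := by rw [h.nz, hx, hD]
  have heta : P.eta = 1 / x ^ 1600 := by rw [h.eta, hx]
  have hdel : P.delta = 1 / x ^ 4900 := by rw [h.delta, hx]
  have hth : P.theta = 1 / x ^ 14 := by rw [h.theta, hx]
  have hrho : P.rho = 1 / x ^ 13 := by rw [h.rho, hx]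
  have heta0 : 0 < P.eta := by rw [heta]; exact one_div_pos.2 (pow_pos hx0 _)
  have hdel0 : 0 < P.delta := by rw [hdel]; exact one_div_pos.2 (pow_pos hx0 _)
  have hth0 : 0 < P.theta := by rw [hth]; exact one_div_pos.2 (pow_pos hx0 _)
  have hrho0 : 0 < P.rho := by rw [hrho]; exact one_div_pos.2 (pow_pos hx0 _)
  have hpaN : 0 < P.pa := by rw [h.pa]; exact pow_pos hXN 5
  have hpa0 : (0 : ℝ) < P.pa := by exact_mod_cast hpaN
  have hpa1 : (1 : ℝ) ≤ P.pa := by exact_mod_cast hpaN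
  have hr1 : ((1 : ℝ) / 2) ^ P.r ≤ 1 := pow_le_one₀ (by norm_num) (by norm_num)
  have hr0 : 0 < ((1 : ℝ) / 2) ^ P.r := pow_pos (by norm_num) _
  have hrd : ((1 : ℝ) / 2) ^ P.r ≤ P.delta := by
    refine h.r2.trans ?_
    have hkn : 0 < P.kn := by rw [h.kn]; exact pow_pos hXN 3
    obtain ⟨b1, b2⟩ := num5_bet (m := 8 * P.kn) (K := P.kn) (by omega) le_rfl
    have hm1 : 1 / ((8 * P.kn : ℕ) : ℝ) ≤ 1 := by
      rw [div_le_one (by exact_mod_cast (by omega : 0 < 8 * P.kn))]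
      exact_mod_cast (by omega : 1 ≤ 8 * P.kn)
    have hm0 : 0 ≤ 1 / ((8 * P.kn : ℕ) : ℝ) := by positivity
    have b3 : 0 ≤ bet (8 * P.kn) P.kn := by linarith
    have b4 : bet (8 * P.kn) P.kn ^ 2 ≤ 1 := pow_le_one₀ b3 (b2.trans hm1)
    have b5 : bet (8 * P.kn) P.kn ^ 2 * P.delta ≤ 1 * P.delta :=
      mul_le_mul_of_nonneg_right b4 hdel0.le
    linarith
  have hpm2 : P.pmax * P.theta = 103 * P.delta := by
    rw [h.pmax]
    exact div_mul_cancel₀ _ hth0.ne'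
  have hpm0 : 0 < P.pmax := by
    rw [h.pmax]
    exact div_pos (mul_pos (by norm_num) hdel0) hth0
  have hthp : P.thp = (1 / 2) ^ P.r / (4 * P.pa) := h.thp
  have hthp0 : 0 < P.thp := by rw [hthp]; exact div_pos hr0 (by linarith)
  refine
    { X1 := by rw [← hx]; exact hx20
      XD := by rw [← hx, ← hD]; exact hall
      ex := ?_, La := ?_, nz1 := ?_, nzD := ?_, dev := ?_
      eta0 := heta0, eta1 := ?_, eta2 := ?_, del0 := hdel0, del1 := ?_, del2 := ?_, del3 := ?_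
      th0 := hth0, th1 := ?_, rho0 := hrho0, rho1 := ?_, rhoQ := ?_, pm0 := hpm0, pm1 := ?_
      pm2 := hpm2, r0 := ?_, pa0 := hpaN, pat := ?_, MW0 := ?_, MW1 := ?_, fm := ?_
      thp0 := hthp0, thp1 := ?_, thp2 := ?_ }
  · intro k hk
    have := numL_ex P.X P.D k hX0 hDl hk
    rw [← h.Lam] at this
    exact this
  · rw [hLam]
    exact one_le_pow₀ hx1
  · rw [hnz]
    exact mul_pos (pow_pos hx0 10) (Real.sqrt_pos.2 hDp)
  · intro k hk
    rw [← hx, ← hD, hnz]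
    exact numL_sqrt hx1 (hall _ (by omega))
  · intro W hW hW2
    rw [← hx, ← hD] at hW2
    rw [← hx, hLam, hnz]
    exact numL_dev hx2 hDp.le hW hW2
  · rw [← hx, heta, numL_one hx1]
  · rw [← hx, ← hD, heta]
    exact numL_div hx1 hXD (by norm_num)
  · rw [← hx, hdel, heta]
    exact numL_inv hx1 (by norm_num)
  · rw [← hx, ← hD, hdel]
    exact numL_div hx1 hXD (by norm_num)
  · rw [hdel]
    refine one_div_le_one_div_of_le (by norm_num) ?_
    have h1 : (10 : ℝ) ^ 6 ≤ x := le_trans (by norm_num) hx20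
    exact h1.trans (le_self_pow₀ hx1 (by norm_num))
  · rw [← hx, hth, numL_one hx1]
  · rw [← hx, hrho, numL_one hx1]
  · have h1 : 0 ≤ P.rho * (P.D : ℝ) := mul_nonneg hrho0.le (Nat.cast_nonneg _)
    exact ⟨(Nat.sub_one_lt_floor _).le, Nat.floor_le h1⟩
  · have h1 : x ^ 4000 * P.pmax * P.theta ≤ 1 * P.theta := by
      rw [mul_assoc, hpm2, one_mul, hdel, hth]
      have h2 : x ^ 4000 * (103 * (1 / x ^ 4900)) ≤ x ^ 4001 * (1 / x ^ 4900) := by
        have h3 : x ^ 4001 = x ^ 4000 * x := pow_succ x 4000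
        rw [h3, mul_assoc (x ^ 4000) x]
        refine mul_le_mul_of_nonneg_left (mul_le_mul_of_nonneg_right ?_ ?_) (pow_pos hx0 _).le
        · exact le_trans (by norm_num) hx20
        · exact (one_div_pos.2 (pow_pos hx0 _)).le
      exact h2.trans (numL_inv hx1 (by norm_num))
    rw [← hx]
    exact le_of_mul_le_mul_right h1 hth0
  · rw [← hx]
    have h1 : x ^ 4000 * (1 / 2) ^ P.r ≤ x ^ 4000 * P.delta :=
      mul_le_mul_of_nonneg_left hrd (pow_pos hx0 _).le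
    refine h1.trans ?_
    rw [hdel]
    have := numL_inv hx1 (a := 4000) (b := 4900) (c := 0) (by norm_num)
    simpa using this
  · rw [h.t0, h.pa]
    push_cast
    ring
  · rw [h.MW]; exact pow_pos hXN 6
  · rw [h.MW]; push_cast; rfl
  · rw [h.fmin]
    exact mul_one_div_cancel (by linarith [hpa0] : (500 * (P.pa : ℝ)) ≠ 0)
  · rw [hthp]
    field_simp
    ring
  · rw [hthp, div_le_iff₀ (by linarith)]
    linarith

end Pool.TCV
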