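import Pool.Agent.Helper3.TCV.StA
import Pool.Agent.Helper3.TCS.Num5

/-!
# T10: the parameters exist
-/

set_option autoImplicit false

namespace Pool.TCV

open Pool.TC Pool.TCM Pool.TCS Pool.TN Finset
open scoped Classical

/-- powers are smaller than exponentials -/
theorem NumX_ev (k : ℕ) : ∃ X0 : ℕ, ∀ X : ℕ, X0 ≤ X →
    (X : ℝ) ^ k ≤ 2 ^ X ∧ 10 ^ 20 ≤ X := by
  have h1 := tendsto_pow_const_div_const_pow_of_one_lt k (r := (2 : ℝ)) (by norm_num)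
  have h2 : ∀ᶠ n : ℕ in Filter.atTop, (n : ℝ) ^ k / 2 ^ n < 1 :=
    h1.eventually (gt_mem_nhds (by norm_num))
  have h3 : ∀ᶠ n : ℕ in Filter.atTop, 10 ^ 20 ≤ n := Filter.eventually_ge_atTop (10 ^ 20)
  obtain ⟨X0, hX0⟩ := Filter.eventually_atTop.1 (h2.and h3)
  refine ⟨X0, fun X hX => ?_⟩
  obtain ⟨h4, h5⟩ := hX0 X hX
  refine ⟨?_, h5⟩
  rw [div_lt_one (by positivity)] at h4
  exact h4.le

/-- the exponent `r` -/
theorem NumX_r (y : ℝ) (hy0 : 0 < y) (hy1 : y < (1 / 2) ^ 6) :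
    ∃ r : ℕ, 7 ≤ r ∧ y / 2 < (1 / 2 : ℝ) ^ r ∧ (1 / 2 : ℝ) ^ r ≤ y := by
  have hex : ∃ r : ℕ, (1 / 2 : ℝ) ^ r ≤ y := by
    obtain ⟨n, hn⟩ := exists_pow_lt_of_lt_one hy0 (show (1 / 2 : ℝ) < 1 by norm_num)
    exact ⟨n, hn.le⟩
  refine ⟨Nat.find hex, ?_, ?_, Nat.find_spec hex⟩
  · by_contra hc
    push Not at hc
    have h1 : Nat.find hex ≤ 6 := by omega
    have h2 : (1 / 2 : ℝ) ^ 6 ≤ (1 / 2) ^ (Nat.find hex) :=
      pow_le_pow_of_le_one (by norm_num) (by norm_num) h1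
    have h3 := Nat.find_spec hex
    linarith
  · have h7 : 1 ≤ Nat.find hex := by
      by_contra hc
      have h1 : Nat.find hex = 0 := by omega
      have h3 := Nat.find_spec hex
      rw [h1, pow_zero] at h3
      have : (1 / 2 : ℝ) ^ 6 < 1 := by norm_num
      linarith
    have h2 : ¬ (1 / 2 : ℝ) ^ (Nat.find hex - 1) ≤ y := Nat.find_min hex (by omega)
    push Not at h2
    have h3 : (1 / 2 : ℝ) ^ (Nat.find hex) = (1 / 2) ^ (Nat.find hex - 1) / 2 := by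
      conv_lhs => rw [show Nat.find hex = (Nat.find hex - 1) + 1 by omega]
      rw [pow_succ]
      ring
    rw [h3]
    linarith

/-- the bounds for `y` -/
theorem NumX_y (X : ℕ) (hX : 10 ^ 20 ≤ X) :
    0 < bet (8 * X ^ 3) (X ^ 3) ^ 2 * (1 / (X : ℝ) ^ 4900) / 80 ∧
    bet (8 * X ^ 3) (X ^ 3) ^ 2 * (1 / (X : ℝ) ^ 4900) / 80 < (1 / 2 : ℝ) ^ 6 ∧
    1 / (X : ℝ) ^ 4909 ≤ bet (8 * X ^ 3) (X ^ 3) ^ 2 * (1 / (X : ℝ) ^ 4900) / 80 / 2 := by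
  have hx20 : (10 : ℝ) ^ 20 ≤ (X : ℝ) := by exact_mod_cast hX
  have hX0 : 0 < X := lt_of_lt_of_le (by norm_num) hX
  have hx1 : (1 : ℝ) ≤ (X : ℝ) := le_trans (by norm_num) hx20
  have hx200 : (200 : ℝ) ≤ (X : ℝ) := le_trans (by norm_num) hx20
  have hX3 : 0 < X ^ 3 := by positivity
  obtain ⟨h1, h2⟩ := num5_bet (m := 8 * X ^ 3) (K := X ^ 3) (by positivity) le_rfl
  set b := bet (8 * X ^ 3) (X ^ 3) with hb
  have hm : ((8 * X ^ 3 : ℕ) : ℝ) = 8 * (X : ℝ) ^ 3 := by push_cast; rfl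
  rw [hm] at h1 h2
  set x : ℝ := (X : ℝ) with hx
  have hxp : 0 < x := by linarith
  have hx3 : 0 < x ^ 3 := by positivity
  have hb1 : 1 / x ^ 4 ≤ b := by
    refine le_trans ?_ h1
    rw [show x ^ 4 = x * x ^ 3 by ring, mul_one_div, div_le_div_iff₀ (by positivity) (by positivity)]
    nlinarith
  have hb2 : b ≤ 1 := by
    refine h2.trans ?_
    rw [div_le_one (by positivity)]
    have := one_le_pow₀ hx1 (n := 3)
    linarith
  have hb0 : 0 < b := lt_of_lt_of_le (by positivity) hb1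
  have hd0 : 0 < 1 / x ^ 4900 := by positivity
  have hd1 : 1 / x ^ 4900 ≤ 1 := by
    rw [div_le_one (by positivity)]
    exact one_le_pow₀ hx1
  refine ⟨by positivity, ?_, ?_⟩
  · have h3 : b ^ 2 ≤ 1 := pow_le_one₀ hb0.le hb2
    have h4 : b ^ 2 * (1 / x ^ 4900) ≤ 1 := by
      calc b ^ 2 * (1 / x ^ 4900) ≤ 1 * 1 :=
            mul_le_mul h3 hd1 hd0.le (by norm_num)
        _ = 1 := by norm_num
    have h5 : (1 / 2 : ℝ) ^ 6 = 1 / 64 := by norm_num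
    rw [h5]
    linarith
  · have h3 : (1 / x ^ 4) ^ 2 ≤ b ^ 2 := pow_le_pow_left₀ (by positivity) hb1 2
    have h4 : (1 / x ^ 4) ^ 2 * (1 / x ^ 4900) ≤ b ^ 2 * (1 / x ^ 4900) :=
      mul_le_mul_of_nonneg_right h3 hd0.le
    have h5 : 1 / x ^ 4909 ≤ (1 / x ^ 4) ^ 2 * (1 / x ^ 4900) / 160 := by
      have e : (1 / x ^ 4) ^ 2 * (1 / x ^ 4900) / 160 = 1 / (x ^ 4908 * 160) := by
        rw [one_div_pow, ← pow_mul, one_div_mul_one_div, ← pow_add, div_div]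
      rw [e]
      apply one_div_le_one_div_of_le (by positivity)
      rw [pow_succ x 4908]
      apply mul_le_mul_of_nonneg_left _ (by positivity)
      linarith
    calc 1 / x ^ 4909 ≤ (1 / x ^ 4) ^ 2 * (1 / x ^ 4900) / 160 := h5
      _ ≤ b ^ 2 * (1 / x ^ 4900) / 160 := by linarith
      _ = b ^ 2 * (1 / x ^ 4900) / 80 / 2 := by ring

theorem thm_NumX : St_Num10 := by
  obtain ⟨X0, hX0⟩ := NumX_ev 4000000
  refine ⟨2 ^ X0, fun D hD => ?_⟩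
  have hD0 : D ≠ 0 := by
    have : 0 < 2 ^ X0 := by positivity
    omega
  obtain ⟨X, hXdef⟩ : ∃ X : ℕ, X = Nat.log 2 D := ⟨_, rfl⟩
  have hXX : X0 ≤ X := by
    rw [hXdef]
    exact Nat.le_log_of_pow_le (by norm_num) hD
  obtain ⟨hpow, h20⟩ := hX0 X hXX
  have hlo : 2 ^ X ≤ D := by rw [hXdef]; exact Nat.pow_log_le_self 2 hD0
  have hhi : D < 2 ^ (X + 1) := by
    rw [hXdef]
    exact Nat.lt_pow_succ_log_self (by norm_num) _
  have hX2 : 2 ≤ X := le_trans (by norm_num) h20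
  have hx20 : (10 : ℝ) ^ 20 ≤ (X : ℝ) := by exact_mod_cast h20
  have hx1 : (1 : ℝ) ≤ (X : ℝ) := le_trans (by norm_num) hx20
  have hx4 : (4 : ℝ) ≤ (X : ℝ) := le_trans (by norm_num) hx20
  obtain ⟨l, hl⟩ : ∃ l : ℕ, X = l + 2 := ⟨X - 2, by omega⟩
  have h2l : 2 ^ X = 4 * 2 ^ l := by
    rw [hl, pow_add]
    ring
  have h2l1 : 2 ^ (X + 1) = 8 * 2 ^ l := by
    rw [pow_succ, h2l]
    ring
  have h2lp : 0 < 2 ^ l := by positivity
  obtain ⟨hy0, hy1, hy2⟩ := NumX_y X h20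
  obtain ⟨r, hr7, hr1, hr2⟩ := NumX_r _ hy0 hy1
  have hrl : r ≤ l := by
    have h1 : 1 / (X : ℝ) ^ 4909 < (1 / 2 : ℝ) ^ r := lt_of_le_of_lt hy2 hr1
    have h2 : (2 : ℝ) ^ r < (X : ℝ) ^ 4909 := by
      rw [one_div_pow] at h1
      exact lt_of_one_div_lt_one_div (by positivity) h1
    have h3 : 4 * (X : ℝ) ^ 4909 ≤ (X : ℝ) ^ 4910 := by
      rw [pow_succ (X : ℝ) 4909, mul_comm]
      exact mul_le_mul_of_nonneg_left hx4 (by positivity)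
    have h4 : (X : ℝ) ^ 4910 ≤ (X : ℝ) ^ 4000000 := pow_le_pow_right₀ hx1 (by norm_num)
    have h5 : (2 : ℝ) ^ X = 4 * 2 ^ l := by exact_mod_cast h2l
    have h6 : (2 : ℝ) ^ r < 2 ^ l := by linarith
    exact ((pow_lt_pow_iff_right₀ (by norm_num : (1 : ℝ) < 2)).1 h6).le
  refine ⟨{ D := D, X := X, s := (D + 1) / 2 ^ l, l := l, lo := (D + 1) % 2 ^ l, r := r,
            pa := X ^ 5, t0 := X ^ 4, MW := X ^ 6, kn := X ^ 3,
            B := ⌈1 / (X : ℝ) ^ 1600 * (D : ℝ)⌉₊, Lam := (X : ℝ) ^ 3,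
            nz := (X : ℝ) ^ 10 * Real.sqrt D, rho := 1 / (X : ℝ) ^ 13,
            theta := 1 / (X : ℝ) ^ 14, eps := 1 / (X : ℝ) ^ 15, eta := 1 / (X : ℝ) ^ 1600,
            delta := 1 / (X : ℝ) ^ 4900,
            pmax := 103 * (1 / (X : ℝ) ^ 4900) / (1 / (X : ℝ) ^ 14),
            xi := 2000 * (X : ℝ) ^ 3 * (103 * (1 / (X : ℝ) ^ 4900) / (1 / (X : ℝ) ^ 14)),
            thp := (1 / 2) ^ r / (4 * ((X ^ 5 : ℕ) : ℝ)),
            fmin := 1 / (500 * ((X ^ 5 : ℕ) : ℝ)) }, rfl, ?_⟩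
  constructor
  · exact h20
  · exact hXdef
  · have h1 : (2 : ℝ) ^ X ≤ (D : ℝ) := by exact_mod_cast hlo
    exact hpow.trans h1
  · rfl
  · rfl
  · rfl
  · rfl
  · rfl
  · rfl
  · rfl
  · rfl
  · rfl
  · rfl
  · rfl
  · rfl
  · rfl
  · rfl
  · rfl
  · rfl
  · show 2 ≤ (D + 1) / 2 ^ l
    rw [Nat.le_div_iff_mul_le h2lp]
    omega
  · exact (Nat.mod_lt _ h2lp).le
  · exact Nat.div_add_mod' _ _
  · show l + 1 ≤ X
    omega
  · show D ≤ 16 * 2 ^ l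
    omega
  · exact hr7
  · exact hrl
  · show bet (8 * X ^ 3) (X ^ 3) ^ 2 * (1 / (X : ℝ) ^ 4900) / 160 < (1 / 2 : ℝ) ^ r
    refine lt_of_eq_of_lt ?_ hr1
    ring
  · exact hr2

end Pool.TCV
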