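import Pool.Agent.Helper3.TCV.StA
import Pool.Agent.Helper32.TN.StA

/-!
# T10, [Pq]: the pairs (helper26)
-/

set_option autoImplicit false

namespace Pool.TCV

open Pool.TC Pool.TCM Pool.TCS Pool.TN Finset
open scoped Classical

theorem thm_Pq (hKs : St_Ks) (hMch : Pool.TN.St_Mch) : St_Pq := by
  intro V _ g D δ hd h0 h1 h2
  obtain ⟨k1, k2, k3, k4, k5⟩ := hKs V g D δ hd h0 h1 h2
  have hDpos : 0 < D := by
    rcases Nat.eq_zero_or_pos D with h | h
    · rw [h] at h2
      norm_num at h2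
    · exact h
  have hDr : (0 : ℝ) < D := by exact_mod_cast hDpos
  have hKi : ∀ i w, w ∈ g.Ki i ↔ g.K w = some i := by
    intro i w
    unfold Gd.Ki
    rw [Finset.mem_filter]
    exact ⟨fun h => h.2, fun h => ⟨Finset.mem_univ _, h⟩⟩
  obtain ⟨rel, hrel⟩ : ∃ rel : V → V → Prop, ∀ w x, rel w x ↔ w ≠ x ∧ ¬ g.G.Adj w x :=
    ⟨fun w x => w ≠ x ∧ ¬ g.G.Adj w x, fun _ _ => Iff.rfl⟩
  have hcard : ∀ i, ∀ w ∈ g.Ki i, ((g.Ki i).filter (fun x => rel w x)).card = g.aw w := by
    intro i w hw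
    unfold Gd.aw
    congr 1
    ext x
    rw [Finset.mem_filter, Finset.mem_filter, hKi, hrel, (hKi i w).1 hw]
    constructor
    · rintro ⟨a1, a2, a3⟩
      exact ⟨Finset.mem_univ _, a1, fun h => a2 h.symm, a3⟩
    · rintro ⟨-, a1, a2, a3⟩
      exact ⟨a1, fun h => a2 h.symm, a3⟩
  obtain ⟨A, hA⟩ : ∃ A : V → ℕ, ∀ i, A i = ∑ w ∈ g.Ki i, g.aw w := ⟨_, fun _ => rfl⟩
  obtain ⟨μ, hμ⟩ : ∃ μ : V → ℕ, ∀ i, μ i = (2 * A i + D - 1) / D := ⟨_, fun _ => rfl⟩
  have hμ1 : ∀ i, D * μ i < 2 * A i + D := by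
    intro i
    have e := Nat.div_mul_le_self (2 * A i + D - 1) D
    rw [← hμ, mul_comm] at e
    omega
  have hμ2 : ∀ i, 2 * A i ≤ D * μ i := by
    intro i
    have e := Nat.lt_div_mul_add (a := 2 * A i + D - 1) hDpos
    rw [← hμ, Nat.mul_comm (μ i) D] at e
    omega
  have hone : ∀ i, ∃ p : V → V, (∀ w, p (p w) = w) ∧
      (∀ w, p w ≠ w → w ∈ g.Ki i ∧ p w ∈ g.Ki i ∧ rel w (p w)) ∧
      ((g.Ki i).filter (fun w => p w ≠ w)).card = 2 * μ i := by
    intro i
    refine hMch V (g.Ki i) rel (D / 98) (μ i) ?_ ?_ ?_ ?_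
    · intro w x h
      rw [hrel] at h ⊢
      exact ⟨h.1.symm, fun h' => h.2 h'.symm⟩
    · intro w h
      rw [hrel] at h
      exact h.1 rfl
    · intro w hw
      rw [hcard i w hw]
      have e := hd.d4' w (by rw [(hKi i w).1 hw]; exact Option.some_ne_none i)
      omega
    · rcases Nat.eq_zero_or_pos (μ i) with hz | hpos
      · exact Or.inl hz
      · right
        have hAe : ∑ w ∈ g.Ki i, ((g.Ki i).filter (fun x => rel w x)).card = A i := by
          rw [hA]
          exact Finset.sum_congr rfl fun w hw => hcard i w hw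
        rw [hAe]
        obtain ⟨m, hm⟩ : ∃ m, μ i = m + 1 := ⟨μ i - 1, by omega⟩
        have e1 := hμ1 i
        rw [hm] at e1 ⊢
        rw [Nat.add_sub_cancel]
        have e2 : D * m < 2 * A i := by
          rw [mul_add] at e1
          omega
        have e3 : 98 * (D / 98) ≤ D := Nat.mul_div_le D 98
        have e4 : 98 * (D / 98) * m ≤ D * m := Nat.mul_le_mul_right _ e3
        have e5 : 98 * (4 * (D / 98) * m) = 4 * (98 * (D / 98) * m) := by ring
        omega
  choose p p1 p2 p3 using hone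
  have hA5 : ∀ i, (A i : ℝ) ≤ 207 * δ * D ^ 2 := by
    intro i
    rw [hA]
    push_cast
    exact k5 i
  have hmu : ∀ i, (μ i : ℝ) ≤ 415 * δ * D := by
    intro i
    have e1 : (D : ℝ) * μ i < 2 * A i + D := by exact_mod_cast hμ1 i
    have e2 : (D : ℝ) * μ i ≤ D * (415 * δ * D) := by
      have e3 := hA5 i
      have e4 : (D : ℝ) ≤ D * (δ * D) := by nlinarith
      nlinarith
    exact le_of_mul_le_mul_left e2 hDr
  -- the exact subtraction
  have hsub : ∀ i, g.K i = some i → (g.Ki i).card ≤ D + 1 + μ i := by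
    intro i hi
    by_contra hcon
    rw [not_le] at hcon
    obtain ⟨t, ht⟩ : ∃ t, (g.Ki i).card = D + 1 + t := ⟨(g.Ki i).card - (D + 1), by omega⟩
    have e1 : ∀ w ∈ g.Ki i, t ≤ g.aw w := by
      intro w hw
      have e2 := k1 i w ((hKi i w).1 hw)
      omega
    have e2 : (g.Ki i).card * t ≤ A i := by
      rw [hA]
      calc (g.Ki i).card * t = ∑ w ∈ g.Ki i, t := by rw [Finset.sum_const, smul_eq_mul]
        _ ≤ ∑ w ∈ g.Ki i, g.aw w := Finset.sum_le_sum e1
    have e3 : D * t ≤ (g.Ki i).card * t := Nat.mul_le_mul_right _ (by omega)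
    have e4 : D * (2 * t) ≤ D * μ i := by
      have e5 := hμ2 i
      have e6 : D * (2 * t) = 2 * (D * t) := by ring
      omega
    have e5 : 2 * t ≤ μ i := Nat.le_of_mul_le_mul_left e4 hDpos
    omega
  obtain ⟨π, hπn, hπs⟩ : ∃ π : V → V, (∀ w, g.K w = none → π w = w) ∧
      ∀ w i, g.K w = some i → π w = p i w := by
    refine ⟨fun w => (g.K w).elim w (fun i => p i w), fun w hw => ?_, fun w i hw => ?_⟩
    · simp only [hw]
      rfl
    · simp only [hw]
      rfl
  obtain ⟨lam, hl1, hl2⟩ : ∃ lam : V → ℕ, (∀ i, g.K i = some i →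
      lam i = D + 1 + μ i - (g.Ki i).card) ∧ ∀ i, g.K i ≠ some i → lam i = 0 :=
    ⟨fun i => if g.K i = some i then D + 1 + μ i - (g.Ki i).card else 0,
      fun i hi => if_pos hi, fun i hi => if_neg hi⟩
  have hKp : ∀ w i, g.K w = some i → g.K (p i w) = some i := fun w i hw => by
    by_cases h : p i w = w
    · rw [h, hw]
    · exact (hKi i _).1 (p2 i w h).2.1
  refine ⟨π, μ, lam, ?_, ?_, ?_, hmu, ?_, ?_, ?_⟩
  · intro w
    rcases hw : g.K w with _ | i
    · rw [hπn w hw, hπn w hw]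
    · rw [hπs w i hw, hπs _ i (hKp w i hw), p1]
  · intro w hne
    rcases hw : g.K w with _ | i
    · exact absurd (hπn w hw) hne
    · rw [hπs w i hw] at hne ⊢
      obtain ⟨-, g2, g3⟩ := p2 i w hne
      exact ⟨Option.some_ne_none i, (hKi i _).1 g2, ((hrel _ _).1 g3).2⟩
  · intro i
    rw [← p3 i]
    congr 1
    apply Finset.filter_congr
    intro w hw
    rw [hπs w i ((hKi i w).1 hw)]
  · intro i hi
    have e1 := hsub i hi
    have e2 := hl1 i hi
    omega
  · intro i
    have hδD : 0 ≤ δ * D := by linarith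
    by_cases hi : g.K i = some i
    · have e1 := hsub i hi
      have e2 := hl1 i hi
      have e3 : (g.Ki i).card + lam i = D + 1 + μ i := by omega
      have e4 : ((g.Ki i).card : ℝ) + lam i = D + 1 + μ i := by exact_mod_cast e3
      have e5 := k2 i hi
      have e6 := hmu i
      nlinarith
    · rw [hl2 i hi]
      simp only [Nat.cast_zero]
      nlinarith
  · intro i
    rw [← hA]
    exact hμ2 i

end Pool.TCV
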