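import Pool.Agent.Helper3.TCV.StB

/-!
# [PrA] Probabilities of the labels
-/

set_option autoImplicit false

namespace Pool.TCV

open Pool.TC Pool.TCM Pool.TCS Pool.TN Finset
open scoped Classical

private theorem PrA_mean_mono {Ω : Type} [Fintype Ω] {F G : Ω → ℝ} (h : ∀ ω, F ω ≤ G ω) :
    mean F ≤ mean G := by
  unfold mean
  exact div_le_div_of_nonneg_right (sum_le_sum fun ω _ => h ω) (Nat.cast_nonneg _)

private theorem PrA_mean_sub {Ω J : Type} [Fintype Ω] (s : Finset J) (F : Ω → ℝ) (G : J → Ω → ℝ) :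
    mean (fun ω => F ω - ∑ j ∈ s, G j ω) = mean F - ∑ j ∈ s, mean (G j) := by
  unfold mean
  rw [sum_sub_distrib, sum_comm, sub_div, ← sum_div]

private theorem PrA_box (hBox : Pool.TCS.St_Box) (V A : Type) [Fintype V] [Fintype A] [Nonempty A]
    (B : V → Finset A) (p : (V → A) → Prop) [DecidablePred p] (hp : ∀ ω, p ω ↔ ∀ t, ω t ∈ B t) :
    mean (fun ω => if p ω then (1 : ℝ) else 0) = ∏ t, ((B t).card : ℝ) / Fintype.card A := by
  rw [← (hBox V A).1 B]
  refine congrArg mean (funext fun ω => ?_)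
  by_cases h : p ω
  · rw [if_pos h, if_pos ((hp ω).1 h)]
  · rw [if_neg h, if_neg fun h2 => h ((hp ω).2 h2)]

private theorem PrA_one (hBox : Pool.TCS.St_Box) (V : Type) [Fintype V] (n : ℕ) (hn : 0 < n)
    (w : V) : mean (fun ω : V → Fin n => if (ω w).val = 0 then (1 : ℝ) else 0) = 1 / n := by
  have : Nonempty (Fin n) := ⟨⟨0, hn⟩⟩
  have hn' : (n : ℝ) ≠ 0 := by exact_mod_cast hn.ne'
  rw [PrA_box hBox V (Fin n) (fun t => if t = w then {⟨0, hn⟩} else univ)
    (fun ω => (ω w).val = 0) (by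
      intro ω
      constructor
      · intro h0 t
        by_cases ht : t = w
        · rw [if_pos ht, ht, mem_singleton]
          exact Fin.ext h0
        · rw [if_neg ht]
          exact mem_univ _
      · intro h1
        have h2 := h1 w
        rw [if_pos rfl, mem_singleton] at h2
        rw [h2])]
  have e2 : ∀ t : V, (((if t = w then ({⟨0, hn⟩} : Finset (Fin n)) else univ).card : ℕ) : ℝ) /
      Fintype.card (Fin n) = if t = w then 1 / (n : ℝ) else 1 := by
    intro t
    rw [Fintype.card_fin]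
    by_cases ht : t = w
    · rw [if_pos ht, if_pos ht, card_singleton, Nat.cast_one]
    · rw [if_neg ht, if_neg ht, card_univ, Fintype.card_fin, div_self hn']
  rw [prod_congr rfl fun t _ => e2 t, prod_ite_eq' univ w fun _ => 1 / (n : ℝ), if_pos (mem_univ w)]

private theorem PrA_two (hBox : Pool.TCS.St_Box) (V : Type) [Fintype V] (n : ℕ) (hn : 0 < n)
    (w u : V) (hwu : w ≠ u) : mean (fun ω : V → Fin n => if (ω w).val = 0 ∧ (ω u).val = 0
      then (1 : ℝ) else 0) = 1 / (n : ℝ) ^ 2 := by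
  have : Nonempty (Fin n) := ⟨⟨0, hn⟩⟩
  have hn' : (n : ℝ) ≠ 0 := by exact_mod_cast hn.ne'
  rw [PrA_box hBox V (Fin n) (fun t => if t = w ∨ t = u then {⟨0, hn⟩} else univ)
    (fun ω => (ω w).val = 0 ∧ (ω u).val = 0) (by
      intro ω
      constructor
      · intro h0 t
        by_cases ht : t = w ∨ t = u
        · rw [if_pos ht, mem_singleton]
          rcases ht with ht | ht
          · rw [ht]
            exact Fin.ext h0.1
          · rw [ht]
            exact Fin.ext h0.2
        · rw [if_neg ht]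
          exact mem_univ _
      · intro h1
        have h2 := h1 w
        have h3 := h1 u
        rw [if_pos (Or.inl rfl), mem_singleton] at h2
        rw [if_pos (Or.inr rfl), mem_singleton] at h3
        exact ⟨by rw [h2], by rw [h3]⟩)]
  have e2 : ∀ t : V, (((if t = w ∨ t = u then ({⟨0, hn⟩} : Finset (Fin n)) else univ).card : ℕ) : ℝ) /
      Fintype.card (Fin n) = (if t = w then 1 / (n : ℝ) else 1) * if t = u then 1 / (n : ℝ) else 1 := by
    intro t
    rw [Fintype.card_fin]
    by_cases ht : t = w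
    · have hu : t ≠ u := by rw [ht]; exact hwu
      rw [if_pos (Or.inl ht), if_pos ht, if_neg hu, card_singleton, Nat.cast_one, mul_one]
    · by_cases hu : t = u
      · rw [if_pos (Or.inr hu), if_neg ht, if_pos hu, card_singleton, Nat.cast_one, one_mul]
      · rw [if_neg (not_or.2 ⟨ht, hu⟩), if_neg ht, if_neg hu, card_univ, Fintype.card_fin,
          div_self hn', one_mul]
  rw [prod_congr rfl fun t _ => e2 t, prod_mul_distrib, prod_ite_eq' univ w fun _ => 1 / (n : ℝ),
    if_pos (mem_univ w), prod_ite_eq' univ u fun _ => 1 / (n : ℝ), if_pos (mem_univ u), div_mul_div_comm,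
    one_mul, sq]

theorem thm_PrA (hNumL : St_NumL) (hBox : Pool.TCS.St_Box) (hCf : St_Cf) : St_PrA := by
  intro P V κ _ _ e he
  have hL := hNumL P he.nm
  have hpa := hL.pa0
  have hpa' : (0 : ℝ) < P.pa := by exact_mod_cast hpa
  obtain ⟨-, -, hc3, -⟩ := hCf P V κ e he
  have h1 := fun w => PrA_one hBox V P.pa hpa w
  have h2 := fun w u hwu => PrA_two hBox V P.pa hpa w u hwu
  refine ⟨h1, h2, ?_, ?_⟩
  · intro w hw
    have hlow : ∀ ω : V → Fin P.pa,
        (if (ω w).val = 0 then (1 : ℝ) else 0) - ∑ u ∈ univ.filter (fun u => e.cf P u w),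
          (if (ω w).val = 0 ∧ (ω u).val = 0 then (1 : ℝ) else 0) ≤
        if (fdA P e ω).F0 w then (1 : ℝ) else 0 := by
      intro ω
      by_cases h0 : (ω w).val = 0
      · by_cases h3 : ∀ u, e.cf P u w → (ω u).val ≠ 0
        · have h4 : (fdA P e ω).F0 w := ⟨hw, h0, h3⟩
          rw [if_pos h0, if_pos h4]
          have h5 : 0 ≤ ∑ u ∈ univ.filter (fun u => e.cf P u w),
              (if (ω w).val = 0 ∧ (ω u).val = 0 then (1 : ℝ) else 0) :=
            sum_nonneg fun u _ => by split_ifs <;> norm_num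
          linarith
        · push Not at h3
          obtain ⟨u, hu, hu0⟩ := h3
          have h4 : ¬ (fdA P e ω).F0 w := fun h => h.2.2 u hu hu0
          rw [if_pos h0, if_neg h4]
          have h5 : (1 : ℝ) ≤ ∑ u ∈ univ.filter (fun u => e.cf P u w),
              (if (ω w).val = 0 ∧ (ω u).val = 0 then (1 : ℝ) else 0) := by
            have h6 := single_le_sum (f := fun u => if (ω w).val = 0 ∧ (ω u).val = 0 then (1 : ℝ)
              else 0) (s := univ.filter (fun u => e.cf P u w))
              (fun u _ => by split_ifs <;> norm_num)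
              (mem_filter.2 ⟨mem_univ u, hu⟩)
            rw [if_pos ⟨h0, hu0⟩] at h6
            exact h6
          linarith
      · rw [if_neg h0]
        have h5 : 0 ≤ ∑ u ∈ univ.filter (fun u => e.cf P u w),
            (if (ω w).val = 0 ∧ (ω u).val = 0 then (1 : ℝ) else 0) :=
          sum_nonneg fun u _ => by split_ifs <;> norm_num
        have h6 : (0 : ℝ) ≤ if (fdA P e ω).F0 w then (1 : ℝ) else 0 := by
          split_ifs <;> norm_num
        linarith
    have hm := PrA_mean_mono hlow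
    rw [PrA_mean_sub, h1 w] at hm
    have hs : ∑ u ∈ univ.filter (fun u => e.cf P u w),
        mean (fun ω : V → Fin P.pa => if (ω w).val = 0 ∧ (ω u).val = 0 then (1 : ℝ) else 0) ≤
        (2 * P.t0) * (1 / (P.pa : ℝ) ^ 2) := by
      have e1 : ∀ u ∈ univ.filter (fun u => e.cf P u w),
          mean (fun ω : V → Fin P.pa => if (ω w).val = 0 ∧ (ω u).val = 0 then (1 : ℝ) else 0) =
          1 / (P.pa : ℝ) ^ 2 := by
        intro u hu
        exact h2 w u (mem_filter.1 hu).2.1.symm
      rw [sum_congr rfl e1, sum_const, nsmul_eq_mul]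
      have h3 : ((univ.filter (fun u => e.cf P u w)).card : ℝ) ≤ 2 * P.t0 := by
        exact_mod_cast hc3 w
      exact mul_le_mul_of_nonneg_right h3 (by positivity)
    refine le_trans ?_ hm
    have hX := hL.X1
    have hpt := hL.pat
    have ht0 : (0 : ℝ) ≤ P.t0 := Nat.cast_nonneg _
    have h4 : (2 * (P.t0 : ℝ)) * (1 / (P.pa : ℝ) ^ 2) ≤ (1 / 10 ^ 10) / P.pa := by
      rw [mul_one_div, div_le_div_iff₀ (by positivity) hpa']
      have h5 : 2 * (P.t0 : ℝ) ≤ 1 / 10 ^ 10 * P.pa := by
        rw [← hpt]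
        have h6 : (10 : ℝ) ^ 20 * P.t0 ≤ P.X * P.t0 := mul_le_mul_of_nonneg_right hX ht0
        have h7 : 1 / 10 ^ 10 * ((10 : ℝ) ^ 20 * P.t0) ≤ 1 / 10 ^ 10 * (P.X * P.t0) :=
          mul_le_mul_of_nonneg_left h6 (by norm_num)
        refine le_trans ?_ h7
        have h8 : 1 / 10 ^ 10 * ((10 : ℝ) ^ 20 * P.t0) = 10 ^ 10 * P.t0 := by ring
        rw [h8]
        nlinarith
      calc 2 * (P.t0 : ℝ) * P.pa ≤ (1 / 10 ^ 10 * P.pa) * P.pa :=
            mul_le_mul_of_nonneg_right h5 hpa'.le
        _ = 1 / 10 ^ 10 * (P.pa : ℝ) ^ 2 := by ring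
    have h5 : (1 - 1 / 10 ^ 10) / (P.pa : ℝ) = 1 / P.pa - (1 / 10 ^ 10) / P.pa := by
      rw [sub_div]
    rw [h5]
    linarith
  · intro w ω ω' hω
    have hw := hω w (mem_insert_self _ _)
    have hu : ∀ u, e.cf P u w → ω u = ω' u := fun u hu =>
      hω u (mem_insert_of_mem (mem_filter.2 ⟨mem_univ u, hu⟩))
    constructor
    · rintro ⟨a1, a2, a3⟩
      refine ⟨a1, by rw [← hw]; exact a2, fun u hcf => ?_⟩
      rw [← hu u hcf]
      exact a3 u hcf
    · rintro ⟨a1, a2, a3⟩
      refine ⟨a1, by rw [hw]; exact a2, fun u hcf => ?_⟩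
      rw [hu u hcf]
      exact a3 u hcf

end Pool.TCV
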