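import Pool.Agent.Helper3.TCV.StB
import Pool.Agent.Helper3.TCS.Mean

/-!
# T10, section 5: probabilities of the coins (helper23)
-/

set_option autoImplicit false

namespace Pool.TCV

open Pool.TC Pool.TCM Pool.TCS Pool.TN Finset
open scoped Classical

section

variable {V : Type} [Fintype V] {M : ℕ}

/-- the indicator of the values of one coin -/
private noncomputable def PrT_H (q : Option Bool) (b : Bool) (x : Bool × Fin M) : ℝ :=
  if x.1 = b ∧ cnd q x.2 then 1 else 0

private theorem PrT_H1 (x : Bool × Fin M) : PrT_H none x.1 x = 1 :=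
  if_pos ⟨rfl, Or.inl rfl⟩

private theorem PrT_H0 {q : Option Bool} {b : Bool} {x : Bool × Fin M} (h : b ≠ x.1) :
    PrT_H q b x = 0 :=
  if_neg fun h1 => h h1.1.symm

private theorem PrT_cnd (hM : 0 < M) (q : Option Bool) :
    ∑ y : Fin M, (if cnd q y then (1 : ℝ) else 0) = M * pq M q := by
  have hM' : (M : ℝ) ≠ 0 := by
    exact_mod_cast hM.ne'
  have h0 : ∑ y : Fin M, (if y.val = 0 then (1 : ℝ) else 0) = 1 := by
    rw [Finset.sum_eq_single (⟨0, hM⟩ : Fin M)]
    · exact if_pos rfl
    · intro y _ hy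
      exact if_neg fun h => hy (Fin.ext h)
    · intro h
      exact absurd (mem_univ _) h
  rcases q with _ | _ | _
  · have h1 : ∀ y : Fin M, (if cnd none y then (1 : ℝ) else 0) = 1 := fun y =>
      if_pos (Or.inl rfl)
    rw [Finset.sum_congr rfl fun y _ => h1 y]
    simp [pq]
  · have h1 : ∀ y : Fin M, (if cnd (some false) y then (1 : ℝ) else 0) =
        1 - (if y.val = 0 then (1 : ℝ) else 0) := by
      intro y
      have h2 : cnd (some false) y ↔ ¬ y.val = 0 := by
        unfold cnd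
        simp
      by_cases h : y.val = 0
      · rw [if_neg (fun h3 => h2.1 h3 h), if_pos h, sub_self]
      · rw [if_pos (h2.2 h), if_neg h, sub_zero]
    rw [Finset.sum_congr rfl fun y _ => h1 y, Finset.sum_sub_distrib, h0]
    simp only [pq, sum_const, card_univ, Fintype.card_fin, nsmul_eq_mul, mul_one]
    field_simp
  · have h1 : ∀ y : Fin M, (if cnd (some true) y then (1 : ℝ) else 0) =
        (if y.val = 0 then (1 : ℝ) else 0) := by
      intro y
      have h2 : cnd (some true) y ↔ y.val = 0 := by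
        unfold cnd
        simp
      by_cases h : y.val = 0
      · rw [if_pos (h2.2 h), if_pos h]
      · rw [if_neg (fun h3 => h (h2.1 h3)), if_neg h]
    rw [Finset.sum_congr rfl fun y _ => h1 y, h0]
    simp only [pq]
    field_simp

private theorem PrT_sum (hM : 0 < M) (q : Option Bool) (b : Bool) :
    (∑ x : Bool × Fin M, PrT_H q b x) / (Fintype.card (Bool × Fin M) : ℝ) = pq M q / 2 := by
  have hM' : (M : ℝ) ≠ 0 := by
    exact_mod_cast hM.ne'
  have h1 : ∑ x : Bool × Fin M, PrT_H q b x = M * pq M q := by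
    rw [Fintype.sum_prod_type, Finset.sum_eq_single b]
    · rw [← PrT_cnd hM q]
      refine Finset.sum_congr rfl fun y _ => ?_
      unfold PrT_H
      by_cases h : cnd q y
      · rw [if_pos ⟨rfl, h⟩, if_pos h]
      · rw [if_neg fun h2 => h h2.2, if_neg h]
    · intro b' _ hb'
      refine Finset.sum_eq_zero fun y _ => ?_
      unfold PrT_H
      exact if_neg fun h2 => hb' h2.1
    · intro h
      exact absurd (mem_univ _) h
  rw [h1, Fintype.card_prod, Fintype.card_bool, Fintype.card_fin]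
  push_cast
  field_simp

private theorem PrT_one (hM : 0 < M) (q : Option Bool) (p : V) (b : Bool) :
    mean (fun ω : V → Bool × Fin M => PrT_H q b (ω p)) = pq M q / 2 := by
  have : Nonempty (Bool × Fin M) := ⟨(true, ⟨0, hM⟩)⟩
  have h := Mean_prod_on (T := V) (A := Bool × Fin M) {p} (fun _ x => PrT_H q b x)
  simp only [prod_singleton] at h
  rw [h, PrT_sum hM]

/-- one coordinate is independent of the others -/
private theorem PrT_mul (hBox : St_Box) (hM : 0 < M) (q : Option Bool) (p : V) (b : Bool)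
    (g : (V → Bool × Fin M) → ℝ)
    (hg : ∀ ω ω' : V → Bool × Fin M, (∀ t, t ≠ p → ω t = ω' t) → g ω = g ω') :
    mean (fun ω : V → Bool × Fin M => PrT_H q b (ω p) * g ω) = pq M q / 2 * mean g := by
  have : Nonempty (Bool × Fin M) := ⟨(true, ⟨0, hM⟩)⟩
  rw [(hBox V (Bool × Fin M)).2 {p} (fun ω => PrT_H q b (ω p)) g ?_ ?_, PrT_one hM]
  · intro ω ω' h
    show PrT_H q b (ω p) = PrT_H q b (ω' p)
    rw [h p (mem_singleton_self p)]
  · intro ω ω' h
    exact hg ω ω' fun t ht => h t (by rwa [mem_singleton])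

private theorem PrT_two (hBox : St_Box) (hM : 0 < M) (q q' : Option Bool) {p r : V} (h : p ≠ r)
    (b b' : Bool) :
    mean (fun ω : V → Bool × Fin M => PrT_H q b (ω p) * PrT_H q' b' (ω r)) =
      pq M q / 2 * (pq M q' / 2) := by
  rw [PrT_mul hBox hM q p b (fun ω => PrT_H q' b' (ω r)) ?_, PrT_one hM]
  intro ω ω' h1
  show PrT_H q' b' (ω r) = PrT_H q' b' (ω' r)
  rw [h1 r h.symm]

private theorem PrT_three (hBox : St_Box) (hM : 0 < M) (q q' q'' : Option Bool) {p r r' : V}
    (h : p ≠ r) (h' : p ≠ r') (h'' : r ≠ r') (b b' b'' : Bool) :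
    mean (fun ω : V → Bool × Fin M => PrT_H q b (ω p) * (PrT_H q' b' (ω r) *
      PrT_H q'' b'' (ω r'))) = pq M q / 2 * (pq M q' / 2 * (pq M q'' / 2)) := by
  rw [PrT_mul hBox hM q p b (fun ω => PrT_H q' b' (ω r) * PrT_H q'' b'' (ω r')) ?_,
    PrT_two hBox hM q' q'' h'']
  intro ω ω' h1
  show PrT_H q' b' (ω r) * PrT_H q'' b'' (ω r') = PrT_H q' b' (ω' r) * PrT_H q'' b'' (ω' r')
  rw [h1 r h.symm, h1 r' h'.symm]

end

/-- Probabilities of the coins. -/
theorem thm_PrT (hBox : Pool.TCS.St_Box) : St_PrT := by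
  intro V _ M q hM
  have hb : ∀ b c : Bool, b ≠ c ↔ b = !c := by decide
  refine ⟨?_, ?_, ?_, ?_, ?_⟩
  · intro p b
    exact PrT_one hM q p b
  · intro p r hpr
    have e : (fun ω : V → Bool × Fin M => if (ω r).1 ≠ (ω p).1 ∧ cnd q (ω r).2 then (1 : ℝ)
        else 0) = fun ω => ∑ b : Bool, PrT_H none b (ω p) * PrT_H q (!b) (ω r) := by
      funext ω
      rw [Finset.sum_eq_single (ω p).1]
      · rw [PrT_H1, one_mul]
        unfold PrT_H
        refine if_congr ?_ rfl rfl
        rw [hb]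
      · intro b _ h
        rw [PrT_H0 h, zero_mul]
      · intro h
        exact absurd (mem_univ _) h
    rw [e, Mean_sum]
    simp only [PrT_two hBox hM none q hpr, Fintype.sum_bool]
    simp only [pq]
    ring
  · intro p r b b' hpr
    have e : (fun ω : V → Bool × Fin M => if (ω p).1 = b ∧ (ω r).1 = b' ∧ cnd q (ω p).2 ∧
        cnd q (ω r).2 then (1 : ℝ) else 0) =
        fun ω => PrT_H q b (ω p) * PrT_H q b' (ω r) := by
      funext ω
      unfold PrT_H
      by_cases h1 : (ω p).1 = b ∧ cnd q (ω p).2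
      · by_cases h2 : (ω r).1 = b' ∧ cnd q (ω r).2
        · rw [if_pos h1, if_pos h2, if_pos ⟨h1.1, h2.1, h1.2, h2.2⟩, one_mul]
        · rw [if_neg h2, mul_zero, if_neg fun h => h2 ⟨h.2.1, h.2.2.2⟩]
      · rw [if_neg h1, zero_mul, if_neg fun h => h1 ⟨h.1, h.2.2.1⟩]
    rw [e, PrT_two hBox hM q q hpr]
    ring
  · intro p r r' h1 h2 h3
    have e : (fun ω : V → Bool × Fin M => if (ω r).1 ≠ (ω p).1 ∧ (ω r').1 ≠ (ω p).1 ∧
        cnd q (ω r).2 ∧ cnd q (ω r').2 then (1 : ℝ) else 0) =
        fun ω => ∑ b : Bool, PrT_H none b (ω p) * (PrT_H q (!b) (ω r) * PrT_H q (!b) (ω r')) := by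
      funext ω
      rw [Finset.sum_eq_single (ω p).1]
      · rw [PrT_H1, one_mul]
        unfold PrT_H
        by_cases h4 : (ω r).1 = !(ω p).1 ∧ cnd q (ω r).2
        · by_cases h5 : (ω r').1 = !(ω p).1 ∧ cnd q (ω r').2
          · rw [if_pos h4, if_pos h5, one_mul,
              if_pos ⟨(hb _ _).2 h4.1, (hb _ _).2 h5.1, h4.2, h5.2⟩]
          · rw [if_neg h5, mul_zero, if_neg fun h => h5 ⟨(hb _ _).1 h.2.1, h.2.2.2⟩]
        · rw [if_neg h4, zero_mul, if_neg fun h => h4 ⟨(hb _ _).1 h.1, h.2.2.1⟩]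
      · intro b _ h
        rw [PrT_H0 h, zero_mul]
      · intro h
        exact absurd (mem_univ _) h
    rw [e, Mean_sum]
    simp only [PrT_three hBox hM none q q h1 h2 h3, Fintype.sum_bool]
    simp only [pq]
    ring
  · intro p p' r r' h1 h2 h3 h4 h5 h6
    have e : (fun ω : V → Bool × Fin M => if (ω r).1 ≠ (ω p).1 ∧ (ω r').1 ≠ (ω p').1
        then (1 : ℝ) else 0) =
        fun ω => ∑ b : Bool, ∑ b' : Bool, PrT_H none b (ω p) * (PrT_H none (!b) (ω r) *
          (PrT_H none b' (ω p') * PrT_H none (!b') (ω r'))) := by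
      funext ω
      rw [Finset.sum_eq_single (ω p).1, Finset.sum_eq_single (ω p').1]
      · rw [PrT_H1, PrT_H1, one_mul, one_mul]
        unfold PrT_H
        by_cases h4 : (ω r).1 = !(ω p).1
        · by_cases h5 : (ω r').1 = !(ω p').1
          · rw [if_pos (⟨h4, Or.inl rfl⟩ : (ω r).1 = !(ω p).1 ∧ cnd none (ω r).2),
              if_pos (⟨h5, Or.inl rfl⟩ : (ω r').1 = !(ω p').1 ∧ cnd none (ω r').2), one_mul,
              if_pos ⟨(hb _ _).2 h4, (hb _ _).2 h5⟩]
          · rw [if_neg (fun h => h5 h.1 : ¬ ((ω r').1 = !(ω p').1 ∧ cnd none (ω r').2)), mul_zero,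
              if_neg fun h => h5 ((hb _ _).1 h.2)]
        · rw [if_neg (fun h => h4 h.1 : ¬ ((ω r).1 = !(ω p).1 ∧ cnd none (ω r).2)), zero_mul,
            if_neg fun h => h4 ((hb _ _).1 h.1)]
      · intro b _ h
        rw [PrT_H0 h, zero_mul, mul_zero, mul_zero]
      · intro h
        exact absurd (mem_univ _) h
      · intro b _ h
        refine Finset.sum_eq_zero fun b' _ => ?_
        rw [PrT_H0 h, zero_mul]
      · intro h
        exact absurd (mem_univ _) h
    have hfour : ∀ b b' : Bool, mean (fun ω : V → Bool × Fin M => PrT_H none b (ω p) *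
        (PrT_H none (!b) (ω r) * (PrT_H none b' (ω p') * PrT_H none (!b') (ω r')))) =
        pq M none / 2 * (pq M none / 2 * (pq M none / 2 * (pq M none / 2))) := by
      intro b b'
      rw [PrT_mul hBox hM none p b (fun ω => PrT_H none (!b) (ω r) *
        (PrT_H none b' (ω p') * PrT_H none (!b') (ω r'))) ?_,
        PrT_three hBox hM none none none h4.symm h6 h5]
      intro ω ω' h
      show PrT_H none (!b) (ω r) * (PrT_H none b' (ω p') * PrT_H none (!b') (ω r')) =
        PrT_H none (!b) (ω' r) * (PrT_H none b' (ω' p') * PrT_H none (!b') (ω' r'))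
      rw [h r h2.symm, h p' h1.symm, h r' h3.symm]
    rw [e, Mean_sum]
    have hin : ∀ b : Bool, mean (fun ω : V → Bool × Fin M => ∑ b' : Bool, PrT_H none b (ω p) *
        (PrT_H none (!b) (ω r) * (PrT_H none b' (ω p') * PrT_H none (!b') (ω r')))) =
        2 * (pq M none / 2 * (pq M none / 2 * (pq M none / 2 * (pq M none / 2)))) := by
      intro b
      rw [Mean_sum]
      simp only [hfour, Fintype.sum_bool]
      ring
    rw [Finset.sum_congr rfl fun b _ => hin b, Fintype.sum_bool]
    simp only [pq]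
    norm_num

end Pool.TCV
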