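import Pool.Agent.Helper3.TCV.StA
import Pool.Agent.Helper3.TCM.Run

/-!
RUN10: all mixing rounds, with the test functions for the edges with a colour which is not reserved.
-/

set_option autoImplicit false
set_option linter.unusedSectionVars false

namespace Pool.TCV

open Pool.TC Pool.TCM Pool.TCS Pool.TN Finset
open scoped Classical

section rnd

variable {V κ : Type}

/-- one complete round -/
private theorem Run10_round [Fintype V] [Fintype κ] (hA : St_CutA) (hB : St_CutB) (hC : St_Coin) {I : Type} [Fintype I]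
    {G : SimpleGraph V} {D R t : ℕ} {σ : κ → κ} {E : EC κ V} {z : V → V} {m : V → κ}
    (hD : ∀ u, (nb G u).card ≤ D) (hκ : Fintype.card κ = D + 1) (hσ : ∀ c, σ (σ c) = c)
    (hS : Stt G (8 * R) E z m t) (ht : t < R) {g : I → V → κ → κ → ℝ} {b : I → ℝ} {Lam : ℝ}
    (hg0 : ∀ i w c m, 0 ≤ g i w c m) (hg1 : ∀ i w c m, g i w c m ≤ 1) (hb : ∀ i, 0 < b i)
    (hX : ∀ i v, X E m (Tav σ (g i)) v ≤ b i) (hL : 0 ≤ Lam)
    (hI : Fintype.card I ≤ D + 3)
    (hexp : 4 * Real.exp (-Lam) * (2 * ((D : ℝ) + 1) ^ 2 * LL D R * (D + 3) + 1) ≤ 1) :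
    ∃ (E' : EC κ V) (z' : V → V) (m' : V → κ), Stt G (8 * R) E' z' m' (t + 1) ∧
      ∀ i v, X E' m' (g i) v ≤ b i + 8 * Real.sqrt (b i * Lam) := by
  obtain ⟨F, K, hK⟩ := hA V κ G D R t σ E z m hD hκ hσ hS ht
  obtain ⟨E1, z1, hS1, hcut, horb⟩ := hB V κ G (8 * R) _ t σ E z m F K hσ hS hK
  have hLL : 24 * (16 * R * (D + 1) ^ (16 * R + 3)) + 4 = LL D R := by
    unfold LL; ring
  obtain ⟨E2, m2, hm2, k1, k2, k3⟩ := hC V κ I E1 σ m (LL D R) Lam g b hσ hS1.miss
    (fun c x => by rw [← hLL]; exact horb c x) hg0 hg1 hb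
    (fun i v => (X_cut hcut (fun w c m => Tav_nonneg (hg0 i) w c m) v).trans (hX i v)) hL
    (by
      refine le_trans ?_ hexp
      rw [hκ]
      have h1 : (Fintype.card I : ℝ) ≤ D + 3 := by exact_mod_cast hI
      push_cast
      gcongr)
  refine ⟨E2, z1, m2, ⟨hS1.zinv, hS1.zadj, ?_, ?_, hm2, hS1.spr⟩, k3⟩
  · intro a u h
    obtain ⟨a', ha'⟩ := k1 a u
    rw [ha'] at h ⊢
    exact hS1.sub _ _ h
  · intro u v h
    rcases hS1.cov u v h with ⟨a, ha⟩ | h1
    · obtain ⟨a', ha'⟩ := k2 a u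
      exact Or.inl ⟨a', by rw [ha', ha]⟩
    · exact Or.inr h1

end rnd

section mj

variable {V : Type} {s l ρ : ℕ}

private theorem Run10_MJ0 (r j : ℕ) (c : Col s l ρ) : 0 ≤ MJ r j c := by
  rcases c with ⟨q, a⟩ | i
  · show (0 : ℝ) ≤ if _ then (1 / 2) ^ (r - j) else 0
    split_ifs
    · positivity
    · exact le_refl _
  · exact le_refl (0 : ℝ)

private theorem Run10_MJ1 (r j : ℕ) (c : Col s l ρ) : MJ r j c ≤ 1 := by
  rcases c with ⟨q, a⟩ | i
  · show (if _ then (1 / 2 : ℝ) ^ (r - j) else 0) ≤ 1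
    split_ifs
    · exact pow_le_one₀ (by norm_num) (by norm_num)
    · exact zero_le_one
  · exact zero_le_one

/-- the probabilities of two consecutive stages -/
private theorem Run10_MJs (r : ℕ) (j : Fin l) (c : Col s l ρ) :
    MJ r j.val c = (MJ r (j.val + 1) c + MJ r (j.val + 1) (flp j c)) / 2 := by
  rcases c with ⟨q, a⟩ | i
  · show (if (∀ i : Fin l, i.val < r → i.val < j.val → a i = false) then
        (1 / 2 : ℝ) ^ (r - j.val) else 0) =
      ((if (∀ i : Fin l, i.val < r → i.val < j.val + 1 → a i = false) then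
        (1 / 2 : ℝ) ^ (r - (j.val + 1)) else 0) +
      (if (∀ i : Fin l, i.val < r → i.val < j.val + 1 → Function.update a j (!a j) i = false) then
        (1 / 2 : ℝ) ^ (r - (j.val + 1)) else 0)) / 2
    by_cases hr : j.val < r
    · have e1 : (∀ i : Fin l, i.val < r → i.val < j.val + 1 → a i = false) ↔
          (∀ i : Fin l, i.val < r → i.val < j.val → a i = false) ∧ a j = false := by
        constructor
        · intro h
          exact ⟨fun i h1 h2 => h i h1 (by omega), h j hr (by omega)⟩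
        · rintro ⟨h1, h2⟩ i h3 h4
          rcases Nat.lt_succ_iff_lt_or_eq.1 h4 with h5 | h5
          · exact h1 i h3 h5
          · rw [Fin.ext h5]
            exact h2
      have e2 : (∀ i : Fin l, i.val < r → i.val < j.val + 1 →
          Function.update a j (!a j) i = false) ↔
          (∀ i : Fin l, i.val < r → i.val < j.val → a i = false) ∧ a j = true := by
        constructor
        · intro h
          refine ⟨fun i h1 h2 => ?_, ?_⟩
          · have h3 := h i h1 (by omega)
            rwa [Function.update_of_ne (by intro e; rw [e] at h2; exact lt_irrefl _ h2)] at h3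
          · have h3 := h j hr (by omega)
            rw [Function.update_self] at h3
            simpa using h3
        · rintro ⟨h1, h2⟩ i h3 h4
          rcases Nat.lt_succ_iff_lt_or_eq.1 h4 with h5 | h5
          · rw [Function.update_of_ne (by intro e; rw [e] at h5; exact lt_irrefl _ h5)]
            exact h1 i h3 h5
          · rw [Fin.ext h5, Function.update_self, h2]
            rfl
      have e3 : (1 / 2 : ℝ) ^ (r - j.val) = (1 / 2) ^ (r - (j.val + 1)) / 2 := by
        rw [show r - j.val = (r - (j.val + 1)) + 1 by omega, pow_succ]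
        ring
      rw [if_congr e1 rfl rfl, if_congr e2 rfl rfl, e3]
      by_cases hc : ∀ i : Fin l, i.val < r → i.val < j.val → a i = false
      · cases haj : a j
        · rw [if_pos hc, if_pos ⟨hc, rfl⟩, if_neg (fun h => absurd h.2 (by simp))]
          ring
        · rw [if_pos hc, if_neg (fun h => absurd h.2 (by simp)), if_pos ⟨hc, rfl⟩]
          ring
      · rw [if_neg hc, if_neg (fun h => hc h.1), if_neg (fun h => hc h.1)]
        ring
    · have e1 : (∀ i : Fin l, i.val < r → i.val < j.val + 1 → a i = false) ↔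
          (∀ i : Fin l, i.val < r → i.val < j.val → a i = false) :=
        ⟨fun h i h1 h2 => h i h1 (by omega), fun h i h1 h2 => h i h1 (by omega)⟩
      have e2 : (∀ i : Fin l, i.val < r → i.val < j.val + 1 →
          Function.update a j (!a j) i = false) ↔
          (∀ i : Fin l, i.val < r → i.val < j.val → a i = false) := by
        constructor
        · intro h i h1 h2
          have h3 := h i h1 (by omega)
          rwa [Function.update_of_ne (by intro e; rw [e] at h2; exact lt_irrefl _ h2)] at h3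
        · intro h i h1 h2
          rw [Function.update_of_ne (by intro e; rw [e] at h1; exact hr h1)]
          exact h i h1 (by omega)
      rw [if_congr e1 rfl rfl, if_congr e2 rfl rfl, show r - j.val = 0 by omega,
        show r - (j.val + 1) = 0 by omega]
      split_ifs <;> norm_num
  · show (0 : ℝ) = (0 + 0) / 2
    norm_num

/-- the averaging operator and products of functions of the two colours -/
private theorem Run10_Tav {κ : Type} {σ : κ → κ} (hσ : ∀ c, σ (σ c) = c) (M : κ → ℝ) {θ : ℝ}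
    (hθ : 0 ≤ θ) (w : V) (c m : κ) :
    Tav σ (fun _ c m => (1 - M c) * (1 - θ * M m)) w c m ≤
      (1 - (M c + M (σ c)) / 2) * (1 - θ * ((M m + M (σ m)) / 2)) := by
  unfold Tav
  split_ifs with h
  · subst h
    rw [hσ]
    nlinarith [mul_nonneg hθ (sq_nonneg (M c - M (σ c)))]
  · apply le_of_eq
    ring

private theorem Run10_pre_ge (r : ℕ) (q0 : Fin s) (ι : Fin ρ → (Fin l → Bool)) (c : Col s l ρ) :
    (1 / 2 : ℝ) ^ r / 2 ≤ (MJ r 0 c + MJ r 0 (pre q0 ι c)) / 2 := by
  have hmain : ∀ (q : Fin s) (a : Fin l → Bool),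
      MJ r 0 (Sum.inl (q, a) : Col s l ρ) = (1 / 2 : ℝ) ^ r := by
    intro q a
    show (if (∀ i : Fin l, i.val < r → i.val < 0 → a i = false) then (1 / 2 : ℝ) ^ (r - 0)
      else 0) = _
    rw [if_pos (fun i _ h => absurd h (Nat.not_lt_zero _)), Nat.sub_zero]
  have h0 := Run10_MJ0 r 0 c
  have h1 := Run10_MJ0 r 0 (pre q0 ι c)
  rcases c with ⟨q, a⟩ | i
  · rw [hmain] at h0 ⊢
    linarith
  · have h2 : pre q0 ι (Sum.inr i : Col s l ρ) = Sum.inl (q0, ι i) := rfl
    rw [h2, hmain]
    linarith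

private theorem Run10_sum (r : ℕ) (hr : r ≤ l) :
    ∑ c : Col s l ρ, MJ r 0 c = ((s * 2 ^ (l - r) : ℕ) : ℝ) := by
  rw [Fintype.sum_sum_type]
  have h1 : ∀ p : Fin s × (Fin l → Bool), MJ r 0 (Sum.inl p : Col s l ρ) = (1 / 2 : ℝ) ^ r := by
    rintro ⟨q, a⟩
    show (if (∀ i : Fin l, i.val < r → i.val < 0 → a i = false) then (1 / 2 : ℝ) ^ (r - 0)
      else 0) = _
    rw [if_pos (fun i _ h => absurd h (Nat.not_lt_zero _)), Nat.sub_zero]
  have h2 : ∀ i : Fin ρ, MJ r 0 (Sum.inr i : Col s l ρ) = 0 := fun i => rfl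
  rw [sum_congr rfl fun p _ => h1 p, sum_congr rfl fun i _ => h2 i, sum_const_zero, add_zero,
    sum_const, nsmul_eq_mul]
  have h3 : ((univ : Finset (Fin s × (Fin l → Bool))).card : ℝ) = s * 2 ^ l := by
    rw [card_univ]
    simp
  rw [h3]
  push_cast
  rw [show l = (l - r) + r by omega, Nat.add_sub_cancel, pow_add]
  have h4 : (2 : ℝ) ^ r * (1 / 2) ^ r = 1 := by
    rw [← mul_pow]
    norm_num
  calc (s : ℝ) * (2 ^ (l - r) * 2 ^ r) * (1 / 2) ^ r
      = (s : ℝ) * 2 ^ (l - r) * (2 ^ r * (1 / 2) ^ r) := by ring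
    _ = _ := by rw [h4, mul_one]


/-- the averaging operator and functions of the first colour -/
private theorem Run10_TavN {κ : Type} {σ : κ → κ} (M : κ → ℝ) (θ : ℝ)
    (w : V) (c m : κ) :
    Tav σ (fun _ c _ => (1 - M c) * (1 - θ)) w c m = (1 - (M c + M (σ c)) / 2) * (1 - θ) := by
  unfold Tav
  split_ifs with h
  · subst h
    ring
  · ring

private theorem Run10_TavIf {κ : Type} {σ : κ → κ} (A : V → Prop) (g g' : V → κ → κ → ℝ) (w : V)
    (c m : κ) :
    Tav σ (fun w c m => if A w then g w c m else g' w c m) w c m =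
      if A w then Tav σ g w c m else Tav σ g' w c m := by
  unfold Tav
  by_cases hA : A w
  · simp only [if_pos hA]
  · simp only [if_neg hA]

private theorem Run10_G0 {r : ℕ} {φ θ : ℝ} (hφ0 : 0 ≤ φ) (hφ1 : φ ≤ 1) (hθ0 : 0 ≤ θ)
    (hθ1 : θ ≤ 1) (A : V → Prop) (j : ℕ) (w : V) (c m : Col s l ρ) :
    0 ≤ G10 r φ θ A j w c m ∧ G10 r φ θ A j w c m ≤ 1 := by
  have h1 := Run10_MJ1 r j c
  have h2 := Run10_MJ1 r j m
  have h3 := Run10_MJ0 r j m
  have h4 := Run10_MJ0 r j c
  have h5 : 0 ≤ φ * MJ r j m := mul_nonneg hφ0 h3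
  have h6 : φ * MJ r j m ≤ 1 := mul_le_one₀ hφ1 h3 h2
  unfold G10
  split_ifs
  · exact ⟨mul_nonneg (by linarith) (by linarith), mul_le_one₀ (by linarith) (by linarith)
      (by linarith)⟩
  · exact ⟨mul_nonneg (by linarith) (by linarith), mul_le_one₀ (by linarith) (by linarith)
      (by linarith)⟩

private theorem Run10_step {r : ℕ} {φ θ : ℝ} (hφ0 : 0 ≤ φ) (A : V → Prop) (j : Fin l)
    (hfl : ∀ c : Col s l ρ, flp j (flp j c) = c) (w : V) (c m : Col s l ρ) :
    Tav (flp j) (G10 r φ θ A (j.val + 1)) w c m ≤ G10 r φ θ A j.val w c m := by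
  have e : (G10 r φ θ A (j.val + 1) : V → Col s l ρ → Col s l ρ → ℝ) =
      fun w c m => if A w then (fun (_ : V) c m => (1 - MJ r (j.val + 1) c) *
        (1 - φ * MJ r (j.val + 1) m)) w c m
        else (fun (_ : V) c (_ : Col s l ρ) => (1 - MJ r (j.val + 1) c) * (1 - θ)) w c m := by
    funext w c m
    rfl
  have h1 := Run10_MJs (s := s) (ρ := ρ) r j c
  have h2 := Run10_MJs (s := s) (ρ := ρ) r j m
  rw [e, Run10_TavIf]
  unfold G10
  split_ifs
  · refine (Run10_Tav hfl (MJ r (j.val + 1)) hφ0 w c m).trans (le_of_eq ?_)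
    rw [h1, h2]
  · rw [Run10_TavN (MJ r (j.val + 1)) θ w c m, h1]

private theorem Run10_first [Fintype V] {D r : ℕ} {φ : ℝ} (hφ0 : 0 ≤ φ) (hφ1 : φ ≤ 1)
    (hr : r ≤ l) (hκ : Fintype.card (Col s l ρ) = D + 1)
    (A : V → Prop) (q0 : Fin s) (ι : Fin ρ → (Fin l → Bool))
    (c1 : ∀ c : Col s l ρ, pre q0 ι (pre q0 ι c) = c) {E : EC (Col s l ρ) V}
    {m0 : V → Col s l ρ} (hm0 : ∀ w, E.N (m0 w) w = w) (v : V) :
    X E m0 (Tav (pre q0 ι) (G10 r φ (φ * (1 / 2) ^ r / 2) A 0)) v ≤
      ((D : ℝ) + 1 - ((s * 2 ^ (l - r) : ℕ) : ℝ)) * (1 - φ * (1 / 2) ^ r / 2) := by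
  set f : ℝ := 1 - φ * (1 / 2) ^ r / 2 with hf
  have hpr : (0 : ℝ) < (1 / 2) ^ r ∧ ((1 / 2 : ℝ) ^ r ≤ 1) :=
    ⟨by positivity, pow_le_one₀ (by norm_num) (by norm_num)⟩
  have hf0 : 0 < f := by
    rw [hf]
    nlinarith [hpr.1, hpr.2]
  have h1 : ∀ (w : V) (c m : Col s l ρ), m ≠ c →
      Tav (pre q0 ι) (G10 r φ (φ * (1 / 2) ^ r / 2) A 0) w c m ≤
      (1 - (MJ r 0 c + MJ r 0 (pre q0 ι c)) / 2) * f := by
    intro w c m _
    have e : (G10 r φ (φ * (1 / 2) ^ r / 2) A 0 : V → Col s l ρ → Col s l ρ → ℝ) =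
        fun w c m => if A w then (fun (_ : V) c m => (1 - MJ r 0 c) * (1 - φ * MJ r 0 m)) w c m
          else (fun (_ : V) c (_ : Col s l ρ) => (1 - MJ r 0 c) *
            (1 - φ * (1 / 2) ^ r / 2)) w c m := by
      funext w c m
      rfl
    rw [e, Run10_TavIf]
    split_ifs
    · refine (Run10_Tav c1 (MJ r 0) hφ0 w c m).trans ?_
      have h2 := Run10_pre_ge r q0 ι m
      have h3 := Run10_MJ1 r 0 c
      have h4 := Run10_MJ1 r 0 (pre q0 ι c)
      apply mul_le_mul_of_nonneg_left _ (by linarith)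
      rw [hf]
      nlinarith
    · rw [Run10_TavN (MJ r 0) _ w c m]
  refine (X_mono hm0 (g' := fun _ c _ =>
    (1 - (MJ r 0 c + MJ r 0 (pre q0 ι c)) / 2) * f) h1 v).trans ?_
  have h5 : X E m0 (fun _ c _ => (1 - (MJ r 0 c + MJ r 0 (pre q0 ι c)) / 2) * f) v ≤
      ∑ c : Col s l ρ, (1 - (MJ r 0 c + MJ r 0 (pre q0 ι c)) / 2) * f := by
    unfold X
    refine sum_le_sum (fun c _ => ?_)
    split_ifs
    · have h3 := Run10_MJ1 r 0 c
      have h4 := Run10_MJ1 r 0 (pre q0 ι c)
      exact mul_nonneg (by linarith) hf0.le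
    · exact le_refl _
  refine h5.trans (le_of_eq ?_)
  rw [← sum_mul, sum_sub_distrib, ← sum_div, sum_add_distrib]
  have h6 : ∑ c : Col s l ρ, MJ r 0 (pre q0 ι c) = ∑ c : Col s l ρ, MJ r 0 c :=
    Equiv.sum_comp (Equiv.mk (pre q0 ι) (pre q0 ι) c1 c1) (fun c => MJ r 0 c)
  rw [h6, Run10_sum r hr, sum_const, nsmul_eq_mul, mul_one, card_univ, hκ]
  push_cast
  ring

end mj

theorem thm_Run10 (hV : Pool.TCM.St_Viz) (hA : Pool.TCM.St_CutA) (hB : Pool.TCM.St_CutB)
    (hC : Pool.TCM.St_Coin) (hCh : Pool.TCM.St_Chain) : St_Run10 := by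
  intro V _ G A D s l ρ r φ Lam hD hs hρ hcard hr hrl hφ0 hφ1 hLam hexp hnoise
  have hκ : Fintype.card (Col s l ρ) = D + 1 := by
    rw [← hcard]
    simp [Col]
  -- the injection of the leftover colours
  obtain ⟨ι, hι⟩ : ∃ ι : Fin ρ → (Fin l → Bool), Function.Injective ι := by
    have h1 : Fintype.card (Fin ρ) ≤ Fintype.card (Fin l → Bool) := by simpa using hρ
    obtain ⟨e⟩ := Function.Embedding.nonempty_of_card_le h1
    exact ⟨e, e.injective⟩
  have q0 : Fin s := ⟨0, by omega⟩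
  obtain ⟨c1, c2, -, c4, -, c6, -⟩ := hCh V s l ρ r (fun _ _ => true) φ q0 ι hs (by omega) hrl
    (fun _ _ _ => rfl) hφ0 hφ1 hι
  -- the bounds of the first round
  have hx : ∀ (r : ℕ) (φ : ℝ), 0 < r → r ≤ l → 0 ≤ φ → φ ≤ 1 →
      0 < ((D : ℝ) + 1 - ((s * 2 ^ (l - r) : ℕ) : ℝ)) * (1 - φ * (1 / 2) ^ r / 2) ∧
      ((D : ℝ) + 1 - ((s * 2 ^ (l - r) : ℕ) : ℝ)) * (1 - φ * (1 / 2) ^ r / 2) ≤ (D : ℝ) + 1 := by
    intro r φ hr hrl hφ0 hφ1
    have hS0 : (0 : ℝ) ≤ ((s * 2 ^ (l - r) : ℕ) : ℝ) := Nat.cast_nonneg _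
    have hSD : ((s * 2 ^ (l - r) : ℕ) : ℝ) < (D : ℝ) + 1 := by
      have h1 : 2 ^ (l - r) < 2 ^ l := Nat.pow_lt_pow_right (by norm_num) (by omega)
      have h2 : s * 2 ^ (l - r) < s * 2 ^ l := Nat.mul_lt_mul_of_pos_left h1 (by omega)
      have h3 : s * 2 ^ (l - r) < D + 1 := by omega
      exact_mod_cast h3
    have hpr : (0 : ℝ) < (1 / 2) ^ r ∧ ((1 / 2 : ℝ) ^ r ≤ 1) :=
      ⟨by positivity, pow_le_one₀ (by norm_num) (by norm_num)⟩
    have hm : φ * (1 / 2) ^ r ≤ 1 := mul_le_one₀ hφ1 hpr.1.le hpr.2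
    have hm0 : 0 ≤ φ * (1 / 2) ^ r := mul_nonneg hφ0 hpr.1.le
    refine ⟨mul_pos (by linarith) (by linarith), ?_⟩
    refine (mul_le_of_le_one_right (by linarith) (by linarith)).trans ?_
    linarith
  -- the two families of linear tests
  let gl : Bool → ℕ → V → Col s l ρ → Col s l ρ → ℝ := fun b j => match b with
    | true => G10 r φ (φ * (1 / 2) ^ r / 2) A j
    | false => G10 7 1 (1 * (1 / 2) ^ 7 / 2) (fun _ => True) j
  let xl : Bool → ℝ := fun b => match b with
    | true => ((D : ℝ) + 1 - ((s * 2 ^ (l - r) : ℕ) : ℝ)) * (1 - φ * (1 / 2) ^ r / 2)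
    | false => ((D : ℝ) + 1 - ((s * 2 ^ (l - 7) : ℕ) : ℝ)) * (1 - 1 * (1 / 2) ^ 7 / 2)
  have hxl : ∀ b, 0 < xl b ∧ xl b ≤ (D : ℝ) + 1 := by
    intro b
    cases b with
    | true => exact hx r φ (by omega) hrl hφ0 hφ1
    | false => exact hx 7 1 (by norm_num) (by omega) zero_le_one le_rfl
  have hgl01 : ∀ b j w (c m : Col s l ρ), 0 ≤ gl b j w c m ∧ gl b j w c m ≤ 1 := by
    intro b j w c m
    cases b with
    | true =>
      have hpr : (0 : ℝ) < (1 / 2) ^ r ∧ ((1 / 2 : ℝ) ^ r ≤ 1) :=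
        ⟨by positivity, pow_le_one₀ (by norm_num) (by norm_num)⟩
      have hm : φ * (1 / 2) ^ r ≤ 1 := mul_le_one₀ hφ1 hpr.1.le hpr.2
      have hm0 : 0 ≤ φ * (1 / 2) ^ r := mul_nonneg hφ0 hpr.1.le
      exact Run10_G0 hφ0 hφ1 (by linarith) (by linarith) A j w c m
    | false =>
      exact Run10_G0 zero_le_one le_rfl (by norm_num) (by norm_num) _ j w c m
  have hglstep : ∀ b (j : Fin l) w (c m : Col s l ρ),
      Tav (flp j) (gl b (j.val + 1)) w c m ≤ gl b j.val w c m := by
    intro b j w c m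
    cases b with
    | true => exact Run10_step hφ0 A j (c2 j) w c m
    | false => exact Run10_step zero_le_one _ j (c2 j) w c m
  have hglfirst : ∀ b (E : EC (Col s l ρ) V) (m0 : V → Col s l ρ), (∀ w, E.N (m0 w) w = w) →
      ∀ v, X E m0 (Tav (pre q0 ι) (gl b 0)) v ≤ xl b := by
    intro b E m0 hm0 v
    cases b with
    | true => exact Run10_first hφ0 hφ1 hrl hκ A q0 ι c1 hm0 v
    | false => exact Run10_first zero_le_one le_rfl (by omega) hκ _ q0 ι c1 hm0 v
  -- the family of test functions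
  let I := Bool ⊕ (Fin s × (Fin l → Bool))
  have hI : Fintype.card I ≤ D + 3 := by
    have : Fintype.card I = 2 + s * 2 ^ l := by simp [I]
    omega
  let fam : ℕ → I → V → Col s l ρ → Col s l ρ → ℝ := fun j i => match i with
    | Sum.inl b => gl b j
    | Sum.inr a => gY j a
  have fam0 : ∀ j i w c m, 0 ≤ fam j i w c m := by
    intro j i w c m
    cases i with
    | inl b => exact (hgl01 b j w c m).1
    | inr a => exact (c4 j a w c m).1
  have fam1 : ∀ j i w c m, fam j i w c m ≤ 1 := by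
    intro j i w c m
    cases i with
    | inl b => exact (hgl01 b j w c m).2
    | inr a => exact (c4 j a w c m).2
  have hsq : 0 ≤ Real.sqrt (2 * ((D : ℝ) + 1) * Lam) := Real.sqrt_nonneg _
  -- the induction
  have key : ∀ j : ℕ, j ≤ l → ∃ (E : EC (Col s l ρ) V) (z : V → V) (m : V → Col s l ρ),
      Stt G (8 * (l + 1)) E z m (j + 1) ∧
      (∀ b v, X E m (gl b j) v ≤ xl b + 8 * ((j : ℝ) + 1) *
        Real.sqrt (2 * ((D : ℝ) + 1) * Lam)) ∧
      (∀ v a, X E m (gY j a) v ≤ uY D Lam j ^ 2) := by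
    intro j
    induction j with
    | zero =>
      intro _
      obtain ⟨E, e1, e2⟩ := hV V (Col s l ρ) G D hD hκ
      -- missing colours
      have hmiss : ∀ w, ∃ c, E.N c w = w := by
        intro w
        by_contra hcon
        push Not at hcon
        have h1 : Fintype.card (Col s l ρ) ≤ (nb G w).card := by
          rw [← card_univ]
          refine card_le_card_of_injOn (fun c => E.N c w) ?_ ?_
          · intro c _
            simp only [nb, coe_filter, mem_univ, true_and, Set.mem_ofPred_eq]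
            exact e2 c w (hcon c)
          · intro a _ b _ hab
            exact E.uniq _ _ _ hab (hcon a)
        have h2 := hD w
        omega
      choose m0 hm0 using hmiss
      have hst : Stt G (8 * (l + 1)) E id m0 0 := by
        refine ⟨fun u => rfl, fun u h => absurd rfl h, e2, ?_, hm0, ?_⟩
        · intro u v h
          exact Or.inl (e1 u v h)
        · intro u
          simp
      obtain ⟨E', z', m', hS', hX'⟩ := Run10_round hA hB hC hD hκ c1 hst
        (by omega : 0 < l + 1)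
        (g := fam 0) (b := fun i => match i with | Sum.inl b => xl b | Sum.inr _ => (D : ℝ) + 1)
        (Lam := Lam) (fam0 0) (fam1 0)
        (by
          intro i
          cases i with
          | inl b => exact (hxl b).1
          | inr a => show (0 : ℝ) < D + 1; positivity)
        (by
          intro i v
          cases i with
          | inl b => exact hglfirst b E m0 hm0 v
          | inr a =>
            show X E m0 _ v ≤ (D : ℝ) + 1
            refine (X_le_card (fun w c m => Tav_le_one (fam1 0 (Sum.inr a)) w c m) v).trans ?_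
            rw [hκ]
            push_cast
            exact le_refl _)
        hLam.le hI hexp
      refine ⟨E', z', m', by simpa using hS', ?_, ?_⟩
      · intro b v
        have h1 : X E' m' (gl b 0) v ≤ xl b + 8 * Real.sqrt (xl b * Lam) := hX' (Sum.inl b) v
        have h2 : Real.sqrt (xl b * Lam) ≤ Real.sqrt (2 * ((D : ℝ) + 1) * Lam) := by
          apply Real.sqrt_le_sqrt
          apply mul_le_mul_of_nonneg_right _ hLam.le
          have : (0 : ℝ) ≤ (D : ℝ) := Nat.cast_nonneg _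
          have := (hxl b).2
          linarith
        push_cast
        linarith
      · intro v a
        refine (X_le_card (fun w c m => (c4 0 a w c m).2) v).trans ?_
        rw [hκ]
        unfold uY
        have h1 : Real.sqrt ((D : ℝ) + 1) ^ 2 = D + 1 := Real.sq_sqrt (by positivity)
        have h2 := Real.sqrt_nonneg ((D : ℝ) + 1)
        have h3 := Real.sqrt_nonneg Lam
        push_cast
        rw [pow_zero, mul_one]
        nlinarith [mul_nonneg h2 h3]
    | succ j ih =>
      intro hj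
      obtain ⟨E, z, m, hst, hX, hY⟩ := ih (by omega)
      have hjl : j < l := by omega
      have hxjpos : ∀ b, 0 < xl b + 8 * ((j : ℝ) + 1) * Real.sqrt (2 * ((D : ℝ) + 1) * Lam) := by
        intro b
        have := (hxl b).1
        positivity
      have hxjS : ∀ b, xl b + 8 * ((j : ℝ) + 1) * Real.sqrt (2 * ((D : ℝ) + 1) * Lam) ≤
          2 * ((D : ℝ) + 1) := by
        intro b
        have h1 : 8 * ((j : ℝ) + 1) * Real.sqrt (2 * ((D : ℝ) + 1) * Lam) ≤
            8 * ((l : ℝ) + 1) * Real.sqrt (2 * ((D : ℝ) + 1) * Lam) := by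
          have : (j : ℝ) ≤ l := by exact_mod_cast hjl.le
          gcongr
        have := (hxl b).2
        linarith
      obtain ⟨E', z', m', hS', hX'⟩ := Run10_round hA hB hC hD hκ (c2 ⟨j, hjl⟩) hst
        (by omega : j + 1 < l + 1)
        (g := fam (j + 1)) (b := fun i => match i with
          | Sum.inl b => xl b + 8 * ((j : ℝ) + 1) * Real.sqrt (2 * ((D : ℝ) + 1) * Lam)
          | Sum.inr _ => uY D Lam j ^ 2 / 2)
        (Lam := Lam) (fam0 (j + 1)) (fam1 (j + 1))
        (by
          intro i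
          have := uY_pos D Lam j
          cases i with
          | inl b => exact hxjpos b
          | inr a => show (0 : ℝ) < uY D Lam j ^ 2 / 2; positivity)
        (by
          intro i v
          cases i with
          | inl b =>
            refine (X_mono hst.miss (g' := gl b j) (fun w c m h => ?_) v).trans (hX b v)
            exact hglstep b ⟨j, hjl⟩ w c m
          | inr a =>
            show X E m (Tav (flp ⟨j, hjl⟩) (gY (j + 1) a)) v ≤ uY D Lam j ^ 2 / 2
            refine (X_mono hst.miss (g' := fun w c m => gY j a w c m / 2)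
              (fun w c m _ => (c6 ⟨j, hjl⟩ a w c m).le) v).trans ?_
            rw [X_half]
            have := hY v a
            linarith)
        hLam.le hI hexp
      refine ⟨E', z', m', hS', ?_, ?_⟩
      · intro b v
        have h1 := hX' (Sum.inl b) v
        have h2 : Real.sqrt ((xl b + 8 * ((j : ℝ) + 1) *
            Real.sqrt (2 * ((D : ℝ) + 1) * Lam)) * Lam) ≤
            Real.sqrt (2 * ((D : ℝ) + 1) * Lam) := by
          apply Real.sqrt_le_sqrt
          exact mul_le_mul_of_nonneg_right (hxjS b) hLam.le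
        have h3 : X E' m' (gl b (j + 1)) v ≤ xl b + 8 * ((j : ℝ) + 1) *
            Real.sqrt (2 * ((D : ℝ) + 1) * Lam) + 8 * Real.sqrt ((xl b + 8 * ((j : ℝ) + 1) *
            Real.sqrt (2 * ((D : ℝ) + 1) * Lam)) * Lam) := h1
        push_cast
        linarith
      · intro v a
        exact (hX' (Sum.inr a) v).trans (uY_step D hLam.le j)
  obtain ⟨E, z, m, h1, h2, h3⟩ := key l le_rfl
  refine ⟨E, z, m, h1, fun v => h2 true v, fun v => ?_, h3⟩
  have h4 := h2 false v
  have e : (G5 7 1 l : V → Col s l ρ → Col s l ρ → ℝ) = gl false l := by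
    funext w c m
    show G5 7 1 l w c m = G10 7 1 (1 * (1 / 2) ^ 7 / 2) (fun _ => True) l w c m
    unfold G5 G10
    rw [if_pos trivial]
  rw [e]
  refine h4.trans (le_of_eq ?_)
  show ((D : ℝ) + 1 - ((s * 2 ^ (l - 7) : ℕ) : ℝ)) * (1 - 1 * (1 / 2) ^ 7 / 2) + _ = _
  rw [one_mul]

end Pool.TCV
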