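import Pool.Agent.Helper3.TCV.TKc

/-!
# T10: (K1) (helper25)
-/

set_option autoImplicit false

namespace Pool.TCV

open Pool.TC Pool.TCM Pool.TCS Pool.TN Finset
open scoped Classical

theorem thm_TK1 (hNumL : St_NumL) (hTal : St_Tal) (hTb : St_Tb) : St_TK1 := by
  intro P V κ _ _ f rep H R
  have h := TKc_mk hNumL hTb H R
  let T : V × κ → Finset V := fun j => univ.filter (fun w => w ∈ f.Rg P j.1 ∧ ¬ f.F0 w ∧ f.gc w j.2 ∧
    f.E.N j.2 w ∈ f.Rg P j.1)
  have hTK : ∀ j, ∀ w ∈ T j, f.K w = some j.1 := fun j w hw =>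
    (mem_filter.1 (mem_filter.1 hw).2.1).2.1
  refine ⟨V × κ, univ, fun j => j.1,
    fun j ω => -(((T j).filter (fun w => (ω (rep (f.E.N j.2 w))).1 ≠ (ω (rep w)).1 ∧
      cnd (some false) (ω (rep (f.E.N j.2 w))).2)).card : ℝ),
    fun j => -(pq P.MW (some false) / 2 * (T j).card) + P.nz / P.X, ?_, ?_, ?_⟩
  · refine TKc_cnt _ _ (fun j => j.2) (fun _ => univ) (fun _ _ => mem_univ _) ?_ (fun u => ?_)
    · rintro ⟨u, a⟩ _ ⟨u', a'⟩ _ h1 h2
      exact Prod.ext h1 h2
    · rw [card_univ]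
      exact h.N1
  · rintro ⟨i, a⟩ -
    exact (h.be hTal i (T (i, a)) (fun w => w) (fun w => f.E.N a w) (some false)
      (h.rowN (hTK (i, a))) (fun _ _ _ _ e => e)
      (fun w hw => ball_mono (by norm_num) (h.clu (hTK (i, a) w hw)))
      (fun w _ w' _ e => h.injN a e)
      (fun w hw => ball_mono (n := 3) (by norm_num) (ball_trans (n := 2) (m := 1) (h.clu (hTK (i, a) w hw))
        (adj_mem_ball (h.adj (mem_filter.1 hw).2.2.2.1.1))))
      (fun w hw => (h.b1 w a (mem_filter.1 hw).2.2.2.1).2.symm)).2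
  · intro ω hω i a hi ha
    have h1 : -(((T (i, a)).filter (fun w => (ω (rep (f.E.N a w))).1 ≠ (ω (rep w)).1 ∧
      cnd (some false) (ω (rep (f.E.N a w))).2)).card : ℝ) ≤
      -((1 - 1 / (P.MW : ℝ)) / 2 * (T (i, a)).card) + P.nz / P.X := hω (i, a) (mem_univ _)
    -- all rows
    have h2 := h.rows ha (Y := univ.filter fun w => w ∈ f.Rg P i ∧ ¬ f.F0 w)
      (fun w hw => (mem_filter.1 hw).2.1)
    have h3 : (f.Rg P i).card ≤ (univ.filter fun w => w ∈ f.Rg P i ∧ ¬ f.F0 w).card + (f.F0i i).card := by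
      refine le_trans (card_le_card ?_) (card_union_le _ _)
      intro w hw
      by_cases c : f.F0 w
      · exact mem_union_right _ (mem_filter.2 ⟨mem_univ _, (mem_filter.1 hw).2.1, c⟩)
      · exact mem_union_left _ (mem_filter.2 ⟨mem_univ _, hw, c⟩)
    have h3' : ((f.Rg P i).card : ℝ) ≤ ((univ.filter fun w => w ∈ f.Rg P i ∧ ¬ f.F0 w).card : ℝ) +
        (f.F0i i).card := by exact_mod_cast h3
    have h4 : (univ.filter fun w => w ∈ f.Rg P i ∧ ¬ f.F0 w).filter
        (fun w => f.gc w a ∧ f.E.N a w ∈ f.Rg P i) = T (i, a) := by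
      ext w
      simp only [T, mem_filter, mem_univ, true_and]
      tauto
    rw [h4] at h2
    obtain ⟨T0, hT0⟩ : ∃ T0, T0 = (univ.filter fun w => w ∈ f.Rg P i ∧ ¬ f.F0 w).filter
        (fun w => f.E.N a w = w) := ⟨_, rfl⟩
    rw [← hT0] at h2
    -- the rows which are counted
    have h5 : T0.card + ((T (i, a)).filter (fun w => (ω (rep (f.E.N a w))).1 ≠ (ω (rep w)).1 ∧
        cnd (some false) (ω (rep (f.E.N a w))).2)).card ≤
        (univ.filter (fun w => w ∈ (tdT P f rep ω).Rg P i ∧ ¬ (tdT P f rep ω).F0 w ∧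
          ((tdT P f rep ω).fx w a ∨ ((tdT P f rep ω).cr w a ∧
            (tdT P f rep ω).E.N a w ∈ (tdT P f rep ω).Rg P i ∧
            ¬ (tdT P f rep ω).W ((tdT P f rep ω).E.N a w))))).card := by
      rw [← card_union_of_disjoint]
      · refine card_le_card fun w hw => ?_
        rcases mem_union.1 hw with hw | hw
        · rw [hT0] at hw
          obtain ⟨c1, c2⟩ := mem_filter.1 hw
          obtain ⟨-, c3, c4⟩ := mem_filter.1 c1
          exact mem_filter.2 ⟨mem_univ _, c3, c4, Or.inl c2⟩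
        · obtain ⟨c1, c2, c3⟩ := mem_filter.1 hw
          obtain ⟨-, c4, c5, c6, c7⟩ := mem_filter.1 c1
          exact mem_filter.2 ⟨mem_univ _, c4, c5, Or.inr ⟨⟨c6, c2⟩, c7, (TKc_cF _).1 c3⟩⟩
      · refine disjoint_left.2 fun w hw hw' => ?_
        rw [hT0] at hw
        exact (mem_filter.1 (mem_filter.1 hw').1).2.2.2.1.1 (mem_filter.1 hw).2
    have h5' : (T0.card : ℝ) + (((T (i, a)).filter (fun w => (ω (rep (f.E.N a w))).1 ≠ (ω (rep w)).1 ∧
        cnd (some false) (ω (rep (f.E.N a w))).2)).card : ℝ) ≤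
        ((univ.filter (fun w => w ∈ (tdT P f rep ω).Rg P i ∧ ¬ (tdT P f rep ω).F0 w ∧
          ((tdT P f rep ω).fx w a ∨ ((tdT P f rep ω).cr w a ∧
            (tdT P f rep ω).E.N a w ∈ (tdT P f rep ω).Rg P i ∧
            ¬ (tdT P f rep ω).W ((tdT P f rep ω).E.N a w))))).card : ℝ) := by exact_mod_cast h5
    refine le_trans ?_ h5'
    have h6 := h.nzX
    have hM : (0 : ℝ) < P.MW := lt_of_lt_of_le (by norm_num) h.MW6
    have h7 : 0 ≤ 1 - 1 / (P.MW : ℝ) := by
      have : 1 / (P.MW : ℝ) ≤ 1 := by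
        rw [div_le_one hM]
        exact le_trans (by norm_num) h.MW6
      linarith
    have h8 : 1 - 1 / (P.MW : ℝ) ≤ 1 := by
      have : 0 < 1 / (P.MW : ℝ) := by positivity
      linarith
    have h9 : ((f.Rg P i).card : ℝ) - (f.F0i i).card - P.theta * P.D - (f.Spi P i).card - 2 * P.X ≤
        T0.card + (T (i, a)).card := by linarith
    have h10 := mul_le_mul_of_nonneg_left h9 (by linarith : 0 ≤ 1 / 2 * (1 - 1 / (P.MW : ℝ)))
    have h11 : (0 : ℝ) ≤ T0.card := Nat.cast_nonneg _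
    have h12 : 1 / 2 * (1 - 1 / (P.MW : ℝ)) * T0.card ≤ 1 * T0.card :=
      mul_le_mul_of_nonneg_right (by linarith) h11
    show 1 / 2 * (1 - 1 / (P.MW : ℝ)) * (((f.Rg P i).card : ℝ) - (f.F0i i).card - P.theta * P.D -
      (f.Spi P i).card - 2 * P.X) - P.nz ≤ _
    linarith

end Pool.TCV
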