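import Pool.Agent.Helper3.TCV.TKc

/-!
# T10: (K2), (K3) (helper25)
-/

set_option autoImplicit false

namespace Pool.TCV

open Pool.TC Pool.TCM Pool.TCS Pool.TN Finset
open scoped Classical

section tk2
variable {V κ : Type} [Fintype V] [Fintype κ] {P : Par} {f : Fd V κ} {rep : V → V}

/-- the colours outside of `Q ∪ mF i` -/
theorem TK2_out (h : TKc P f rep) (i : V) (Y : Finset κ) (hY : ∀ a ∈ Y, a ∉ f.Q ∧ a ∉ f.mF i) :
    (Y.card : ℝ) + f.Q.card + (f.F0i i).card ≤ P.D + 1 := by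
  have h1 : Disjoint f.Q (f.mF i) := disjoint_left.2 fun a ha ha' => ((h.b4 i).2 a ha').2.2.1 ha
  have h2 : Disjoint Y (f.Q ∪ f.mF i) := disjoint_left.2 fun a ha ha' => by
    rcases mem_union.1 ha' with c | c
    · exact (hY a ha).1 c
    · exact (hY a ha).2 c
  have h3 := card_le_univ (Y ∪ (f.Q ∪ f.mF i))
  rw [card_union_of_disjoint h2, card_union_of_disjoint h1, h.H.ed.col, (h.b4 i).1] at h3
  have h4 : (Y.card : ℝ) + (f.Q.card + (f.F0i i).card) ≤ P.D + 1 := by exact_mod_cast h3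
  linarith

/-- the free rows which are neighbours of `v` by a colour outside of `Q ∪ mF i` -/
theorem TK2_free (h : TKc P f rep) {i v : V} (hv : v ∈ f.Rg P i) :
    ((f.F0i i).card : ℝ) ≤ ((univ.filter fun a => a ∉ f.Q ∧ a ∉ f.mF i ∧ f.F0 (f.E.N a v) ∧
      f.K (f.E.N a v) = some i ∧ f.E.N a v ≠ v).card : ℝ) + P.fmin * P.D / 8 + 2 * P.eta * P.D := by
  obtain ⟨-, hK, hS⟩ := mem_filter.1 hv
  have hne : f.K v ≠ none := by
    rw [hK]
    exact Option.some_ne_none i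
  have h1 : f.F0i i ⊆ {v} ∪ {f.z v} ∪ (univ.filter fun w => f.K w = f.K v ∧ w ≠ v ∧ ¬ f.G.Adj v w) ∪
      (univ.filter (fun w => f.F0 w ∧ f.K w = some i ∧ f.G.Adj v w ∧
        ∃ a, f.E.N a v = w ∧ (a ∈ f.Q ∨ a ∈ f.mF i))) ∪
      ((univ.filter fun a => a ∉ f.Q ∧ a ∉ f.mF i ∧ f.F0 (f.E.N a v) ∧
        f.K (f.E.N a v) = some i ∧ f.E.N a v ≠ v).image fun a => f.E.N a v) := by
    intro w hw
    obtain ⟨-, h2, h3⟩ := mem_filter.1 hw
    simp only [mem_union, mem_singleton, mem_filter, mem_univ, true_and, mem_image]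
    by_cases c1 : w = v
    · exact Or.inl (Or.inl (Or.inl (Or.inl c1)))
    by_cases c2 : w = f.z v
    · exact Or.inl (Or.inl (Or.inl (Or.inr c2)))
    by_cases c3 : f.G.Adj v w
    · rcases h.H.ed.cov v w c3 with ⟨a, ha⟩ | hz
      · by_cases c4 : a ∈ f.Q ∨ a ∈ f.mF i
        · exact Or.inl (Or.inr ⟨h3, h2, c3, a, ha, c4⟩)
        · rw [not_or] at c4
          exact Or.inr ⟨a, ⟨c4.1, c4.2, by rw [show f.E.N a v = w from ha]; exact h3,
            by rw [show f.E.N a v = w from ha]; exact h2, by rw [show f.E.N a v = w from ha]; exact c1⟩, ha⟩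
      · exact absurd hz.symm c2
    · exact Or.inl (Or.inl (Or.inr ⟨by rw [h2, hK], c1, c3⟩))
  have h2 := card_le_card h1
  have h3 := (h2.trans (card_union_le _ _)).trans
    (add_le_add ((card_union_le _ _).trans
      (add_le_add ((card_union_le _ _).trans (add_le_add (card_union_le _ _) le_rfl)) le_rfl)) card_image_le)
  rw [card_singleton, card_singleton] at h3
  have h4 := h.H.ac.f5 i v hv
  have h5 := h.H.gr.aw1 v hne
  have h6 : (f.aw v : ℝ) = ((univ.filter fun w => f.K w = f.K v ∧ w ≠ v ∧ ¬ f.G.Adj v w).card : ℝ) := rfl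
  have h7 : (f.oo v : ℝ) ≤ P.eta * P.D := by
    by_contra hc
    exact hS ⟨hne, Or.inr (not_le.1 hc).le⟩
  have h8 : ((f.F0i i).card : ℝ) ≤ ((1 + 1 + (univ.filter fun w => f.K w = f.K v ∧ w ≠ v ∧
      ¬ f.G.Adj v w).card + (univ.filter (fun w => f.F0 w ∧ f.K w = some i ∧ f.G.Adj v w ∧
        ∃ a, f.E.N a v = w ∧ (a ∈ f.Q ∨ a ∈ f.mF i))).card +
      (univ.filter fun a => a ∉ f.Q ∧ a ∉ f.mF i ∧ f.F0 (f.E.N a v) ∧
        f.K (f.E.N a v) = some i ∧ f.E.N a v ≠ v).card : ℕ) : ℝ) := by exact_mod_cast h3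
  push_cast at h8
  rw [← h6] at h8
  -- `102 δ D + 2 ≤ η D`
  have h9 : 1000 * (2 + 2 * (P.X : ℝ)) ≤ P.eta * P.D := h.small
  have h10 : 10 ^ 3 * P.delta ≤ P.eta := by
    have := h.L.del1
    have h11 : (10 : ℝ) ^ 3 ≤ (P.X : ℝ) ^ 3000 := by
      calc (10 : ℝ) ^ 3 ≤ P.X := le_trans (by norm_num) h.L.X1
        _ = (P.X : ℝ) ^ 1 := (pow_one _).symm
        _ ≤ (P.X : ℝ) ^ 3000 := pow_le_pow_right₀ (le_trans (by norm_num) h.L.X1) (by norm_num)
    exact (mul_le_mul_of_nonneg_right h11 h.L.del0.le).trans this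
  have hD := h.D1
  have h12 : 10 ^ 3 * P.delta * P.D ≤ P.eta * P.D := mul_le_mul_of_nonneg_right h10 (by linarith)
  have hX := h.X0
  linarith

end tk2

theorem thm_TK2 (hNumL : St_NumL) (hImpA : St_ImpA) (hTal : St_Tal) (hTb : St_Tb) : St_TK2 := by
  intro P V κ _ _ f rep H R
  have h := TKc_mk hNumL hTb H R
  have hMW : (0 : ℝ) < P.MW := lt_of_lt_of_le (by norm_num) h.MW6
  -- the tests: index `(i, w, b)`, `K w = some i`
  have hcnt : ∀ u, ((univ.filter (fun j : V × V × Bool => f.K j.2.1 = some j.1)).filter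
      (fun j => j.2.1 = u)).card ≤ 2 := by
    refine TKc_cnt _ _ (fun j => j.2.2) (fun _ => univ) (fun _ _ => mem_univ _) ?_ (fun u => ?_)
    · rintro ⟨i, w, b⟩ hj ⟨i', w', b'⟩ hj' h1 h2
      have c1 : f.K w = some i := (mem_filter.1 hj).2
      have c2 : f.K w' = some i' := (mem_filter.1 hj').2
      have h1' : w = w' := h1
      have h2' : b = b' := h2
      subst h1' h2'
      rw [c1] at c2
      have := Option.some.inj c2
      subst this
      rfl
    · rw [card_univ]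
      simp
  have A1 : Impl f.G P.Lam 2 (fun ω : V → Bool × Fin P.MW => ∀ i, ∀ w ∈ f.Rg P i,
      ((univ.filter (fun a => a ∉ f.Q ∧ a ∉ f.mF i ∧ (tdT P f rep ω).cr w a ∧
        ¬ (tdT P f rep ω).W (f.E.N a w))).card : ℝ) ≤
      1 / 2 * (1 - 1 / (P.MW : ℝ)) * ((P.D : ℝ) + 1 - f.Q.card - (f.F0i i).card) + P.nz) := by
    let T : V × V × Bool → Finset κ := fun j => univ.filter (fun a => a ∉ f.Q ∧ a ∉ f.mF j.1 ∧
      f.gc j.2.1 a)
    refine ⟨V × V × Bool, univ.filter (fun j => f.K j.2.1 = some j.1), fun j => j.2.1,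
      fun j ω => (((T j).filter (fun a => (ω (rep (f.E.N a j.2.1))).1 = j.2.2 ∧
        cnd (some false) (ω (rep (f.E.N a j.2.1))).2)).card : ℝ),
      fun j => pq P.MW (some false) / 2 * (T j).card + P.nz / P.X, hcnt, ?_, ?_⟩
    · rintro ⟨i, w, b⟩ hj
      exact (h.al hTal w (T (i, w, b)) (fun a => f.E.N a w) (some false) (h.colN _)
        (fun a ha a' _ e => h.injC (mem_filter.1 (mem_coe.1 ha)).2.2.2.1 e)
        (fun a ha => ball_mono (n := 1) (by norm_num)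
          (adj_mem_ball (h.adj (mem_filter.1 ha).2.2.2.1))) b).1
    · intro ω hω i w hw
      have hK : f.K w = some i := (mem_filter.1 hw).2.1
      have h1 : (((T (i, w, !(tdT P f rep ω).tau w)).filter (fun a => (ω (rep (f.E.N a w))).1 =
          (!(tdT P f rep ω).tau w) ∧ cnd (some false) (ω (rep (f.E.N a w))).2)).card : ℝ) ≤
          (1 - 1 / (P.MW : ℝ)) / 2 * (T (i, w, !(tdT P f rep ω).tau w)).card + P.nz / P.X :=
        hω (i, w, !(tdT P f rep ω).tau w) (mem_filter.2 ⟨mem_univ _, hK⟩)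
      have h2 : (univ.filter (fun a => a ∉ f.Q ∧ a ∉ f.mF i ∧ (tdT P f rep ω).cr w a ∧
          ¬ (tdT P f rep ω).W (f.E.N a w))).card ≤
          ((T (i, w, !(tdT P f rep ω).tau w)).filter (fun a => (ω (rep (f.E.N a w))).1 =
          (!(tdT P f rep ω).tau w) ∧ cnd (some false) (ω (rep (f.E.N a w))).2)).card := by
        refine card_le_card fun a ha => ?_
        obtain ⟨-, c1, c2, c3, c4⟩ := mem_filter.1 ha
        exact mem_filter.2 ⟨mem_filter.2 ⟨mem_univ _, c1, c2, c3.1⟩, Bool.eq_not_of_ne c3.2,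
          (TKc_cF _).2 c4⟩
      have h3 : ((univ.filter (fun a => a ∉ f.Q ∧ a ∉ f.mF i ∧ (tdT P f rep ω).cr w a ∧
          ¬ (tdT P f rep ω).W (f.E.N a w))).card : ℝ) ≤
          (((T (i, w, !(tdT P f rep ω).tau w)).filter (fun a => (ω (rep (f.E.N a w))).1 =
          (!(tdT P f rep ω).tau w) ∧ cnd (some false) (ω (rep (f.E.N a w))).2)).card : ℝ) := by
        exact_mod_cast h2
      have h4 := h.nzX
      have h5 := TK2_out h i (T (i, w, !(tdT P f rep ω).tau w)) fun a ha =>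
        ⟨(mem_filter.1 ha).2.1, (mem_filter.1 ha).2.2.1⟩
      have h7 : 0 ≤ (1 - 1 / (P.MW : ℝ)) / 2 := by
        have : 1 / (P.MW : ℝ) ≤ 1 := by
          rw [div_le_one hMW]
          exact le_trans (by norm_num) h.MW6
        linarith
      have h8 := mul_le_mul_of_nonneg_left (by linarith :
        ((T (i, w, !(tdT P f rep ω).tau w)).card : ℝ) ≤ P.D + 1 - f.Q.card - (f.F0i i).card) h7
      linarith
  have A2 : Impl f.G P.Lam 2 (fun ω : V → Bool × Fin P.MW => ∀ i, ∀ v ∈ f.Rg P i,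
      ((univ.filter (fun a => a ∉ f.Q ∧ a ∉ f.mF i ∧ f.E.N a v ∈ f.Rg P i ∧ ¬ f.F0 (f.E.N a v) ∧
        (tdT P f rep ω).tau (f.E.N a v) ≠ (tdT P f rep ω).tau v)).card : ℝ) ≤
      1 / 2 * ((P.D : ℝ) + 1 - f.Q.card - 2 * (f.F0i i).card + P.fmin * P.D / 8 +
        2 * P.eta * P.D) + P.nz) := by
    let T : V × V × Bool → Finset κ := fun j => univ.filter (fun a => a ∉ f.Q ∧ a ∉ f.mF j.1 ∧
      f.E.N a j.2.1 ≠ j.2.1 ∧ ¬ f.F0 (f.E.N a j.2.1))
    refine ⟨V × V × Bool, univ.filter (fun j => f.K j.2.1 = some j.1), fun j => j.2.1,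
      fun j ω => (((T j).filter (fun a => (ω (rep (f.E.N a j.2.1))).1 = j.2.2 ∧
        cnd none (ω (rep (f.E.N a j.2.1))).2)).card : ℝ),
      fun j => pq P.MW none / 2 * (T j).card + P.nz / P.X, hcnt, ?_, ?_⟩
    · rintro ⟨i, w, b⟩ hj
      exact (h.al hTal w (T (i, w, b)) (fun a => f.E.N a w) none (h.colN _)
        (fun a ha a' _ e => h.injC (mem_filter.1 (mem_coe.1 ha)).2.2.2.1 e)
        (fun a ha => ball_mono (n := 1) (by norm_num)
          (adj_mem_ball (h.adj (mem_filter.1 ha).2.2.2.1))) b).1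
    · intro ω hω i v hv
      have hK : f.K v = some i := (mem_filter.1 hv).2.1
      have h1 : (((T (i, v, !(tdT P f rep ω).tau v)).filter (fun a => (ω (rep (f.E.N a v))).1 =
          (!(tdT P f rep ω).tau v) ∧ cnd none (ω (rep (f.E.N a v))).2)).card : ℝ) ≤
          1 / 2 * (T (i, v, !(tdT P f rep ω).tau v)).card + P.nz / P.X :=
        hω (i, v, !(tdT P f rep ω).tau v) (mem_filter.2 ⟨mem_univ _, hK⟩)
      have h2 : (univ.filter (fun a => a ∉ f.Q ∧ a ∉ f.mF i ∧ f.E.N a v ∈ f.Rg P i ∧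
          ¬ f.F0 (f.E.N a v) ∧ (tdT P f rep ω).tau (f.E.N a v) ≠ (tdT P f rep ω).tau v)).card ≤
          ((T (i, v, !(tdT P f rep ω).tau v)).filter (fun a => (ω (rep (f.E.N a v))).1 =
          (!(tdT P f rep ω).tau v) ∧ cnd none (ω (rep (f.E.N a v))).2)).card := by
        refine card_le_card fun a ha => ?_
        obtain ⟨-, c1, c2, c3, c4, c5⟩ := mem_filter.1 ha
        refine mem_filter.2 ⟨mem_filter.2 ⟨mem_univ _, c1, c2, ?_, c4⟩, Bool.eq_not_of_ne c5,
          (TKc_cN _).2 trivial⟩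
        intro e
        exact c5 (by rw [e])
      have h3 : ((univ.filter (fun a => a ∉ f.Q ∧ a ∉ f.mF i ∧ f.E.N a v ∈ f.Rg P i ∧
          ¬ f.F0 (f.E.N a v) ∧ (tdT P f rep ω).tau (f.E.N a v) ≠ (tdT P f rep ω).tau v)).card : ℝ) ≤
          (((T (i, v, !(tdT P f rep ω).tau v)).filter (fun a => (ω (rep (f.E.N a v))).1 =
          (!(tdT P f rep ω).tau v) ∧ cnd none (ω (rep (f.E.N a v))).2)).card : ℝ) := by
        exact_mod_cast h2
      have h4 := h.nzX
      have h5 := TK2_out h i (T (i, v, !(tdT P f rep ω).tau v) ∪ univ.filter fun a => a ∉ f.Q ∧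
        a ∉ f.mF i ∧ f.F0 (f.E.N a v) ∧ f.K (f.E.N a v) = some i ∧ f.E.N a v ≠ v) fun a ha => by
          rcases mem_union.1 ha with c | c
          · exact ⟨(mem_filter.1 c).2.1, (mem_filter.1 c).2.2.1⟩
          · exact ⟨(mem_filter.1 c).2.1, (mem_filter.1 c).2.2.1⟩
      rw [card_union_of_disjoint (disjoint_left.2 fun a ha ha' =>
        (mem_filter.1 ha).2.2.2.2 (mem_filter.1 ha').2.2.2.1)] at h5
      push_cast at h5
      have h6 := TK2_free h hv
      linarith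
  obtain ⟨I1, I2⟩ := hImpA V (Bool × Fin P.MW) f.G P.Lam
  refine I2 _ _ _ _ (I1 _ _ _ _ A1 A2) (TKc_N2 _ _ (by norm_num)) ?_
  intro ω hω
  exact hω

end Pool.TCV
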