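import Pool.Agent.Helper3.TCV.StB
import Pool.Agent.Helper3.TCM.Ball

/-!
# T10, section 5: (K4) (helper37)
-/

set_option autoImplicit false
set_option linter.unusedSectionVars false

namespace Pool.TCV

open Pool.TC Pool.TCM Pool.TCS Pool.TN Finset
open scoped Classical

section

variable {V κ : Type} [Fintype V] [Fintype κ] (P : Par) (f : Fd V κ)

/-- the rows in question -/
noncomputable def TK4_Y (i : V) (a : κ) (T : Finset V) : Finset V :=
  univ.filter (fun w => w ∈ f.Rg P i ∧ ¬ f.F0 w ∧ w ∉ f.FB i a ∧ w ∉ T)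

/-- the fixed rows -/
noncomputable def TK4_T0 (i : V) (a : κ) (T : Finset V) : Finset V :=
  (TK4_Y P f i a T).filter (fun w => f.fx w a)

/-- the good rows -/
noncomputable def TK4_T1 (i : V) (a : κ) (T : Finset V) : Finset V :=
  (TK4_Y P f i a T).filter (fun w => f.gc w a ∧ f.E.N a w ∈ f.Rg P i)

theorem TK4_inj (a : κ) : Function.Injective (f.E.N a) := fun u v h => by
  rw [← f.E.inv a u, h, f.E.inv]

theorem TK4_cov1 (i : V) (a : κ) (T : Finset V) :
    (f.Ki i \ T).card ≤ (TK4_Y P f i a T).card + (f.Spi P i).card + (f.F0i i).card +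
      (f.FB i a).card := by
  have h : f.Ki i \ T ⊆ ((TK4_Y P f i a T ∪ f.Spi P i) ∪ f.F0i i) ∪ f.FB i a := by
    intro w hw
    rw [mem_sdiff] at hw
    have hw1 : f.K w = some i := by
      have := hw.1
      simpa [Gd.Ki] using this
    simp only [mem_union]
    by_cases h1 : f.Sp P w
    · exact Or.inl (Or.inl (Or.inr (by simp [Gd.Spi, hw1, h1])))
    by_cases h2 : f.F0 w
    · exact Or.inl (Or.inr (by simp [Fd.F0i, hw1, h2]))
    by_cases h3 : w ∈ f.FB i a
    · exact Or.inr h3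
    refine Or.inl (Or.inl (Or.inl ?_))
    unfold TK4_Y
    rw [mem_filter]
    refine ⟨mem_univ _, ?_, h2, h3, hw.2⟩
    simp [Gd.Rg, hw1, h1]
  refine (card_le_card h).trans ?_
  refine (card_union_le _ _).trans (Nat.add_le_add_right ?_ _)
  refine (card_union_le _ _).trans (Nat.add_le_add_right ?_ _)
  exact card_union_le _ _

theorem TK4_cov2 (h4 : Hy4 P f) (i : V) (a : κ) (T : Finset V) (ha : a ∉ f.Pb P i) :
    ((TK4_Y P f i a T).card : ℝ) ≤ (TK4_T0 P f i a T).card + (TK4_T1 P f i a T).card +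
      P.theta * P.D + (f.Spi P i).card + 2 * P.X := by
  set B1 : Finset V := univ.filter (fun w => f.K w = some i ∧ f.K (f.E.N a w) ≠ some i) with hB1
  set B3 : Finset V := (univ.filter (fun w => f.K w = some i ∧ f.z w ≠ w)) with hB3
  have h : TK4_Y P f i a T ⊆ (((TK4_T0 P f i a T ∪ TK4_T1 P f i a T) ∪ B1) ∪
      (f.Spi P i).image (f.E.N a)) ∪ B3.image (f.E.N a) := by
    intro w hw
    have hw1 : w ∈ f.Rg P i := by
      have := hw
      unfold TK4_Y at this
      rw [mem_filter] at this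
      exact this.2.1
    have hw2 : f.K w = some i := by
      have := hw1
      unfold Gd.Rg at this
      rw [mem_filter] at this
      exact this.2.1
    simp only [mem_union]
    by_cases h1 : f.E.N a w = w
    · exact Or.inl (Or.inl (Or.inl (Or.inl (by
        unfold TK4_T0
        rw [mem_filter]
        exact ⟨hw, h1⟩))))
    by_cases h2 : f.K (f.E.N a w) = some i
    swap
    · exact Or.inl (Or.inl (Or.inr (by
        rw [hB1, mem_filter]
        exact ⟨mem_univ _, hw2, h2⟩)))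
    by_cases h3 : f.Sp P (f.E.N a w)
    · refine Or.inl (Or.inr ?_)
      rw [mem_image]
      refine ⟨f.E.N a w, ?_, f.E.inv a w⟩
      unfold Gd.Spi
      rw [mem_filter]
      exact ⟨mem_univ _, h2, h3⟩
    have h5 : f.E.N a w ∈ f.Rg P i := by
      unfold Gd.Rg
      rw [mem_filter]
      exact ⟨mem_univ _, h2, h3⟩
    by_cases h6 : f.z (f.E.N a w) = f.E.N a w
    · refine Or.inl (Or.inl (Or.inl (Or.inr ?_)))
      unfold TK4_T1
      rw [mem_filter]
      exact ⟨hw, ⟨h1, h6⟩, h5⟩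
    · refine Or.inr ?_
      rw [mem_image]
      refine ⟨f.E.N a w, ?_, f.E.inv a w⟩
      rw [hB3, mem_filter]
      exact ⟨mem_univ _, h2, h6⟩
  have hc : (TK4_Y P f i a T).card ≤ (((TK4_T0 P f i a T).card + (TK4_T1 P f i a T).card) +
      B1.card + (f.Spi P i).card) + B3.card := by
    refine (card_le_card h).trans ?_
    refine (card_union_le _ _).trans (Nat.add_le_add ?_ card_image_le)
    refine (card_union_le _ _).trans (Nat.add_le_add ?_ card_image_le)
    refine (card_union_le _ _).trans (Nat.add_le_add_right ?_ _)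
    exact card_union_le _ _
  have hb3 : B3.card ≤ 2 * P.X := h4.ed.r4' i
  have hb1 : (B1.card : ℝ) ≤ P.theta * P.D := by
    unfold Ed.Pb at ha
    rw [mem_filter, not_and] at ha
    exact not_lt.1 (ha (mem_univ _))
  have hc' : ((TK4_Y P f i a T).card : ℝ) ≤ (((TK4_T0 P f i a T).card + (TK4_T1 P f i a T).card) +
      B1.card + (f.Spi P i).card) + B3.card := by exact_mod_cast hc
  have hb3' : (B3.card : ℝ) ≤ 2 * P.X := by exact_mod_cast hb3
  linarith

/-- the number of fixed or good rows -/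
theorem TK4_cov (hNumL : St_NumL) (h4 : Hy4 P f) (i : V) (a : κ) (T : Finset V)
    (ha : a ∉ f.Pb P i) (hT : P.D ≤ 113 * (f.Ki i \ T).card) :
    (P.D : ℝ) / 130 ≤ (TK4_T0 P f i a T).card + (TK4_T1 P f i a T).card := by
  have hn := hNumL P h4.nm
  have h1 := TK4_cov1 P f i a T
  have h2 := TK4_cov2 P f h4 i a T ha
  have h1' : ((f.Ki i \ T).card : ℝ) ≤ (TK4_Y P f i a T).card + (f.Spi P i).card +
      (f.F0i i).card + (f.FB i a).card := by exact_mod_cast h1
  have hT' : (P.D : ℝ) ≤ 113 * (f.Ki i \ T).card := by exact_mod_cast hT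
  have h3 := h4.ac.f3' i
  have h3' : (P.pa : ℝ) * (f.F0i i).card ≤ 2 * P.D := by exact_mod_cast h3
  have h5 := h4.ac.f4' i a
  have h5' : 1000 * ((f.FB i a).card : ℝ) ≤ P.D := by exact_mod_cast h5
  have h6 := h4.gr.sp1 i
  have hX := hn.X1
  have hX0 : (0 : ℝ) < P.X := lt_of_lt_of_le (by norm_num) hX
  have hX1 : (1 : ℝ) ≤ P.X := le_trans (by norm_num) hX
  have hD0 : (0 : ℝ) < P.D := lt_of_lt_of_le (by positivity) (hn.XD 1 (by norm_num))
  have hXD : 10 ^ 20 * (P.X : ℝ) ≤ P.D := by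
    have h7 := hn.XD 2 (by norm_num)
    nlinarith
  -- special rows
  have hs : ((f.Spi P i).card : ℝ) ≤ P.D / 10 ^ 10 := by
    refine h6.trans ?_
    rw [div_le_iff₀ hn.eta0]
    have h7 := hn.del1
    have h8 : (P.X : ℝ) ≤ (P.X : ℝ) ^ 3000 := le_self_pow₀ hX1 (by norm_num)
    have h9 : (P.X : ℝ) * P.delta ≤ P.eta :=
      (mul_le_mul_of_nonneg_right h8 hn.del0.le).trans h7
    have h10 : 10 ^ 20 * P.delta ≤ P.eta :=
      (mul_le_mul_of_nonneg_right hX hn.del0.le).trans h9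
    have h11 : 10 ^ 20 * P.delta * P.D ≤ P.eta * P.D := mul_le_mul_of_nonneg_right h10 hD0.le
    have h12 : 0 < P.delta * P.D := mul_pos hn.del0 hD0
    have h13 : P.D / 10 ^ 10 * P.eta = P.eta * P.D / 10 ^ 10 := by ring
    rw [h13, le_div_iff₀ (by norm_num)]
    nlinarith
  -- theta
  have ht : P.theta * P.D ≤ P.D / 10 ^ 10 := by
    have h7 := hn.th1
    have h8 : (P.X : ℝ) ≤ (P.X : ℝ) ^ 14 := le_self_pow₀ hX1 (by norm_num)
    have h9 : 10 ^ 20 * P.theta ≤ 1 := by
      have := mul_le_mul_of_nonneg_right (hX.trans h8) hn.th0.le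
      linarith
    have h10 := mul_le_mul_of_nonneg_right h9 hD0.le
    have h11 : 0 < P.theta * P.D := mul_pos hn.th0 hD0
    rw [le_div_iff₀ (by norm_num)]
    nlinarith
  -- free rows
  have hf : ((f.F0i i).card : ℝ) ≤ P.D / 10 ^ 10 := by
    have hpa : (P.X : ℝ) ≤ P.pa := by
      rw [h4.nm.pa]
      push_cast
      exact le_self_pow₀ hX1 (by norm_num)
    have h7 : (10 : ℝ) ^ 20 * (f.F0i i).card ≤ 2 * P.D :=
      (mul_le_mul_of_nonneg_right (hX.trans hpa) (Nat.cast_nonneg _)).trans h3'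
    rw [le_div_iff₀ (by norm_num)]
    have h8 : (0 : ℝ) ≤ (f.F0i i).card := Nat.cast_nonneg _
    nlinarith
  have hX2 : 2 * (P.X : ℝ) ≤ P.D / 10 ^ 10 := by
    rw [le_div_iff₀ (by norm_num)]
    nlinarith
  linarith

/-- the sets `T` -/
noncomputable def TK4_S (i : V) : Finset (Finset V) :=
  insert ∅ ((((ball f.G 3 i) ×ˢ (ball f.G 3 i)).filter
    (fun q => f.K q.1 ≠ some i ∧ f.K q.2 ≠ some i)).image (fun q => nb f.G q.1 ∪ nb f.G q.2))

/-- the tests -/
noncomputable def TK4_J : Finset (V × κ × Finset V) :=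
  univ.filter (fun j => f.K j.1 = some j.1 ∧ j.2.1 ∉ f.Pb P j.1 ∧ j.2.2 ∈ TK4_S f j.1)

theorem TK4_cardS (h4 : Hy4 P f) (i : V) : (TK4_S f i).card ≤ (P.D + 1) ^ 6 + 1 := by
  unfold TK4_S
  refine (card_insert_le _ _).trans (Nat.add_le_add_right ?_ 1)
  refine card_image_le.trans ((card_filter_le _ _).trans ?_)
  rw [card_product]
  have h1 := card_ball (G := f.G) (D := P.D) (fun u => (h4.gr.reg u).le) 3 i
  calc (ball f.G 3 i).card * (ball f.G 3 i).card ≤ (P.D + 1) ^ 3 * (P.D + 1) ^ 3 :=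
        Nat.mul_le_mul h1 h1
    _ = (P.D + 1) ^ 6 := by ring

theorem TK4_cardJ (h4 : Hy4 P f) (u : V) :
    ((TK4_J P f).filter (fun j => j.1 = u)).card ≤ (P.D + 2) ^ 10 := by
  have h1 : (TK4_J P f).filter (fun j => j.1 = u) ⊆
      ((univ : Finset κ) ×ˢ TK4_S f u).image (fun q => (u, q.1, q.2)) := by
    intro j hj
    rw [mem_filter] at hj
    obtain ⟨hj, rfl⟩ := hj
    unfold TK4_J at hj
    rw [mem_filter] at hj
    rw [mem_image]
    exact ⟨(j.2.1, j.2.2), mem_product.2 ⟨mem_univ _, hj.2.2.2⟩, rfl⟩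
  refine (card_le_card h1).trans (card_image_le.trans ?_)
  rw [card_product, card_univ, h4.ed.col]
  have h2 := TK4_cardS P f h4 u
  have h3 : (P.D + 1) ^ 6 + 1 ≤ (P.D + 2) ^ 7 := by
    have h5 : (P.D + 1) ^ 6 ≤ (P.D + 2) ^ 6 := Nat.pow_le_pow_left (by omega) 6
    have h6 : 1 ≤ (P.D + 2) ^ 6 := Nat.one_le_pow _ _ (by omega)
    calc (P.D + 1) ^ 6 + 1 ≤ (P.D + 2) ^ 6 + (P.D + 2) ^ 6 := Nat.add_le_add h5 h6
      _ = 2 * (P.D + 2) ^ 6 := by ring
      _ ≤ (P.D + 2) * (P.D + 2) ^ 6 := Nat.mul_le_mul_right _ (by omega)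
      _ = (P.D + 2) ^ 7 := by ring
  calc (P.D + 1) * (TK4_S f u).card ≤ (P.D + 2) * (P.D + 2) ^ 7 :=
        Nat.mul_le_mul (by omega) (h2.trans h3)
    _ = (P.D + 2) ^ 8 := by ring
    _ ≤ (P.D + 2) ^ 10 := Nat.pow_le_pow_right (by omega) (by norm_num)

/-- reduction to the sets of the tests -/
theorem TK4_red (h4 : Hy4 P f) (i : V) (T : Finset V)
    (hT : T = ∅ ∨ ∃ x y, f.K x ≠ some i ∧ f.K y ≠ some i ∧ T = nb f.G x ∪ nb f.G y) :
    ∃ T' ∈ TK4_S f i, ∀ w, f.K w = some i → (w ∈ T ↔ w ∈ T') := by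
  have hout : ∀ x, x ∉ ball f.G 3 i → ∀ w, f.K w = some i → w ∉ nb f.G x := by
    intro x hx w hw hwx
    apply hx
    have h1 : w ∈ ball f.G 2 i := h4.gr.loc i w hw
    exact ball_trans h1 (adj_mem_ball (mem_nb.1 hwx).symm)
  have hin : ∀ x y, x ∈ ball f.G 3 i → y ∈ ball f.G 3 i → f.K x ≠ some i → f.K y ≠ some i →
      nb f.G x ∪ nb f.G y ∈ TK4_S f i := by
    intro x y hx hy hx1 hy1
    unfold TK4_S
    refine mem_insert_of_mem (mem_image.2 ⟨(x, y), ?_, rfl⟩)
    rw [mem_filter]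
    exact ⟨mem_product.2 ⟨hx, hy⟩, hx1, hy1⟩
  rcases hT with rfl | ⟨x, y, hx, hy, rfl⟩
  · exact ⟨∅, mem_insert_self _ _, fun w _ => Iff.rfl⟩
  by_cases h1 : x ∈ ball f.G 3 i
  · by_cases h2 : y ∈ ball f.G 3 i
    · exact ⟨_, hin x y h1 h2 hx hy, fun w _ => Iff.rfl⟩
    · refine ⟨_, hin x x h1 h1 hx hx, fun w hw => ?_⟩
      have := hout y h2 w hw
      simp only [mem_union]
      tauto
  · by_cases h2 : y ∈ ball f.G 3 i
    · refine ⟨_, hin y y h2 h2 hy hy, fun w hw => ?_⟩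
      have := hout x h1 w hw
      simp only [mem_union]
      tauto
    · refine ⟨∅, mem_insert_self _ _, fun w hw => ?_⟩
      have h3 := hout x h1 w hw
      have h5 := hout y h2 w hw
      simp only [mem_union, notMem_empty]
      tauto

/-- one test -/
theorem TK4_tst (hNumL : St_NumL) (hTal : St_Tal) (hTb : St_Tb) (h4 : Hy4 P f) (rep : V → V)
    (hr : Rep f.z rep) (i : V) (a : κ) (T : Finset V) (_ : f.K i = some i) :
    Tst f.G P.Lam i (fun ω : V → Bool × Fin P.MW =>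
      -(((TK4_T1 P f i a T).filter (fun w =>
        (ω (rep (f.E.N a w))).1 ≠ (ω (rep w)).1 ∧
          cnd (some true) (ω (rep (f.E.N a w))).2)).card : ℝ))
      (-(1 / (P.MW : ℝ) / 2 * (TK4_T1 P f i a T).card) +
        Real.sqrt (200 * ((P.D : ℝ) + 1) * P.Lam)) := by
  have hn := hNumL P h4.nm
  have hb := hTb P V κ f rep h4 hr
  have hsub : ∀ w ∈ TK4_T1 P f i a T, f.K w = some i ∧ f.gc w a ∧ f.K (f.E.N a w) = some i := by
    intro w hw
    unfold TK4_T1 at hw
    rw [mem_filter] at hw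
    obtain ⟨h1, h2, h3⟩ := hw
    unfold TK4_Y at h1
    rw [mem_filter] at h1
    have h5 := h1.2.1
    unfold Gd.Rg at h5 h3
    rw [mem_filter] at h5 h3
    exact ⟨h5.2.1, h2, h3.2.1⟩
  have hcard : (TK4_T1 P f i a T).card ≤ 4 * (P.D + 1) := by
    have h1 : TK4_T1 P f i a T ⊆ f.Ki i := by
      intro w hw
      unfold Gd.Ki
      rw [mem_filter]
      exact ⟨mem_univ _, (hsub w hw).1⟩
    have h2 := card_le_card h1
    have h3 := h4.gr.k2 i
    have h5 : 102 * P.delta * P.D ≤ P.D := by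
      have h6 := hn.del3
      have h7 : (0 : ℝ) ≤ P.D := Nat.cast_nonneg _
      have h8 : 102 * P.delta ≤ 1 := by norm_num at h6 ⊢; linarith
      have h9 := mul_le_mul_of_nonneg_right h8 h7
      linarith
    have h6 : ((TK4_T1 P f i a T).card : ℝ) ≤ 4 * ((P.D : ℝ) + 1) := by
      have h7 : ((TK4_T1 P f i a T).card : ℝ) ≤ ((f.Ki i).card : ℝ) := by exact_mod_cast h2
      have h8 : (0 : ℝ) ≤ P.D := Nat.cast_nonneg _
      linarith
    exact_mod_cast h6
  have hLam : 0 < P.Lam := lt_of_lt_of_le one_pos hn.La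
  have h1 := (hTal V V f.G P.MW P.D P.Lam f.z rep i (TK4_T1 P f i a T) (fun w => w)
    (fun w => f.E.N a w) (fun w => w) (some true) hn.MW0 hr h4.ed.zadj hLam hcard
    (fun x _ y _ h => h) (fun w hw => ball_mono (by norm_num) (h4.gr.loc i w (hsub w hw).1))).2
    (fun x _ y _ h => TK4_inj f a h)
    (fun w hw => ball_mono (by norm_num) (h4.gr.loc i _ (hsub w hw).2.2))
    (fun w hw => ((hb.1 w a (hsub w hw).2.1).2).symm)
  exact h1.1.2

end

theorem thm_TK4 (hNumL : St_NumL) (hTal : St_Tal) (hTb : St_Tb) : St_TK4 := by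
  intro P V κ _ _ f rep h4 hr
  have hn := hNumL P h4.nm
  have hb := hTb P V κ f rep h4 hr
  refine ⟨V × κ × Finset V, TK4_J P f, fun j => j.1, fun j ω =>
      -(((TK4_T1 P f j.1 j.2.1 j.2.2).filter (fun w =>
        (ω (rep (f.E.N j.2.1 w))).1 ≠ (ω (rep w)).1 ∧
          cnd (some true) (ω (rep (f.E.N j.2.1 w))).2)).card : ℝ),
    fun j => -(1 / (P.MW : ℝ) / 2 * (TK4_T1 P f j.1 j.2.1 j.2.2).card) +
        Real.sqrt (200 * ((P.D : ℝ) + 1) * P.Lam), TK4_cardJ P f h4, ?_, ?_⟩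
  · intro j hj
    unfold TK4_J at hj
    rw [mem_filter] at hj
    exact TK4_tst P f hNumL hTal hTb h4 rep hr j.1 j.2.1 j.2.2 hj.2.1
  · intro ω hω i a T hi ha hT hTc
    obtain ⟨T', hT', hTT⟩ := TK4_red P f h4 i T hT
    have hKi : f.Ki i \ T = f.Ki i \ T' := by
      ext w
      rw [mem_sdiff, mem_sdiff]
      constructor
      · rintro ⟨h1, h2⟩
        have h3 : f.K w = some i := by
          unfold Gd.Ki at h1
          rw [mem_filter] at h1
          exact h1.2
        exact ⟨h1, fun h => h2 ((hTT w h3).2 h)⟩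
      · rintro ⟨h1, h2⟩
        have h3 : f.K w = some i := by
          unfold Gd.Ki at h1
          rw [mem_filter] at h1
          exact h1.2
        exact ⟨h1, fun h => h2 ((hTT w h3).1 h)⟩
    have hTc' : P.D ≤ 113 * (f.Ki i \ T').card := by
      rw [← hKi]
      exact hTc
    have hcov := TK4_cov P f hNumL h4 i a T' ha hTc'
    have hj : (i, a, T') ∈ TK4_J P f := by
      unfold TK4_J
      rw [mem_filter]
      exact ⟨mem_univ _, hi, ha, hT'⟩
    have htest := hω (i, a, T') hj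
    simp only at htest
    set T1' : Finset V := (TK4_T1 P f i a T').filter (fun w =>
        (ω (rep (f.E.N a w))).1 ≠ (ω (rep w)).1 ∧
          cnd (some true) (ω (rep (f.E.N a w))).2) with hT1'
    set Z : Finset V := univ.filter (fun w => w ∈ (tdT P f rep ω).Rg P i ∧
      ¬ (tdT P f rep ω).F0 w ∧ w ∉ (tdT P f rep ω).FB i a ∧ w ∉ T ∧
      ((tdT P f rep ω).fx w a ∨ ((tdT P f rep ω).cr w a ∧ (tdT P f rep ω).E.N a w ∈
        (tdT P f rep ω).Rg P i ∧ (tdT P f rep ω).W ((tdT P f rep ω).E.N a w)))) with hZ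
    have hRg : ∀ w, w ∈ f.Rg P i → f.K w = some i := by
      intro w hw
      unfold Gd.Rg at hw
      rw [mem_filter] at hw
      exact hw.2.1
    have hsub : TK4_T0 P f i a T' ∪ T1' ⊆ Z := by
      intro w hw
      rw [mem_union] at hw
      rw [hZ, mem_filter]
      refine ⟨mem_univ _, ?_⟩
      rcases hw with hw | hw
      · unfold TK4_T0 TK4_Y at hw
        rw [mem_filter, mem_filter] at hw
        obtain ⟨⟨-, h1, h2, h3, h5⟩, h6⟩ := hw
        exact ⟨h1, h2, h3, fun h => h5 ((hTT w (hRg w h1)).1 h), Or.inl h6⟩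
      · rw [hT1', mem_filter] at hw
        obtain ⟨hw, h7, h8⟩ := hw
        unfold TK4_T1 TK4_Y at hw
        rw [mem_filter, mem_filter] at hw
        obtain ⟨⟨-, h1, h2, h3, h5⟩, h6, h9⟩ := hw
        refine ⟨h1, h2, h3, fun h => h5 ((hTT w (hRg w h1)).1 h), Or.inr ⟨⟨h6, h7⟩, h9, ?_⟩⟩
        rcases h8 with h8 | h8 | h8
        · exact absurd h8 (by simp)
        · exact h8.2
        · exact absurd h8.1 (by simp)
    have hdisj : Disjoint (TK4_T0 P f i a T') T1' := by
      rw [disjoint_left]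
      intro w h1 h2
      unfold TK4_T0 at h1
      rw [mem_filter] at h1
      rw [hT1', mem_filter] at h2
      have h3 := h2.1
      unfold TK4_T1 at h3
      rw [mem_filter] at h3
      exact h3.2.1.1 h1.2
    have hZc : ((TK4_T0 P f i a T').card : ℝ) + T1'.card ≤ Z.card := by
      have h1 := card_le_card hsub
      rw [card_union_of_disjoint hdisj] at h1
      exact_mod_cast h1
    have hsq := hb.2.2.2.2.2.1
    have hMW : (0 : ℝ) < P.MW := by exact_mod_cast hn.MW0
    have hX := hn.X1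
    have hX0 : (0 : ℝ) < P.X := lt_of_lt_of_le (by norm_num) hX
    have hX1 : (1 : ℝ) ≤ P.X := le_trans (by norm_num) hX
    -- the deviation
    have hdev : P.nz / P.X * P.MW ≤ P.D / 10 ^ 10 := by
      have h1 := hn.nzD 7 (by norm_num)
      have h2 : (P.X : ℝ) ^ 7 * P.nz = P.X * (P.MW * P.nz) := by
        rw [hn.MW1]
        ring
      rw [h2] at h1
      have h3 : 0 < P.MW * P.nz := mul_pos hMW hn.nz1
      have h5 : P.nz / P.X * P.MW = P.MW * P.nz / P.X := by ring
      rw [h5]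
      have h6 : P.MW * P.nz / P.X ≤ P.MW * P.nz := div_le_self h3.le hX1
      refine h6.trans ?_
      rw [le_div_iff₀ (by norm_num)]
      have h7 : (10 : ℝ) ^ 20 * (P.MW * P.nz) ≤ P.D :=
        (mul_le_mul_of_nonneg_right hX h3.le).trans h1
      nlinarith
    have hfin : (P.D : ℝ) ≤ 300 * P.MW * Z.card := by
      have hN0 : (0 : ℝ) ≤ (TK4_T0 P f i a T').card := Nat.cast_nonneg _
      have hN1 : (0 : ℝ) ≤ (TK4_T1 P f i a T').card := Nat.cast_nonneg _
      have hMW1 : (1 : ℝ) ≤ P.MW := by exact_mod_cast hn.MW0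
      have h1 : 1 / (P.MW : ℝ) / 2 * (TK4_T1 P f i a T').card ≤ T1'.card + P.nz / P.X := by
        linarith
      have h2 : ((TK4_T1 P f i a T').card : ℝ) / 2 ≤ P.MW * T1'.card + P.nz / P.X * P.MW := by
        have h3 := mul_le_mul_of_nonneg_left h1 hMW.le
        have h5 : (P.MW : ℝ) * (1 / (P.MW : ℝ) / 2 * (TK4_T1 P f i a T').card) =
            ((TK4_T1 P f i a T').card : ℝ) / 2 := by
          field_simp
        rw [h5] at h3
        linarith
      have h6 : ((TK4_T0 P f i a T').card : ℝ) / 2 ≤ P.MW * (TK4_T0 P f i a T').card := by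
        nlinarith
      have h7 : (P.MW : ℝ) * ((TK4_T0 P f i a T').card + T1'.card) ≤ P.MW * Z.card :=
        mul_le_mul_of_nonneg_left hZc hMW.le
      have h8 : (0 : ℝ) ≤ P.D := Nat.cast_nonneg _
      nlinarith
    exact_mod_cast hfin

end Pool.TCV
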