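import Pool.Agent.Helper3.TCV.TKc

/-!
# T10: (K7) (helper25)
-/

set_option autoImplicit false

namespace Pool.TCV

open Pool.TC Pool.TCM Pool.TCS Pool.TN Finset
open scoped Classical

theorem thm_TK7 (hNumL : St_NumL) (hImpA : St_ImpA) (hTal : St_Tal) (hTb : St_Tb) : St_TK7 := by
  intro P V κ _ _ f rep H R
  have h := TKc_mk hNumL hTb H R
  have hMW : (0 : ℝ) < P.MW := lt_of_lt_of_le (by norm_num) h.MW6
  -- first half
  have A1 : Impl f.G P.Lam (P.D + 1) (fun ω : V → Bool × Fin P.MW => ∀ i b,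
      ((univ.filter (fun u => u ∈ f.Rg P i ∧ f.gc u b ∧ f.E.N b u ∈ f.Rg P i)).card : ℝ) /
        (2 * P.MW) - P.nz ≤
      ((univ.filter (fun u => u ∈ f.Rg P i ∧ (tdT P f rep ω).cr u b ∧ f.E.N b u ∈ f.Rg P i ∧
        (tdT P f rep ω).W (f.E.N b u))).card : ℝ)) := by
    let T : V × κ → Finset V := fun j => univ.filter (fun u => u ∈ f.Rg P j.1 ∧ f.gc u j.2 ∧
      f.E.N j.2 u ∈ f.Rg P j.1)
    have hTK : ∀ j, ∀ w ∈ T j, f.K w = some j.1 := fun j w hw =>
      (mem_filter.1 (mem_filter.1 hw).2.1).2.1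
    refine ⟨V × κ, univ, fun j => j.1,
      fun j ω => -(((T j).filter (fun w => (ω (rep (f.E.N j.2 w))).1 ≠ (ω (rep w)).1 ∧
        cnd (some true) (ω (rep (f.E.N j.2 w))).2)).card : ℝ),
      fun j => -(pq P.MW (some true) / 2 * (T j).card) + P.nz / P.X, ?_, ?_, ?_⟩
    · refine TKc_cnt _ _ (fun j => j.2) (fun _ => univ) (fun _ _ => mem_univ _) ?_ (fun u => ?_)
      · rintro ⟨u, a⟩ _ ⟨u', a'⟩ _ h1 h2
        exact Prod.ext h1 h2
      · rw [card_univ, h.H.ed.col]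
    · rintro ⟨i, a⟩ -
      exact (h.be hTal i (T (i, a)) (fun w => w) (fun w => f.E.N a w) (some true)
        (h.rowN (hTK (i, a))) (fun _ _ _ _ e => e)
        (fun w hw => ball_mono (by norm_num) (h.clu (hTK (i, a) w hw)))
        (fun w _ w' _ e => h.injN a e)
        (fun w hw => ball_mono (n := 3) (by norm_num) (ball_trans (n := 2) (m := 1)
          (h.clu (hTK (i, a) w hw)) (adj_mem_ball (h.adj (mem_filter.1 hw).2.2.1.1))))
        (fun w hw => (h.b1 w a (mem_filter.1 hw).2.2.1).2.symm)).2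
    · intro ω hω i b
      have h1 : -(((T (i, b)).filter (fun w => (ω (rep (f.E.N b w))).1 ≠ (ω (rep w)).1 ∧
        cnd (some true) (ω (rep (f.E.N b w))).2)).card : ℝ) ≤
        -(1 / (P.MW : ℝ) / 2 * (T (i, b)).card) + P.nz / P.X := hω (i, b) (mem_univ _)
      have h2 : ((T (i, b)).filter (fun w => (ω (rep (f.E.N b w))).1 ≠ (ω (rep w)).1 ∧
          cnd (some true) (ω (rep (f.E.N b w))).2)).card ≤
          (univ.filter (fun u => u ∈ f.Rg P i ∧ (tdT P f rep ω).cr u b ∧ f.E.N b u ∈ f.Rg P i ∧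
            (tdT P f rep ω).W (f.E.N b u))).card := by
        refine card_le_card fun w hw => ?_
        obtain ⟨c1, c2, c3⟩ := mem_filter.1 hw
        obtain ⟨-, c4, c5, c6⟩ := mem_filter.1 c1
        exact mem_filter.2 ⟨mem_univ _, c4, ⟨c5, c2⟩, c6, (TKc_cT _).1 c3⟩
      have h3 : (((T (i, b)).filter (fun w => (ω (rep (f.E.N b w))).1 ≠ (ω (rep w)).1 ∧
          cnd (some true) (ω (rep (f.E.N b w))).2)).card : ℝ) ≤
          ((univ.filter (fun u => u ∈ f.Rg P i ∧ (tdT P f rep ω).cr u b ∧ f.E.N b u ∈ f.Rg P i ∧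
            (tdT P f rep ω).W (f.E.N b u))).card : ℝ) := by exact_mod_cast h2
      have h4 := h.nzX
      have e : ((univ.filter (fun u => u ∈ f.Rg P i ∧ f.gc u b ∧ f.E.N b u ∈ f.Rg P i)).card : ℝ) /
        (2 * P.MW) = 1 / (P.MW : ℝ) / 2 * (T (i, b)).card := by
        show ((T (i, b)).card : ℝ) / (2 * P.MW) = _
        field_simp
      rw [e]
      linarith
  -- second half
  have A2 : Impl f.G P.Lam ((P.D + 1) * (P.D + 1)) (fun ω : V → Bool × Fin P.MW => ∀ i b b', b ≠ b' →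
      ((univ.filter (fun u => u ∈ f.Rg P i ∧ (tdT P f rep ω).cr u b ∧ (tdT P f rep ω).cr u b' ∧
        (tdT P f rep ω).W (f.E.N b u) ∧ (tdT P f rep ω).W (f.E.N b' u))).card : ℝ) ≤
      ((f.Rg P i).card : ℝ) / (4 * (P.MW : ℝ) ^ 2) + P.nz) := by
    let T : V × κ × κ → Finset V := fun j => univ.filter (fun u => u ∈ f.Rg P j.1 ∧ f.gc u j.2.1 ∧
      f.gc u j.2.2)
    have hTK : ∀ j, ∀ w ∈ T j, f.K w = some j.1 := fun j w hw =>
      (mem_filter.1 (mem_filter.1 hw).2.1).2.1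
    refine ⟨V × κ × κ, univ.filter (fun j => j.2.1 ≠ j.2.2), fun j => j.1,
      fun j ω => (((T j).filter (fun w => (ω (rep (f.E.N j.2.1 w))).1 ≠ (ω (rep w)).1 ∧
        (ω (rep (f.E.N j.2.2 w))).1 ≠ (ω (rep w)).1 ∧
        cnd (some true) (ω (rep (f.E.N j.2.1 w))).2 ∧
        cnd (some true) (ω (rep (f.E.N j.2.2 w))).2)).card : ℝ),
      fun j => pq P.MW (some true) ^ 2 / 4 * (T j).card + P.nz / P.X, ?_, ?_, ?_⟩
    · refine TKc_cnt _ _ (fun j => j.2) (fun _ => univ) (fun _ _ => mem_univ _) ?_ (fun u => ?_)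
      · rintro ⟨u, a⟩ _ ⟨u', a'⟩ _ h1 h2
        exact Prod.ext h1 h2
      · rw [card_univ, Fintype.card_prod, h.H.ed.col]
    · rintro ⟨i, b, b'⟩ hj
      have hbb : b ≠ b' := (mem_filter.1 hj).2
      have hball : ∀ a : κ, ∀ w ∈ T (i, b, b'), f.gc w a → f.E.N a w ∈ ball f.G 7 i := fun a w hw hg =>
        ball_mono (n := 3) (by norm_num) (ball_trans (n := 2) (m := 1)
          (h.clu (hTK (i, b, b') w hw)) (adj_mem_ball (h.adj hg.1)))
      refine h.de hTal i (T (i, b, b')) (fun w => w) (fun w => f.E.N b w) (fun w => f.E.N b' w)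
        (some true) (h.rowN (hTK (i, b, b'))) (fun _ _ _ _ e => e)
        (fun w hw => ball_mono (by norm_num) (h.clu (hTK (i, b, b') w hw)))
        (fun w _ w' _ e => h.injN b e) (fun w hw => hball b w hw (mem_filter.1 hw).2.2.1)
        (fun w hw => (h.b1 w b (mem_filter.1 hw).2.2.1).2.symm)
        (fun w _ w' _ e => h.injN b' e) (fun w hw => hball b' w hw (mem_filter.1 hw).2.2.2)
        (fun w hw => (h.b1 w b' (mem_filter.1 hw).2.2.2).2.symm) ?_
      intro w hw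
      obtain ⟨-, -, g1, g2⟩ := mem_filter.1 hw
      rw [(h.b1 w b g1).1, (h.b1 w b' g2).1]
      exact fun e => hbb (h.injC g1.1 e)
    · intro ω hω i b b' hbb
      have h1 : (((T (i, b, b')).filter (fun w => (ω (rep (f.E.N b w))).1 ≠ (ω (rep w)).1 ∧
        (ω (rep (f.E.N b' w))).1 ≠ (ω (rep w)).1 ∧
        cnd (some true) (ω (rep (f.E.N b w))).2 ∧
        cnd (some true) (ω (rep (f.E.N b' w))).2)).card : ℝ) ≤
        (1 / (P.MW : ℝ)) ^ 2 / 4 * (T (i, b, b')).card + P.nz / P.X :=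
        hω (i, b, b') (mem_filter.2 ⟨mem_univ _, hbb⟩)
      have h2 : (univ.filter (fun u => u ∈ f.Rg P i ∧ (tdT P f rep ω).cr u b ∧
          (tdT P f rep ω).cr u b' ∧
          (tdT P f rep ω).W (f.E.N b u) ∧ (tdT P f rep ω).W (f.E.N b' u))).card ≤
          ((T (i, b, b')).filter (fun w => (ω (rep (f.E.N b w))).1 ≠ (ω (rep w)).1 ∧
            (ω (rep (f.E.N b' w))).1 ≠ (ω (rep w)).1 ∧
            cnd (some true) (ω (rep (f.E.N b w))).2 ∧
            cnd (some true) (ω (rep (f.E.N b' w))).2)).card := by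
        refine card_le_card fun w hw => ?_
        obtain ⟨-, c1, c2, c3, c4, c5⟩ := mem_filter.1 hw
        exact mem_filter.2 ⟨mem_filter.2 ⟨mem_univ _, c1, c2.1, c3.1⟩, c2.2, c3.2, (TKc_cT _).2 c4,
          (TKc_cT _).2 c5⟩
      have h3 : ((univ.filter (fun u => u ∈ f.Rg P i ∧ (tdT P f rep ω).cr u b ∧
          (tdT P f rep ω).cr u b' ∧
          (tdT P f rep ω).W (f.E.N b u) ∧ (tdT P f rep ω).W (f.E.N b' u))).card : ℝ) ≤
          (((T (i, b, b')).filter (fun w => (ω (rep (f.E.N b w))).1 ≠ (ω (rep w)).1 ∧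
            (ω (rep (f.E.N b' w))).1 ≠ (ω (rep w)).1 ∧
            cnd (some true) (ω (rep (f.E.N b w))).2 ∧
            cnd (some true) (ω (rep (f.E.N b' w))).2)).card : ℝ) := by exact_mod_cast h2
      have h4 := h.nzX
      have h5 : ((T (i, b, b')).card : ℝ) ≤ (f.Rg P i).card := by
        have : T (i, b, b') ⊆ f.Rg P i := fun w hw => (mem_filter.1 hw).2.1
        exact_mod_cast card_le_card this
      have e : ((f.Rg P i).card : ℝ) / (4 * (P.MW : ℝ) ^ 2) = (1 / (P.MW : ℝ)) ^ 2 / 4 * (f.Rg P i).card := by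
        field_simp
      have h6 := mul_le_mul_of_nonneg_left h5 (by positivity : 0 ≤ (1 / (P.MW : ℝ)) ^ 2 / 4)
      rw [e]
      linarith
  obtain ⟨I1, I2⟩ := hImpA V (Bool × Fin P.MW) f.G P.Lam
  refine I2 _ _ _ _ (I1 _ _ _ _ A1 A2) ?_ ?_
  · calc P.D + 1 + (P.D + 1) * (P.D + 1) ≤ (P.D + 2) ^ 2 := by nlinarith
      _ ≤ (P.D + 2) ^ 10 := Nat.pow_le_pow_right (by omega) (by norm_num)
  · intro ω hω
    exact hω

end Pool.TCV
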