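import Pool.Agent.Helper3.TCV.TKc

/-!
# T10: (K8) (helper25)
-/

set_option autoImplicit false

namespace Pool.TCV

open Pool.TC Pool.TCM Pool.TCS Pool.TN Finset
open scoped Classical

section tk8
variable {V κ : Type} [Fintype V] [Fintype κ] {P : Par} {f : Fd V κ} {rep : V → V}

/-- `nz / X ≤ D / 1000` -/
theorem TK8_nz (h : TKc P f rep) : P.nz / P.X ≤ P.D / 10 ^ 6 := by
  have h1 := h.nzM
  have h2 := h.MW6
  have h3 : 0 ≤ P.nz / P.X := by
    have := h.L.nz1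
    have := h.X0
    positivity
  have h4 : 10 ^ 6 * (P.nz / P.X) ≤ 1000 * (P.MW : ℝ) * (P.nz / P.X) :=
    mul_le_mul_of_nonneg_right (by linarith) h3
  rw [le_div_iff₀ (by norm_num)]
  linarith

/-- (K8), first half -/
theorem TK8_a (h : TKc P f rep) (hTal : St_Tal) :
    Impl f.G P.Lam 4 (fun ω : V → Bool × Fin P.MW => ∀ i x, f.K x = some i → f.pr x ≠ x →
      24 * P.D ≤ 100 *
      (univ.filter (fun a => a ∉ f.Q ∧ a ∉ f.mF i ∧ a ∉ f.Pb P i ∧ (tdT P f rep ω).cr x a ∧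
        (tdT P f rep ω).cr (f.pr x) a ∧ f.E.N a x ∈ f.Rg P i ∧ ¬ (tdT P f rep ω).W (f.E.N a x) ∧
        f.E.N a (f.pr x) ∈ f.Rg P i ∧ ¬ (tdT P f rep ω).W (f.E.N a (f.pr x)))).card) := by
  have hMW : (0 : ℝ) < P.MW := lt_of_lt_of_le (by norm_num) h.MW6
  let T : V × V × Bool × Bool → Finset κ := fun j => ((univ.filter fun a => a ∉ f.Q ∧ a ∉ f.mF j.1 ∧
    a ∉ f.Pb P j.1).filter fun a => f.gc j.2.1 a ∧ f.E.N a j.2.1 ∈ f.Rg P j.1).filter fun a =>
      f.gc (f.pr j.2.1) a ∧ f.E.N a (f.pr j.2.1) ∈ f.Rg P j.1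
  refine ⟨V × V × Bool × Bool, univ.filter (fun j => f.K j.2.1 = some j.1 ∧ f.pr j.2.1 ≠ j.2.1),
    fun j => j.2.1,
    fun j ω => -(((T j).filter (fun a => (ω (rep (f.E.N a j.2.1))).1 = j.2.2.1 ∧
      (ω (rep (f.E.N a (f.pr j.2.1)))).1 = j.2.2.2 ∧
      cnd (some false) (ω (rep (f.E.N a j.2.1))).2 ∧
      cnd (some false) (ω (rep (f.E.N a (f.pr j.2.1)))).2)).card : ℝ),
    fun j => -(pq P.MW (some false) ^ 2 / 4 * (T j).card) + P.nz / P.X, ?_, ?_, ?_⟩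
  · refine TKc_cnt _ _ (fun j => j.2.2) (fun _ => univ) (fun _ _ => mem_univ _) ?_ (fun u => ?_)
    · rintro ⟨i, w, b⟩ hj ⟨i', w', b'⟩ hj' h1 h2
      have c1 : f.K w = some i := (mem_filter.1 hj).2.1
      have c2 : f.K w' = some i' := (mem_filter.1 hj').2.1
      have h1' : w = w' := h1
      have h2' : b = b' := h2
      subst h1' h2'
      rw [c1] at c2
      have := Option.some.inj c2
      subst this
      rfl
    · rw [card_univ]
      simp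
  · rintro ⟨i, x, b, b'⟩ hj
    obtain ⟨-, c1, c2⟩ := mem_filter.1 hj
    have c1' : f.K x = some i := c1
    obtain ⟨-, c3, -⟩ := h.H.gr.padj x c2
    have c4 : f.K (f.pr x) = some i := c3.trans c1
    have c5 : f.pr x ∈ ball f.G (2 + 2) x := ball_trans (ball_symm (h.clu c1')) (h.clu c4)
    exact (h.ga hTal x (T (i, x, b, b')) (fun a => f.E.N a x) (fun a => f.E.N a (f.pr x))
      (some false) (h.colN _)
      (fun a ha a' _ e => h.injC (mem_filter.1 (mem_filter.1 (mem_coe.1 ha)).1).2.1.1 e)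
      (fun a ha => ball_mono (n := 1) (by norm_num)
        (adj_mem_ball (h.adj (mem_filter.1 (mem_filter.1 ha).1).2.1.1)))
      (fun a ha a' _ e => h.injC (mem_filter.1 (mem_coe.1 ha)).2.1.1 e)
      (fun a ha => ball_mono (n := 2 + 2 + 1) (by norm_num) (ball_trans c5
        (adj_mem_ball (h.adj (mem_filter.1 ha).2.1.1))))
      (fun a ha => by
        rw [(h.b1 x a (mem_filter.1 (mem_filter.1 ha).1).2.1).1,
          (h.b1 (f.pr x) a (mem_filter.1 ha).2.1).1]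
        exact fun e => c2 (h.injN a e).symm) b b').2
  · intro ω hω i x hK hp
    obtain ⟨-, c3, -⟩ := h.H.gr.padj x hp
    have hK' : f.K (f.pr x) = some i := c3.trans hK
    obtain ⟨Y, hY⟩ : ∃ Y, Y = T (i, x, !(tdT P f rep ω).tau x, !(tdT P f rep ω).tau (f.pr x)) :=
      ⟨_, rfl⟩
    obtain ⟨Z, hZ⟩ : ∃ Z, Z = (univ.filter (fun a => a ∉ f.Q ∧ a ∉ f.mF i ∧ a ∉ f.Pb P i ∧
        (tdT P f rep ω).cr x a ∧
        (tdT P f rep ω).cr (f.pr x) a ∧ f.E.N a x ∈ f.Rg P i ∧ ¬ (tdT P f rep ω).W (f.E.N a x) ∧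
        f.E.N a (f.pr x) ∈ f.Rg P i ∧ ¬ (tdT P f rep ω).W (f.E.N a (f.pr x)))) := ⟨_, rfl⟩
    rw [← hZ]
    have h1 : -((Y.filter (fun a => (ω (rep (f.E.N a x))).1 = (!(tdT P f rep ω).tau x) ∧
      (ω (rep (f.E.N a (f.pr x)))).1 = (!(tdT P f rep ω).tau (f.pr x)) ∧
      cnd (some false) (ω (rep (f.E.N a x))).2 ∧
      cnd (some false) (ω (rep (f.E.N a (f.pr x)))).2)).card : ℝ) ≤
      -((1 - 1 / (P.MW : ℝ)) ^ 2 / 4 * Y.card) + P.nz / P.X := by
      rw [hY]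
      exact hω (i, x, !(tdT P f rep ω).tau x, !(tdT P f rep ω).tau (f.pr x))
        (mem_filter.2 ⟨mem_univ _, hK, hp⟩)
    have h2 : (Y.filter (fun a => (ω (rep (f.E.N a x))).1 = (!(tdT P f rep ω).tau x) ∧
      (ω (rep (f.E.N a (f.pr x)))).1 = (!(tdT P f rep ω).tau (f.pr x)) ∧
      cnd (some false) (ω (rep (f.E.N a x))).2 ∧
      cnd (some false) (ω (rep (f.E.N a (f.pr x)))).2)).card ≤ Z.card := by
      rw [hY, hZ]
      refine card_le_card fun a ha => ?_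
      obtain ⟨c1, c2, c3, c4, c5⟩ := mem_filter.1 ha
      obtain ⟨d1, d2, d3⟩ := mem_filter.1 c1
      obtain ⟨e1, e2, e3⟩ := mem_filter.1 d1
      obtain ⟨-, e4, e5, e6⟩ := mem_filter.1 e1
      refine mem_filter.2 ⟨mem_univ _, e4, e5, e6, ⟨e2, ?_⟩, ⟨d2, ?_⟩, e3, (TKc_cF _).1 c4, d3,
        (TKc_cF _).1 c5⟩
      · show (ω (rep (f.E.N a x))).1 ≠ (tdT P f rep ω).tau x
        rw [c2]
        exact Bool.not_ne_self _
      · show (ω (rep (f.E.N a (f.pr x)))).1 ≠ (tdT P f rep ω).tau (f.pr x)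
        rw [c3]
        exact Bool.not_ne_self _
    have h3 : ((Y.filter (fun a => (ω (rep (f.E.N a x))).1 = (!(tdT P f rep ω).tau x) ∧
      (ω (rep (f.E.N a (f.pr x)))).1 = (!(tdT P f rep ω).tau (f.pr x)) ∧
      cnd (some false) (ω (rep (f.E.N a x))).2 ∧
      cnd (some false) (ω (rep (f.E.N a (f.pr x)))).2)).card : ℝ) ≤ (Z.card : ℝ) := by
      exact_mod_cast h2
    have h4 := h.out i
    have h5 := h.cols hK (univ.filter fun a => a ∉ f.Q ∧ a ∉ f.mF i ∧ a ∉ f.Pb P i)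
    have h6 := h.cols hK' ((univ.filter fun a => a ∉ f.Q ∧ a ∉ f.mF i ∧ a ∉ f.Pb P i).filter
      fun a => f.gc x a ∧ f.E.N a x ∈ f.Rg P i)
    have h6' : ((((univ.filter fun a => a ∉ f.Q ∧ a ∉ f.mF i ∧ a ∉ f.Pb P i).filter
      fun a => f.gc x a ∧ f.E.N a x ∈ f.Rg P i).filter fun a =>
        f.gc (f.pr x) a ∧ f.E.N a (f.pr x) ∈ f.Rg P i).card : ℝ) = (Y.card : ℝ) := by
      rw [hY]
    rw [h6'] at h6
    have h7 : 99 * (f.oo x : ℝ) ≤ P.D := by
      exact_mod_cast h.H.gr.d4 x (by rw [hK]; exact Option.some_ne_none i)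
    have h7' : 99 * (f.oo (f.pr x) : ℝ) ≤ P.D := by
      exact_mod_cast h.H.gr.d4 (f.pr x) (by rw [hK']; exact Option.some_ne_none i)
    have h8 := h.spi i
    have h9 := h.small
    have h10 := h.eta6
    have hD := h.D1
    have h11 : 978 / 1000 * (P.D : ℝ) ≤ Y.card := by linarith
    have h12 := TK8_nz h
    have h13 : 1 / (P.MW : ℝ) ≤ 1 / 10 ^ 6 :=
      one_div_le_one_div_of_le (by norm_num) h.MW6
    have h14 : 0 ≤ 1 / (P.MW : ℝ) := by positivity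
    have h15 : 999 / 1000 ≤ (1 - 1 / (P.MW : ℝ)) ^ 2 := by nlinarith
    have h16 : 999 / 1000 * (Y.card : ℝ) ≤ (1 - 1 / (P.MW : ℝ)) ^ 2 * Y.card :=
      mul_le_mul_of_nonneg_right h15 (Nat.cast_nonneg _)
    have h17 : (24 * P.D : ℝ) ≤ 100 * (Z.card : ℝ) := by linarith
    exact_mod_cast h17

/-- (K8), second half -/
theorem TK8_b (h : TKc P f rep) (hTal : St_Tal) :
    Impl f.G P.Lam 2 (fun ω : V → Bool × Fin P.MW => ∀ i x, f.K x = some i →
      48 * P.D ≤ 100 *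
      (univ.filter (fun a => a ∉ f.Q ∧ a ∉ f.mF i ∧ a ∉ f.Pb P i ∧ (tdT P f rep ω).cr x a ∧
        f.E.N a x ∈ f.Rg P i ∧ ¬ (tdT P f rep ω).W (f.E.N a x))).card) := by
  have hMW : (0 : ℝ) < P.MW := lt_of_lt_of_le (by norm_num) h.MW6
  let T : V × V × Bool → Finset κ := fun j => (univ.filter fun a => a ∉ f.Q ∧ a ∉ f.mF j.1 ∧
    a ∉ f.Pb P j.1).filter fun a => f.gc j.2.1 a ∧ f.E.N a j.2.1 ∈ f.Rg P j.1
  refine ⟨V × V × Bool, univ.filter (fun j => f.K j.2.1 = some j.1), fun j => j.2.1,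
    fun j ω => -(((T j).filter (fun a => (ω (rep (f.E.N a j.2.1))).1 = j.2.2 ∧
      cnd (some false) (ω (rep (f.E.N a j.2.1))).2)).card : ℝ),
    fun j => -(pq P.MW (some false) / 2 * (T j).card) + P.nz / P.X, ?_, ?_, ?_⟩
  · refine TKc_cnt _ _ (fun j => j.2.2) (fun _ => univ) (fun _ _ => mem_univ _) ?_ (fun u => ?_)
    · rintro ⟨i, w, b⟩ hj ⟨i', w', b'⟩ hj' h1 h2
      have c1 : f.K w = some i := (mem_filter.1 hj).2
      have c2 : f.K w' = some i' := (mem_filter.1 hj').2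
      have h1' : w = w' := h1
      have h2' : b = b' := h2
      subst h1' h2'
      rw [c1] at c2
      have := Option.some.inj c2
      subst this
      rfl
    · rw [card_univ]
      simp
  · rintro ⟨i, w, b⟩ hj
    exact (h.al hTal w (T (i, w, b)) (fun a => f.E.N a w) (some false) (h.colN _)
      (fun a ha a' _ e => h.injC (mem_filter.1 (mem_coe.1 ha)).2.1.1 e)
      (fun a ha => ball_mono (n := 1) (by norm_num)
        (adj_mem_ball (h.adj (mem_filter.1 ha).2.1.1))) b).2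
  · intro ω hω i u hK
    obtain ⟨Y, hY⟩ : ∃ Y, Y = T (i, u, !(tdT P f rep ω).tau u) := ⟨_, rfl⟩
    obtain ⟨Z, hZ⟩ : ∃ Z, Z = (univ.filter (fun a => a ∉ f.Q ∧ a ∉ f.mF i ∧ a ∉ f.Pb P i ∧
        (tdT P f rep ω).cr u a ∧ f.E.N a u ∈ f.Rg P i ∧ ¬ (tdT P f rep ω).W (f.E.N a u))) :=
      ⟨_, rfl⟩
    rw [← hZ]
    have h1 : -((Y.filter (fun a => (ω (rep (f.E.N a u))).1 =
        (!(tdT P f rep ω).tau u) ∧ cnd (some false) (ω (rep (f.E.N a u))).2)).card : ℝ) ≤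
        -((1 - 1 / (P.MW : ℝ)) / 2 * Y.card) + P.nz / P.X := by
      rw [hY]
      exact hω (i, u, !(tdT P f rep ω).tau u) (mem_filter.2 ⟨mem_univ _, hK⟩)
    have h2 : (Y.filter (fun a => (ω (rep (f.E.N a u))).1 =
        (!(tdT P f rep ω).tau u) ∧ cnd (some false) (ω (rep (f.E.N a u))).2)).card ≤ Z.card := by
      rw [hY, hZ]
      refine card_le_card fun a ha => ?_
      obtain ⟨c1, c2, c3⟩ := mem_filter.1 ha
      obtain ⟨c4, c5, c6⟩ := mem_filter.1 c1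
      obtain ⟨-, c7, c8, c9⟩ := mem_filter.1 c4
      refine mem_filter.2 ⟨mem_univ _, c7, c8, c9, ⟨c5, ?_⟩, c6, (TKc_cF _).1 c3⟩
      show (ω (rep (f.E.N a u))).1 ≠ (tdT P f rep ω).tau u
      rw [c2]
      exact Bool.not_ne_self _
    have h3 : ((Y.filter (fun a => (ω (rep (f.E.N a u))).1 =
        (!(tdT P f rep ω).tau u) ∧ cnd (some false) (ω (rep (f.E.N a u))).2)).card : ℝ) ≤
        (Z.card : ℝ) := by
      exact_mod_cast h2
    have h4 := h.out i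
    have h5 := h.cols hK (univ.filter fun a => a ∉ f.Q ∧ a ∉ f.mF i ∧ a ∉ f.Pb P i)
    have h6 : (((univ.filter fun a => a ∉ f.Q ∧ a ∉ f.mF i ∧ a ∉ f.Pb P i).filter
      fun a => f.gc u a ∧ f.E.N a u ∈ f.Rg P i).card : ℝ) = (Y.card : ℝ) := by
      rw [hY]
    rw [h6] at h5
    have h7 : 99 * (f.oo u : ℝ) ≤ P.D := by
      exact_mod_cast h.H.gr.d4 u (by rw [hK]; exact Option.some_ne_none i)
    have h8 := h.spi i
    have h9 := h.small
    have h10 := h.eta6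
    have hD := h.D1
    have h11 : 988 / 1000 * (P.D : ℝ) ≤ Y.card := by linarith
    have h12 := TK8_nz h
    have h13 : 1 / (P.MW : ℝ) ≤ 1 / 10 ^ 6 :=
      one_div_le_one_div_of_le (by norm_num) h.MW6
    have h14 : 999 / 1000 * (Y.card : ℝ) ≤ (1 - 1 / (P.MW : ℝ)) * Y.card :=
      mul_le_mul_of_nonneg_right (by linarith) (Nat.cast_nonneg _)
    have h17 : (48 * P.D : ℝ) ≤ 100 * (Z.card : ℝ) := by linarith
    exact_mod_cast h17

end tk8

theorem thm_TK8 (hNumL : St_NumL) (hImpA : St_ImpA) (hTal : St_Tal) (hTb : St_Tb) : St_TK8 := by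
  intro P V κ _ _ f rep H R
  have h := TKc_mk hNumL hTb H R
  obtain ⟨I1, I2⟩ := hImpA V (Bool × Fin P.MW) f.G P.Lam
  refine I2 _ _ _ _ (I1 _ _ _ _ (TK8_a h hTal) (TK8_b h hTal)) (TKc_N2 _ _ (by norm_num)) ?_
  intro ω hω
  exact ⟨hω.1, fun i x hK _ => hω.2 i x hK⟩

end Pool.TCV
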