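import Pool.Agent.Helper3.TCV.StB
import Pool.Agent.Helper3.TCM.Ball

/-!
# [TK9] The cells of the blocks
-/

set_option autoImplicit false

namespace Pool.TCV

open Pool.TC Pool.TCM Pool.TCS Pool.TN Finset
open scoped Classical

section

variable {V κ : Type} [Fintype V] [Fintype κ]

/-- the good cells -/
private noncomputable def TK9_G (P : Par) (f : Fd V κ) (i : V) (a : κ) : Finset V :=
  (f.W0 P i a).filter (fun w => w ∉ f.FB i a ∧ f.gc w a)

/-- the fixed cells -/
private noncomputable def TK9_F (P : Par) (f : Fd V κ) (i : V) (a : κ) : Finset V :=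
  (f.W0 P i a).filter (fun w => w ∉ f.FB i a ∧ f.fx w a)

/-- minus the indicator of a crossing cell -/
private noncomputable def TK9_g {M : ℕ} (f : Fd V κ) (rep : V → V) (c : (_ : κ) × V)
    (ω : V → Bool × Fin M) : ℝ :=
  -(if (ω (rep (f.E.N c.1 c.2))).1 ≠ (ω (rep c.2)).1 then (1 : ℝ) else 0)

/-- numerics -/
private theorem TK9_num (x p D w L : ℝ) (hx : 10 ^ 20 ≤ x) (hp0 : 0 ≤ p) (hp : x ^ 4000 * p ≤ 1)
    (hL : L = x ^ 3) (hD : x ^ 4 ≤ D) (hw : D ≤ 5 * w) :
    Real.sqrt (2 * (6 * (p * D) * w + 1) * L) ≤ w / 1000 := by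
  have hx1 : (1 : ℝ) ≤ x := le_trans (by norm_num) hx
  have hx0 : 0 < x := by linarith
  have hx3 : 0 < x ^ 3 := by positivity
  have hx4 : x ^ 3 * 10 ^ 20 ≤ x ^ 4 := by
    rw [pow_succ]
    exact mul_le_mul_of_nonneg_left hx hx3.le
  have hx31 : (1 : ℝ) ≤ x ^ 3 := one_le_pow₀ hx1
  have hD0 : 0 < D := by
    have : 0 < x ^ 4 := by positivity
    linarith
  have hw0 : 0 < w := by linarith
  -- `10 ^ 20 x ^ 3 p ≤ 1`
  have h1 : 10 ^ 20 * (x ^ 3 * p) ≤ 1 := by
    refine le_trans ?_ hp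
    have e1 : x ^ 4 ≤ x ^ 4000 := pow_le_pow_right₀ hx1 (by norm_num)
    have e2 : x ^ 4 * p ≤ x ^ 4000 * p := mul_le_mul_of_nonneg_right e1 hp0
    have e3 : x ^ 3 * 10 ^ 20 * p ≤ x ^ 4 * p := mul_le_mul_of_nonneg_right hx4 hp0
    linarith
  rw [Real.sqrt_le_left (by positivity), hL]
  have h2 : x ^ 3 * p * D * w ≤ w ^ 2 / 10 ^ 16 := by
    have hxp : 0 ≤ x ^ 3 * p := by positivity
    have e1 : x ^ 3 * p * D ≤ x ^ 3 * p * (5 * w) := mul_le_mul_of_nonneg_left hw hxp
    have e2 : x ^ 3 * p * (5 * w) ≤ w / 10 ^ 16 := by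
      have e3 : x ^ 3 * p ≤ 1 / 10 ^ 20 := by linarith
      have e4 : x ^ 3 * p * (5 * w) ≤ 1 / 10 ^ 20 * (5 * w) :=
        mul_le_mul_of_nonneg_right e3 (by linarith)
      refine e4.trans ?_
      nlinarith
    have e5 := mul_le_mul_of_nonneg_right (e1.trans e2) hw0.le
    calc x ^ 3 * p * D * w ≤ w / 10 ^ 16 * w := e5
      _ = w ^ 2 / 10 ^ 16 := by ring
  have h3 : x ^ 3 ≤ w ^ 2 / 10 ^ 18 := by
    have e1 : x ^ 3 * 10 ^ 20 ≤ 5 * w := by linarith
    have e2 : (1 : ℝ) ≤ w := by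
      have : (10 : ℝ) ^ 20 ≤ x ^ 3 * 10 ^ 20 := by nlinarith
      linarith
    have e3 : w ≤ w ^ 2 := by nlinarith
    have e4 : x ^ 3 ≤ w / 10 ^ 18 := by
      rw [le_div_iff₀ (by norm_num)]
      linarith
    refine e4.trans ?_
    exact div_le_div_of_nonneg_right e3 (by norm_num)
  have h4 : 2 * (6 * (p * D) * w + 1) * x ^ 3 = 12 * (x ^ 3 * p * D * w) + 2 * x ^ 3 := by ring
  rw [h4]
  have h5 : (w / 1000) ^ 2 = w ^ 2 / 10 ^ 6 := by ring
  rw [h5]
  have h6 : 0 < w ^ 2 := by positivity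
  linarith

omit [Fintype κ] in
private theorem TK9_card (P : Par) (f : Fd V κ) (i : V) (k : ℕ) :
    (((f.Gam i k).sigma (fun a => TK9_G P f i a)).card : ℝ) ≤ f.Wt P i k := by
  have h : ((f.Gam i k).sigma (fun a => TK9_G P f i a)).card ≤ f.Wt P i k := by
    rw [card_sigma]
    unfold Ed.Wt
    exact sum_le_sum fun a _ => card_le_card (filter_subset _ _)
  exact_mod_cast h

private theorem TK9_tst (hNumL : St_NumL) (hCnt : St_CntQ) (hPrT : St_PrT) (hTb : St_Tb)
    (P : Par) (f : Fd V κ) (rep : V → V) (h : Hy4 P f) (hR : Rep f.z rep) (i : V) (k : ℕ)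
    (hk : k < f.nbl i) :
    Tst f.G P.Lam i (fun ω : V → Bool × Fin P.MW =>
      ∑ c ∈ (f.Gam i k).sigma (fun a => TK9_G P f i a), TK9_g f rep c ω)
      (-(1 / 2 * (((f.Gam i k).sigma (fun a => TK9_G P f i a)).card : ℝ)) +
        (f.Wt P i k : ℝ) / 1000) := by
  have hL := hNumL P h.nm
  obtain ⟨b1, -⟩ := hTb P V κ f rep h hR
  obtain ⟨-, pr2, -⟩ := hPrT V P.MW none hL.MW0
  have hKi : f.K i = some i := by
    by_contra hc
    rw [h.ed.gm6 i hc] at hk
    omega
  have hD0 : (0 : ℝ) ≤ P.D := Nat.cast_nonneg _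
  have hpm := hL.pm0
  have hWt : (P.D : ℝ) ≤ 5 * f.Wt P i k := by
    have e1 := h.ed.gm4 i k hk
    have e2 := h.gr.n1 i hKi
    have e3 : P.D ≤ 5 * f.Wt P i k := by omega
    exact_mod_cast e3
  have hcell : ∀ c ∈ (f.Gam i k).sigma (fun a => TK9_G P f i a), c.1 ∈ f.Gam i k ∧
      f.K c.2 = some i ∧ f.gc c.2 c.1 ∧ f.K (f.E.N c.1 c.2) = some i := by
    intro c hc
    rw [mem_sigma] at hc
    obtain ⟨hc1, hc2⟩ := hc
    unfold TK9_G at hc2
    rw [mem_filter] at hc2
    obtain ⟨hc3, -, hc4⟩ := hc2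
    unfold Ed.W0 at hc3
    rw [mem_filter] at hc3
    obtain ⟨-, hc5, hc6⟩ := hc3
    unfold Gd.Rg at hc5
    rw [mem_filter] at hc5
    refine ⟨hc1, hc5.2.1, hc4, ?_⟩
    rcases hc6 with hc6 | hc6
    · exact absurd hc6 hc4.1
    · exact hc6.2
  have hball : ∀ v, f.K v = some i → rep v ∈ ball f.G 8 i := by
    intro v hv
    have h1 := h.gr.loc i v hv
    rcases hR.a v with h2 | h2
    · rw [h2]
      exact ball_mono (by norm_num) h1
    · rw [h2]
      by_cases h3 : f.z v = v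
      · rw [h3]
        exact ball_mono (by norm_num) h1
      · exact ball_mono (by norm_num) (ball_trans h1 (adj_mem_ball (h.ed.zadj v h3)))
  have hcard := TK9_card P f i k
  have hgam : ((f.Gam i k).card : ℝ) ≤ P.pmax * P.D := by
    have e1 : ((f.Gam i k).card : ℝ) ≤ ((f.Pb P i).card : ℝ) := by
      exact_mod_cast card_le_card (h.ed.gm1 i k hk)
    exact e1.trans (h.ed.pb i)
  refine hCnt V (Bool × Fin P.MW) ((_ : κ) × V) f.G _ (fun c => TK9_g f rep c) (fun _ => 1)
    (fun c => {rep c.2, rep (f.E.N c.1 c.2)}) (3 * (P.pmax * P.D))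
    (6 * (P.pmax * P.D) * f.Wt P i k + 1) P.Lam _ i ?_ ?_ ?_ ?_ ?_ ?_ ?_ ?_
  · exact fun _ _ => zero_le_one
  · intro c _ ω ω'
    unfold TK9_g
    split_ifs <;> norm_num
  · intro c _ ω ω' hω
    unfold TK9_g
    rw [hω (rep c.2) (mem_insert_self _ _),
      hω (rep (f.E.N c.1 c.2)) (mem_insert_of_mem (mem_singleton_self _))]
  · intro c hc t ht
    obtain ⟨-, h1, -, h2⟩ := hcell c hc
    rw [mem_insert, mem_singleton] at ht
    rcases ht with ht | ht
    · rw [ht]
      exact hball _ h1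
    · rw [ht]
      exact hball _ h2
  · intro t
    rw [sum_const, nsmul_eq_mul, mul_one]
    have hsub : ((f.Gam i k).sigma (fun a => TK9_G P f i a)).filter
        (fun c => t ∈ ({rep c.2, rep (f.E.N c.1 c.2)} : Finset V)) ⊆
        (f.Gam i k).sigma (fun a => ({t, f.z t, f.E.N a t} : Finset V)) := by
      intro c hc
      rw [mem_filter] at hc
      obtain ⟨hc1, hc2⟩ := hc
      obtain ⟨h1, -, h3, -⟩ := hcell c hc1
      rw [mem_sigma]
      refine ⟨h1, ?_⟩
      simp only [mem_insert, mem_singleton] at hc2 ⊢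
      rcases hc2 with h4 | h4
      · rcases hR.a c.2 with h5 | h5
        · left
          rw [h4, h5]
        · right; left
          rw [h4, h5, hR.z2]
      · right; right
        rw [h4, (b1 c.2 c.1 h3).1, f.E.inv]
    have hle : (((f.Gam i k).sigma (fun a => TK9_G P f i a)).filter
        (fun c => t ∈ ({rep c.2, rep (f.E.N c.1 c.2)} : Finset V))).card ≤
        3 * (f.Gam i k).card := by
      refine (card_le_card hsub).trans ?_
      rw [card_sigma]
      refine (sum_le_sum fun a _ => card_le_three).trans ?_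
      rw [sum_const, smul_eq_mul, mul_comm]
    have hle' : ((((f.Gam i k).sigma (fun a => TK9_G P f i a)).filter
        (fun c => t ∈ ({rep c.2, rep (f.E.N c.1 c.2)} : Finset V))).card : ℝ) ≤
        3 * (f.Gam i k).card := by exact_mod_cast hle
    linarith
  · have hs : ∑ c ∈ (f.Gam i k).sigma (fun a => TK9_G P f i a), (1 : ℝ) *
        ((({rep c.2, rep (f.E.N c.1 c.2)} : Finset V)).card : ℝ) ≤ 2 * f.Wt P i k := by
      have e1 : ∑ c ∈ (f.Gam i k).sigma (fun a => TK9_G P f i a), (1 : ℝ) *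
          ((({rep c.2, rep (f.E.N c.1 c.2)} : Finset V)).card : ℝ) ≤
          ∑ c ∈ (f.Gam i k).sigma (fun a => TK9_G P f i a), (2 : ℝ) := by
        refine sum_le_sum fun c _ => ?_
        rw [one_mul]
        exact_mod_cast card_le_two
      refine e1.trans ?_
      rw [sum_const, nsmul_eq_mul]
      linarith
    have e2 : 3 * (P.pmax * P.D) * (∑ c ∈ (f.Gam i k).sigma (fun a => TK9_G P f i a), (1 : ℝ) *
        ((({rep c.2, rep (f.E.N c.1 c.2)} : Finset V)).card : ℝ)) ≤
        3 * (P.pmax * P.D) * (2 * f.Wt P i k) := mul_le_mul_of_nonneg_left hs (by positivity)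
    linarith
  · have : (0 : ℝ) ≤ f.Wt P i k := Nat.cast_nonneg _
    positivity
  · have hmean : ∀ c ∈ (f.Gam i k).sigma (fun a => TK9_G P f i a),
        mean (fun ω : V → Bool × Fin P.MW => TK9_g f rep c ω) = -(1 / 2) := by
      intro c hc
      obtain ⟨-, -, h3, -⟩ := hcell c hc
      have h4 := pr2 (rep c.2) (rep (f.E.N c.1 c.2)) (b1 c.2 c.1 h3).2.symm
      have e1 : (fun ω : V → Bool × Fin P.MW => TK9_g f rep c ω) = fun ω =>
          -(if (ω (rep (f.E.N c.1 c.2))).1 ≠ (ω (rep c.2)).1 ∧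
            cnd none (ω (rep (f.E.N c.1 c.2))).2 then (1 : ℝ) else 0) := by
        funext ω
        unfold TK9_g
        by_cases h5 : (ω (rep (f.E.N c.1 c.2))).1 ≠ (ω (rep c.2)).1
        · rw [if_pos h5, if_pos ⟨h5, Or.inl rfl⟩]
        · rw [if_neg h5, if_neg fun h6 => h5 h6.1]
      rw [e1]
      unfold mean at h4 ⊢
      rw [sum_neg_distrib, neg_div, h4]
      rfl
    have hsum : ∑ c ∈ (f.Gam i k).sigma (fun a => TK9_G P f i a),
        mean (fun ω : V → Bool × Fin P.MW => TK9_g f rep c ω) =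
        -(1 / 2 * (((f.Gam i k).sigma (fun a => TK9_G P f i a)).card : ℝ)) := by
      rw [sum_congr rfl hmean, sum_const, nsmul_eq_mul]
      ring
    rw [hsum]
    have hX4 := hL.XD 4 (by norm_num)
    have h7 := TK9_num P.X P.pmax P.D (f.Wt P i k) P.Lam hL.X1 hpm.le hL.pm1 h.nm.Lam hX4 hWt
    linarith

end

theorem thm_TK9 (hNumL : St_NumL) (hCnt : St_CntQ) (hPrT : St_PrT) (hTb : St_Tb) : St_TK9 := by
  intro P V κ _ _ f rep h hR
  have hcol := h.ed.col
  refine ⟨V × ℕ, ((univ : Finset V) ×ˢ range (P.D + 2)).filter (fun p => p.2 < f.nbl p.1),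
    fun p => p.1, fun p ω => ∑ c ∈ (f.Gam p.1 p.2).sigma (fun a => TK9_G P f p.1 a),
      TK9_g f rep c ω, fun p => -(1 / 2 * (((f.Gam p.1 p.2).sigma
        (fun a => TK9_G P f p.1 a)).card : ℝ)) + (f.Wt P p.1 p.2 : ℝ) / 1000, ?_, ?_, ?_⟩
  · intro u
    have h1 : ((((univ : Finset V) ×ˢ range (P.D + 2)).filter
        (fun p => p.2 < f.nbl p.1)).filter (fun p => p.1 = u)).card ≤
        (range (P.D + 2)).card := by
      refine card_le_card_of_injOn (fun p => p.2) ?_ ?_
      · intro p hp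
        simp only [coe_filter, mem_filter, mem_product, Set.mem_ofPred_eq] at hp
        exact hp.1.1.2
      · intro p hp p' hp' hpp
        simp only [coe_filter, mem_filter, mem_product, Set.mem_ofPred_eq] at hp hp'
        exact Prod.ext (hp.2.trans hp'.2.symm) hpp
    rw [card_range] at h1
    exact h1.trans (Nat.le_self_pow (by norm_num) _)
  · intro p hp
    rw [mem_filter] at hp
    exact TK9_tst hNumL hCnt hPrT hTb P f rep h hR p.1 p.2 hp.2
  · intro ω hω i k hk
    have hk' : k < f.nbl i := hk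
    have hmem : ((i, k) : V × ℕ) ∈ ((univ : Finset V) ×ˢ range (P.D + 2)).filter
        (fun p => p.2 < f.nbl p.1) := by
      rw [mem_filter, mem_product, mem_range]
      refine ⟨⟨mem_univ _, ?_⟩, hk'⟩
      have h1 := h.ed.gm5 i
      have h2 : (f.Pb P i).card ≤ Fintype.card κ := card_le_univ _
      show k < P.D + 2
      omega
    have h1 := hω (i, k) hmem
    dsimp only at h1
    -- the cells
    have h6 := h.ac.f6 i k hk'
    show 49 * f.Wt P i k ≤ 100 * ∑ a ∈ f.Gam i k, ((tdT P f rep ω).W1 P i a).card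
    have hW1 : ∀ a, (((TK9_F P f i a).card : ℝ)) +
        ∑ w ∈ TK9_G P f i a, (if (ω (rep (f.E.N a w))).1 ≠ (ω (rep w)).1 then (1 : ℝ) else 0) ≤
        (((tdT P f rep ω).W1 P i a).card : ℝ) := by
      intro a
      rw [sum_boole]
      have e1 : TK9_F P f i a ∪ (TK9_G P f i a).filter
          (fun w => (ω (rep (f.E.N a w))).1 ≠ (ω (rep w)).1) ⊆ (tdT P f rep ω).W1 P i a := by
        intro w hw
        unfold Td.W1
        rw [mem_filter]
        rw [mem_union] at hw
        rcases hw with hw | hw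
        · unfold TK9_F at hw
          rw [mem_filter] at hw
          exact ⟨hw.1, hw.2.1, Or.inl hw.2.2⟩
        · rw [mem_filter] at hw
          unfold TK9_G at hw
          rw [mem_filter] at hw
          exact ⟨hw.1.1, hw.1.2.1, Or.inr ⟨hw.1.2.2, hw.2⟩⟩
      have e2 : Disjoint (TK9_F P f i a) ((TK9_G P f i a).filter
          (fun w => (ω (rep (f.E.N a w))).1 ≠ (ω (rep w)).1)) := by
        rw [disjoint_left]
        intro w hw hw'
        unfold TK9_F at hw
        rw [mem_filter] at hw hw'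
        unfold TK9_G at hw'
        rw [mem_filter] at hw'
        exact hw'.1.2.2.1 hw.2.2
      have e3 := card_le_card e1
      rw [card_union_of_disjoint e2] at e3
      exact_mod_cast e3
    have hW0 : ∀ a, ((f.W0 P i a).card : ℝ) ≤ (TK9_F P f i a).card + (TK9_G P f i a).card +
        ((f.W0 P i a) ∩ (f.FB i a)).card := by
      intro a
      have e1 : f.W0 P i a ⊆ (TK9_F P f i a ∪ TK9_G P f i a) ∪ ((f.W0 P i a) ∩ (f.FB i a)) := by
        intro w hw
        rw [mem_union, mem_union]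
        by_cases h2 : w ∈ f.FB i a
        · exact Or.inr (mem_inter.2 ⟨hw, h2⟩)
        · left
          have h3 := hw
          unfold Ed.W0 at h3
          rw [mem_filter] at h3
          rcases h3.2.2 with h4 | h4
          · exact Or.inl (mem_filter.2 ⟨hw, h2, h4⟩)
          · exact Or.inr (mem_filter.2 ⟨hw, h2, h4.1⟩)
      have e2 := (card_le_card e1).trans (card_union_le _ _)
      have e3 := card_union_le (TK9_F P f i a) (TK9_G P f i a)
      have e4 : (f.W0 P i a).card ≤ (TK9_F P f i a).card + (TK9_G P f i a).card +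
        ((f.W0 P i a) ∩ (f.FB i a)).card := by omega
      exact_mod_cast e4
    have s1 := sum_le_sum fun a (_ : a ∈ f.Gam i k) => hW1 a
    have s2 := sum_le_sum fun a (_ : a ∈ f.Gam i k) => hW0 a
    rw [sum_add_distrib] at s1
    rw [sum_add_distrib, sum_add_distrib] at s2
    have e1 : ∑ c ∈ (f.Gam i k).sigma (fun a => TK9_G P f i a), TK9_g f rep c ω =
        -∑ a ∈ f.Gam i k, ∑ w ∈ TK9_G P f i a,
          (if (ω (rep (f.E.N a w))).1 ≠ (ω (rep w)).1 then (1 : ℝ) else 0) := by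
      rw [sum_sigma, ← sum_neg_distrib]
      refine sum_congr rfl fun a _ => ?_
      rw [← sum_neg_distrib]
      rfl
    rw [e1, card_sigma] at h1
    push_cast at h1
    have e2 : ((f.Wt P i k : ℕ) : ℝ) = ∑ a ∈ f.Gam i k, ((f.W0 P i a).card : ℝ) := by
      unfold Ed.Wt
      push_cast
      rfl
    have h6' : (100 : ℝ) * ∑ a ∈ f.Gam i k, (((f.W0 P i a) ∩ (f.FB i a)).card : ℝ) ≤
        f.Wt P i k := by
      exact_mod_cast h6
    have hF0 : (0 : ℝ) ≤ ∑ a ∈ f.Gam i k, ((TK9_F P f i a).card : ℝ) :=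
      sum_nonneg fun a _ => Nat.cast_nonneg _
    have hfin : (49 : ℝ) * f.Wt P i k ≤
        100 * ∑ a ∈ f.Gam i k, (((tdT P f rep ω).W1 P i a).card : ℝ) := by
      rw [← e2] at s2
      have hWn : (0 : ℝ) ≤ f.Wt P i k := Nat.cast_nonneg _
      linarith
    exact_mod_cast hfin

end Pool.TCV
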