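import Pool.Agent.Helper3.TCV.StB
import Pool.Agent.Helper3.TCM.Ball

/-!
# T10, section 5: (S1), (S1K) (helper40)
-/

set_option autoImplicit false

namespace Pool.TCV

open Pool.TC Pool.TCM Pool.TCS Pool.TN Finset
open scoped Classical

/-- tests of type alpha at every vertex, both signs -/
theorem TS1_alpha (hTal : St_Tal) {P : Par} {V κ : Type} [Fintype V] [Fintype κ] {f : Fd V κ} {rep : V → V}
    (h : Hy4 P f) (hr : Rep f.z rep) (hN : NumL P) (T : V → Finset κ)
    (hT : ∀ u, ∀ a ∈ T u, f.E.N a u ≠ u) (q : Option Bool) :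
    Impl f.G P.Lam 4 (fun ω : V → Bool × Fin P.MW => ∀ u b,
      pq P.MW q / 2 * (T u).card - Real.sqrt (200 * ((P.D : ℝ) + 1) * P.Lam) ≤
        (((T u).filter (fun a => (ω (rep (f.E.N a u))).1 = b ∧ cnd q (ω (rep (f.E.N a u))).2)).card : ℝ) ∧
      (((T u).filter (fun a => (ω (rep (f.E.N a u))).1 = b ∧ cnd q (ω (rep (f.E.N a u))).2)).card : ℝ) ≤
        pq P.MW q / 2 * (T u).card + Real.sqrt (200 * ((P.D : ℝ) + 1) * P.Lam)) := by
  have hLam : 0 < P.Lam := lt_of_lt_of_le one_pos hN.La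
  have key : ∀ u (b : Bool),
      Tst f.G P.Lam u (fun ω : V → Bool × Fin P.MW => (((T u).filter (fun a =>
        (ω (rep (f.E.N a u))).1 = b ∧ cnd q (ω (rep (f.E.N a u))).2)).card : ℝ))
        (pq P.MW q / 2 * (T u).card + Real.sqrt (200 * ((P.D : ℝ) + 1) * P.Lam)) ∧
      Tst f.G P.Lam u (fun ω : V → Bool × Fin P.MW => -(((T u).filter (fun a =>
        (ω (rep (f.E.N a u))).1 = b ∧ cnd q (ω (rep (f.E.N a u))).2)).card : ℝ))
        (-(pq P.MW q / 2 * (T u).card) + Real.sqrt (200 * ((P.D : ℝ) + 1) * P.Lam)) := by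
    intro u b
    have hcard : (T u).card ≤ 4 * (P.D + 1) := by
      have h1 : (T u).card ≤ Fintype.card κ := card_le_univ _
      rw [h.ed.col] at h1
      omega
    have hinj : Set.InjOn (fun a => f.E.N a u) (T u : Set κ) := fun a ha b _ hab =>
      f.E.uniq a b u hab (hT u a ha)
    have hball : ∀ a ∈ T u, f.E.N a u ∈ ball f.G 7 u := fun a ha =>
      ball_mono (by norm_num) (adj_mem_ball (h.ed.sub a u (hT u a ha)))
    exact (hTal V κ f.G P.MW P.D P.Lam f.z rep u (T u) (fun a => f.E.N a u) (fun a => f.E.N a u)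
      (fun a => f.E.N a u) q hN.MW0 hr h.ed.zadj hLam hcard hinj hball).1 b
  refine ⟨V × Bool × Bool, univ, fun j => j.1,
    fun j ω => if j.2.2 then (((T j.1).filter (fun a =>
        (ω (rep (f.E.N a j.1))).1 = j.2.1 ∧ cnd q (ω (rep (f.E.N a j.1))).2)).card : ℝ)
      else -(((T j.1).filter (fun a =>
        (ω (rep (f.E.N a j.1))).1 = j.2.1 ∧ cnd q (ω (rep (f.E.N a j.1))).2)).card : ℝ),
    fun j => if j.2.2 then pq P.MW q / 2 * (T j.1).card + Real.sqrt (200 * ((P.D : ℝ) + 1) * P.Lam)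
      else -(pq P.MW q / 2 * (T j.1).card) + Real.sqrt (200 * ((P.D : ℝ) + 1) * P.Lam), ?_, ?_, ?_⟩
  · intro u
    have h1 : univ.filter (fun j : V × Bool × Bool => j.1 = u) ⊆
        (univ : Finset (Bool × Bool)).image (fun s => (u, s)) := by
      intro j hj
      rw [mem_filter] at hj
      exact mem_image.2 ⟨j.2, mem_univ _, by rw [← hj.2]⟩
    refine (card_le_card h1).trans (card_image_le.trans ?_)
    simp
  · rintro ⟨u, b, s⟩ -
    cases s
    · exact (key u b).2
    · exact (key u b).1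
  · intro ω hω u b
    have h1 := hω (u, b, true) (mem_univ _)
    have h2 := hω (u, b, false) (mem_univ _)
    simp only [if_true] at h1
    simp only [Bool.false_eq_true, if_false] at h2
    exact ⟨by linarith, h1⟩

theorem TS1_D1 {P : Par} (hN : NumL P) : (1 : ℝ) ≤ P.D := by
  have h := hN.XD 0 (by norm_num)
  rwa [pow_zero] at h

/-- `nz` is large -/
theorem TS1_nz {P : Par} (h : Num10 P) (hN : NumL P) : 4 * (P.X : ℝ) ≤ P.nz ∧ 4 ≤ P.nz ∧ P.nz / P.X ≤ P.nz / 4 := by
  have hX : (10 : ℝ) ^ 20 ≤ P.X := hN.X1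
  have hX4 : (4 : ℝ) ≤ P.X := le_trans (by norm_num) hX
  have hX0 : (0 : ℝ) < P.X := by linarith
  have h1 : 1 ≤ Real.sqrt P.D := by
    rw [Real.one_le_sqrt]
    exact TS1_D1 hN
  have h2 : (P.X : ℝ) ^ 2 ≤ (P.X : ℝ) ^ 10 := pow_le_pow_right₀ (by linarith) (by norm_num)
  have h3 : (P.X : ℝ) ^ 2 ≤ P.nz := by
    rw [h.nz]
    calc (P.X : ℝ) ^ 2 ≤ (P.X : ℝ) ^ 10 * 1 := by rw [mul_one]; exact h2
      _ ≤ (P.X : ℝ) ^ 10 * Real.sqrt P.D := mul_le_mul_of_nonneg_left h1 (by positivity)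
  have h4 : 4 * (P.X : ℝ) ≤ P.nz := le_trans (by nlinarith) h3
  exact ⟨h4, by linarith, div_le_div_of_nonneg_left hN.nz1.le (by norm_num) hX4⟩

theorem thm_TS1 (hNumL : St_NumL) (hImpA : St_ImpA) (hTal : St_Tal) (hTb : St_Tb) : St_TS1 := by
  intro P V κ _ _ f rep h hr
  have hN := hNumL P h.nm
  obtain ⟨t1, t2, t3, -, -, t6, -, -⟩ := hTb P V κ f rep h hr
  obtain ⟨n1, n2, n3⟩ := TS1_nz h.nm hN
  set T1 : V → Finset κ := fun u => univ.filter (fun a => a ∉ f.J0 ∧ f.gc u a) with hT1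
  set T2 : V → Finset κ := fun u => univ.filter (fun a => a ∉ f.J0 ∧ f.gc u a ∧ f.K (f.E.N a u) ≠ none) with hT2
  have h1 := TS1_alpha hTal h hr hN T1 (fun u a ha => ((mem_filter.1 ha).2.2).1) none
  have h2 := TS1_alpha hTal h hr hN T2 (fun u a ha => ((mem_filter.1 ha).2.2.1).1) none
  obtain ⟨i1, i2⟩ := hImpA V (Bool × Fin P.MW) f.G P.Lam
  have h3 := i1 4 4 _ _ h1 h2
  refine i2 (4 + 4) ((P.D + 2) ^ 10) _ _ h3 ?_ ?_
  · calc 4 + 4 ≤ 2 ^ 10 := by norm_num
      _ ≤ (P.D + 2) ^ 10 := Nat.pow_le_pow_left (by omega) 10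
  · rintro ω ⟨g1, g2⟩
    have hpq : pq P.MW none = 1 := rfl
    have hD1 : (Fintype.card κ : ℝ) = (P.D : ℝ) + 1 := by
      rw [h.ed.col]
      push_cast
      ring
    -- the crossing cells
    have hcr : ∀ u a, f.gc u a → ((tdT P f rep ω).cr u a ↔
        ((ω (rep (f.E.N a u))).1 = !(ω (rep u)).1 ∧ cnd none (ω (rep (f.E.N a u))).2)) := by
      intro u a ha
      have e1 : (tdT P f rep ω).cr u a ↔ (f.gc u a ∧ (ω (rep (f.E.N a u))).1 ≠ (ω (rep u)).1) := Iff.rfl
      rw [e1]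
      constructor
      · rintro ⟨-, h5⟩
        exact ⟨by
          cases h6 : (ω (rep (f.E.N a u))).1 <;> cases h7 : (ω (rep u)).1 <;> simp_all, Or.inl rfl⟩
      · rintro ⟨h5, -⟩
        refine ⟨ha, ?_⟩
        rw [h5]
        cases (ω (rep u)).1 <;> simp
    refine ⟨fun u => ?_, fun u hu => ?_⟩
    · have g := (g1 u (!(ω (rep u)).1)).1
      have hsub : (T1 u).filter (fun a => (ω (rep (f.E.N a u))).1 = !(ω (rep u)).1 ∧
          cnd none (ω (rep (f.E.N a u))).2) ⊆ univ.filter (fun a => a ∉ (tdT P f rep ω).J0 ∧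
            (tdT P f rep ω).cr u a) := by
        intro a ha
        obtain ⟨ha1, ha2⟩ := mem_filter.1 ha
        obtain ⟨-, ha3, ha4⟩ := mem_filter.1 ha1
        exact mem_filter.2 ⟨mem_univ _, ha3, (hcr u a ha4).2 ha2⟩
      have hc := card_le_card hsub
      have hc' : (((T1 u).filter (fun a => (ω (rep (f.E.N a u))).1 = !(ω (rep u)).1 ∧
          cnd none (ω (rep (f.E.N a u))).2)).card : ℝ) ≤ ((univ.filter (fun a => a ∉ (tdT P f rep ω).J0 ∧
            (tdT P f rep ω).cr u a)).card : ℝ) := by exact_mod_cast hc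
      -- size of `T1`
      have hun : (univ : Finset κ) ⊆ f.J0 ∪ ((univ.filter (fun a => f.E.N a u = u)) ∪
          ((univ.filter (fun a => f.E.N a u ≠ u ∧ f.z (f.E.N a u) ≠ f.E.N a u)) ∪ T1 u)) := by
        intro a _
        by_cases a1 : a ∈ f.J0
        · exact mem_union_left _ a1
        refine mem_union_right _ ?_
        by_cases a2 : f.E.N a u = u
        · exact mem_union_left _ (mem_filter.2 ⟨mem_univ _, a2⟩)
        refine mem_union_right _ ?_
        by_cases a3 : f.z (f.E.N a u) = f.E.N a u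
        · exact mem_union_right _ (mem_filter.2 ⟨mem_univ _, a1, a2, a3⟩)
        · exact mem_union_left _ (mem_filter.2 ⟨mem_univ _, a2, a3⟩)
      have hs := (card_le_card hun).trans ((card_union_le _ _).trans (Nat.add_le_add_left
        ((card_union_le _ _).trans (Nat.add_le_add_left (card_union_le _ _) _)) _))
      rw [card_univ, h.ed.col] at hs
      have s1 := t2 u
      have s2 := t3 u
      have hs2 : P.D + 1 ≤ f.J0.card + (2 + (2 * P.X + (T1 u).card)) := by omega
      have hs3 : (P.D : ℝ) + 1 ≤ f.J0.card + (2 + (2 * P.X + (T1 u).card)) := by exact_mod_cast hs2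
      rw [hpq] at g
      have hJ : ((tdT P f rep ω).J0.card : ℝ) = f.J0.card := rfl
      rw [hJ]
      linarith
    · have g := (g2 u (!(ω (rep u)).1)).1
      have hsub : (T2 u).filter (fun a => (ω (rep (f.E.N a u))).1 = !(ω (rep u)).1 ∧
          cnd none (ω (rep (f.E.N a u))).2) ⊆ univ.filter (fun a => a ∉ (tdT P f rep ω).J0 ∧
            (tdT P f rep ω).cr u a ∧ (tdT P f rep ω).K ((tdT P f rep ω).E.N a u) ≠ none) := by
        intro a ha
        obtain ⟨ha1, ha2⟩ := mem_filter.1 ha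
        obtain ⟨-, ha3, ha4, ha5⟩ := mem_filter.1 ha1
        exact mem_filter.2 ⟨mem_univ _, ha3, (hcr u a ha4).2 ha2, ha5⟩
      have hc := card_le_card hsub
      have hc' : (((T2 u).filter (fun a => (ω (rep (f.E.N a u))).1 = !(ω (rep u)).1 ∧
          cnd none (ω (rep (f.E.N a u))).2)).card : ℝ) ≤ ((univ.filter (fun a => a ∉ (tdT P f rep ω).J0 ∧
            (tdT P f rep ω).cr u a ∧ (tdT P f rep ω).K ((tdT P f rep ω).E.N a u) ≠ none)).card : ℝ) := by
        exact_mod_cast hc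
      have hun : (nb f.G u).filter (fun v => f.K v ≠ none) ⊆ insert (f.z u) ((f.J0 ∪
          ((univ.filter (fun a => f.E.N a u ≠ u ∧ f.z (f.E.N a u) ≠ f.E.N a u)) ∪ T2 u)).image
            (fun a => f.E.N a u)) := by
        intro v hv
        obtain ⟨hv1, hv2⟩ := mem_filter.1 hv
        have hadj : f.G.Adj u v := mem_nb.1 hv1
        rcases h.ed.cov u v hadj with ⟨a, ha⟩ | hz
        · refine mem_insert_of_mem (mem_image.2 ⟨a, ?_, ha⟩)
          have hne : f.E.N a u ≠ u := by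
            rw [ha]
            exact hadj.ne'
          by_cases a1 : a ∈ f.J0
          · exact mem_union_left _ a1
          refine mem_union_right _ ?_
          by_cases a3 : f.z (f.E.N a u) = f.E.N a u
          · exact mem_union_right _ (mem_filter.2 ⟨mem_univ _, a1, ⟨hne, a3⟩, by rw [ha]; exact hv2⟩)
          · exact mem_union_left _ (mem_filter.2 ⟨mem_univ _, hne, a3⟩)
        · rw [hz]
          exact mem_insert_self _ _
      have hs := (card_le_card hun).trans ((card_insert_le _ _).trans (Nat.add_le_add_right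
        (card_image_le.trans ((card_union_le _ _).trans (Nat.add_le_add_left (card_union_le _ _) _))) 1))
      have s2 := t3 u
      have hs2 : f.dKU u ≤ f.J0.card + (2 * P.X + (T2 u).card) + 1 := by
        unfold Gd.dKU
        omega
      have hs3 : (f.dKU u : ℝ) ≤ f.J0.card + (2 * P.X + (T2 u).card) + 1 := by exact_mod_cast hs2
      rw [hpq] at g
      have hJ : ((tdT P f rep ω).J0.card : ℝ) = f.J0.card := rfl
      have hK : ((tdT P f rep ω).dKU u : ℝ) = f.dKU u := rfl
      rw [hJ, hK]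
      linarith

end Pool.TCV
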