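import Pool.Agent.Helper3.TCV.TS1

/-!
# T10, section 5: (S2) (helper40)
-/

set_option autoImplicit false

namespace Pool.TCV

open Pool.TC Pool.TCM Pool.TCS Pool.TN Finset
open scoped Classical

theorem TS2_one (hNumL : St_NumL) (hTal : St_Tal) (hTb : St_Tb) {P : Par} {V κ : Type} [Fintype V] [Fintype κ]
    {f : Fd V κ} {rep : V → V} (h : Hy4 P f) (hr : Rep f.z rep) (R : V → Prop) :
    Impl f.G P.Lam 4 (fun ω : V → Bool × Fin P.MW =>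
      ∀ v (S : Finset κ), (∀ a ∈ S, a ∉ f.J0 ∧ R (f.E.N a v) ∧
        (tdT P f rep ω).tau (f.E.N a v) ≠ (tdT P f rep ω).tau v) →
      (S.card : ℝ) ≤ 1 / 2 * (f.cj R v : ℝ) + P.nz) := by
  have hN := hNumL P h.nm
  obtain ⟨-, -, -, -, -, t6, -, -⟩ := hTb P V κ f rep h hr
  obtain ⟨n1, n2, n3⟩ := TS1_nz h.nm hN
  have hnz := hN.nz1
  obtain ⟨J, Js, ctr, F, b, j1, j2, j3⟩ := TS1_alpha hTal h hr hN
    (fun v => univ.filter (fun a => a ∉ f.J0 ∧ f.E.N a v ≠ v ∧ R (f.E.N a v)))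
    (fun u a ha => (mem_filter.1 ha).2.2.1) none
  refine ⟨J, Js, ctr, F, b, j1, j2, fun ω hω v S hS => ?_⟩
  have g := (j3 ω hω v (!(ω (rep v)).1)).2
  have hpq : pq P.MW none = 1 := rfl
  rw [hpq] at g
  have hsub : S ⊆
      (univ.filter (fun a => a ∉ f.J0 ∧ f.E.N a v ≠ v ∧ R (f.E.N a v))).filter (fun a =>
        (ω (rep (f.E.N a v))).1 = !(ω (rep v)).1 ∧ cnd none (ω (rep (f.E.N a v))).2) := by
    intro a ha
    obtain ⟨h1, h2, h3⟩ := hS a ha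
    have h4 : (ω (rep (f.E.N a v))).1 ≠ (ω (rep v)).1 := h3
    refine mem_filter.2 ⟨mem_filter.2 ⟨mem_univ _, h1, fun h5 => h4 (by rw [h5]), h2⟩, ?_, Or.inl rfl⟩
    cases h6 : (ω (rep (f.E.N a v))).1 <;> cases h7 : (ω (rep v)).1 <;> simp_all
  have hc : (S.card : ℝ) ≤
      (((univ.filter (fun a => a ∉ f.J0 ∧ f.E.N a v ≠ v ∧ R (f.E.N a v))).filter (fun a =>
        (ω (rep (f.E.N a v))).1 = !(ω (rep v)).1 ∧ cnd none (ω (rep (f.E.N a v))).2)).card : ℝ) := by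
    exact_mod_cast card_le_card hsub
  have hcj : (f.cj R v : ℝ) = ((univ.filter (fun a => a ∉ f.J0 ∧ f.E.N a v ≠ v ∧ R (f.E.N a v))).card : ℝ) := rfl
  rw [hcj]
  linarith

theorem thm_TS2 (hNumL : St_NumL) (hImpA : St_ImpA) (hTal : St_Tal) (hTb : St_Tb) : St_TS2 := by
  intro P V κ _ _ f rep h hr
  have h1 := TS2_one hNumL hTal hTb h hr (fun w => f.A P w ∧ ¬ f.F0 w)
  have h2 := TS2_one hNumL hTal hTb h hr (fun w => f.K w = none ∧ ¬ f.A P w)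
  obtain ⟨i1, i2⟩ := hImpA V (Bool × Fin P.MW) f.G P.Lam
  refine i2 (4 + 4) ((P.D + 2) ^ 10) _ _ (i1 4 4 _ _ h1 h2) ?_ ?_
  · calc 4 + 4 ≤ 2 ^ 10 := by norm_num
      _ ≤ (P.D + 2) ^ 10 := Nat.pow_le_pow_left (by omega) 10
  · rintro ω ⟨g1, g2⟩
    exact ⟨fun v => g1 v _ fun a ha => (mem_filter.1 ha).2, fun v => g2 v _ fun a ha => (mem_filter.1 ha).2⟩

end Pool.TCV
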