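import Pool.Agent.Helper3.TCV.TKc

/-!
# T10: (S3) (helper25)
-/

set_option autoImplicit false

namespace Pool.TCV

open Pool.TC Pool.TCM Pool.TCS Pool.TN Finset
open scoped Classical

/-- neighbours and virtual neighbours are in the ball of radius `6` -/
theorem TS3_ball {V κ : Type} [Fintype V] [Fintype κ] {P : Par} {f : Fd V κ} {rep : V → V}
    (h : TKc P f rep) {u w : V} (hw : f.adj' P u w) : w ∈ ball f.G 6 u := by
  rcases hw with hw | ⟨-, -, -, i, h1, h2⟩
  · exact ball_mono (by norm_num) (adj_mem_ball hw)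
  · have key : ∀ x, f.hv P i x → i ∈ ball f.G 3 x := by
      intro x hx
      have h3 : 0 < P.eta * P.D := mul_pos h.L.eta0 (by linarith [h.D1])
      have h4 : (0 : ℝ) < f.dk i x := lt_of_lt_of_le h3 hx.2
      have h5 : 0 < ((nb f.G x).filter (fun v => f.K v = some i)).card := by exact_mod_cast h4
      obtain ⟨v, hv⟩ := card_pos.1 h5
      obtain ⟨hv1, hv2⟩ := mem_filter.1 hv
      exact ball_trans (n := 1) (adj_mem_ball (mem_nb.1 hv1)) (ball_symm (h.clu hv2))
    exact ball_trans (n := 3) (key u h1) (ball_symm (key w h2))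

theorem thm_TS3 (hNumL : St_NumL) (hTal : St_Tal) (hTb : St_Tb) : St_TS3 := by
  intro P V κ _ _ f rep H R
  have h := TKc_mk hNumL hTb H R
  -- the set of rows
  let T : V × κ → Finset V := fun j => univ.filter (fun w => f.adj' P j.1 w ∧ f.U w ∧ f.gc w j.2)
  refine ⟨V × κ, univ.filter (fun j => f.K j.1 = none), fun j => j.1,
    fun j ω => (((T j).filter (fun w => (ω (rep (f.E.N j.2 w))).1 ≠ (ω (rep w)).1 ∧
      cnd none (ω (rep (f.E.N j.2 w))).2)).card : ℝ),
    fun j => pq P.MW none / 2 * (T j).card + P.nz / P.X, ?_, ?_, ?_⟩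
  · refine TKc_cnt _ _ (fun j => j.2) (fun _ => univ) (fun _ _ => mem_univ _) ?_ (fun u => ?_)
    · rintro ⟨u, a⟩ _ ⟨u', a'⟩ _ h1 h2
      exact Prod.ext h1 h2
    · rw [card_univ]
      exact h.N1
  · rintro ⟨u, a⟩ hj
    have hu : f.K u = none := (mem_filter.1 hj).2
    have hTc : (T (u, a)).card ≤ 4 * (P.D + 1) := by
      have h1 : T (u, a) ⊆ univ.filter (fun w => f.adj' P u w) := fun w hw =>
        mem_filter.2 ⟨mem_univ _, (mem_filter.1 hw).2.1⟩
      have h2 := h.b8 u hu
      have h3 : ((T (u, a)).card : ℝ) ≤ ((univ.filter (fun w => f.adj' P u w)).card : ℝ) := by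
        exact_mod_cast card_le_card h1
      have h4 : ((T (u, a)).card : ℝ) ≤ ((4 * (P.D + 1) : ℕ) : ℝ) := by
        push_cast
        linarith [h.D1]
      exact_mod_cast h4
    exact (h.be hTal u (T (u, a)) (fun w => w) (fun w => f.E.N a w) none hTc (fun _ _ _ _ e => e)
      (fun w hw => ball_mono (by norm_num) (TS3_ball h (mem_filter.1 hw).2.1))
      (fun w _ w' _ e => h.injN a e)
      (fun w hw => ball_trans (n := 6) (m := 1) (TS3_ball h (mem_filter.1 hw).2.1)
        (adj_mem_ball (h.adj (mem_filter.1 hw).2.2.2.1)))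
      (fun w hw => (h.b1 w a (mem_filter.1 hw).2.2.2).2.symm)).1
  · intro ω hω u a hu ha
    have h1 := hω (u, a) (mem_filter.2 ⟨mem_univ _, hu⟩)
    have h2 : (((tdT P f rep ω).PU P u a).filter (fun w => (tdT P f rep ω).cr w a)).card ≤
        ((T (u, a)).filter (fun w => (ω (rep (f.E.N a w))).1 ≠ (ω (rep w)).1 ∧
          cnd none (ω (rep (f.E.N a w))).2)).card := by
      refine card_le_card fun w hw => ?_
      obtain ⟨h3, h4⟩ := mem_filter.1 hw
      exact mem_filter.2 ⟨h3, h4.2, (TKc_cN _).2 trivial⟩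
    have h3 : ((((tdT P f rep ω).PU P u a).filter (fun w => (tdT P f rep ω).cr w a)).card : ℝ) ≤
        (((T (u, a)).filter (fun w => (ω (rep (f.E.N a w))).1 ≠ (ω (rep w)).1 ∧
          cnd none (ω (rep (f.E.N a w))).2)).card : ℝ) := by exact_mod_cast h2
    have h4 : pq P.MW none / 2 * ((T (u, a)).card : ℝ) = (((tdT P f rep ω).PU P u a).card : ℝ) / 2 := by
      show (1 : ℝ) / 2 * ((T (u, a)).card : ℝ) = ((T (u, a)).card : ℝ) / 2
      ring
    have h5 := h.nzX
    have h6 : (((T (u, a)).filter (fun w => (ω (rep (f.E.N a w))).1 ≠ (ω (rep w)).1 ∧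
          cnd none (ω (rep (f.E.N a w))).2)).card : ℝ) ≤
        pq P.MW none / 2 * ((T (u, a)).card : ℝ) + P.nz / P.X := h1
    linarith

end Pool.TCV
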