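import Pool.Agent.Helper3.TCV.StB
import Pool.Agent.Helper3.TCM.Ball

/-!
# T10, section 5: the module TS4 (helper12)

(S4): pairs of crossing rows of `PU u a` which are not adjacent.
-/

set_option autoImplicit false

namespace Pool.TCV

open Pool.TC Pool.TCM Pool.TCS Pool.TN Finset
open scoped Classical

section

variable {V κ : Type} [Fintype V] [Fintype κ]

omit [Fintype V] in
private theorem TS4_rep {z rep : V → V} (hr : Rep z rep) {w t : V} (h : rep w = t) :
    w = t ∨ w = z t := by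
  rcases hr.a w with h1 | h1
  · left
    rw [← h, h1]
  · right
    rw [← h, h1, hr.z2]

/-- the virtual neighbours are near -/
private theorem TS4_ball (hNumL : St_NumL) (P : Par) (f : Fd V κ) (hH : Hy4 P f) {u w : V}
    (h : f.adj' P u w) : w ∈ ball f.G 6 u := by
  have hN := hNumL P hH.nm
  have hpos : 0 < P.eta * P.D := by
    have h1 := hN.eta2
    have h2 : (0 : ℝ) < (P.X : ℝ) ^ 100000 := by
      apply pow_pos
      have := hN.X1
      have h3 : (0 : ℝ) < 10 ^ 20 := by norm_num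
      linarith
    linarith
  have key : ∀ i x : V, f.hv P i x → ∃ v, f.G.Adj x v ∧ v ∈ ball f.G 2 i := by
    intro i x hx
    have h1 : (0 : ℝ) < (f.dk i x : ℝ) := lt_of_lt_of_le hpos hx.2
    have h2 : 0 < f.dk i x := by exact_mod_cast h1
    unfold Gd.dk at h2
    obtain ⟨v, hv⟩ := card_pos.1 h2
    rw [mem_filter] at hv
    exact ⟨v, mem_nb.1 hv.1, hH.gr.loc i v hv.2⟩
  rcases h with h | ⟨-, -, -, i, h1, h2⟩
  · exact ball_mono (by norm_num) (adj_mem_ball h)
  · obtain ⟨v, v1, v2⟩ := key i u h1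
    obtain ⟨v', v1', v2'⟩ := key i w h2
    have e1 := ball_trans (adj_mem_ball v1) (ball_symm v2)
    have e2 := ball_trans e1 v2'
    exact ball_trans e2 (adj_mem_ball v1'.symm)

/-- the rows -/
private noncomputable def TS4_PU (P : Par) (f : Fd V κ) (u : V) (a : κ) : Finset V :=
  univ.filter (fun w => f.adj' P u w ∧ (f.K w = none ∧ ¬ f.F0 w) ∧ f.gc w a)

private noncomputable def TS4_Js (P : Par) (f : Fd V κ) (u : V) (a : κ) : Finset (V × V) :=
  ((TS4_PU P f u a) ×ˢ (TS4_PU P f u a)).filter (fun w => w.1 ≠ w.2 ∧ ¬ f.adj' P w.1 w.2)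

private noncomputable def TS4_g (f : Fd V κ) (rep : V → V) {M : ℕ} (a : κ) (p : V × V)
    (ω : V → Bool × Fin M) : ℝ :=
  -(if (ω (rep (f.E.N a p.1))).1 ≠ (ω (rep p.1)).1 ∧ (ω (rep (f.E.N a p.2))).1 ≠ (ω (rep p.2)).1
    then (1 : ℝ) else 0)

private noncomputable def TS4_R (f : Fd V κ) (rep : V → V) (a : κ) (p : V × V) : Finset V :=
  {rep p.1, rep p.2, rep (f.E.N a p.1), rep (f.E.N a p.2)}

omit [Fintype κ] in
private theorem TS4_PUcard (P : Par) (f : Fd V κ) (u : V) (a : κ)
    (h : ((univ.filter (fun w => f.adj' P u w)).card : ℝ) ≤ 11 / 10 * P.D) :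
    ((TS4_PU P f u a).card : ℝ) ≤ 11 / 10 * P.D := by
  refine le_trans ?_ h
  have : (TS4_PU P f u a).card ≤ (univ.filter (fun w => f.adj' P u w)).card := by
    apply card_le_card
    intro w hw
    simp only [TS4_PU, mem_filter, mem_univ, true_and] at hw ⊢
    exact hw.1
  exact_mod_cast this

private theorem TS4_test (hNumL : St_NumL) (hCnt : St_CntQ) (hPrT : St_PrT) (hTb : St_Tb)
    (P : Par) (f : Fd V κ) (rep : V → V) (hH : Hy4 P f) (hr : Rep f.z rep) (u : V) (a : κ)
    (hu : f.K u = none) :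
    Tst f.G P.Lam u (fun ω : V → Bool × Fin P.MW => ∑ p ∈ TS4_Js P f u a, TS4_g f rep a p ω)
      (-((TS4_Js P f u a).card : ℝ) / 4 + P.D * P.nz) := by
  have hN := hNumL P hH.nm
  obtain ⟨b1, -, -, -, -, b6, -, b8⟩ := hTb P V κ f rep hH hr
  have hcard := TS4_PUcard P f u a (b8 u hu)
  have hX1 : (1 : ℝ) ≤ P.X := le_trans (by norm_num) hN.X1
  have hDpos : (0 : ℝ) < P.D := by
    have h1 := hN.XD 1 (by norm_num)
    have h2 := hN.X1
    rw [pow_one] at h1
    have h3 : (0 : ℝ) < 10 ^ 20 := by norm_num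
    linarith
  have hLam : (0 : ℝ) < P.Lam := lt_of_lt_of_le one_pos hN.La
  have hJs : ((TS4_Js P f u a).card : ℝ) ≤ (11 / 10 * P.D) ^ 2 := by
    have h1 : (TS4_Js P f u a).card ≤ (TS4_PU P f u a).card * (TS4_PU P f u a).card := by
      rw [← card_product]
      exact card_filter_le _ _
    have h2 : ((TS4_Js P f u a).card : ℝ) ≤ ((TS4_PU P f u a).card : ℝ) * (TS4_PU P f u a).card := by
      exact_mod_cast h1
    have h3 : (0 : ℝ) ≤ ((TS4_PU P f u a).card : ℝ) := Nat.cast_nonneg _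
    nlinarith
  have hmem : ∀ p ∈ TS4_Js P f u a, (f.adj' P u p.1 ∧ f.gc p.1 a) ∧ (f.adj' P u p.2 ∧ f.gc p.2 a) ∧
      p.1 ≠ p.2 ∧ ¬ f.G.Adj p.1 p.2 := by
    intro p hp
    simp only [TS4_Js, TS4_PU, mem_filter, mem_product, mem_univ, true_and] at hp
    exact ⟨⟨hp.1.1.1, hp.1.1.2.2⟩, ⟨hp.1.2.1, hp.1.2.2.2⟩, hp.2.1, fun h => hp.2.2 (Or.inl h)⟩
  -- the four vertices are different
  have hdis : ∀ w w' : V, f.gc w a → f.gc w' a → w ≠ w' → ¬ f.G.Adj w w' →
      rep w ≠ rep w' ∧ rep w ≠ rep (f.E.N a w') := by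
    intro w w' hw hw' hne hna
    have hz : ∀ x : V, f.z (f.z x) = x := hr.z2
    have n1 : w ≠ f.z w' := by
      intro h
      apply hna
      have h1 : f.z w' ≠ w' := by
        rw [← h]
        exact hne
      have h2 := hH.ed.zadj w' h1
      rw [← h] at h2
      exact h2.symm
    have n2 : w ≠ f.E.N a w' := by
      intro h
      apply hna
      have h2 := hH.ed.sub a w' hw'.1
      rw [← h] at h2
      exact h2.symm
    refine ⟨fun h => ?_, fun h => ?_⟩
    · have e1 := TS4_rep hr h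
      rcases hr.a w' with h1 | h1
      · rw [h1] at e1
        rcases e1 with e1 | e1
        · exact hne e1
        · exact n1 e1
      · rw [h1, hz] at e1
        rcases e1 with e1 | e1
        · exact n1 e1
        · exact hne e1
    · rw [(b1 w' a hw').1] at h
      rcases TS4_rep hr h with e1 | e1
      · exact n2 e1
      · rw [hw'.2] at e1
        exact n2 e1
  refine hCnt V (Bool × Fin P.MW) (V × V) f.G (TS4_Js P f u a) (fun p => TS4_g f rep a p)
    (fun _ => 1) (fun p => TS4_R f rep a p) (8 * P.D) (40 * (P.D : ℝ) ^ 3) P.Lam _ u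
    (fun _ _ => zero_le_one) ?_ ?_ ?_ ?_ ?_ (by positivity) ?_
  · intro p _ ω ω'
    unfold TS4_g
    split_ifs <;> norm_num
  · intro p _ ω ω' h
    have e1 : ω (rep p.1) = ω' (rep p.1) := h _ (by simp [TS4_R])
    have e2 : ω (rep p.2) = ω' (rep p.2) := h _ (by simp [TS4_R])
    have e3 : ω (rep (f.E.N a p.1)) = ω' (rep (f.E.N a p.1)) := h _ (by simp [TS4_R])
    have e4 : ω (rep (f.E.N a p.2)) = ω' (rep (f.E.N a p.2)) := h _ (by simp [TS4_R])
    unfold TS4_g
    rw [e1, e2, e3, e4]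
  · intro p hp t ht
    obtain ⟨⟨p1, p2⟩, ⟨p3, p4⟩, -, -⟩ := hmem p hp
    have key : ∀ w : V, f.adj' P u w → f.gc w a → rep w ∈ ball f.G 8 u ∧
        rep (f.E.N a w) ∈ ball f.G 8 u := by
      intro w hw hg
      have e1 := TS4_ball hNumL P f hH hw
      constructor
      · rcases hr.a w with h1 | h1
        · rw [h1]
          exact ball_mono (by norm_num) e1
        · rw [h1]
          by_cases h2 : f.z w = w
          · rw [h2]
            exact ball_mono (by norm_num) e1
          · exact ball_mono (by norm_num) (ball_trans e1 (adj_mem_ball (hH.ed.zadj w h2)))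
      · rw [(b1 w a hg).1]
        exact ball_mono (by norm_num) (ball_trans e1 (adj_mem_ball (hH.ed.sub a w hg.1)))
    have k1 := key p.1 p1 p2
    have k2 := key p.2 p3 p4
    simp only [TS4_R, mem_insert, mem_singleton] at ht
    rcases ht with rfl | rfl | rfl | rfl
    · exact k1.1
    · exact k2.1
    · exact k1.2
    · exact k2.2
  · intro t
    rw [sum_const, nsmul_eq_mul, mul_one]
    have h1 : (TS4_Js P f u a).filter (fun p => t ∈ TS4_R f rep a p) ⊆
        (({t, f.z t, f.E.N a t} : Finset V) ×ˢ (TS4_PU P f u a)) ∪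
          ((TS4_PU P f u a) ×ˢ ({t, f.z t, f.E.N a t} : Finset V)) := by
      intro p hp
      rw [mem_filter] at hp
      obtain ⟨hp1, hp2⟩ := hp
      have hm := hmem p hp1
      have hPU : p.1 ∈ TS4_PU P f u a ∧ p.2 ∈ TS4_PU P f u a := by
        unfold TS4_Js at hp1
        rw [mem_filter, mem_product] at hp1
        exact hp1.1
      have key : ∀ w : V, f.gc w a → (t = rep w ∨ t = rep (f.E.N a w)) →
          w ∈ ({t, f.z t, f.E.N a t} : Finset V) := by
        intro w hg h
        simp only [mem_insert, mem_singleton]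
        rcases h with h | h
        · rcases TS4_rep hr h.symm with e | e
          · exact Or.inl e
          · exact Or.inr (Or.inl e)
        · rw [(b1 w a hg).1] at h
          right
          right
          rw [h, f.E.inv]
      simp only [TS4_R, mem_insert, mem_singleton] at hp2
      rw [mem_union, mem_product, mem_product]
      rcases hp2 with h | h | h | h
      · exact Or.inl ⟨key _ hm.1.2 (Or.inl h), hPU.2⟩
      · exact Or.inr ⟨hPU.1, key _ hm.2.1.2 (Or.inl h)⟩
      · exact Or.inl ⟨key _ hm.1.2 (Or.inr h), hPU.2⟩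
      · exact Or.inr ⟨hPU.1, key _ hm.2.1.2 (Or.inr h)⟩
    have h2 : ((TS4_Js P f u a).filter (fun p => t ∈ TS4_R f rep a p)).card ≤
        3 * (TS4_PU P f u a).card + (TS4_PU P f u a).card * 3 := by
      refine (card_le_card h1).trans ((card_union_le _ _).trans ?_)
      rw [card_product, card_product]
      have h3 : ({t, f.z t, f.E.N a t} : Finset V).card ≤ 3 := card_le_three
      exact Nat.add_le_add (Nat.mul_le_mul_right _ h3) (Nat.mul_le_mul_left _ h3)
    have h3 : (((TS4_Js P f u a).filter (fun p => t ∈ TS4_R f rep a p)).card : ℝ) ≤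
        3 * ((TS4_PU P f u a).card : ℝ) + ((TS4_PU P f u a).card : ℝ) * 3 := by
      exact_mod_cast h2
    linarith
  · have h1 : ∀ p ∈ TS4_Js P f u a, (1 : ℝ) * ((TS4_R f rep a p).card : ℝ) ≤ 4 := by
      intro p _
      rw [one_mul]
      have : (TS4_R f rep a p).card ≤ 4 := card_le_four
      exact_mod_cast this
    have h2 := sum_le_card_nsmul _ _ _ h1
    rw [nsmul_eq_mul] at h2
    have h3 : (8 * (P.D : ℝ)) * (∑ p ∈ TS4_Js P f u a, (1 : ℝ) * ((TS4_R f rep a p).card : ℝ)) ≤
        (8 * (P.D : ℝ)) * ((11 / 10 * P.D) ^ 2 * 4) := by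
      apply mul_le_mul_of_nonneg_left _ (by positivity)
      linarith
    refine h3.trans ?_
    have h4 : 0 < (P.D : ℝ) ^ 3 := by positivity
    nlinarith
  · have h1 : ∀ p ∈ TS4_Js P f u a, mean (TS4_g (M := P.MW) f rep a p) = -(1 / 4) := by
      intro p hp
      obtain ⟨⟨p1, p2⟩, ⟨p3, p4⟩, p5, p6⟩ := hmem p hp
      have d1 := hdis p.1 p.2 p2 p4 p5 p6
      have d2 := hdis p.2 p.1 p4 p2 p5.symm (fun h => p6 h.symm)
      have e1 : rep p.1 ≠ rep (f.E.N a p.1) := (b1 p.1 a p2).2.symm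
      have e2 : rep p.2 ≠ rep (f.E.N a p.2) := (b1 p.2 a p4).2.symm
      have e3 : rep (f.E.N a p.1) ≠ rep (f.E.N a p.2) := by
        rw [(b1 p.1 a p2).1, (b1 p.2 a p4).1]
        intro h
        apply p5
        have h7 := congrArg (f.E.N a) h
        rwa [f.E.inv, f.E.inv] at h7
      have hpr := (hPrT V P.MW none hN.MW0).2.2.2.2 (rep p.1) (rep p.2) (rep (f.E.N a p.1))
        (rep (f.E.N a p.2)) d1.1 e1 d1.2 d2.2 e2 e3
      have h2 : mean (TS4_g (M := P.MW) f rep a p) = - mean (fun ω : V → Bool × Fin P.MW =>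
          if (ω (rep (f.E.N a p.1))).1 ≠ (ω (rep p.1)).1 ∧
            (ω (rep (f.E.N a p.2))).1 ≠ (ω (rep p.2)).1 then (1 : ℝ) else 0) := by
        unfold mean TS4_g
        rw [sum_neg_distrib, neg_div]
      rw [h2, hpr]
    rw [sum_congr rfl h1, sum_const, nsmul_eq_mul]
    have h2 : Real.sqrt (2 * (40 * (P.D : ℝ) ^ 3) * P.Lam) ≤ P.D * P.nz := by
      have e1 : Real.sqrt (2 * (40 * (P.D : ℝ) ^ 3) * P.Lam) =
          P.D * Real.sqrt (80 * P.D * P.Lam) := by
        have : 2 * (40 * (P.D : ℝ) ^ 3) * P.Lam = (P.D : ℝ) ^ 2 * (80 * P.D * P.Lam) := by ring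
        rw [this, Real.sqrt_mul (by positivity), Real.sqrt_sq hDpos.le]
      rw [e1]
      apply mul_le_mul_of_nonneg_left _ hDpos.le
      have e2 : Real.sqrt (80 * P.D * P.Lam) ≤ Real.sqrt (200 * ((P.D : ℝ) + 1) * P.Lam) := by
        apply Real.sqrt_le_sqrt
        apply mul_le_mul_of_nonneg_right _ hLam.le
        linarith
      have e3 : P.nz / P.X ≤ P.nz := div_le_self hN.nz1.le hX1
      linarith
    linarith

end

theorem thm_TS4 (hNumL : St_NumL) (hCnt : St_CntQ) (hPrT : St_PrT) (hTb : St_Tb) : St_TS4 := by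
  intro P V κ _ _ f rep hH hr
  refine ⟨V × κ, univ.filter (fun j => f.K j.1 = none ∧ j.2 ∉ f.J0), Prod.fst,
    fun j ω => ∑ p ∈ TS4_Js P f j.1 j.2, TS4_g f rep j.2 p ω,
    fun j => -((TS4_Js P f j.1 j.2).card : ℝ) / 4 + P.D * P.nz, ?_, ?_, ?_⟩
  · intro u
    have h1 : ((univ.filter (fun j : V × κ => f.K j.1 = none ∧ j.2 ∉ f.J0)).filter
        (fun j => j.1 = u)).card ≤ Fintype.card κ := by
      rw [← card_univ (α := κ)]
      apply card_le_card_of_injOn Prod.snd (fun _ _ => mem_coe.2 (mem_univ _))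
      intro x hx y hy hxy
      have e1 := (mem_filter.1 (mem_coe.1 hx)).2
      have e2 := (mem_filter.1 (mem_coe.1 hy)).2
      exact Prod.ext (e1.trans e2.symm) hxy
    rw [hH.ed.col] at h1
    refine h1.trans ?_
    calc P.D + 1 ≤ P.D + 2 := by omega
      _ ≤ (P.D + 2) ^ 10 := Nat.le_self_pow (by norm_num) _
  · intro j hj
    rw [mem_filter] at hj
    exact TS4_test hNumL hCnt hPrT hTb P f rep hH hr j.1 j.2 hj.2.1
  · intro ω hω u a hu ha
    have h1 := hω (u, a) (by rw [mem_filter]; exact ⟨mem_univ _, hu, ha⟩)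
    have h2 : (((TS4_Js P f u a).filter (fun w => (tdT P f rep ω).cr w.1 a ∧
        (tdT P f rep ω).cr w.2 a)).card : ℝ) =
        -∑ p ∈ TS4_Js P f u a, TS4_g f rep a p ω := by
      rw [← sum_neg_distrib, card_filter]
      push_cast
      refine sum_congr rfl fun p hp => ?_
      unfold TS4_g
      rw [neg_neg]
      have hm : f.gc p.1 a ∧ f.gc p.2 a := by
        simp only [TS4_Js, TS4_PU, mem_filter, mem_product, mem_univ, true_and] at hp
        exact ⟨hp.1.1.2.2, hp.1.2.2.2⟩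
      apply if_congr _ rfl rfl
      constructor
      · rintro ⟨x, y⟩
        exact ⟨x.2, y.2⟩
      · rintro ⟨x, y⟩
        exact ⟨⟨hm.1, x⟩, ⟨hm.2, y⟩⟩
    have h0 : (tdT P f rep ω).PU P u a = TS4_PU P f u a := by
      ext w
      simp only [Td.PU, TS4_PU, mem_filter, mem_univ, true_and]
      rfl
    have h3 : ((TS4_PU P f u a ×ˢ TS4_PU P f u a).filter
      (fun w => w.1 ≠ w.2 ∧ ¬ (tdT P f rep ω).adj' P w.1 w.2 ∧ (tdT P f rep ω).cr w.1 a ∧
        (tdT P f rep ω).cr w.2 a)) = (TS4_Js P f u a).filter (fun w => (tdT P f rep ω).cr w.1 a ∧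
        (tdT P f rep ω).cr w.2 a) := by
      unfold TS4_Js
      rw [filter_filter]
      ext p
      simp only [mem_filter, and_assoc]
      rfl
    have h4 : ((TS4_PU P f u a ×ˢ TS4_PU P f u a).filter
      (fun w => w.1 ≠ w.2 ∧ ¬ (tdT P f rep ω).adj' P w.1 w.2)) = TS4_Js P f u a := by
      unfold TS4_Js
      ext p
      simp only [mem_filter]
      rfl
    rw [h0, h3, h2, h4]
    have h5 : ∑ p ∈ TS4_Js P f u a, TS4_g f rep a p ω ≤
      -((TS4_Js P f u a).card : ℝ) / 4 + P.D * P.nz := h1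
    linarith

end Pool.TCV
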