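import Pool.Agent.Helper3.TCV.StB
import Pool.Agent.Helper3.TCM.Ball

/-!
# T10, section 5: types alpha, beta, gamma, delta (helper2)
-/

set_option autoImplicit false

namespace Pool.TCV

open Pool.TC Pool.TCM Pool.TCS Pool.TN Finset
open scoped Classical

section aux

variable {V I : Type} [Fintype V]

private theorem Tal_ball {G : SimpleGraph V} {z rep : V → V} {c : V} (hrep : Rep z rep)
    (hz : ∀ v, z v ≠ v → G.Adj v (z v)) {v : V} (hv : v ∈ ball G 7 c) : rep v ∈ ball G 8 c := by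
  rcases hrep.a v with h | h
  · rw [h]
    exact ball_mono (by norm_num) hv
  · rw [h]
    by_cases h1 : z v = v
    · rw [h1]
      exact ball_mono (by norm_num) hv
    · exact mem_ball_succ.2 ⟨v, hv, Or.inr (hz v h1)⟩

omit [Fintype V] in
private theorem Tal_two {z rep : V → V} (hrep : Rep z rep) {T : Finset I} {p : I → V}
    (hp : Set.InjOn p T) (t : V) : (T.filter (fun i => t = rep (p i))).card ≤ 2 := by
  have h1 : ((T.filter (fun i => t = rep (p i))).image p).card =
      (T.filter (fun i => t = rep (p i))).card := by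
    apply card_image_of_injOn
    intro i hi j hj hij
    exact hp (mem_filter.1 hi).1 (mem_filter.1 hj).1 hij
  rw [← h1]
  refine (card_le_card (t := {t, z t}) ?_).trans card_le_two
  intro v hv
  obtain ⟨i, hi, rfl⟩ := mem_image.1 hv
  have h2 := (mem_filter.1 hi).2
  rw [mem_insert, mem_singleton]
  rcases hrep.a (p i) with h | h
  · left
    rw [h2, h]
  · right
    rw [h2, h, hrep.z2]

/-- the general test -/
private theorem Tal_aux (hCnt : St_CntQ) (G : SimpleGraph V) (M D : ℕ) (Lam : ℝ) (z rep : V → V)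
    (c : V) (T : Finset I) (hrep : Rep z rep) (hz : ∀ v, z v ≠ v → G.Adj v (z v))
    (hT : T.card ≤ 4 * (D + 1)) (p r r' : I → V) (hp : Set.InjOn p T)
    (hpb : ∀ i ∈ T, p i ∈ ball G 7 c) (hr : Set.InjOn r T) (hrb : ∀ i ∈ T, r i ∈ ball G 7 c)
    (hr' : Set.InjOn r' T) (hrb' : ∀ i ∈ T, r' i ∈ ball G 7 c)
    (E : I → (V → Bool × Fin M) → Prop) [∀ i ω, Decidable (E i ω)] (μ : ℝ)
    (hE : ∀ i ∈ T, ∀ ω ω', ω (rep (p i)) = ω' (rep (p i)) → ω (rep (r i)) = ω' (rep (r i)) →
      ω (rep (r' i)) = ω' (rep (r' i)) → (E i ω ↔ E i ω'))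
    (hμ : ∀ i ∈ T, mean (fun ω => if E i ω then (1 : ℝ) else 0) = μ) :
    Tst G Lam c (fun ω => ((T.filter (fun i => E i ω)).card : ℝ))
      (μ * T.card + Real.sqrt (200 * ((D : ℝ) + 1) * Lam)) ∧
    Tst G Lam c (fun ω => -((T.filter (fun i => E i ω)).card : ℝ))
      (-(μ * T.card) + Real.sqrt (200 * ((D : ℝ) + 1) * Lam)) := by
  obtain ⟨R, hR⟩ : ∃ R : I → Finset V, R = fun i => {rep (p i), rep (r i), rep (r' i)} := ⟨_, rfl⟩
  have hRm : ∀ i t, t ∈ R i ↔ t = rep (p i) ∨ t = rep (r i) ∨ t = rep (r' i) := by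
    intro i t
    rw [hR]
    simp only [mem_insert, mem_singleton]
  have hRc : ∀ i, ((R i).card : ℝ) ≤ 3 := by
    intro i
    rw [hR]
    exact_mod_cast card_le_three
  have hRb : ∀ i ∈ T, R i ⊆ ball G 8 c := by
    intro i hi t ht
    rcases (hRm i t).1 ht with h | h | h
    · rw [h]
      exact Tal_ball hrep hz (hpb i hi)
    · rw [h]
      exact Tal_ball hrep hz (hrb i hi)
    · rw [h]
      exact Tal_ball hrep hz (hrb' i hi)
  have hmul : ∀ t, (∑ i ∈ T.filter (fun i => t ∈ R i), (1 : ℝ)) ≤ 6 := by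
    intro t
    rw [sum_const, nsmul_eq_mul, mul_one]
    have h1 : T.filter (fun i => t ∈ R i) ⊆ (T.filter (fun i => t = rep (p i))) ∪
        ((T.filter (fun i => t = rep (r i))) ∪ (T.filter (fun i => t = rep (r' i)))) := by
      intro i hi
      obtain ⟨hi1, hi2⟩ := mem_filter.1 hi
      rw [mem_union, mem_union, mem_filter, mem_filter, mem_filter]
      rcases (hRm i t).1 hi2 with h | h | h
      · exact Or.inl ⟨hi1, h⟩
      · exact Or.inr (Or.inl ⟨hi1, h⟩)
      · exact Or.inr (Or.inr ⟨hi1, h⟩)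
    have h2 := card_le_card h1
    have h3 := card_union_le (T.filter (fun i => t = rep (p i)))
      ((T.filter (fun i => t = rep (r i))) ∪ (T.filter (fun i => t = rep (r' i))))
    have h4 := card_union_le (T.filter (fun i => t = rep (r i))) (T.filter (fun i => t = rep (r' i)))
    have h5 := Tal_two hrep hp t
    have h6 := Tal_two hrep hr t
    have h7 := Tal_two hrep hr' t
    have h8 : (T.filter (fun i => t ∈ R i)).card ≤ 6 := by omega
    exact_mod_cast h8
  have hW : (6 : ℝ) * (∑ i ∈ T, (1 : ℝ) * (R i).card) ≤ 100 * ((D : ℝ) + 1) := by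
    have h1 : ∑ i ∈ T, (1 : ℝ) * (R i).card ≤ ∑ i ∈ T, (3 : ℝ) :=
      sum_le_sum fun i _ => by
        rw [one_mul]
        exact hRc i
    rw [sum_const, nsmul_eq_mul] at h1
    have h2 : (T.card : ℝ) ≤ 4 * ((D : ℝ) + 1) := by exact_mod_cast hT
    have h3 : (0 : ℝ) ≤ D := Nat.cast_nonneg _
    linarith
  have hW0 : (0 : ℝ) < 100 * ((D : ℝ) + 1) := by positivity
  have hs : 2 * (100 * ((D : ℝ) + 1)) * Lam = 200 * ((D : ℝ) + 1) * Lam := by ring
  have hloc : ∀ i ∈ T, ∀ ω ω' : V → Bool × Fin M, (∀ t ∈ R i, ω t = ω' t) →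
      (E i ω ↔ E i ω') := by
    intro i hi ω ω' h
    exact hE i hi ω ω' (h _ ((hRm i _).2 (Or.inl rfl))) (h _ ((hRm i _).2 (Or.inr (Or.inl rfl))))
      (h _ ((hRm i _).2 (Or.inr (Or.inr rfl))))
  constructor
  · have h1 := hCnt V (Bool × Fin M) I G T (fun i ω => if E i ω then (1 : ℝ) else 0)
      (fun _ => 1) R 6 (100 * ((D : ℝ) + 1)) Lam
      (μ * T.card + Real.sqrt (200 * ((D : ℝ) + 1) * Lam)) c (fun _ _ => zero_le_one)
      (fun i _ ω ω' => by split_ifs <;> simp)
      (fun i hi ω ω' h => by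
        have h2 := hloc i hi ω ω' h
        by_cases h3 : E i ω
        · rw [if_pos h3, if_pos (h2.1 h3)]
        · rw [if_neg h3, if_neg (fun h4 => h3 (h2.2 h4))])
      hRb hmul hW hW0 (by
        rw [hs, sum_congr rfl hμ, sum_const, nsmul_eq_mul, mul_comm (T.card : ℝ) μ])
    have h2 : (fun ω : V → Bool × Fin M => ((T.filter (fun i => E i ω)).card : ℝ)) =
        fun ω => ∑ i ∈ T, if E i ω then (1 : ℝ) else 0 := by
      funext ω
      exact natCast_card_filter _ _
    rw [h2]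
    exact h1
  · have h1 := hCnt V (Bool × Fin M) I G T (fun i ω => -(if E i ω then (1 : ℝ) else 0))
      (fun _ => 1) R 6 (100 * ((D : ℝ) + 1)) Lam
      (-(μ * T.card) + Real.sqrt (200 * ((D : ℝ) + 1) * Lam)) c (fun _ _ => zero_le_one)
      (fun i _ ω ω' => by split_ifs <;> simp)
      (fun i hi ω ω' h => by
        have h2 := hloc i hi ω ω' h
        by_cases h3 : E i ω
        · rw [if_pos h3, if_pos (h2.1 h3)]
        · rw [if_neg h3, if_neg (fun h4 => h3 (h2.2 h4))])
      hRb hmul hW hW0 (by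
        have h3 : ∀ i ∈ T, mean (fun ω => -(if E i ω then (1 : ℝ) else 0)) = -μ := by
          intro i hi
          rw [← hμ i hi]
          unfold mean
          rw [sum_neg_distrib, neg_div]
        rw [hs, sum_congr rfl h3, sum_const, nsmul_eq_mul, mul_neg, mul_comm (T.card : ℝ) μ])
    have h2 : (fun ω : V → Bool × Fin M => -((T.filter (fun i => E i ω)).card : ℝ)) =
        fun ω => ∑ i ∈ T, -(if E i ω then (1 : ℝ) else 0) := by
      funext ω
      rw [sum_neg_distrib, natCast_card_filter]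
    rw [h2]
    exact h1

end aux

/-- [Tal] -/
theorem thm_Tal (hCnt : St_CntQ) (hPrT : St_PrT) : St_Tal := by
  intro V I _ G M D Lam z rep c T p r r' q hM hrep hz hL hT hp hpb
  obtain ⟨P1, P2, P3, P4, -⟩ := hPrT V M q hM
  refine ⟨?_, ?_⟩
  · intro b
    exact Tal_aux hCnt G M D Lam z rep c T hrep hz hT p p p hp hpb hp hpb hp hpb
      (fun i ω => (ω (rep (p i))).1 = b ∧ cnd q (ω (rep (p i))).2) (pq M q / 2)
      (fun i _ ω ω' h _ _ => by rw [h]) (fun i _ => P1 (rep (p i)) b)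
  · intro hr hrb hne
    refine ⟨?_, ?_, ?_⟩
    · exact Tal_aux hCnt G M D Lam z rep c T hrep hz hT p r p hp hpb hr hrb hp hpb
        (fun i ω => (ω (rep (r i))).1 ≠ (ω (rep (p i))).1 ∧ cnd q (ω (rep (r i))).2) (pq M q / 2)
        (fun i _ ω ω' h h' _ => by rw [h, h'])
        (fun i hi => P2 (rep (p i)) (rep (r i)) (hne i hi))
    · intro b b'
      exact Tal_aux hCnt G M D Lam z rep c T hrep hz hT p r p hp hpb hr hrb hp hpb
        (fun i ω => (ω (rep (p i))).1 = b ∧ (ω (rep (r i))).1 = b' ∧ cnd q (ω (rep (p i))).2 ∧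
          cnd q (ω (rep (r i))).2) (pq M q ^ 2 / 4)
        (fun i _ ω ω' h h' _ => by rw [h, h'])
        (fun i hi => P3 (rep (p i)) (rep (r i)) b b' (hne i hi))
    · intro hr' hrb' hne' hne''
      exact (Tal_aux hCnt G M D Lam z rep c T hrep hz hT p r r' hp hpb hr hrb hr' hrb'
        (fun i ω => (ω (rep (r i))).1 ≠ (ω (rep (p i))).1 ∧
          (ω (rep (r' i))).1 ≠ (ω (rep (p i))).1 ∧
          cnd q (ω (rep (r i))).2 ∧ cnd q (ω (rep (r' i))).2) (pq M q ^ 2 / 4)
        (fun i _ ω ω' h h' h'' => by rw [h, h', h''])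
        (fun i hi => P4 (rep (p i)) (rep (r i)) (rep (r' i)) (hne i hi) (hne' i hi)
          (hne'' i hi))).1

end Pool.TCV
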