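import Pool.Agent.Helper3.TCV.StB

/-!
# T10, section 5: the bipartition (helper42)
-/

set_option autoImplicit false

namespace Pool.TCV

open Pool.TC Pool.TCM Pool.TCS Pool.TN Finset
open scoped Classical

/-- representatives exist -/
theorem Tau10_rep {V : Type} [Fintype V] (z : V → V) (hz : ∀ v, z (z v) = v) :
    ∃ rep : V → V, Rep z rep := by
  obtain ⟨e⟩ : Nonempty (V ≃ Fin (Fintype.card V)) := ⟨Fintype.equivFin V⟩
  refine ⟨fun v => if e v ≤ e (z v) then v else z v, ⟨hz, fun v => ?_, fun v => ?_⟩⟩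
  · by_cases h : e v ≤ e (z v)
    · exact Or.inl (if_pos h)
    · exact Or.inr (if_neg h)
  · show (if e (z v) ≤ e (z (z v)) then z v else z (z v)) = if e v ≤ e (z v) then v else z v
    rw [hz]
    by_cases h : e v ≤ e (z v)
    · rw [if_pos h]
      by_cases h' : e (z v) ≤ e v
      · rw [if_pos h']
        exact (e.injective (le_antisymm h h')).symm
      · rw [if_neg h']
    · rw [if_neg h, if_pos (le_of_lt (not_le.1 h))]

theorem thm_Tau10 (hNumL : St_NumL) (hTstL : St_TstL) (hImpA : St_ImpA) (h1 : St_TS1)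
    (h2 : St_TS2) (h3 : St_TS3) (h4 : St_TS4) (k1 : St_TK1) (k2 : St_TK2) (k4 : St_TK4)
    (k5 : St_TK5) (k7 : St_TK7) (k8 : St_TK8) (k9 : St_TK9) : St_Ta10 := by
  intro P V κ _ _ f nm gr ed ac
  have hy : Hy4 P f := ⟨nm, gr, ed, ac⟩
  have nl := hNumL P nm
  obtain ⟨rep, hrep⟩ := Tau10_rep f.z ed.zinv
  have hA := (hImpA V (Bool × Fin P.MW) f.G P.Lam).1
  have a1 := hA _ _ _ _ (h1 P V κ f rep hy hrep) (h2 P V κ f rep hy hrep)
  have a2 := hA _ _ _ _ a1 (h3 P V κ f rep hy hrep)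
  have a3 := hA _ _ _ _ a2 (h4 P V κ f rep hy hrep)
  have a4 := hA _ _ _ _ a3 (k1 P V κ f rep hy hrep)
  have a5 := hA _ _ _ _ a4 (k2 P V κ f rep hy hrep)
  have a6 := hA _ _ _ _ a5 (k4 P V κ f rep hy hrep)
  have a7 := hA _ _ _ _ a6 (k5 P V κ f rep hy hrep)
  have a8 := hA _ _ _ _ a7 (k7 P V κ f rep hy hrep)
  have a9 := hA _ _ _ _ a8 (k8 P V κ f rep hy hrep)
  have a10 := hA _ _ _ _ a9 (k9 P V κ f rep hy hrep)
  have hne : Nonempty (Bool × Fin P.MW) := ⟨(true, ⟨0, nl.MW0⟩)⟩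
  obtain ⟨ω, hω⟩ := hTstL V (Bool × Fin P.MW) f.G P.D _ P.Lam _ (fun u => (gr.reg u).le)
    (lt_of_lt_of_le one_pos nl.La) (by
      have h5 := nl.ex 30 (by norm_num)
      refine le_trans ?_ h5
      have h6 : (0 : ℝ) ≤ P.D := Nat.cast_nonneg _
      have h7 : ((P.D : ℝ) + 1) ^ 16 ≤ ((P.D : ℝ) + 2) ^ 16 :=
        pow_le_pow_left₀ (by linarith) (by linarith) 16
      have h8 : (11 : ℝ) ≤ ((P.D : ℝ) + 2) ^ 4 := by
        have : (2 : ℝ) ^ 4 ≤ ((P.D : ℝ) + 2) ^ 4 := pow_le_pow_left₀ (by norm_num) (by linarith) 4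
        linarith
      obtain ⟨y, hy⟩ : ∃ y : ℝ, y = (P.D : ℝ) + 2 := ⟨_, rfl⟩
      rw [← hy] at h7 h8 ⊢
      have hy0 : 0 ≤ y := by rw [hy]; linarith
      have h9 : ((P.D : ℝ) + 1) ^ 16 * (11 * y ^ 10) ≤ y ^ 30 := by
        calc ((P.D : ℝ) + 1) ^ 16 * (11 * y ^ 10) ≤ y ^ 16 * (y ^ 4 * y ^ 10) := by
              gcongr
          _ = y ^ 30 := by ring
      have h10 : 0 < Real.exp (-P.Lam) := Real.exp_pos _
      have h11 : 0 ≤ y ^ 30 := pow_nonneg hy0 30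
      push_cast
      rw [← hy]
      have h12 : ((P.D : ℝ) + 1) ^ 16 * (y ^ 10 + y ^ 10 + y ^ 10 + y ^ 10 + y ^ 10 + y ^ 10 +
          y ^ 10 + y ^ 10 + y ^ 10 + y ^ 10 + y ^ 10) + 1 ≤ y ^ 30 + 1 := by
        have : y ^ 10 + y ^ 10 + y ^ 10 + y ^ 10 + y ^ 10 + y ^ 10 +
          y ^ 10 + y ^ 10 + y ^ 10 + y ^ 10 + y ^ 10 = 11 * y ^ 10 := by ring
        rw [this]
        linarith
      calc _ ≤ 4 * Real.exp (-P.Lam) * (y ^ 30 + 1) :=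
            mul_le_mul_of_nonneg_left h12 (by positivity)
        _ ≤ 8 * Real.exp (-P.Lam) * (y ^ 30 + 1) := by
            refine mul_le_mul_of_nonneg_right ?_ (by linarith)
            linarith) a10
  obtain ⟨⟨⟨⟨⟨⟨⟨⟨⟨⟨s1, s2⟩, s3⟩, s4⟩, q1⟩, q2⟩, q4⟩, q5⟩, q7⟩, q8⟩, q9⟩ := hω
  refine ⟨tdT P f rep ω, rfl, ⟨?_, s1.1, s1.2, s2.1, s2.2, s3, s4⟩,
    ⟨q1, q2.1, q2.2, q4, q5.1, q5.2.1, q5.2.2, q7.1, q7.2, q8.1, q8.2, q9⟩⟩
  intro u
  show (ω (rep (f.z u))).1 = (ω (rep u)).1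
  rw [hrep.b]

end Pool.TCV
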