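import Pool.Agent.Helper3.TCV.StB
import Pool.Agent.Helper3.TCM.Ball

/-!
Basic facts for section 5.
-/

set_option autoImplicit false

namespace Pool.TCV

open Pool.TC Pool.TCM Pool.TCS Pool.TN Finset
open scoped Classical

theorem thm_Tb (hNumL : St_NumL) : St_Tb := by
  intro P V κ _ _ f rep H R
  have L := hNumL P H.nm
  have gr := H.gr
  have ed := H.ed
  have ac := H.ac
  have hinj : ∀ w a b, f.E.N a w ≠ w → f.E.N a w = f.E.N b w → a = b := by
    intro w a b ha hab
    exact f.E.uniq a b w hab ha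
  refine ⟨?_, ?_, ?_, ?_, ?_, ?_, ?_, ?_⟩
  · -- 1
    intro w a h
    obtain ⟨h1, h2⟩ := h
    have h3 : rep (f.E.N a w) = f.E.N a w := by
      rcases R.a (f.E.N a w) with h | h
      · exact h
      · rw [h, h2]
    refine ⟨h3, ?_⟩
    rw [h3]
    intro h4
    rcases R.a w with h | h
    · exact h1 (h4.trans h)
    · rw [h] at h4
      apply h1
      rw [← h2, h4, R.z2]
  · -- 2
    intro w
    have h1 : (nb f.G w).erase (f.z w) ⊆
        (univ.filter (fun a => f.E.N a w ≠ w)).image (fun a => f.E.N a w) := by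
      intro v hv
      rw [mem_erase, mem_nb] at hv
      rcases ed.cov w v hv.2 with ⟨a, ha⟩ | h
      · rw [mem_image]
        refine ⟨a, ?_, ha⟩
        rw [mem_filter]
        refine ⟨mem_univ _, ?_⟩
        rw [ha]
        exact hv.2.ne'
      · exact absurd h.symm hv.1
    have h2 : P.D - 1 ≤ (univ.filter (fun a => f.E.N a w ≠ w)).card := by
      calc P.D - 1 = (nb f.G w).card - 1 := by rw [gr.reg]
        _ ≤ ((nb f.G w).erase (f.z w)).card := pred_card_le_card_erase
        _ ≤ _ := card_le_card h1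
        _ ≤ _ := card_image_le
    have h3 : (univ.filter (fun a => f.E.N a w = w)).card +
        (univ.filter (fun a => ¬ (f.E.N a w = w))).card = P.D + 1 := by
      rw [card_filter_add_card_filter_not, card_univ]
      exact ed.col
    have h4 : (univ.filter (fun a => f.E.N a w ≠ w)).card =
      (univ.filter (fun a => ¬ (f.E.N a w = w))).card := rfl
    have h5 : 1 ≤ P.D := by
      have := L.XD 0 (by norm_num)
      rw [pow_zero] at this
      exact_mod_cast this
    omega
  · -- 3
    intro w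
    refine le_trans ?_ (ed.r4 w)
    apply card_le_card_of_injOn (fun a => f.E.N a w)
    · intro a ha
      rw [mem_coe, mem_filter] at ha
      rw [mem_coe, mem_filter]
      exact ⟨ball_mono (by norm_num) (adj_mem_ball (ed.sub a w ha.2.1)), ha.2.2⟩
    · intro a ha b hb hab
      rw [mem_coe, mem_filter] at ha
      exact hinj w a b ha.2.1 hab
  · -- 4
    intro i
    have hc : ∀ w, f.K w = some i → f.F0 w → f.m w ∈ f.J1 ∧ f.m w ∉ f.J0 ∧ f.m w ∉ f.Pb P i := by
      intro w hw hF
      rcases ac.f0 w hF with h | ⟨j, h1, h2, h3, h4, h5⟩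
      · rw [h.1.1] at hw
        exact absurd hw (by simp)
      · have hj : j = i := by
          have h6 := (mem_filter.1 h1).2.1
          rw [hw] at h6
          exact (Option.some.inj h6).symm
        subst hj
        exact ⟨h3, h4, h5⟩
    constructor
    · rw [Fd.mF]
      apply card_image_of_injOn
      intro u hu w hw huw
      rw [mem_coe, Fd.F0i, mem_filter] at hu hw
      by_contra hne
      refine ac.f1 u w hu.2.2 hw.2.2 ⟨hne, ac.f0 u hu.2.2, ac.f0 w hw.2.2, huw, Or.inr ⟨?_, ?_⟩⟩
      · rw [hu.2.1]; simp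
      · rw [hu.2.1, hw.2.1]
    · intro a ha
      rw [Fd.mF, mem_image] at ha
      obtain ⟨w, hw, rfl⟩ := ha
      rw [Fd.F0i, mem_filter] at hw
      obtain ⟨h1, h2, h3⟩ := hc w hw.2.1 hw.2.2
      exact ⟨h1, h2, fun h => ed.q1 _ h h1, h3⟩
  · -- 5
    intro i w hw
    rw [Gd.oo]
    apply card_le_card_of_injOn (fun a => f.E.N a w)
    · intro a ha
      rw [mem_coe, mem_filter] at ha
      rw [mem_coe, mem_filter, mem_nb, hw]
      exact ⟨ed.sub a w ha.2.1, ha.2.2⟩
    · intro a ha b hb hab
      rw [mem_coe, mem_filter] at ha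
      exact hinj w a b ha.2.1 hab
  · -- 6
    have hX : (10 : ℝ) ^ 20 ≤ P.X := L.X1
    have hX1 : (1 : ℝ) ≤ P.X := le_trans (by norm_num) hX
    have hX0 : (0 : ℝ) < P.X := by linarith
    have hD : (1 : ℝ) ≤ P.D := by
      have := L.XD 0 (by norm_num)
      rwa [pow_zero] at this
    have h12 : (200 : ℝ) ≤ (P.X : ℝ) ^ 12 :=
      calc (200 : ℝ) ≤ (10 : ℝ) ^ 20 := by norm_num
        _ ≤ P.X := hX
        _ = (P.X : ℝ) ^ 1 := (pow_one _).symm
        _ ≤ (P.X : ℝ) ^ 12 := pow_le_pow_right₀ hX1 (by norm_num)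
    have h1 := L.dev (100 * ((P.D : ℝ) + 1)) (by positivity) (by nlinarith)
    rw [le_div_iff₀ hX0]
    have h2 : (2 : ℝ) * (100 * ((P.D : ℝ) + 1)) * P.Lam = 200 * ((P.D : ℝ) + 1) * P.Lam := by ring
    rw [h2] at h1
    refine le_trans ?_ h1
    rw [mul_comm]
    apply mul_le_mul_of_nonneg_right _ (Real.sqrt_nonneg _)
    nlinarith
  · -- 7
    rw [ed.q2]
    exact L.rhoQ.2
  · -- 8
    intro u hu
    have hX : (10 : ℝ) ^ 20 ≤ P.X := L.X1
    have hX1 : (1 : ℝ) ≤ P.X := le_trans (by norm_num) hX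
    have hX0 : (0 : ℝ) < P.X := by linarith
    have hD0 : (0 : ℝ) ≤ P.D := Nat.cast_nonneg _
    have hsub : univ.filter (fun w => f.adj' P u w) ⊆ nb f.G u ∪
        (univ.filter (fun i => f.hv P i u)).biUnion (fun i => univ.filter (fun w => f.hv P i w)) := by
      intro w hw
      rw [mem_filter] at hw
      rw [mem_union, mem_nb, mem_biUnion]
      rcases hw.2 with h | ⟨_, _, _, i, h1, h2⟩
      · exact Or.inl h
      · exact Or.inr ⟨i, by simp [h1], by simp [h2]⟩
    have hcard : (univ.filter (fun w => f.adj' P u w)).card ≤ P.D +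
        ∑ i ∈ univ.filter (fun i => f.hv P i u), (univ.filter (fun w => f.hv P i w)).card := by
      calc _ ≤ _ := card_le_card hsub
        _ ≤ _ := card_union_le _ _
        _ ≤ _ := by
          rw [gr.reg]
          exact Nat.add_le_add_left card_biUnion_le _
    have hcardR : ((univ.filter (fun w => f.adj' P u w)).card : ℝ) ≤ P.D +
        ∑ i ∈ univ.filter (fun i => f.hv P i u), ((univ.filter (fun w => f.hv P i w)).card : ℝ) := by
      exact_mod_cast hcard
    have hsum : ∑ i ∈ univ.filter (fun i => f.hv P i u),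
        ((univ.filter (fun w => f.hv P i w)).card : ℝ) ≤
        ((univ.filter (fun i => f.hv P i u)).card : ℝ) * (103 * P.delta * P.D / P.eta) := by
      rw [← nsmul_eq_mul]
      exact sum_le_card_nsmul _ _ _ (fun i _ => gr.hv1 i)
    have h2 := gr.hv2 u
    have he0 := L.eta0
    have hcnt : ((univ.filter (fun i => f.hv P i u)).card : ℝ) ≤ 1 / P.eta := by
      rw [le_div_iff₀ he0]
      linarith
    have hd0 := L.del0
    have hb0 : 0 ≤ 103 * P.delta * P.D / P.eta := by positivity
    have hfin : 1 / P.eta * (103 * P.delta * P.D / P.eta) ≤ 1 / 10 * P.D := by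
      have h3 : 1 / P.eta * (103 * P.delta * P.D / P.eta) = (103 * P.delta / P.eta / P.eta) * P.D := by
        ring
      rw [h3]
      apply mul_le_mul_of_nonneg_right _ hD0
      have h4 : P.delta / P.eta ≤ 1 / (P.X : ℝ) ^ 3000 := by
        rw [div_le_div_iff₀ he0 (by positivity)]
        linarith [L.del1]
      have h5 : (1 : ℝ) / P.eta = (P.X : ℝ) ^ 1600 := by
        rw [H.nm.eta, one_div_one_div]
      calc 103 * P.delta / P.eta / P.eta = 103 * (P.delta / P.eta) * (1 / P.eta) := by ring
        _ ≤ 103 * (1 / (P.X : ℝ) ^ 3000) * (1 / P.eta) := by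
          apply mul_le_mul_of_nonneg_right _ (by positivity)
          linarith
        _ = 103 * (1 / (P.X : ℝ) ^ 3000) * (P.X : ℝ) ^ 1600 := by rw [h5]
        _ = 103 / (P.X : ℝ) ^ 1400 := by
          have h6 : (P.X : ℝ) ^ 3000 = (P.X : ℝ) ^ 1400 * (P.X : ℝ) ^ 1600 := by
            rw [← pow_add]
          rw [h6]
          have h7 : (P.X : ℝ) ^ 1400 ≠ 0 := pow_ne_zero _ hX0.ne'
          have h8 : (P.X : ℝ) ^ 1600 ≠ 0 := pow_ne_zero _ hX0.ne'
          generalize (P.X : ℝ) ^ 1400 = a at *
          generalize (P.X : ℝ) ^ 1600 = b at *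
          field_simp
        _ ≤ 1 / 10 := by
          have h9 : (1030 : ℝ) ≤ (P.X : ℝ) ^ 1400 :=
            calc (1030 : ℝ) ≤ (10 : ℝ) ^ 20 := by norm_num
              _ ≤ P.X := hX
              _ = (P.X : ℝ) ^ 1 := (pow_one _).symm
              _ ≤ (P.X : ℝ) ^ 1400 := pow_le_pow_right₀ hX1 (by norm_num)
          have h10 : (0 : ℝ) < (P.X : ℝ) ^ 1400 := pow_pos hX0 _
          generalize (P.X : ℝ) ^ 1400 = a at *
          rw [div_le_div_iff₀ h10 (by norm_num)]
          linarith
    calc _ ≤ _ := hcardR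
      _ ≤ P.D + ((univ.filter (fun i => f.hv P i u)).card : ℝ) *
          (103 * P.delta * P.D / P.eta) := by linarith
      _ ≤ P.D + 1 / P.eta * (103 * P.delta * P.D / P.eta) := by
        have := mul_le_mul_of_nonneg_right hcnt hb0
        linarith
      _ ≤ 11 / 10 * P.D := by linarith

end Pool.TCV
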