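import Pool.Agent.Helper3.TCV.StB
import Pool.Agent.Helper3.TCM.Ball

/-!
# T10, module TstL: the local lemma for tests
-/

set_option autoImplicit false

namespace Pool.TCV

open Pool.TC Pool.TCM Pool.TCS Pool.TN Finset
open scoped Classical

theorem thm_TstL (hLM : Pool.TCM.St_LM) : St_TstL := by
  intro V α _ _ _ G D N Lam C hD hLam hexp hI
  obtain ⟨J, Js, ctr, F, b, hN, hT, hC⟩ := hI
  have hT' : ∀ j : {j // j ∈ Js}, ∃ (cc : V → ℝ) (W : ℝ), (∀ t, 0 ≤ cc t) ∧
      (∀ t (ω ω' : V → α), (∀ t', t' ≠ t → ω t' = ω' t') → |F j.1 ω - F j.1 ω'| ≤ cc t) ∧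
      (∀ t, t ∉ ball G 8 (ctr j.1) → cc t = 0) ∧ ∑ t, cc t ^ 2 ≤ W ∧ 0 < W ∧
      mean (F j.1) + Real.sqrt (2 * W * Lam) ≤ b j.1 := fun j => hT j.1 j.2
  choose cc W h1 h2 h3 h4 h5 h6 using hT'
  obtain ⟨ω, hω⟩ := hLM V α {j // j ∈ Js} (fun j => F j.1) cc W
    (fun j => Real.sqrt (2 * W j * Lam)) (fun j => ball G 8 (ctr j.1)) Lam ((D + 1) ^ 16 * N)
    h1 h2 h3 h4 h5 (fun j => Real.sqrt_nonneg _)
    (fun j => (Real.sq_sqrt (by have := h5 j; positivity)).ge)
    (fun j => by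
      have e1 : ((univ.filter (fun j' : {j // j ∈ Js} =>
          ∃ t, t ∈ ball G 8 (ctr j.1) ∧ t ∈ ball G 8 (ctr j'.1))).map
            (Function.Embedding.subtype _)) ⊆
          (ball G 16 (ctr j.1)).biUnion (fun u => Js.filter (fun j' => ctr j' = u)) := by
        intro k hk
        rw [mem_map] at hk
        obtain ⟨j', hj', rfl⟩ := hk
        rw [mem_filter] at hj'
        obtain ⟨-, t, ht1, ht2⟩ := hj'
        rw [mem_biUnion]
        refine ⟨ctr j'.1, ?_, ?_⟩
        · have := ball_trans ht1 (ball_symm ht2)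
          exact this
        · rw [mem_filter]
          exact ⟨j'.2, rfl⟩
      have e2 := card_le_card e1
      rw [card_map] at e2
      refine e2.trans (card_biUnion_le.trans ?_)
      refine (sum_le_sum fun u _ => hN u).trans ?_
      rw [sum_const, smul_eq_mul]
      exact Nat.mul_le_mul_right _ (card_ball hD 16 _))
    (by push_cast; exact hexp)
  refine ⟨ω, hC ω fun j hj => ?_⟩
  have e1 := hω ⟨j, hj⟩
  have e2 := h6 ⟨j, hj⟩
  unfold mean at e2
  exact e1.trans e2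

end Pool.TCV
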