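import Pool.Agent.Helper3.TCM.All
import Pool.Agent.Helper3.TCS.Reg
import Pool.Agent.Helper3.TCS.Box
import Pool.Agent.Helper32.TN.Met
import Pool.Agent.Helper32.TN.Mch
import Pool.Agent.Helper93.TCU.All
import Pool.Agent.Helper91.TCU.Step3
import Pool.Agent.Helper94.TCU.Samp
import Pool.Agent.Helper3.TCV.NumL
import Pool.Agent.Helper3.TCV.NumX
import Pool.Agent.Helper3.TCV.Dec10
import Pool.Agent.Helper3.TCV.Ks
import Pool.Agent.Helper3.TCV.Pq
import Pool.Agent.Helper3.TCV.Hv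
import Pool.Agent.Helper3.TCV.Grr
import Pool.Agent.Helper3.TCV.Run10
import Pool.Agent.Helper3.TCV.EdA
import Pool.Agent.Helper3.TCV.E31
import Pool.Agent.Helper3.TCV.Blk
import Pool.Agent.Helper3.TCV.EdB
import Pool.Agent.Helper3.TCV.TstL
import Pool.Agent.Helper3.TCV.ImpA
import Pool.Agent.Helper3.TCV.Cnt
import Pool.Agent.Helper3.TCV.Cf
import Pool.Agent.Helper3.TCV.PrA
import Pool.Agent.Helper3.TCV.AF2
import Pool.Agent.Helper3.TCV.AF3
import Pool.Agent.Helper3.TCV.AF4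
import Pool.Agent.Helper3.TCV.AF5
import Pool.Agent.Helper3.TCV.AF6
import Pool.Agent.Helper3.TCV.Acc
import Pool.Agent.Helper3.TCV.PrT
import Pool.Agent.Helper3.TCV.Tal
import Pool.Agent.Helper3.TCV.Tb
import Pool.Agent.Helper3.TCV.TS1
import Pool.Agent.Helper3.TCV.TS2
import Pool.Agent.Helper3.TCV.TS3
import Pool.Agent.Helper3.TCV.TS4
import Pool.Agent.Helper3.TCV.TK1
import Pool.Agent.Helper3.TCV.TK2
import Pool.Agent.Helper3.TCV.TK4
import Pool.Agent.Helper3.TCV.TK5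
import Pool.Agent.Helper3.TCV.TK7
import Pool.Agent.Helper3.TCV.TK8
import Pool.Agent.Helper3.TCV.TK9
import Pool.Agent.Helper3.TCV.Tau10
import Pool.Agent.Helper3.TCV.Kb
import Pool.Agent.Helper3.TCV.Main10

/-!
Sections 1 to 5, 7 and 8 of `TC10_helper93.md` together: graph decomposition, edge colouring, activation, `τ`,
numbers, and the vertex colouring of the sparse part.
-/

set_option autoImplicit false

namespace Pool.TCV

open Pool.TC Pool.TCM Pool.TCS Finset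
open scoped Classical

theorem all_Num10 : St_Num10 := thm_NumX

theorem all_Kb : St_Kb := thm_Kb Pool.TN.thm_Met

theorem all_Gr10 : St_Gr10 :=
  thm_Grr thm_NumL (thm_Dec10 Pool.TN.thm_Met all_Kb) thm_Ks (thm_Pq thm_Ks Pool.TN.thm_Mch)
    (thm_Hv thm_NumL)

theorem all_Run10 : St_Run10 :=
  thm_Run10 Pool.TCM.thm_Viz (Pool.TCM.thm_CutA Pool.TCM.thm_Pack)
    (Pool.TCM.thm_CutB Pool.TCM.thm_Orb)
    (Pool.TCM.thm_Coin Pool.TCM.thm_LM Pool.TCM.thm_CoinA Pool.TCM.thm_CoinB Pool.TCM.thm_CoinC)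
    Pool.TCM.thm_Chain

theorem all_Ed10 : St_Ed10 :=
  thm_EdB thm_NumL (thm_EdA thm_NumL all_Run10) (thm_E31 thm_NumL) thm_Blk

theorem all_TstL : St_TstL := thm_TstL Pool.TCM.thm_LM

theorem all_Cf : St_Cf := thm_Cf thm_NumL

theorem all_PrA : St_PrA := thm_PrA thm_NumL Pool.TCS.thm_Box all_Cf

theorem all_PrT : St_PrT := thm_PrT Pool.TCS.thm_Box

theorem all_Ac10 : St_Ac10 :=
  thm_Acc thm_NumL all_TstL thm_ImpA all_Cf
    (thm_AF2 thm_NumL thm_CntQ all_Cf all_PrA)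
    (thm_AF3 thm_NumL thm_ImpA thm_CntQ all_Cf all_PrA)
    (thm_AF4 thm_NumL thm_CntQ all_Cf all_PrA)
    (thm_AF5 thm_NumL thm_CntQ all_Cf all_PrA)
    (thm_AF6 thm_NumL thm_CntQ all_Cf all_PrA)

theorem all_Tal : St_Tal := thm_Tal thm_CntQ all_PrT

theorem all_Tb : St_Tb := thm_Tb thm_NumL

theorem all_Ta10 : St_Ta10 :=
  thm_Tau10 thm_NumL all_TstL thm_ImpA
    (thm_TS1 thm_NumL thm_ImpA all_Tal all_Tb)
    (thm_TS2 thm_NumL thm_ImpA all_Tal all_Tb)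
    (thm_TS3 thm_NumL all_Tal all_Tb)
    (thm_TS4 thm_NumL thm_CntQ all_PrT all_Tb)
    (thm_TK1 thm_NumL all_Tal all_Tb)
    (thm_TK2 thm_NumL thm_ImpA all_Tal all_Tb)
    (thm_TK4 thm_NumL all_Tal all_Tb)
    (thm_TK5 thm_NumL thm_ImpA all_Tal all_Tb)
    (thm_TK7 thm_NumL thm_ImpA all_Tal all_Tb)
    (thm_TK8 thm_NumL thm_ImpA all_Tal all_Tb)
    (thm_TK9 thm_NumL thm_CntQ all_PrT all_Tb)

theorem all_S10 : St_S10 := Pool.TCU.all_S10

/-- The theorem, from the two remaining parts (the set `X` and the clusters). -/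
theorem total_three_of (hX : St_X10) (hK : St_K10) :
    ∃ D0 : ℕ, ∀ D ≥ D0, ∀ {V : Type*} [Fintype V] (G : SimpleGraph V),
    (∀ u, (univ.filter (fun v => G.Adj u v)).card ≤ D) →
    ∃ (c : V → Fin (D + 3)) (e : Sym2 V → Fin (D + 3)), IsTotalColouring G c e :=
  main10 (thm_Main10 Pool.TCS.thm_Reg all_Num10 all_Gr10 all_Ed10 all_Ac10 all_Ta10 hX all_S10 hK)

end Pool.TCV
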