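import Pool.Agent.Helper3.TCS.Nib
import Pool.Agent.Helper3.TCT.Ext
import Pool.Agent.Helper3.TCT.Pai
import Pool.Agent.Helper3.TCT.BernL
import Pool.Agent.Helper3.TCS.LLL0
import Pool.Agent.Helper3.TCV.AllB
import Pool.Agent.Helper60.TCV.AlB
import Pool.Agent.Helper60.TCV.AllX
import Pool.Agent.Helper60.TCV.Bd1
import Pool.Agent.Helper60.TCV.Bd2
import Pool.Agent.Helper60.TCV.Blo
import Pool.Agent.Helper60.TCV.CbP
import Pool.Agent.Helper60.TCV.Cn10
import Pool.Agent.Helper60.TCV.Cnt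
import Pool.Agent.Helper60.TCV.Few
import Pool.Agent.Helper60.TCV.Fi10
import Pool.Agent.Helper60.TCV.GdN
import Pool.Agent.Helper60.TCV.Good10
import Pool.Agent.Helper60.TCV.Grp
import Pool.Agent.Helper60.TCV.Grp2
import Pool.Agent.Helper60.TCV.HAs
import Pool.Agent.Helper60.TCV.HBs
import Pool.Agent.Helper60.TCV.HCs
import Pool.Agent.Helper60.TCV.K10
import Pool.Agent.Helper60.TCV.Mom
import Pool.Agent.Helper60.TCV.Pr10
import Pool.Agent.Helper60.TCV.Ro
import Pool.Agent.Helper60.TCV.Samp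
import Pool.Agent.Helper60.TCV.SmpP
import Pool.Agent.Helper60.TCV.Sp10
import Pool.Agent.Helper60.TCV.SpC
import Pool.Agent.Helper60.TCV.SpN
import Pool.Agent.Helper60.TCV.SpO
import Pool.Agent.Helper60.TCV.SpT
import Pool.Agent.Helper60.TCV.StK1
import Pool.Agent.Helper60.TCV.StK2
import Pool.Agent.Helper60.TCV.StK3
import Pool.Agent.Helper60.TCV.StT
import Pool.Agent.Helper60.TCV.StX
import Pool.Agent.Helper60.TCV.Su1
import Pool.Agent.Helper60.TCV.Su2
import Pool.Agent.Helper60.TCV.Sub10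
import Pool.Agent.Helper60.TCV.ThG
import Pool.Agent.Helper60.TCV.Tr10
import Pool.Agent.Helper60.TCV.Use
import Pool.Agent.Helper60.TCV.X10
import Pool.Agent.Helper60.TCV.XCf
import Pool.Agent.Helper60.TCV.XNu
import Pool.Agent.Helper60.TCV.XSu
import Pool.Agent.Helper60.TCV.XTo

/-!
The theorem: `Δ + 3` colours for all graphs of large maximum degree.
-/

set_option autoImplicit false

namespace Pool.TCV

open Pool.TC Pool.TCM Pool.TCS Finset
open scoped Classical

theorem allSamp : St_Samp := thm_Samp Pool.TCS.thm_LLL0 (thm_SmpP Pool.TCT.thm_BernL)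

theorem allX10 : St_X10 := thm_X10 allSamp thm_Blo thm_XCf thm_XTo thm_XSu thm_XNu

theorem allFew : St_Few := thm_Few thm_Use

theorem allRo : St_Ro :=
  thm_Ro (thm_AlB allFew)
    (thm_Sub10 Pool.TCS.thm_LLL0 (thm_Su1 (thm_ThG Pool.TCT.thm_BernL)) (thm_Su2 Pool.TCT.thm_BernL))
    (thm_Good10 Pool.TCS.thm_IterAll Pool.TCT.thm_Ext thm_GdN)

theorem allK10 : St_K10 :=
  thm_K10 (thm_Sp10 allSamp (thm_SpO thm_Use) thm_SpC thm_SpT thm_SpN) allRo
    (thm_HAs thm_CbP) (thm_HBs thm_Cnt allFew) (thm_HCs allFew)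
    (thm_Pr10 Pool.TCT.thm_Pai (thm_Bd1 thm_Mom) (thm_Bd2 thm_Mom)) (thm_Tr10 thm_Cn10) thm_Fi10

/-- The main theorem. -/
theorem total_three :
    ∃ D0 : ℕ, ∀ D ≥ D0, ∀ {V : Type*} [Fintype V] (G : SimpleGraph V),
    (∀ u, (univ.filter (fun v => G.Adj u v)).card ≤ D) →
    ∃ (c : V → Fin (D + 3)) (e : Sym2 V → Fin (D + 3)), IsTotalColouring G c e :=
  total_three_of allX10 allK10

end Pool.TCV
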