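import Pool.Agent.Helper3.TCS.Stmts
import Pool.Agent.Helper32.TN.StA

/-!
# The total chromatic number is at most `Δ + 3` for large `Δ`: common definitions and interfaces

Paper proof: `TC10_helper93.md` (sections 0-12; section 6, (F6), (K9) are replaced by helper60's blocks).  This file contains the parameters, the data of the
stages 1-5 (decomposition, fixed data, edge colouring, free rows, bipartition), and the interface
structures of all stages.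

`K : V → Option V`: `K v = some i` iff `v` lies in the cluster `K_i` (`i` is the vertex `u_i`),
`K v = none` iff `v ∈ S`.  The cluster `K_i` is nonempty iff `K i = some i`.
-/

set_option autoImplicit false

namespace Pool.TCV

open Pool.TC Pool.TCM Pool.TCS Pool.TN Finset
open scoped Classical

/-! ### Parameters -/

/-- the parameters (values: `Num10`) -/
structure Par where
  /-- the degree -/
  D : ℕ
  /-- `Nat.log 2 D` -/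
  X : ℕ
  /-- number of groups of main colours -/
  s : ℕ
  /-- number of bits of the main colours -/
  l : ℕ
  /-- number of leftover colours -/
  lo : ℕ
  /-- `J0` = main colours whose first `r` bits are `0` -/
  r : ℕ
  pa : ℕ
  t0 : ℕ
  /-- `M_W` -/
  MW : ℕ
  /-- the `K` of the nibble -/
  kn : ℕ
  /-- `ceil (eta D)` -/
  B : ℕ
  Lam : ℝ
  nz : ℝ
  rho : ℝ
  theta : ℝ
  eps : ℝ
  eta : ℝ
  delta : ℝ
  pmax : ℝ
  xi : ℝ
  /-- `theta'` -/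
  thp : ℝ
  fmin : ℝ

/-- The values of the parameters. -/
structure Num10 (P : Par) : Prop where
  X0 : 10 ^ 20 ≤ P.X
  XL : P.X = Nat.log 2 P.D
  XD : (P.X : ℝ) ^ 4000000 ≤ P.D
  pa : P.pa = P.X ^ 5
  t0 : P.t0 = P.X ^ 4
  MW : P.MW = P.X ^ 6
  kn : P.kn = P.X ^ 3
  Lam : P.Lam = (P.X : ℝ) ^ 3
  nz : P.nz = (P.X : ℝ) ^ 10 * Real.sqrt P.D
  rho : P.rho = 1 / (P.X : ℝ) ^ 13
  theta : P.theta = 1 / (P.X : ℝ) ^ 14
  eps : P.eps = 1 / (P.X : ℝ) ^ 15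
  eta : P.eta = 1 / (P.X : ℝ) ^ 1600
  delta : P.delta = 1 / (P.X : ℝ) ^ 4900
  pmax : P.pmax = 103 * P.delta / P.theta
  xi : P.xi = 2000 * P.Lam * P.pmax
  thp : P.thp = (1 / 2) ^ P.r / (4 * P.pa)
  fmin : P.fmin = 1 / (500 * P.pa)
  B : P.B = ⌈P.eta * P.D⌉₊
  s2 : 2 ≤ P.s
  lol : P.lo ≤ 2 ^ P.l
  sum : P.s * 2 ^ P.l + P.lo = P.D + 1
  lX : P.l + 1 ≤ P.X
  lD : P.D ≤ 16 * 2 ^ P.l
  r7 : 7 ≤ P.r
  rl : P.r ≤ P.l
  r1 : bet (8 * P.kn) P.kn ^ 2 * P.delta / 160 < (1 / 2 : ℝ) ^ P.r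
  r2 : (1 / 2 : ℝ) ^ P.r ≤ bet (8 * P.kn) P.kn ^ 2 * P.delta / 80

/-! ### The data of the graph: clusters and pairs -/

/-- The graph, the clusters, the pairs `M_i` (an involution `pr`), `mu i = |M_i|`, `lam i`. -/
structure Gd (V : Type) where
  G : SimpleGraph V
  K : V → Option V
  pr : V → V
  mu : V → ℕ
  lam : V → ℕ

section gd

variable {V : Type} [Fintype V] (P : Par) (g : Gd V)

/-- the cluster `K_i` -/
noncomputable def Gd.Ki (i : V) : Finset V := univ.filter (fun v => g.K v = some i)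

/-- `o(w)`: the number of neighbours outside of the cluster of `w` -/
noncomputable def Gd.oo (w : V) : ℕ := ((nb g.G w).filter (fun v => g.K v ≠ g.K w)).card

/-- `a_w`: the number of non-neighbours in the cluster of `w` -/
noncomputable def Gd.aw (w : V) : ℕ :=
  (univ.filter (fun v => g.K v = g.K w ∧ v ≠ w ∧ ¬ g.G.Adj w v)).card

/-- `|N(x) ∩ K_i|` -/
noncomputable def Gd.dk (i x : V) : ℕ := ((nb g.G x).filter (fun v => g.K v = some i)).card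

/-- `k_x D = |N(x) ∩ KU|` -/
noncomputable def Gd.dKU (x : V) : ℕ := ((nb g.G x).filter (fun v => g.K v ≠ none)).card

/-- `x` is heavy for `i` -/
def Gd.hv (i x : V) : Prop := g.K x ≠ some i ∧ P.eta * P.D ≤ g.dk i x

/-- irregular rows -/
def Gd.Irr (w : V) : Prop := g.K w ≠ none ∧ P.eta * P.D ≤ g.oo w

/-- the special rows: pairs and irregular rows -/
def Gd.Sp (w : V) : Prop := g.K w ≠ none ∧ (g.pr w ≠ w ∨ P.eta * P.D ≤ g.oo w)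

/-- `Sp_i` -/
noncomputable def Gd.Spi (i : V) : Finset V := univ.filter (fun w => g.K w = some i ∧ g.Sp P w)

/-- the regular rows of `K_i` -/
noncomputable def Gd.Rg (i : V) : Finset V := univ.filter (fun w => g.K w = some i ∧ ¬ g.Sp P w)

/-- the light vertices of `S` -/
def Gd.A (x : V) : Prop := g.K x = none ∧ ∀ i, ¬ g.hv P i x

/-- virtual edges -/
def Gd.vir (x y : V) : Prop :=
  x ≠ y ∧ g.K x = none ∧ g.K y = none ∧ ∃ i, g.hv P i x ∧ g.hv P i y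

/-- adjacency with the virtual edges -/
def Gd.adj' (x y : V) : Prop := g.G.Adj x y ∨ g.vir P x y

end gd

/-- Sections 1 and 2: the properties of the clusters and of the pairs. -/
structure GrP {V : Type} [Fintype V] (P : Par) (g : Gd V) : Prop where
  reg : ∀ u, (nb g.G u).card = P.D
  /-- `u_i ∈ K_i` -/
  rt : ∀ i w, g.K w = some i → g.K i = some i
  loc : ∀ i w, g.K w = some i → w ∈ ball g.G 2 i
  /-- (D2) -/
  d2 : ∀ x, g.K x = none → P.delta * P.D ^ 2 ≤ npr g.G x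
  /-- (D3) -/
  d3 : ∀ i, g.K i = some i → ((g.Ki i \ cnb g.G i).card : ℝ) + (cnb g.G i \ g.Ki i).card ≤
    102 * P.delta * P.D
  /-- (D4) -/
  d4 : ∀ w, g.K w ≠ none → 99 * g.oo w ≤ P.D
  d4' : ∀ w, g.K w ≠ none → 98 * g.aw w ≤ P.D
  /-- (D5) -/
  d5 : ∀ i, (∑ w ∈ g.Ki i, (g.oo w : ℝ)) ≤ 103 * P.delta * P.D ^ 2
  /-- (D6) -/
  d6 : ∀ i x, g.K i = some i → g.K x ≠ some i → P.D ≤ 113 * (g.Ki i \ nb g.G x).card
  /-- the pairs -/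
  pinv : ∀ w, g.pr (g.pr w) = w
  padj : ∀ w, g.pr w ≠ w → g.K w ≠ none ∧ g.K (g.pr w) = g.K w ∧ ¬ g.G.Adj w (g.pr w)
  pcard : ∀ i, ((g.Ki i).filter (fun w => g.pr w ≠ w)).card = 2 * g.mu i
  mu1 : ∀ i, (g.mu i : ℝ) ≤ 415 * P.delta * P.D
  /-- `|K_i| + lambda_i = D + 1 + mu_i` -/
  lm : ∀ i, g.K i = some i → (g.Ki i).card + g.lam i = P.D + 1 + g.mu i
  lm1 : ∀ i, (g.lam i : ℝ) ≤ 520 * P.delta * P.D
  /-- (**) -/
  ss : ∀ i, ∑ w ∈ g.Rg P i, g.oo w ≤ (g.Rg P i).card * g.lam i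
  /-- `| |K_i| - (D + 1) | ≤ 102 delta D` -/
  k1 : ∀ i, g.K i = some i → (P.D : ℝ) + 1 - 102 * P.delta * P.D ≤ (g.Ki i).card
  k2 : ∀ i, ((g.Ki i).card : ℝ) ≤ (P.D : ℝ) + 1 + 102 * P.delta * P.D
  /-- `a_w ≤ o(w) + 102 delta D` -/
  aw1 : ∀ w, g.K w ≠ none → (g.aw w : ℝ) ≤ g.oo w + 102 * P.delta * P.D
  irr : ∀ i, ((univ.filter (fun w => g.K w = some i ∧ g.Irr P w)).card : ℝ) ≤
    103 * P.delta * P.D / P.eta
  sp1 : ∀ i, ((g.Spi P i).card : ℝ) ≤ 104 * P.delta * P.D / P.eta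
  n1 : ∀ i, g.K i = some i → 999 * P.D ≤ 1000 * (g.Rg P i).card
  hv1 : ∀ i, ((univ.filter (fun x => g.hv P i x)).card : ℝ) ≤ 103 * P.delta * P.D / P.eta
  hv2 : ∀ x, P.eta * ((univ.filter (fun i => g.hv P i x)).card : ℝ) ≤ 1
  hv3 : ∀ x, g.K x ≠ none → 99 * (P.eta * ((univ.filter (fun i => g.hv P i x)).card : ℝ)) ≤ 1
  hvI : ∀ i x, g.hv P i x → g.K x ≠ none → g.Irr P x
  hvk : ∀ x, g.K x = none → ¬ g.A P x → P.eta * P.D ≤ g.dKU x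
  lig : ∀ i j w, w ∈ g.Rg P j → i ≠ j → (g.dk i w : ℝ) ≤ P.eta * P.D

/-! ### The edge colouring -/

/-- The edge colouring `E`, the uncoloured matching `z`, the missing colours `m`, the sets of colours
`J0 ⊆ J1`, the reserved colours `Q`, the blocks `Gam i k`, `k < nbl i`, of problem colours. -/
structure Ed (V κ : Type) extends Gd V where
  E : EC κ V
  z : V → V
  m : V → κ
  J0 : Finset κ
  J1 : Finset κ
  Q : Finset κ
  nbl : V → ℕ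
  Gam : V → ℕ → Finset κ

section ed

variable {V κ : Type} [Fintype V] [Fintype κ] (P : Par) (e : Ed V κ)

/-- `N_a w` -/
def Ed.N (a : κ) (w : V) : V := e.E.N a w

/-- fixed cells -/
def Ed.fx (w : V) (a : κ) : Prop := e.E.N a w = w

/-- good cells -/
def Ed.gc (w : V) (a : κ) : Prop := e.E.N a w ≠ w ∧ e.z (e.E.N a w) = e.E.N a w

/-- the problem colours `P_i` -/
noncomputable def Ed.Pb (i : V) : Finset κ := univ.filter (fun a =>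
  P.theta * P.D < ((univ.filter (fun w => e.K w = some i ∧ e.K (e.E.N a w) ≠ some i)).card : ℝ))

/-- `W0_{i,a}` -/
noncomputable def Ed.W0 (i : V) (a : κ) : Finset V := univ.filter (fun w =>
  w ∈ e.Rg P i ∧ (e.fx w a ∨ (e.gc w a ∧ e.K (e.E.N a w) = some i)))

/-- `Wt`: the number of the cells of the block `k` of the cluster `i` -/
noncomputable def Ed.Wt (i : V) (k : ℕ) : ℕ := ∑ a ∈ e.Gam i k, (e.W0 P i a).card

/-- candidates for the free rows -/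
def Ed.cand (w : V) : Prop := (e.A P w ∧ e.m w ∈ e.J0) ∨
  ∃ i, w ∈ e.Rg P i ∧ e.G.Adj i w ∧ e.m w ∈ e.J1 ∧ e.m w ∉ e.J0 ∧ e.m w ∉ e.Pb P i

/-- conflicts of candidates -/
def Ed.cf (u w : V) : Prop := u ≠ w ∧ e.cand P u ∧ e.cand P w ∧ e.m u = e.m w ∧
  (e.G.Adj u w ∨ (e.K u ≠ none ∧ e.K u = e.K w))

/-- the number of colours `a ∉ J0` for which `N_a v ≠ v` has the property `R` -/
noncomputable def Ed.cj (R : V → Prop) (v : V) : ℕ :=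
  (univ.filter (fun a => a ∉ e.J0 ∧ e.E.N a v ≠ v ∧ R (e.E.N a v))).card

end ed

/-- Section 3: the properties of the edge colouring. -/
structure EdP {V κ : Type} [Fintype V] [Fintype κ] (P : Par) (e : Ed V κ) : Prop where
  col : Fintype.card κ = P.D + 1
  zinv : ∀ u, e.z (e.z u) = u
  zadj : ∀ u, e.z u ≠ u → e.G.Adj u (e.z u)
  sub : ∀ a u, e.E.N a u ≠ u → e.G.Adj u (e.E.N a u)
  cov : ∀ u v, e.G.Adj u v → (∃ a, e.E.N a u = v) ∨ e.z u = v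
  miss : ∀ w, e.E.N (e.m w) w = w
  j01 : e.J0 ⊆ e.J1
  j0 : (e.J0.card : ℝ) ≤ (1 / 2) ^ P.r * ((P.D : ℝ) + 1)
  j1 : 128 * e.J1.card ≤ P.D + 1
  q1 : ∀ a ∈ e.Q, a ∉ e.J1
  q2 : e.Q.card = ⌊P.rho * P.D⌋₊
  /-- (R1) -/
  r1 : ∀ v, (∑ a, if a ∉ e.J0 ∧ e.E.N a v ≠ v then
    (if e.A P (e.E.N a v) then (if e.m (e.E.N a v) ∈ e.J0 then 1 - 1 / (2 * (P.pa : ℝ)) else 1)
      else 1 - P.thp) else 0) ≤ ((P.D : ℝ) + 1 - e.J0.card) * (1 - P.thp) + P.nz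
  /-- (R2) -/
  r2 : ∀ v, P.D ≤ 300 * ((nb e.G v).filter (fun w => e.m w ∈ e.J1)).card
  /-- (R3) -/
  r3 : ∀ v, ∀ a ∈ e.J1, ((nb e.G v).filter (fun w => e.m w = a)).card ≤ P.t0
  /-- (R4) -/
  r4 : ∀ v, (((ball e.G 8 v)).filter (fun w => e.z w ≠ w)).card ≤ 2 * P.X
  r4' : ∀ i, ((univ.filter (fun w => e.K w = some i ∧ e.z w ≠ w)).card) ≤ 2 * P.X
  /-- `|P_i| ≤ p_max D` -/
  pb : ∀ i, ((e.Pb P i).card : ℝ) ≤ P.pmax * P.D
  /-- (BLOCKS) -/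
  gm1 : ∀ i k, k < e.nbl i → e.Gam i k ⊆ e.Pb P i
  gm2 : ∀ i k k', k < e.nbl i → k' < e.nbl i → k ≠ k' → Disjoint (e.Gam i k) (e.Gam i k')
  gm3 : ∀ i, (e.Pb P i).card ≤ e.nbl i + e.lam i
  gm4 : ∀ i k, k < e.nbl i → (e.Rg P i).card ≤ 4 * e.Wt P i k
  gm5 : ∀ i, e.nbl i ≤ (e.Pb P i).card
  gm6 : ∀ i, e.K i ≠ some i → e.nbl i = 0

/-! ### The free rows -/

/-- the free rows `F0` -/
structure Fd (V κ : Type) extends Ed V κ where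
  F0 : V → Prop

section fd

variable {V κ : Type} [Fintype V] [Fintype κ] (P : Par) (f : Fd V κ)

/-- `F0_i` -/
noncomputable def Fd.F0i (i : V) : Finset V := univ.filter (fun w => f.K w = some i ∧ f.F0 w)

/-- `m(F0_i)` -/
noncomputable def Fd.mF (i : V) : Finset κ := (f.F0i i).image f.m

/-- `FB_{i,a}` -/
noncomputable def Fd.FB (i : V) (a : κ) : Finset V := univ.filter (fun w => f.K w = some i ∧
  ∃ x, f.F0 x ∧ f.K x ≠ some i ∧ f.G.Adj x w ∧ f.m x = a)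

/-- `U = S \ F0` -/
def Fd.U (x : V) : Prop := f.K x = none ∧ ¬ f.F0 x

end fd

/-- Section 4: the properties of the free rows. -/
structure AcP {V κ : Type} [Fintype V] [Fintype κ] (P : Par) (f : Fd V κ) : Prop where
  f0 : ∀ w, f.F0 w → f.cand P w
  /-- (F1) -/
  f1 : ∀ u w, f.F0 u → f.F0 w → ¬ f.cf P u w
  /-- (F2) -/
  f2 : ∀ v, (f.cj (fun w => f.A P w ∧ ¬ f.F0 w) v : ℝ) +
    (1 - P.thp) * (f.cj (fun w => ¬ f.A P w) v : ℝ) ≤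
      ((P.D : ℝ) + 1 - f.J0.card) * (1 - P.thp) + 2 * P.nz
  /-- (F3) -/
  f3 : ∀ i, f.K i = some i → P.fmin * P.D ≤ (f.F0i i).card
  f3' : ∀ i, P.pa * (f.F0i i).card ≤ 2 * P.D
  /-- (F4) -/
  f4 : ∀ i a, 1000 * (∑ x ∈ univ.filter (fun x => f.F0 x ∧ f.K x ≠ some i ∧ f.m x = a),
    f.dk i x) ≤ P.D
  f4' : ∀ i a, 1000 * (f.FB i a).card ≤ P.D
  /-- (F5) -/
  f5 : ∀ i, ∀ v ∈ f.Rg P i, ((univ.filter (fun w => f.F0 w ∧ f.K w = some i ∧ f.G.Adj v w ∧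
    ∃ a, f.E.N a v = w ∧ (a ∈ f.Q ∨ a ∈ f.mF i))).card : ℝ) ≤ P.fmin * P.D / 8
  /-- (F6) -/
  f6 : ∀ i k, k < f.nbl i → 100 * (∑ a ∈ f.Gam i k, ((f.W0 P i a) ∩ (f.FB i a)).card) ≤
    f.Wt P i k

/-! ### The bipartition and the reserved right vertices -/

/-- the bipartition `tau`, the reserved right vertices `W*` -/
structure Td (V κ : Type) extends Fd V κ where
  tau : V → Bool
  W : V → Prop

section td

variable {V κ : Type} [Fintype V] [Fintype κ] (P : Par) (t : Td V κ)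

/-- crossing cells -/
def Td.cr (w : V) (a : κ) : Prop := t.gc w a ∧ t.tau (t.E.N a w) ≠ t.tau w

/-- the rows of `U`, adjacent to `u`, for which the cell of the colour `a` is good -/
noncomputable def Td.PU (u : V) (a : κ) : Finset V :=
  univ.filter (fun w => t.adj' P u w ∧ t.U w ∧ t.gc w a)

/-- `W1_{i,a}` -/
noncomputable def Td.W1 (i : V) (a : κ) : Finset V :=
  (t.W0 P i a).filter (fun w => w ∉ t.FB i a ∧ (t.fx w a ∨ t.cr w a))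

end td

/-- Section 5, the estimates for the S-stage. -/
structure TaS {V κ : Type} [Fintype V] [Fintype κ] (P : Par) (t : Td V κ) : Prop where
  tz : ∀ u, t.tau (t.z u) = t.tau u
  /-- (S1) -/
  s1 : ∀ u, ((P.D : ℝ) + 1 - t.J0.card) / 2 - P.nz ≤
    ((univ.filter (fun a => a ∉ t.J0 ∧ t.cr u a)).card : ℝ)
  /-- (S1K) -/
  s1k : ∀ u, t.K u = none → ((t.dKU u : ℝ) - t.J0.card) / 2 - P.nz ≤
    ((univ.filter (fun a => a ∉ t.J0 ∧ t.cr u a ∧ t.K (t.E.N a u) ≠ none)).card : ℝ)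
  /-- (S2) -/
  s2 : ∀ v, ((univ.filter (fun a => a ∉ t.J0 ∧ (t.A P (t.E.N a v) ∧ ¬ t.F0 (t.E.N a v)) ∧
      t.tau (t.E.N a v) ≠ t.tau v)).card : ℝ) ≤
    1 / 2 * (t.cj (fun w => t.A P w ∧ ¬ t.F0 w) v : ℝ) + P.nz
  s2' : ∀ v, ((univ.filter (fun a => a ∉ t.J0 ∧ (t.K (t.E.N a v) = none ∧ ¬ t.A P (t.E.N a v)) ∧
      t.tau (t.E.N a v) ≠ t.tau v)).card : ℝ) ≤
    1 / 2 * (t.cj (fun w => t.K w = none ∧ ¬ t.A P w) v : ℝ) + P.nz
  /-- (S3) -/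
  s3 : ∀ u a, t.K u = none → a ∉ t.J0 →
    (((t.PU P u a).filter (fun w => t.cr w a)).card : ℝ) ≤ ((t.PU P u a).card : ℝ) / 2 + P.nz
  /-- (S4) -/
  s4 : ∀ u a, t.K u = none → a ∉ t.J0 →
    1 / 4 * ((((t.PU P u a) ×ˢ (t.PU P u a)).filter
      (fun w => w.1 ≠ w.2 ∧ ¬ t.adj' P w.1 w.2)).card : ℝ) - P.D * P.nz ≤
    ((((t.PU P u a) ×ˢ (t.PU P u a)).filter
      (fun w => w.1 ≠ w.2 ∧ ¬ t.adj' P w.1 w.2 ∧ t.cr w.1 a ∧ t.cr w.2 a)).card : ℝ)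

/-- Section 5, the estimates for the K-stage. -/
structure TaK {V κ : Type} [Fintype V] [Fintype κ] (P : Par) (t : Td V κ) : Prop where
  /-- (K1) -/
  k1 : ∀ i a, t.K i = some i → a ∉ t.Pb P i →
    1 / 2 * (1 - 1 / (P.MW : ℝ)) * (((t.Rg P i).card : ℝ) - (t.F0i i).card - P.theta * P.D -
      (t.Spi P i).card - 2 * P.X) - P.nz ≤
    ((univ.filter (fun w => w ∈ t.Rg P i ∧ ¬ t.F0 w ∧ (t.fx w a ∨
      (t.cr w a ∧ t.E.N a w ∈ t.Rg P i ∧ ¬ t.W (t.E.N a w))))).card : ℝ)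
  /-- (K2) -/
  k2 : ∀ i, ∀ w ∈ t.Rg P i,
    ((univ.filter (fun a => a ∉ t.Q ∧ a ∉ t.mF i ∧ t.cr w a ∧ ¬ t.W (t.E.N a w))).card : ℝ) ≤
    1 / 2 * (1 - 1 / (P.MW : ℝ)) * ((P.D : ℝ) + 1 - t.Q.card - (t.F0i i).card) + P.nz
  /-- (K3) -/
  k3 : ∀ i, ∀ v ∈ t.Rg P i,
    ((univ.filter (fun a => a ∉ t.Q ∧ a ∉ t.mF i ∧ t.E.N a v ∈ t.Rg P i ∧ ¬ t.F0 (t.E.N a v) ∧
      t.tau (t.E.N a v) ≠ t.tau v)).card : ℝ) ≤
    1 / 2 * ((P.D : ℝ) + 1 - t.Q.card - 2 * (t.F0i i).card + P.fmin * P.D / 8 +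
      2 * P.eta * P.D) + P.nz
  /-- (K4) -/
  k4 : ∀ i a (T : Finset V), t.K i = some i → a ∉ t.Pb P i →
    (T = ∅ ∨ ∃ x y, t.K x ≠ some i ∧ t.K y ≠ some i ∧ T = nb t.G x ∪ nb t.G y) →
    P.D ≤ 113 * (t.Ki i \ T).card →
    P.D ≤ 300 * P.MW * (univ.filter (fun w => w ∈ t.Rg P i ∧ ¬ t.F0 w ∧ w ∉ t.FB i a ∧ w ∉ T ∧
      (t.fx w a ∨ (t.cr w a ∧ t.E.N a w ∈ t.Rg P i ∧ t.W (t.E.N a w))))).card
  /-- (K5) -/
  k5 : ∀ i, ∀ u ∈ t.Rg P i, 45 * P.D ≤ 100 * P.MW *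
    (univ.filter (fun a => a ∉ t.Q ∧ a ∉ t.mF i ∧ a ∉ t.Pb P i ∧ t.cr u a ∧
      t.E.N a u ∈ t.Rg P i ∧ t.W (t.E.N a u))).card
  /-- (K6) -/
  k6 : ∀ i, ∀ w ∈ t.Rg P i, ((t.Q.card : ℝ) - 2 * P.eta * P.D) / (2 * P.MW) - P.nz ≤
    ((t.Q.filter (fun a => t.cr w a ∧ t.E.N a w ∈ t.Rg P i ∧ t.W (t.E.N a w))).card : ℝ)
  k6' : ∀ i, ∀ w ∈ t.Rg P i, ∀ w' ∈ t.Rg P i, w ≠ w' →
    ((t.Q.filter (fun a => t.cr w a ∧ t.cr w' a ∧ t.W (t.E.N a w) ∧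
      t.W (t.E.N a w'))).card : ℝ) ≤ (t.Q.card : ℝ) / (4 * (P.MW : ℝ) ^ 2) + P.nz
  /-- (K7) -/
  k7 : ∀ i b, ((univ.filter (fun u => u ∈ t.Rg P i ∧ t.gc u b ∧
      t.E.N b u ∈ t.Rg P i)).card : ℝ) / (2 * P.MW) - P.nz ≤
    ((univ.filter (fun u => u ∈ t.Rg P i ∧ t.cr u b ∧ t.E.N b u ∈ t.Rg P i ∧
      t.W (t.E.N b u))).card : ℝ)
  k7' : ∀ i b b', b ≠ b' → ((univ.filter (fun u => u ∈ t.Rg P i ∧ t.cr u b ∧ t.cr u b' ∧
      t.W (t.E.N b u) ∧ t.W (t.E.N b' u))).card : ℝ) ≤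
    ((t.Rg P i).card : ℝ) / (4 * (P.MW : ℝ) ^ 2) + P.nz
  /-- (K8) -/
  k8 : ∀ i x, t.K x = some i → t.pr x ≠ x → 24 * P.D ≤ 100 *
    (univ.filter (fun a => a ∉ t.Q ∧ a ∉ t.mF i ∧ a ∉ t.Pb P i ∧ t.cr x a ∧ t.cr (t.pr x) a ∧
      t.E.N a x ∈ t.Rg P i ∧ ¬ t.W (t.E.N a x) ∧ t.E.N a (t.pr x) ∈ t.Rg P i ∧
      ¬ t.W (t.E.N a (t.pr x)))).card
  k8' : ∀ i x, t.K x = some i → t.Irr P x → 48 * P.D ≤ 100 *
    (univ.filter (fun a => a ∉ t.Q ∧ a ∉ t.mF i ∧ a ∉ t.Pb P i ∧ t.cr x a ∧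
      t.E.N a x ∈ t.Rg P i ∧ ¬ t.W (t.E.N a x))).card
  /-- (K9) -/
  k9 : ∀ i k, k < t.nbl i → 49 * t.Wt P i k ≤ 100 * (∑ a ∈ t.Gam i k, (t.W1 P i a).card)

/-- The result of the sections 1-5. -/
structure Bse {V κ : Type} [Fintype V] [Fintype κ] (P : Par) (t : Td V κ) : Prop where
  gr : GrP P t.toGd
  ed : EdP P t.toEd
  ac : AcP P t.toFd
  ts : TaS P t
  tk : TaK P t

/-! ### The interfaces of the later stages -/

section later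

variable {V κ : Type} [Fintype V] [Fintype κ]

/-- the columns of the rows `X` -/
def colX (t : Td V κ) (X : V → Prop) (cX : V → κ) (v : V) : Prop :=
  ∃ w, X w ∧ t.E.N (cX w) w = v

/-- Section 6: the rows `X` with problem colours `cX`. -/
structure XP (P : Par) (t : Td V κ) (X : V → Prop) (cX : V → κ) : Prop where
  row : ∀ w, X w → ∃ i, w ∈ t.Rg P i
  /-- (X1) -/
  x1 : ∀ i w, X w → t.K w = some i → cX w ∈ t.Pb P i ∧ w ∈ t.W1 P i (cX w)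
  /-- (X2) -/
  x2 : ∀ w w', X w → X w' → t.E.N (cX w) w = t.E.N (cX w') w' → w = w'
  /-- (X3) -/
  x3 : ∀ w w', X w → X w' → w ≠ w' → (t.K w = t.K w' ∨ t.G.Adj w w') → cX w ≠ cX w'
  /-- (X4) -/
  x4 : ∀ i, (t.Pb P i).card ≤ (univ.filter (fun w => t.K w = some i ∧ X w)).card + t.lam i
  /-- (X5) -/
  x5 : ∀ i a, ((∑ x ∈ univ.filter (fun x => X x ∧ t.K x ≠ some i ∧ cX x = a),
    t.dk i x : ℕ) : ℝ) ≤ P.eps * P.D
  /-- (X6) -/
  x6 : ∀ x, t.K x = none → (((nb t.G x).filter (fun w => X w)).card : ℝ) ≤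
    P.xi * t.dKU x + P.nz
  x6' : ∀ x, t.K x = none → (((nb t.G x).filter (fun v => colX t X cX v)).card : ℝ) ≤
    P.xi * t.dKU x + P.nz
  /-- (X7) -/
  x7 : ∀ i, ((univ.filter (fun w => t.K w = some i ∧ X w)).card : ℝ) ≤ P.pmax * P.D

/-- Section 8: the colouring `cS` of `S`. -/
structure SP (P : Par) (t : Td V κ) (X : V → Prop) (cX : V → κ) (cS : V → κ) : Prop where
  fr : ∀ x, t.K x = none → t.F0 x → cS x = t.m x
  /-- (Sg1) -/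
  g1 : ∀ u v, t.K u = none → t.K v = none → t.adj' P u v → cS u ≠ cS v
  /-- (Sg2) -/
  g2 : ∀ x, t.U x → cS x ∉ t.J0 ∧ t.cr x (cS x) ∧ ¬ colX t X cX (t.E.N (cS x) x) ∧
    ∀ w, X w → t.G.Adj x w → cX w ≠ cS x
  /-- (Sg3) -/
  g3 : ∀ x y, t.U x → t.U y → t.E.N (cS x) x = t.E.N (cS y) y → x = y
  /-- (Q1) -/
  q1 : ∀ i, ((univ.filter (fun x => t.U x ∧ t.K (t.E.N (cS x) x) = some i)).card : ℝ) ≤
    P.eps * P.D
  /-- (Q2) -/
  q2 : ∀ i, ((univ.filter (fun w => t.K w = some i ∧ t.F0 w ∧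
    ∃ x, t.U x ∧ t.G.Adj w x ∧ cS x = t.m w)).card : ℝ) ≤ P.eps * P.D
  /-- (Q3) -/
  q3 : ∀ i b, ((∑ x ∈ univ.filter (fun x => t.U x ∧ ¬ t.hv P i x ∧ cS x = b),
    t.dk i x : ℕ) : ℝ) ≤ P.eps * P.D

/-- The final colouring. -/
structure Fin10 (t : Td V κ) (c : V → κ) : Prop where
  prop : ∀ u v, t.G.Adj u v → c u ≠ c v
  cell : ∀ u, t.fx u (c u) ∨ t.cr u (c u)
  inj : ∀ u v, ¬ t.fx u (c u) → ¬ t.fx v (c v) → t.E.N (c u) u = t.E.N (c v) v → u = v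

end later

/-! ### The stages -/

/-- Sections 1 and 2. -/
def St_Gr10 : Prop := ∀ (P : Par) (V : Type) [Fintype V] (G : SimpleGraph V), Num10 P →
  (∀ u, (nb G u).card = P.D) → ∃ g : Gd V, g.G = G ∧ GrP P g

/-- Section 3. -/
def St_Ed10 : Prop := ∀ (P : Par) (V : Type) [Fintype V] (g : Gd V), Num10 P → GrP P g →
  ∃ e : Ed V (Col P.s P.l P.lo), e.toGd = g ∧ EdP P e

/-- Section 4. -/
def St_Ac10 : Prop := ∀ (P : Par) (V κ : Type) [Fintype V] [Fintype κ] (e : Ed V κ), Num10 P →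
  GrP P e.toGd → EdP P e → ∃ f : Fd V κ, f.toEd = e ∧ AcP P f

/-- Section 5. -/
def St_Ta10 : Prop := ∀ (P : Par) (V κ : Type) [Fintype V] [Fintype κ] (f : Fd V κ), Num10 P →
  GrP P f.toGd → EdP P f.toEd → AcP P f → ∃ t : Td V κ, t.toFd = f ∧ TaS P t ∧ TaK P t

/-- Section 6. -/
def St_X10 : Prop := ∀ (P : Par) (V κ : Type) [Fintype V] [Fintype κ] (t : Td V κ), Num10 P →
  Bse P t → ∃ (X : V → Prop) (cX : V → κ), XP P t X cX

/-- Section 8. -/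
def St_S10 : Prop := ∀ (P : Par) (V κ : Type) [Fintype V] [Fintype κ] (t : Td V κ)
  (X : V → Prop) (cX : V → κ), Num10 P → Bse P t → XP P t X cX →
  ∃ cS : V → κ, SP P t X cX cS

/-- Section 9. -/
def St_K10 : Prop := ∀ (P : Par) (V κ : Type) [Fintype V] [Fintype κ] (t : Td V κ)
  (X : V → Prop) (cX cS : V → κ), Num10 P → Bse P t →
  XP P t X cX → SP P t X cX cS → ∃ c : V → κ, Fin10 t c

/-- The parameters exist. -/
def St_Num10 : Prop := ∃ D0 : ℕ, ∀ D ≥ D0, ∃ P : Par, P.D = D ∧ Num10 P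

/-- MAIN10. -/
def St_Main10 : Prop := ∃ D0 : ℕ, ∀ D ≥ D0, ∀ (V : Type) [Fintype V] (G : SimpleGraph V),
  (∀ u, (nb G u).card ≤ D) →
  ∃ (c : V → Fin (D + 3)) (e : Sym2 V → Fin (D + 3)), IsTotalColouring G c e

end Pool.TCV
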