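import Pool.Agent.Helper3.TCV.StA

/-!
# T10: heavy vertices (helper25)
-/

set_option autoImplicit false

namespace Pool.TCV

open Pool.TC Pool.TCM Pool.TCS Pool.TN Finset
open scoped Classical

section hv

variable {V : Type} [Fintype V] (g : Gd V)

theorem Hv_dk (i x : V) : g.dk i x = (univ.filter fun v => g.G.Adj x v ∧ g.K v = some i).card := by
  unfold Gd.dk nb
  rw [filter_filter]

theorem Hv_oo (w : V) : g.oo w = (univ.filter fun v => g.G.Adj w v ∧ g.K v ≠ g.K w).card := by
  unfold Gd.oo nb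
  rw [filter_filter]

/-- double counting -/
theorem Hv_dc (i : V) : ∑ x ∈ univ.filter (fun x => g.K x ≠ some i), g.dk i x = ∑ w ∈ g.Ki i, g.oo w := by
  have h1 : ∀ x, g.dk i x = ∑ w, if g.G.Adj x w ∧ g.K w = some i then 1 else 0 := by
    intro x
    rw [Hv_dk, card_filter]
  have h2 : ∀ w ∈ g.Ki i, g.oo w = ∑ x, if g.K x ≠ some i then (if g.G.Adj x w ∧ g.K w = some i then 1
      else 0) else 0 := by
    intro w hw
    have hw' : g.K w = some i := (mem_filter.1 hw).2
    rw [Hv_oo, card_filter]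
    refine sum_congr rfl fun x _ => ?_
    by_cases hx : g.K x = some i
    · simp [hx, hw']
    · simp [hx, hw', g.G.adj_comm]
  rw [sum_congr rfl h2, sum_comm, sum_filter]
  refine sum_congr rfl fun x _ => ?_
  by_cases hx : g.K x = some i
  · simp [hx]
  · simp only [if_pos hx, ne_eq, hx, not_false_eq_true, if_true]
    rw [h1 x]
    refine (sum_subset (subset_univ _) fun w _ hw => ?_).symm
    rw [if_neg]
    rintro ⟨-, h⟩
    exact hw (mem_filter.2 ⟨mem_univ _, h⟩)

theorem Hv_oo_le {i x : V} (h : g.K x ≠ some i) (hx : g.K x ≠ none) : g.dk i x ≤ g.oo x := by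
  rw [Hv_dk, Hv_oo]
  refine card_le_card fun v hv => ?_
  rw [mem_filter] at hv ⊢
  refine ⟨mem_univ _, hv.2.1, ?_⟩
  rw [hv.2.2]
  exact fun h' => h h'.symm

/-- the clusters are disjoint -/
theorem Hv_sum (x : V) (I : Finset V) (T : Finset V)
    (hT : ∀ i ∈ I, ∀ v, g.G.Adj x v → g.K v = some i → v ∈ T) : ∑ i ∈ I, g.dk i x ≤ T.card := by
  have h1 : ∑ i ∈ I, g.dk i x = (I.biUnion fun i => univ.filter fun v => g.G.Adj x v ∧ g.K v = some i).card := by
    rw [card_biUnion]
    · exact sum_congr rfl fun i _ => Hv_dk g i x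
    · intro i _ j _ hij
      refine disjoint_left.2 fun v hv hv' => hij ?_
      have h2 := (mem_filter.1 hv).2.2
      rw [(mem_filter.1 hv').2.2] at h2
      exact (Option.some.inj h2).symm
  rw [h1]
  refine card_le_card fun v hv => ?_
  obtain ⟨i, hi, hv⟩ := mem_biUnion.1 hv
  exact hT i hi v (mem_filter.1 hv).2.1 (mem_filter.1 hv).2.2

end hv

theorem thm_Hv (hNumL : St_NumL) : St_Hv := by
  intro P V _ g hN hP
  have L := hNumL P hN
  have hη := L.eta0
  have hD1 : (1 : ℝ) ≤ P.D := by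
    have := L.XD 0 (by norm_num)
    rwa [pow_zero] at this
  have hD0 : (0 : ℝ) < P.D := by linarith
  have hηD : 0 < P.eta * P.D := mul_pos hη hD0
  -- a sum bound gives a cardinality bound
  have key : ∀ (T : Finset V) (F : V → ℕ), (∀ x ∈ T, P.eta * P.D ≤ F x) → ∀ b : ℝ,
      (∑ x ∈ T, (F x : ℝ)) ≤ b → P.eta * P.D * T.card ≤ b := by
    intro T F hF b hb
    have h1 : ∑ _x ∈ T, P.eta * P.D ≤ ∑ x ∈ T, (F x : ℝ) := sum_le_sum hF
    rw [sum_const, nsmul_eq_mul] at h1
    linarith
  have key2 : ∀ T : Finset V, P.eta * P.D * T.card ≤ 103 * P.delta * P.D ^ 2 →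
      (T.card : ℝ) ≤ 103 * P.delta * P.D / P.eta := by
    intro T hT
    rw [le_div_iff₀ hη]
    have h1 : P.D * ((T.card : ℝ) * P.eta) ≤ P.D * (103 * P.delta * P.D) := by linarith
    exact le_of_mul_le_mul_left h1 hD0
  have hsub : ∀ i, (univ.filter (fun x => g.hv P i x)) ⊆ univ.filter (fun x => g.K x ≠ some i) := by
    intro i x hx
    exact mem_filter.2 ⟨mem_univ _, (mem_filter.1 hx).2.1⟩
  refine ⟨?_, ?_, ?_, ?_, ?_, ?_, ?_⟩
  · intro i
    refine key2 _ (key _ (fun w => g.oo w) ?_ _ ?_)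
    · intro w hw
      exact (mem_filter.1 hw).2.2.2
    · refine le_trans (sum_le_sum_of_subset_of_nonneg ?_ fun _ _ _ => Nat.cast_nonneg _) (hP.d5 i)
      intro w hw
      exact mem_filter.2 ⟨mem_univ _, (mem_filter.1 hw).2.1⟩
  · intro i
    refine key2 _ (key _ (fun x => g.dk i x) ?_ _ ?_)
    · intro x hx
      exact (mem_filter.1 hx).2.2
    · refine le_trans (sum_le_sum_of_subset_of_nonneg (hsub i) fun _ _ _ => Nat.cast_nonneg _) ?_
      rw [← Nat.cast_sum, Hv_dc, Nat.cast_sum]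
      exact hP.d5 i
  · intro x
    have h1 := key (univ.filter (fun i => g.hv P i x)) (fun i => g.dk i x)
      (fun i hi => (mem_filter.1 hi).2.2) P.D (by
        rw [← Nat.cast_sum]
        have h2 := Hv_sum g x (univ.filter (fun i => g.hv P i x)) (nb g.G x) fun i _ v hv _ =>
          mem_filter.2 ⟨mem_univ _, hv⟩
        rw [hP.reg x] at h2
        exact_mod_cast h2)
    have h2 : P.D * (P.eta * ((univ.filter (fun i => g.hv P i x)).card : ℝ)) ≤ P.D * 1 := by linarith
    exact le_of_mul_le_mul_left h2 hD0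
  · intro x hx
    have h1 := key (univ.filter (fun i => g.hv P i x)) (fun i => g.dk i x)
      (fun i hi => (mem_filter.1 hi).2.2) (g.oo x) (by
        rw [← Nat.cast_sum]
        have h2 := Hv_sum g x (univ.filter (fun i => g.hv P i x))
          (univ.filter fun v => g.G.Adj x v ∧ g.K v ≠ g.K x) fun i hi v hv hv' => by
            refine mem_filter.2 ⟨mem_univ _, hv, ?_⟩
            rw [hv']
            exact fun h' => (mem_filter.1 hi).2.1 h'.symm
        rw [← Hv_oo] at h2
        exact_mod_cast h2)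
    have h2 : (99 : ℝ) * g.oo x ≤ P.D := by exact_mod_cast hP.d4 x hx
    have h3 : P.D * (99 * (P.eta * ((univ.filter (fun i => g.hv P i x)).card : ℝ))) ≤ P.D * 1 := by
      linarith
    exact le_of_mul_le_mul_left h3 hD0
  · intro i x hv hx
    refine ⟨hx, hv.2.trans ?_⟩
    exact_mod_cast Hv_oo_le g hv.1 hx
  · intro x hx hA
    have h1 : ∃ i, g.hv P i x := by
      by_contra h
      exact hA ⟨hx, fun i hi => h ⟨i, hi⟩⟩
    obtain ⟨i, hi⟩ := h1
    refine hi.2.trans ?_
    have h2 : g.dk i x ≤ g.dKU x := by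
      unfold Gd.dk Gd.dKU
      refine card_le_card fun v hv => ?_
      rw [mem_filter] at hv ⊢
      refine ⟨hv.1, ?_⟩
      rw [hv.2]
      exact Option.some_ne_none i
    exact_mod_cast h2
  · intro i j w hw hij
    obtain ⟨-, h1, h2⟩ := mem_filter.1 hw
    have h3 : g.K w ≠ none := by
      rw [h1]
      exact Option.some_ne_none j
    have h4 : ¬ P.eta * P.D ≤ g.oo w := fun h => h2 ⟨h3, Or.inr h⟩
    have h5 : g.K w ≠ some i := by
      rw [h1]
      exact fun h => hij (Option.some.inj h).symm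
    have h6 : (g.dk i w : ℝ) ≤ g.oo w := by exact_mod_cast Hv_oo_le g h5 h3
    linarith [not_le.1 h4]

end Pool.TCV
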