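import Pool.Agent.Helper3.TCV.Defs

/-!
# T10, sections 1-3: numerics, clusters, pairs, edge colouring

Statements with complete proofs in the docstrings (paper: `TC10_helper93.md`, in the team store).
The theorem `thm_Foo : St_Foo` goes into `Pool/Agent/Helper3/TCV/Foo.lean`; its hypotheses may be
`Pool.TCV.NumL_all` facts and the earlier statements named in the docstring.  Interface: `TCV/Defs.lean`.
-/

set_option autoImplicit false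

namespace Pool.TCV

open Pool.TC Pool.TCM Pool.TCS Pool.TN Finset
open scoped Classical

/-! ### Numerics -/

/-- Consequences of `Num10`. -/
structure NumL (P : Par) : Prop where
  X1 : (10 : ℝ) ^ 20 ≤ P.X
  /-- every fixed power of `X` is much smaller than `D` -/
  XD : ∀ k : ℕ, k ≤ 4000000 → (P.X : ℝ) ^ k ≤ P.D
  /-- the local lemma -/
  ex : ∀ k : ℕ, k ≤ 1000 → 8 * Real.exp (-P.Lam) * (((P.D : ℝ) + 2) ^ k + 1) ≤ 1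
  La : 1 ≤ P.Lam
  nz1 : 0 < P.nz
  nzD : ∀ k : ℕ, k ≤ 100000 → (P.X : ℝ) ^ k * P.nz ≤ P.D
  /-- deviations -/
  dev : ∀ W : ℝ, 0 ≤ W → W ≤ (P.X : ℝ) ^ 12 * P.D →
    (P.X : ℝ) ^ 2 * Real.sqrt (2 * W * P.Lam) ≤ P.nz
  eta0 : 0 < P.eta
  eta1 : (P.X : ℝ) ^ 1600 * P.eta ≤ 1
  eta2 : (P.X : ℝ) ^ 100000 ≤ P.eta * P.D
  del0 : 0 < P.delta
  del1 : (P.X : ℝ) ^ 3000 * P.delta ≤ P.eta
  del2 : (P.X : ℝ) ^ 100000 ≤ P.delta * P.D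
  del3 : P.delta ≤ 1 / 10 ^ 6
  th0 : 0 < P.theta
  th1 : (P.X : ℝ) ^ 14 * P.theta = 1
  rho0 : 0 < P.rho
  rho1 : (P.X : ℝ) ^ 13 * P.rho = 1
  rhoQ : P.rho * P.D - 1 ≤ (⌊P.rho * P.D⌋₊ : ℝ) ∧ (⌊P.rho * P.D⌋₊ : ℝ) ≤ P.rho * P.D
  pm0 : 0 < P.pmax
  pm1 : (P.X : ℝ) ^ 4000 * P.pmax ≤ 1
  pm2 : P.pmax * P.theta = 103 * P.delta
  r0 : (P.X : ℝ) ^ 4000 * (1 / 2) ^ P.r ≤ 1
  pa0 : 0 < P.pa
  pat : (P.X : ℝ) * P.t0 = P.pa
  MW0 : 0 < P.MW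
  MW1 : (P.MW : ℝ) = (P.X : ℝ) ^ 6
  fm : (500 * (P.pa : ℝ)) * P.fmin = 1
  thp0 : 0 < P.thp
  thp1 : P.thp = 1 / (2 * (P.pa : ℝ)) * (1 / 2) ^ P.r / 2
  thp2 : P.thp ≤ 1 / 2

/-- [NumL] Consequences of the values of the parameters.
PROOF.  `X = Nat.log 2 D`, so `2 ^ X ≤ D < 2 ^ (X + 1)` (`D ≠ 0` by `XD`).  XD: powers with exponent at most
`4000000` of `X ≥ 1` (`pow_le_pow_right₀`); never evaluate such a power.  ex:
`8 * ((D + 2) ^ k + 1) ≤ 16 * (D + 2) ^ k ≤ 16 * (2 ^ (X + 2)) ^ 1000 = 2 ^ (1000 X + 2004) ≤ 2 ^ (X ^ 3) ≤ exp (X ^ 3)`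
(`X ≥ 10 ^ 20`; `2 ≤ exp 1`).  nzD: `X ^ k * X ^ 10 * sqrt D ≤ D` iff `X ^ (k + 10) ≤ sqrt D`, and
`X ^ (2 k + 20) ≤ D`.  dev: `sqrt (2 W Lam) ≤ sqrt (2 X ^ 15 D) ≤ X ^ 8 sqrt D`.  eta2: `X ^ 101600 ≤ D`.
del1: `X ^ 3000 / X ^ 4900 ≤ 1 / X ^ 1600`.  pm1: `X ^ 4000 * 103 * X ^ 14 / X ^ 4900 ≤ 1`.
r0: `(1/2) ^ r ≤ bet ^ 2 * delta / 80 ≤ delta` (`0 ≤ bet ≤ 1`: `bet m K = 1/m (1 - 1/m) ^ (2K)`, `m = 8 X ^ 3`). -/
def St_NumL : Prop := ∀ P : Par, Num10 P → NumL P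

/-- [Num10] The parameters exist.
PROOF.  `X := Nat.log 2 D → ∞` (eventually `10 ^ 20 ≤ X`), `2 ^ X ≤ D < 2 ^ (X + 1)`; eventually
`X ^ 4000000 ≤ 2 ^ X` (`tendsto_pow_const_div_const_pow_of_one_lt` or `isLittleO_pow_const_const_pow_of_one_lt`
composed with `X → ∞`).  `l := X - 2`, `s := (D + 1) / 2 ^ l`, `lo := (D + 1) % 2 ^ l`; `D < 2 ^ (X + 1) = 8 * 2 ^ l`,
`4 * 2 ^ l ≤ D`.  `r`: let `y := bet (8 X^3) (X^3) ^ 2 * delta / 80 ∈ (0, 2 ^ (-7))`; the least `r` with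
`(1/2) ^ r ≤ y` (`exists_nat_pow_near_of_lt_one` or `Nat.find`) satisfies `y / 2 < (1/2) ^ r`.  `7 ≤ r` because
`(1/2) ^ r ≤ y < (1/2) ^ 6`.  `r ≤ l`: `bet (8K) K ≥ 1/(8K) * (1 - 2K/(8K)) ≥ 1/(16 K)` (Bernoulli), so
`y / 2 ≥ 1 / (X ^ 5000)` and `2 ^ r < X ^ 5000 ≤ 2 ^ (X - 2)`.  The other fields define the parameters. -/
def St_NumX : Prop := St_Num10

/-! ### The clusters -/

/-- the ball of radius `H` in the metric `dd` -/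
noncomputable def KH {V : Type} [Fintype V] (G : SimpleGraph V) (H : ℕ) (u : V) : Finset V :=
  univ.filter (fun x => dd G u x ≤ H)

/-- [Kb] (from `TN.St_Met`) The ball of a dense vertex `u`.  `H := D / 100`, `K := KH G H u`.
PROOF.  `np := npr G u < δ D ^ 2`, and `D ≥ 10 ^ 6` (`1 ≤ δ D`, `δ ≤ 10 ^ (-6)`), `D / 100 < H + 1`, `H ≤ D / 100`.
(a) the `x ∈ cnb u \ K` are in `nb u` (`dd u u = 0`) and have `dd u x ≥ H + 1 > D / 100`; their sum is at most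
`np`: so their number is at most `100 δ D`.
(b) `x ∈ K \ cnb u`: `|cnb u ∩ cnb x| = D + 1 - dd u x ≥ D + 1 - H ≥ 0.99 D`, and `u, x` are not in the intersection,
so `x` has at least `0.99 D` neighbours in `nb u`.  The number of the pairs `(y, x)`, `y ∈ nb u`, `x ∉ cnb u`,
`y ~ x` is `∑_{y ∈ nb u} |cnb y \ cnb u| = ∑ dd y u = np`.  So `|K \ cnb u| ≤ δ D ^ 2 / (0.99 D)`.
(c) `nb w \ K ⊆ (cnb w \ cnb u) ∪ (cnb u \ K)`: at most `D / 100 + 100 δ D ≤ D / 100 + D / 10 ^ 4 ≤ D / 99`.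
(d) `K \ cnb w ⊆ (K \ cnb u) ∪ (cnb u \ cnb w)`: at most `1.02 δ D + D / 100 ≤ D / 98`.
(e) `w ∈ K ∩ cnb u`: `|nb w \ K| ≤ dd w u + |cnb w ∩ (cnb u \ K)|`; `∑ dd w u ≤ np` (the term `w = u` is `0`);
`∑_w |cnb w ∩ (cnb u \ K)| ≤ (D + 1) |cnb u \ K| ≤ 100 δ D (D + 1)` (double counting).  `w ∈ K \ cnb u`: `≤ D / 99` each
by (c), so at most `1.02 δ D * D / 99`.  Sum `≤ 103 δ D ^ 2`.
(f) `x ∉ K`: `dd u x ≥ H + 1`, `|K \ nb x| ≥ |cnb u \ cnb x| - |cnb u \ K| ≥ D / 100 - 100 δ D ≥ D / 113`.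
(g) the `x ∈ cnb u` with `4 δ D < dd u x` are in `nb u`: `# * 4 δ D ≤ np < δ D ^ 2`.
(h) `|cnb u ∩ cnb x| = D + 1 - dd u x > 0`, so `x` is at distance at most 2 from `u`. -/
def St_Kb : Prop := ∀ (V : Type) [Fintype V] (G : SimpleGraph V) (D : ℕ) (δ : ℝ) (u : V),
  (∀ u, (nb G u).card = D) → 0 < δ → δ ≤ 1 / 10 ^ 6 → 1 ≤ δ * D →
  (npr G u : ℝ) < δ * (D : ℝ) ^ 2 →
  ((cnb G u \ KH G (D / 100) u).card : ℝ) ≤ 100 * δ * D ∧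
  ((KH G (D / 100) u \ cnb G u).card : ℝ) ≤ 102 / 100 * δ * D ∧
  (∀ w ∈ KH G (D / 100) u, 99 * (nb G w \ KH G (D / 100) u).card ≤ D) ∧
  (∀ w ∈ KH G (D / 100) u, 98 * (KH G (D / 100) u \ cnb G w).card ≤ D) ∧
  (∑ w ∈ KH G (D / 100) u, ((nb G w \ KH G (D / 100) u).card : ℝ)) ≤ 103 * δ * (D : ℝ) ^ 2 ∧
  (∀ x, x ∉ KH G (D / 100) u → D ≤ 113 * (KH G (D / 100) u \ nb G x).card) ∧
  4 * (((cnb G u).filter (fun x => 4 * δ * D < dd G u x)).card : ℝ) ≤ D ∧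
  (∀ x ∈ KH G (D / 100) u, x ∈ ball G 2 u)

/-- the properties of the clusters -/
structure DcP {V : Type} [Fintype V] (D : ℕ) (δ : ℝ) (g : Gd V) : Prop where
  reg : ∀ u, (nb g.G u).card = D
  rt : ∀ i w, g.K w = some i → g.K i = some i
  loc : ∀ i w, g.K w = some i → w ∈ ball g.G 2 i
  d2 : ∀ x, g.K x = none → δ * D ^ 2 ≤ npr g.G x
  d3 : ∀ i, g.K i = some i → ((g.Ki i \ cnb g.G i).card : ℝ) + (cnb g.G i \ g.Ki i).card ≤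
    102 * δ * D
  d4 : ∀ w, g.K w ≠ none → 99 * g.oo w ≤ D
  d4' : ∀ w, g.K w ≠ none → 98 * g.aw w ≤ D
  d5 : ∀ i, (∑ w ∈ g.Ki i, (g.oo w : ℝ)) ≤ 103 * δ * D ^ 2
  d6 : ∀ i x, g.K i = some i → g.K x ≠ some i → D ≤ 113 * (g.Ki i \ nb g.G x).card

/-- [Dec10] (from `TN.St_Met`, `St_Kb`) The clusters.
PROOF.  `u` dense := `npr G u < δ D ^ 2`.  (i) `u, u'` dense, `dd u u' ≤ 2 (D / 100)`: then `dd u u' ≤ 8 δ D`:
`|cnb u ∩ cnb u'| ≥ D + 1 - D / 50 > D / 2`, fewer than `D / 4 + D / 4` of its elements `x` have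
`4 δ D < dd u x` or `4 δ D < dd u' x` (`St_Kb` (g)), take another `x`.  (ii) Let `R` be a maximal set of dense
vertices with `dd u u' > 2 (D / 100)` for distinct `u, u' ∈ R`.  The sets `KH u`, `u ∈ R`, are disjoint
(`x` in two of them gives `dd u u' ≤ 2 (D / 100)`).  Every dense `u` is in `KH u'` for some `u' ∈ R`: `u ∈ R`, or
by maximality `dd u u' ≤ 2 (D / 100)` for some `u' ∈ R`, so `dd u' u ≤ 8 δ D ≤ D / 100` (as reals, then as naturals).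
`K v := some u` if `v ∈ KH u`, `u ∈ R`, `none` otherwise.  rt: `u ∈ KH u`.  For `K w = some u`:
`{v ∈ nb w | K v ≠ K w} = nb w \ KH u`, `{v | K v = K w, v ≠ w, not adjacent} = KH u \ cnb w`.  d5 for a vertex `i`
which is not in `R`: the sum is empty. -/
def St_Dec10 : Prop := ∀ (V : Type) [Fintype V] (g : Gd V) (D : ℕ) (δ : ℝ),
  (∀ u, (nb g.G u).card = D) → 0 < δ → δ ≤ 1 / 10 ^ 6 → 1 ≤ δ * D →
  ∃ K : V → Option V, DcP D δ { g with K := K }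

/-- [Ks] Sizes.
PROOF.  `K w = some i`: `K_i` is the disjoint union of `{w}`, of the neighbours of `w` in `K_i` (`D - oo w`
elements) and of the `aw w` non-neighbours.  k1, k2 (for `K i = some i`): `|cnb i| = D + 1` and d3; for another
`i` the cluster is empty.  Third: `aw w = oo w - (D + 1 - |K_i|)`.  Last: `∑ aw w = ∑ (oo w + |K_i| - D - 1) ≤
103 δ D ^ 2 + |K_i| * 102 δ D ≤ 103 δ D ^ 2 + 103 * δ D ^ 2` (`|K_i| ≤ D + 1 + 102 δ D ≤ 1.001 D`, `D ≥ 10 ^ 6`). -/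
def St_Ks : Prop := ∀ (V : Type) [Fintype V] (g : Gd V) (D : ℕ) (δ : ℝ),
  DcP D δ g → 0 < δ → δ ≤ 1 / 10 ^ 6 → 1 ≤ δ * D →
  (∀ i w, g.K w = some i → (g.Ki i).card + g.oo w = D + 1 + g.aw w) ∧
  (∀ i, g.K i = some i → (D : ℝ) + 1 - 102 * δ * D ≤ (g.Ki i).card) ∧
  (∀ i, ((g.Ki i).card : ℝ) ≤ (D : ℝ) + 1 + 102 * δ * D) ∧
  (∀ w, g.K w ≠ none → (g.aw w : ℝ) ≤ g.oo w + 102 * δ * D) ∧
  (∀ i, (∑ w ∈ g.Ki i, (g.aw w : ℝ)) ≤ 207 * δ * D ^ 2)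

/-- [Pq] (from `St_Ks`, `TN.St_Mch`) The pairs.
PROOF.  `A_i := ∑_{w ∈ Ki i} aw w`, `μ i := (2 A_i + D - 1) / D` (the least `μ` with `2 A_i ≤ D μ`; `0` if `A_i = 0`),
so `D μ < 2 A_i + D`, `μ ≤ 414 δ D + 1 ≤ 415 δ D`.  `TN.St_Mch` for `Ks := Ki i`, `rel v w := v ≠ w ∧ ¬ Adj v w`,
`B := D / 98`: for `w ∈ Ki i` the number of `x ∈ Ki i` with `rel w x` is `aw w ≤ B`; `4 B (μ - 1) < A_i` if `μ ≥ 1`
(then `A_i > 0`): `D (μ - 1) < 2 A_i`, `4 B (μ - 1) ≤ 4 D (μ - 1) / 98 < 8 A_i / 98`.  Glue the involutions: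
`pr w := π_i w` if `K w = some i`, `pr w := w` if `K w = none`.  `lam i := D + 1 + μ i - |Ki i|` for
`K i = some i` and `0` otherwise.  The subtraction is exact: `|Ki i| ≤ D + 1 + μ i`: if `t := |Ki i| - (D + 1) > 0` then
`aw w ≥ t` for all `w ∈ Ki i` (`St_Ks`), `A_i ≥ t |Ki i| ≥ t D`, so `μ ≥ 2 t`.  `lam i ≤ 102 δ D + 415 δ D`. -/
def St_Pq : Prop := ∀ (V : Type) [Fintype V] (g : Gd V) (D : ℕ) (δ : ℝ),
  DcP D δ g → 0 < δ → δ ≤ 1 / 10 ^ 6 → 1 ≤ δ * D →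
  ∃ (pr : V → V) (mu lam : V → ℕ),
    (∀ w, pr (pr w) = w) ∧
    (∀ w, pr w ≠ w → g.K w ≠ none ∧ g.K (pr w) = g.K w ∧ ¬ g.G.Adj w (pr w)) ∧
    (∀ i, ((g.Ki i).filter (fun w => pr w ≠ w)).card = 2 * mu i) ∧
    (∀ i, (mu i : ℝ) ≤ 415 * δ * D) ∧
    (∀ i, g.K i = some i → (g.Ki i).card + lam i = D + 1 + mu i) ∧
    (∀ i, (lam i : ℝ) ≤ 520 * δ * D) ∧
    (∀ i, 2 * (∑ w ∈ g.Ki i, g.aw w) ≤ D * mu i)

/-- [Hv] (from `St_NumL`) Heavy vertices.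
PROOF.  1: `|Irr_i| η D ≤ ∑_{Ki i} oo w ≤ 103 δ D ^ 2`.  2: `|hv(i)| η D ≤ ∑_{x ∉ K_i} |N(x) ∩ K_i| = ∑_{w ∈ K_i} oo w`
(double counting; `K x ≠ K w`).  3: the `K_i` are disjoint: `∑_i dk i x ≤ D`, and the `i` with `hv i x` have
`dk i x ≥ η D` (`D > 0`).  4: `K x ≠ none`: `∑_{i, K x ≠ some i} dk i x ≤ oo x ≤ D / 99`.  5: `hv i x`, `K x ≠ none`:
`oo x ≥ dk i x` since `K x ≠ some i`.  6: `¬ A x` gives `i` with `hv i x`, `dKU x ≥ dk i x`.  7: for `K w = some j`,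
`j ≠ i`: `dk i w ≤ oo w`, and `oo w < η D` if `w` is not special. -/
def St_Hv : Prop := ∀ (P : Par) (V : Type) [Fintype V] (g : Gd V), Num10 P →
  DcP P.D P.delta g →
  (∀ i, ((univ.filter (fun w => g.K w = some i ∧ g.Irr P w)).card : ℝ) ≤
    103 * P.delta * P.D / P.eta) ∧
  (∀ i, ((univ.filter (fun x => g.hv P i x)).card : ℝ) ≤ 103 * P.delta * P.D / P.eta) ∧
  (∀ x, P.eta * ((univ.filter (fun i => g.hv P i x)).card : ℝ) ≤ 1) ∧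
  (∀ x, g.K x ≠ none → 99 * (P.eta * ((univ.filter (fun i => g.hv P i x)).card : ℝ)) ≤ 1) ∧
  (∀ i x, g.hv P i x → g.K x ≠ none → g.Irr P x) ∧
  (∀ x, g.K x = none → ¬ g.A P x → P.eta * P.D ≤ g.dKU x) ∧
  (∀ i j w, w ∈ g.Rg P j → i ≠ j → (g.dk i w : ℝ) ≤ P.eta * P.D)

/-- [Gr10] (from `St_NumL`, `St_Dec10`, `St_Ks`, `St_Pq`, `St_Hv`) Sections 1 and 2.
PROOF.  Start with any `Gd` for `G`, take `K` from `St_Dec10` (`δ = P.delta`), then `pr, mu, lam` from `St_Pq`; `Ki`, `oo`,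
`aw`, `dk`, `hv`, `Irr` do not depend on `pr, mu, lam`, so `St_Hv` applies to the final `g`.
sp1: `Spi i ⊆ {pr w ≠ w} ∪ Irr_i`: `2 mu i + 103 δ D / η ≤ 830 δ D + 103 δ D / η ≤ 104 δ D / η` (`830 η ≤ 1`).
n1: `|Rg i| = |Ki i| - |Spi i| ≥ D + 1 - 102 δ D - 104 δ D / η ≥ 0.999 D` (`X ^ 3000 δ ≤ η`, `X ≥ 10 ^ 20`).
ss: for `K i = some i`, in the integers, `n := |Rg i|`, `σ := D + 1 - |Ki i| = lam i - mu i`:
`∑_{Rg} oo w = n σ + ∑_{Rg} aw w ≤ n σ + A_i`, `A_i ≤ D mu i / 2 ≤ n mu i`.  For the other `i` the set `Rg i` is empty. -/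
def St_Grr : Prop := St_Gr10

/-! ### The edge colouring -/

section chain

variable {V : Type} {s l ρ : ℕ}

/-- the test functions with weights depending on the vertex -/
noncomputable def G10 (r : ℕ) (φ θ : ℝ) (A : V → Prop) (j : ℕ) :
    V → Col s l ρ → Col s l ρ → ℝ :=
  fun w c m => if A w then (1 - MJ r j c) * (1 - φ * MJ r j m) else (1 - MJ r j c) * (1 - θ)

end chain

/-- [Run10] (from `TCM.St_Viz`, `TCM.St_CutA`, `TCM.St_CutB`, `TCM.St_Coin`, `TCM.St_Chain`; copy of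
`Pool/Agent/Helper3/TCS/Run5.lean`) All rounds.
PROOF.  As `TCS.thm_Run5`, with the family of test functions: `G10 r φ θ' A j`, `θ' := φ * (1/2) ^ r / 2`, `G5 7 1 j`, and
`gY j a` for the main colours `a` (index type `Option (Option (Fin s × (Fin l → Bool)))`, at most `D + 3` elements;
`TCM.round` is stated for at most `D + 2` tests, copy it with `D + 3`).  For `A w` the estimates are those of
`Run5` with `θ := φ`; for `¬ A w` the averaging operator maps `G10 (j + 1)` exactly to `G10 j` (both for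
`m = σ c` and `m ≠ σ c`: `(1 - (M c + M (σ c)) / 2) * (1 - θ')`, `Run5_MJs`), and in the first round
(`σ = pre q0 ι`) both cases are at most `(1 - (M c + M (pre c)) / 2) * (1 - θ')` since `(M m + M (pre m)) / 2 ≥
(1/2) ^ r / 2` (`Run5_pre_ge`). -/
def St_Run10 : Prop := ∀ (V : Type) [Fintype V] (G : SimpleGraph V) (A : V → Prop)
  (D s l ρ r : ℕ) (φ Lam : ℝ), (∀ u, (nb G u).card ≤ D) → 2 ≤ s → ρ ≤ 2 ^ l →
  s * 2 ^ l + ρ = D + 1 → 7 ≤ r → r ≤ l → 0 ≤ φ → φ ≤ 1 → 0 < Lam →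
  4 * Real.exp (-Lam) * (2 * ((D : ℝ) + 1) ^ 2 * LL D (l + 1) * (D + 3) + 1) ≤ 1 →
  8 * ((l : ℝ) + 1) * Real.sqrt (2 * ((D : ℝ) + 1) * Lam) ≤ (D : ℝ) + 1 →
  ∃ (E : EC (Col s l ρ) V) (z : V → V) (m : V → Col s l ρ), Stt G (8 * (l + 1)) E z m (l + 1) ∧
    (∀ v, X E m (G10 r φ (φ * (1 / 2) ^ r / 2) A l) v ≤
      ((D : ℝ) + 1 - (s * 2 ^ (l - r) : ℕ)) * (1 - φ * (1 / 2) ^ r / 2) +
      8 * ((l : ℝ) + 1) * Real.sqrt (2 * ((D : ℝ) + 1) * Lam)) ∧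
    (∀ v, X E m (G5 7 1 l) v ≤ ((D : ℝ) + 1 - (s * 2 ^ (l - 7) : ℕ)) * (1 - (1 / 2) ^ 7 / 2) +
      8 * ((l : ℝ) + 1) * Real.sqrt (2 * ((D : ℝ) + 1) * Lam)) ∧
    (∀ v a, X E m (gY l a) v ≤
      (Real.sqrt (D + 1) * (1 / Real.sqrt 2) ^ l + 14 * Real.sqrt Lam) ^ 2)

/-- the properties of the edge colouring without the blocks -/
structure EdQ {V κ : Type} [Fintype V] [Fintype κ] (P : Par) (e : Ed V κ) : Prop where
  col : Fintype.card κ = P.D + 1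
  zinv : ∀ u, e.z (e.z u) = u
  zadj : ∀ u, e.z u ≠ u → e.G.Adj u (e.z u)
  sub : ∀ a u, e.E.N a u ≠ u → e.G.Adj u (e.E.N a u)
  cov : ∀ u v, e.G.Adj u v → (∃ a, e.E.N a u = v) ∨ e.z u = v
  miss : ∀ w, e.E.N (e.m w) w = w
  j01 : e.J0 ⊆ e.J1
  j0 : (e.J0.card : ℝ) ≤ (1 / 2) ^ P.r * ((P.D : ℝ) + 1)
  j1 : 128 * e.J1.card ≤ P.D + 1
  q1 : ∀ a ∈ e.Q, a ∉ e.J1
  q2 : e.Q.card = ⌊P.rho * P.D⌋₊
  r1 : ∀ v, (∑ a, if a ∉ e.J0 ∧ e.E.N a v ≠ v then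
    (if e.A P (e.E.N a v) then (if e.m (e.E.N a v) ∈ e.J0 then 1 - 1 / (2 * (P.pa : ℝ)) else 1)
      else 1 - P.thp) else 0) ≤ ((P.D : ℝ) + 1 - e.J0.card) * (1 - P.thp) + P.nz
  r2 : ∀ v, P.D ≤ 300 * ((nb e.G v).filter (fun w => e.m w ∈ e.J1)).card
  r3 : ∀ v, ∀ a ∈ e.J1, ((nb e.G v).filter (fun w => e.m w = a)).card ≤ P.t0
  r4 : ∀ v, (((ball e.G 8 v)).filter (fun w => e.z w ≠ w)).card ≤ 2 * P.X
  r4' : ∀ i, ((univ.filter (fun w => e.K w = some i ∧ e.z w ≠ w)).card) ≤ 2 * P.X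

/-- [EdA] (from `St_NumL`, `St_Run10`) The edge colouring.
PROOF.  `St_Run10` with `A := g.A P`, `φ := 1 / (2 pa)` (so `φ (1/2)^r / 2 = P.thp`), `Lam := P.Lam`.  Numerical
conditions: `LL D (l + 1) ≤ 400 X (D + 1) ^ (16 X + 3)`, `D + 3 ≤ 2 ^ (X + 2)`, so the product is at most
`2 ^ (20 X ^ 2 + 100 X) ≤ exp (X ^ 3) / 8`; `8 (l + 1) sqrt (2 (D + 1) Lam) ≤ 8 X sqrt (4 D X ^ 3) ≤ nz ≤ D`.
`J0 := TCS.J0 P.r`, `J1 := TCS.J0 7`, `|J0| = s 2 ^ (l - r) ≤ (D + 1) (1/2) ^ r`, `|J1| = s 2 ^ (l - 7)` (compare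
`c5_card_J0` in `TCS/Core5.lean`), `MJ r l c = [c ∈ J0]`.  `Q` := a subset of the complement of `J1` with `⌊rho D⌋`
elements.  `nbl := 0`, `Gam := ∅` for the moment.  r1 is the second claim.
r2: the third claim says `#{c ∉ J1 | N_c v ≠ v, m (N_c v) ∉ J1} ≤ (D + 1 - |J1|) (1 - 1/256) + nz`.  The number of the
`c ∉ J1` with `N_c v ≠ v` is at least `D + 1 - |J1| - 2`: the colours with `N_c v ≠ v` are in bijection with the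
neighbours `w ≠ z v` of `v` (`cov`, `uniq`), so at most 2 colours are fixed at `v`.  So at least
`(D + 1 - |J1|) / 256 - 2 - nz ≥ (127/128) D / 256 - D / 10^6 ≥ D / 300` neighbours have `m w ∈ J1`.
r3: `X E m (gY l a) v = #{c | N_c v ≠ v, m (N_c v) = inl a}`, every neighbour except `z v` is `N_c v` for exactly one
`c`; `(sqrt (D + 1) (1/sqrt 2) ^ l + 14 sqrt Lam) ^ 2 + 1 ≤ (sqrt 17 + 14 X ^ (3/2)) ^ 2 + 1 ≤ 400 X ^ 3 ≤ t0`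
(`D ≤ 16 * 2 ^ l`).  r4: `Stt.spr`, `8 ≤ 8 (l + 1)`, `ball_mono`, `2 (l + 1) ≤ 2 X`.  r4': `K_i ⊆ ball 2 i`. -/
def St_EdA : Prop := ∀ (P : Par) (V : Type) [Fintype V] (g : Gd V), Num10 P → GrP P g →
  ∃ e : Ed V (Col P.s P.l P.lo), e.toGd = g ∧ EdQ P e

/-- [E31] (from `St_NumL`) The problem colours.
PROOF.  1: `theta D |Pb i| ≤ ∑_a #{w ∈ K_i | K (N_a w) ≠ some i} = ∑_{w ∈ K_i} #{a | K (N_a w) ≠ some i} ≤ ∑ oo w ≤
103 δ D ^ 2` (`a ↦ N_a w` is injective on the `a` with `N_a w ≠ w`; its values are neighbours), `pmax = 103 δ / theta`.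
2: `∑_{a ∈ Pb} (n - |W0|)` is the number of pairs `(w, a)`, `w ∈ Rg i`, `a ∈ Pb`, with `N_a w ≠ w` and (`z (N_a w) ≠ N_a w` or
`K (N_a w) ≠ some i`): at most `∑_{w ∈ Rg} oo w ≤ n lam` (`GrP.ss`) plus for every `a ∈ Pb` the rows `w ∈ Rg` with
`N_a w ∈ K_i` moved by `z`: at most `2 X` (`r4'`, `N_a` injective).  `|Pb| 2 X ≤ 2 X pmax D ≤ n / 1000`. -/
def St_E31 : Prop := ∀ (P : Par) (V κ : Type) [Fintype V] [Fintype κ] (e : Ed V κ), Num10 P →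
  GrP P e.toGd → EdQ P e → (∀ i, ((e.Pb P i).card : ℝ) ≤ P.pmax * P.D) ∧
  ∀ i, e.K i = some i → (((e.Pb P i).card : ℝ) - e.lam i - 1 / 1000) * (e.Rg P i).card ≤
    ∑ a ∈ e.Pb P i, ((e.W0 P i a).card : ℝ)

/-- [Blk] Blocks.
PROOF.  Induction on `N` (for all `J`).  `N = 0`: nothing.  `N + 1`: `4 ∑_J x ≥ (2 N + 1) n ≥ n`.  Take a subset
`B ⊆ J` with `4 ∑_B x ≥ n` of minimal cardinality.  If `n > 0` it is nonempty, and removing an element `a` gives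
`4 ∑_{B \ a} x < n`, so `4 ∑_B x < 2 n` (`4 x a < n`).  If `n = 0` the hypothesis `4 x a < n` says `J = ∅`, take `B = ∅`.
So `4 ∑_{J \ B} x ≥ (2 N + 1) n - 2 n = (2 N - 1) n` (in the integers).  `Gam 0 := B`, `Gam (k + 1)` := the blocks of `J \ B`
(for `N = 0` no hypothesis is needed). -/
def St_Blk : Prop := ∀ (A : Type) (J : Finset A) (x : A → ℕ) (N n : ℕ),
  (∀ a ∈ J, 4 * x a < n) → (0 < N → (2 * N - 1) * n ≤ 4 * ∑ a ∈ J, x a) →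
  ∃ Gam : ℕ → Finset A, (∀ k, k < N → Gam k ⊆ J ∧ n ≤ 4 * ∑ a ∈ Gam k, x a) ∧
    ∀ k k', k < N → k' < N → k ≠ k' → Disjoint (Gam k) (Gam k')

/-- [EdB] (from `St_NumL`, `St_EdA`, `St_E31`, `St_Blk`) Section 3.
PROOF.  Take `e` from `St_EdA` and change only `nbl`, `Gam` (`Pb`, `W0`, .. do not depend on them).  For `K i = some i` let
`n := |Rg i|`, `sm := {a ∈ Pb i | 4 |W0 i a| < n}`, `big := Pb i \ sm`, `N := |Pb i| - lam i - |big|` (truncated).  If `N > 0`: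
`∑_sm |W0| ≥ (|Pb| - lam - 1/1000) n - |big| n = (N - 1/1000) n` (`|W0| ≤ n`), and `4 (N - 1/1000) ≥ 2 N - 1`.  `St_Blk` gives
`N` blocks in `sm`; the other blocks are the singletons of `big` (enumerate `big`, e.g. by `Finset.equivFin`).
`nbl i := |big| + N`.  gm5: `N ≤ |Pb| - |big|`.  For `K i ≠ some i` the cluster is empty (`rt`), `Pb i = ∅` (`theta D > 0`),
`nbl i := 0`. -/
def St_EdB : Prop := St_Ed10

end Pool.TCV
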