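import Pool.Agent.Helper3.TCV.StA

/-!
# T10, sections 4 and 5: the free rows, the bipartition

Statements with complete proofs in the docstrings (paper: `TC10_helper93.md`, in the team store).
The theorem `thm_Foo : St_Foo` goes into `Pool/Agent/Helper3/TCV/Foo.lean`; its hypotheses may be the
statements named in the docstring and `St_NumL`.  Interface: `TCV/Defs.lean`.
-/

set_option autoImplicit false

namespace Pool.TCV

open Pool.TC Pool.TCM Pool.TCS Pool.TN Finset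
open scoped Classical

/-! ### Tests -/

section tests

variable {V : Type} [Fintype V]

/-- `F ≤ b` holds except with a small probability, by the bounded differences inequality.  `F` depends
only on the coordinates in the ball of radius `8` around `u`. -/
def Tst (G : SimpleGraph V) {α : Type} [Fintype α] (Lam : ℝ) (u : V) (F : (V → α) → ℝ)
    (b : ℝ) : Prop :=
  ∃ (cc : V → ℝ) (W : ℝ), (∀ t, 0 ≤ cc t) ∧
    (∀ t (ω ω' : V → α), (∀ t', t' ≠ t → ω t' = ω' t') → |F ω - F ω'| ≤ cc t) ∧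
    (∀ t, t ∉ ball G 8 u → cc t = 0) ∧ ∑ t, cc t ^ 2 ≤ W ∧ 0 < W ∧
    mean F + Real.sqrt (2 * W * Lam) ≤ b

/-- The property `C` follows from a family of tests, at most `N` at every vertex. -/
def Impl (G : SimpleGraph V) {α : Type} [Fintype α] (Lam : ℝ) (N : ℕ) (C : (V → α) → Prop) :
    Prop :=
  ∃ (J : Type) (Js : Finset J) (ctr : J → V) (F : J → (V → α) → ℝ) (b : J → ℝ),
    (∀ u, (Js.filter (fun j => ctr j = u)).card ≤ N) ∧
    (∀ j ∈ Js, Tst G Lam (ctr j) (F j) (b j)) ∧ ∀ ω, (∀ j ∈ Js, F j ω ≤ b j) → C ω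

end tests

/-- [TstL] (from `TCM.St_LM`) The local lemma.
PROOF.  `TCM.St_LM` with `T := V`, `J := {j // j ∈ Js}`, `S j := ball G 8 (ctr j)`, `V j := W_j`, `lam j := sqrt (2 W_j Lam)`.
If `S j` and `S j'` have a common element then `ctr j' ∈ ball G 16 (ctr j)` (`ball_symm`, `ball_trans` in
`TCM/Ball.lean`), so the number of such `j'` is at most `(D + 1) ^ 16 * N` (`card_ball`). -/
def St_TstL : Prop := ∀ (V α : Type) [Fintype V] [Fintype α] [Nonempty α] (G : SimpleGraph V)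
  (D N : ℕ) (Lam : ℝ) (C : (V → α) → Prop), (∀ u, (nb G u).card ≤ D) → 0 < Lam →
  4 * Real.exp (-Lam) * (((D : ℝ) + 1) ^ 16 * N + 1) ≤ 1 → Impl G Lam N C → ∃ ω, C ω

/-- [ImpA] Rules for `Impl`.
PROOF.  1: `J1 ⊕ J2`, `Finset.disjSum`.  2: the same family. -/
def St_ImpA : Prop := ∀ (V α : Type) [Fintype V] [Fintype α] (G : SimpleGraph V) (Lam : ℝ),
  (∀ (N1 N2 : ℕ) (C1 C2 : (V → α) → Prop), Impl G Lam N1 C1 → Impl G Lam N2 C2 →
    Impl G Lam (N1 + N2) (fun ω => C1 ω ∧ C2 ω)) ∧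
  (∀ (N N' : ℕ) (C C' : (V → α) → Prop), Impl G Lam N C → N ≤ N' → (∀ ω, C ω → C' ω) →
    Impl G Lam N' C')

/-- [Cnt] Sums of local functions.
PROOF.  `cc t := ∑_{j ∈ Js, t ∈ R j} wt j`.  If `ω`, `ω'` differ only at `t`, the terms with `t ∉ R j` are equal.
`cc t = 0` outside of the ball.  `∑ cc t ^ 2 ≤ M ∑ cc t = M ∑_j wt j |R j| ≤ W`.
`mean (∑ g j) = ∑ mean (g j)`. -/
def St_CntQ : Prop := ∀ (V α J : Type) [Fintype V] [Fintype α] (G : SimpleGraph V) (Js : Finset J)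
  (g : J → (V → α) → ℝ) (wt : J → ℝ) (R : J → Finset V) (M W Lam b : ℝ) (u : V),
  (∀ j ∈ Js, 0 ≤ wt j) → (∀ j ∈ Js, ∀ ω ω', |g j ω - g j ω'| ≤ wt j) →
  (∀ j ∈ Js, ∀ ω ω' : V → α, (∀ t ∈ R j, ω t = ω' t) → g j ω = g j ω') →
  (∀ j ∈ Js, R j ⊆ ball G 8 u) → (∀ t, ∑ j ∈ Js.filter (fun j => t ∈ R j), wt j ≤ M) →
  M * (∑ j ∈ Js, wt j * (R j).card) ≤ W → 0 < W →
  (∑ j ∈ Js, mean (g j)) + Real.sqrt (2 * W * Lam) ≤ b →
  Tst G Lam u (fun ω => ∑ j ∈ Js, g j ω) b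

/-! ### The free rows -/

/-- the hypotheses of section 4 -/
structure Hy3 {V κ : Type} [Fintype V] [Fintype κ] (P : Par) (e : Ed V κ) : Prop where
  nm : Num10 P
  gr : GrP P e.toGd
  ed : EdP P e

/-- the free rows given by the labels -/
noncomputable def fdA {V κ : Type} [Fintype V] [Fintype κ] (P : Par) (e : Ed V κ)
    (ω : V → Fin P.pa) : Fd V κ :=
  { toEd := e, F0 := fun w => e.cand P w ∧ (ω w).val = 0 ∧ ∀ u, e.cf P u w → (ω u).val ≠ 0 }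

/-- [Cf] (from `St_NumL`) Candidates.
PROOF.  1, 2 clear.  3: the partners `u` of `w` with `u ~ w`: `m u = m w ∈ J1`, at most `t0` by `r3` at `w`; the
partners in the same cluster `K_i` (`i` = the common value of `K`): `u ∈ Rg i`, `Adj i u` (a candidate in a
cluster is of the second kind), `m u = m w`: at most `t0` by `r3` at `i`.  4: `u ~ w`, or `u, w ∈ ball 2 i`
(`ball_symm`, `ball_trans`).  5: a candidate `x` is in `A` (then `¬ hv i x`, so `dk i x < η D`), or `x ∈ Rg j`, `j ≠ i`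
(`GrP.lig`).  6: the candidates of `K_i` contain the neighbours `w` of `i` with `m w ∈ J1`, except those with
`m w ∈ J0` (at most `t0 |J0|`, `r3` at `i`), `m w ∈ Pb i` (and in `J1`: at most `t0 |Pb i|`), `K w ≠ some i` (at most
`102 δ D`, `d3`), `Sp w` (at most `104 δ D / η`): at least
`D / 300 - X ^ 4 ((1/2) ^ r (D + 1) + pmax D) - 102 δ D - 104 δ D / η ≥ D / 400`. 7: they are in `nb i` and `m w ∈ J1`. -/
def St_Cf : Prop := ∀ (P : Par) (V κ : Type) [Fintype V] [Fintype κ] (e : Ed V κ), Hy3 P e →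
  (∀ w, e.cand P w → e.m w ∈ e.J1) ∧
  (∀ u w, e.cf P u w → e.cf P w u) ∧
  (∀ w, (univ.filter (fun u => e.cf P u w)).card ≤ 2 * P.t0) ∧
  (∀ u w, e.cf P u w → u ∈ ball e.G 4 w) ∧
  (∀ i x, e.cand P x → e.K x ≠ some i → (e.dk i x : ℝ) ≤ P.eta * P.D) ∧
  (∀ i, e.K i = some i → P.D ≤ 400 * (univ.filter (fun w => e.K w = some i ∧ e.cand P w)).card) ∧
  (∀ i a, (univ.filter (fun w => e.K w = some i ∧ e.cand P w ∧ e.m w = a)).card ≤ P.t0)

/-- [PrA] (from `TCS.St_Box`, `St_Cf`, `St_NumL`) Probabilities of the labels.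
PROOF.  1, 2: `St_Box` (boxes).  3: `P(F0 w) ≥ P(label w = 0) - ∑_u P(label w = label u = 0) ≥ 1/pa - 2 t0 / pa ^ 2`
(`cf` partners are different from `w`), and `pa = X t0`, `2 t0 / pa ≤ 2 / 10 ^ 20`.  4: the value depends only on the
label of `w` and of its partners. -/
def St_PrA : Prop := ∀ (P : Par) (V κ : Type) [Fintype V] [Fintype κ] (e : Ed V κ), Hy3 P e →
  (∀ w, mean (fun ω : V → Fin P.pa => if (ω w).val = 0 then (1 : ℝ) else 0) = 1 / P.pa) ∧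
  (∀ w u, w ≠ u → mean (fun ω : V → Fin P.pa => if (ω w).val = 0 ∧ (ω u).val = 0 then (1 : ℝ)
    else 0) = 1 / (P.pa : ℝ) ^ 2) ∧
  (∀ w, e.cand P w → (1 - 1 / 10 ^ 10) / P.pa ≤
    mean (fun ω : V → Fin P.pa => if (fdA P e ω).F0 w then (1 : ℝ) else 0)) ∧
  (∀ w (ω ω' : V → Fin P.pa), (∀ t ∈ insert w (univ.filter (fun u => e.cf P u w)), ω t = ω' t) →
    ((fdA P e ω).F0 w ↔ (fdA P e ω').F0 w))

/-- [AF2] (from `St_CntQ`, `St_Cf`, `St_PrA`, `St_NumL`) (F2).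
PROOF.  For every `v` one test with centre `v`: `Q_v :=` the set of the `w = N_a v ≠ v`, `a ∉ J0`, `w ∈ A`, `m w ∈ J0`
(all candidates; `a ↦ N_a v` injective), `F := - |Q_v ∩ F0|`, `b := - |Q_v| / (2 pa) + nz`.  `St_CntQ` with
`Js := Q_v`, `g w := - [F0 w]`, `wt := 1`, `R w := {w} ∪ partners` (at most `1 + 2 t0` elements, in `ball 5 v`),
`M := 1 + 2 t0` (symmetry of `cf`), `W := (1 + 2 t0) ^ 2 (D + 1)`; `sqrt (2 W Lam) ≤ nz`.  The test gives (F2): in `r1`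
the left side is `n1 - |Q_v| / (2 pa) + (1 - thp) a2` with `n1` the number of the `a ∉ J0` with `N_a v ≠ v`,
`N_a v ∈ A`, `a2 = cj (¬ A)`, and `cj (A ∧ ¬ F0) = n1 - #{.. F0} ≤ n1 - |Q_v ∩ F0| ≤ n1 - |Q_v| / (2 pa) + nz`. -/
def St_AF2 : Prop := ∀ (P : Par) (V κ : Type) [Fintype V] [Fintype κ] (e : Ed V κ), Hy3 P e →
  Impl e.G P.Lam ((P.D + 2) ^ 10) (fun ω : V → Fin P.pa =>
    ∀ v, ((fdA P e ω).cj (fun w => e.A P w ∧ ¬ (fdA P e ω).F0 w) v : ℝ) +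
      (1 - P.thp) * ((fdA P e ω).cj (fun w => ¬ e.A P w) v : ℝ) ≤
      ((P.D : ℝ) + 1 - e.J0.card) * (1 - P.thp) + 2 * P.nz)

/-- [AF3] (from `St_CntQ`, `St_Cf`, `St_PrA`, `St_NumL`) (F3).
PROOF.  Two tests for every `i` with `K i = some i`, centre `i`.  Candidates of `K_i`: `C`, `D / 400 ≤ |C| ≤ |K_i| ≤ 1.001 D`.
Lower: `F := - ∑_{w ∈ C} [F0 w]`, mean at most `- (D/400) (1 - 10 ^ (-10)) / pa ≤ - D / (450 pa)`, `b := - D / (500 pa)`
(`= - fmin D`); `R w ⊆ ball 4 w ⊆ ball 6 i`, `M = 1 + 2 t0`, `W = (1 + 2 t0) ^ 2 * 2 D`, `sqrt (2 W Lam) ≤ nz ≤ D / X ^ 10`.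
Upper: `F := ∑_{w ∈ C} [label w = 0]`, mean `≤ 1.001 D / pa`, `b := 2 D / pa`, `R w = {w}`.  For the other `i`
`F0i` is empty. -/
def St_AF3 : Prop := ∀ (P : Par) (V κ : Type) [Fintype V] [Fintype κ] (e : Ed V κ), Hy3 P e →
  Impl e.G P.Lam ((P.D + 2) ^ 10) (fun ω : V → Fin P.pa =>
    (∀ i, e.K i = some i → P.fmin * P.D ≤ ((fdA P e ω).F0i i).card) ∧
    (∀ i, P.pa * ((fdA P e ω).F0i i).card ≤ 2 * P.D))

/-- [AF4] (from `St_CntQ`, `St_Cf`, `St_PrA`, `St_NumL`) (F4).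
PROOF.  For every `i` with `K i = some i` and every `a` one test with centre `i`: `Js :=` the candidates `x` with
`K x ≠ some i`, `m x = a`, `dk i x > 0`, `g x := dk i x * [label x = 0]`, `wt x := dk i x ≤ η D`, `R x = {x} ⊆ ball 3 i`
(`x` is adjacent to a vertex of `K_i`).  If `a ∉ J1` there are none.  `∑_x dk i x = ∑_{w ∈ K_i} #{x ∈ N(w) ..} ≤ t0 |K_i| ≤
2 t0 D` (`r3`).  Mean `≤ 2 t0 D / pa = 2 D / X`; `M := η D`, `W := 2 η t0 D ^ 2`; `sqrt (2 W Lam) = D sqrt (4 η X ^ 7) ≤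
D / X ^ 100` (`X ^ 1600 η ≤ 1`).  `b := D / 1000`.  f4': `|FB i a| ≤ ∑ dk i x` (`FB ⊆ ⋃ N(x) ∩ K_i`).  For the other `i`
the sums are `0` (`K_i` empty). -/
def St_AF4 : Prop := ∀ (P : Par) (V κ : Type) [Fintype V] [Fintype κ] (e : Ed V κ), Hy3 P e →
  Impl e.G P.Lam ((P.D + 2) ^ 10) (fun ω : V → Fin P.pa =>
    (∀ i a, 1000 * (∑ x ∈ univ.filter (fun x => (fdA P e ω).F0 x ∧ e.K x ≠ some i ∧ e.m x = a),
      e.dk i x) ≤ P.D) ∧
    (∀ i a, 1000 * ((fdA P e ω).FB i a).card ≤ P.D))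

/-- [AF5] (from `St_CntQ`, `St_Cf`, `St_PrA`, `St_NumL`) (F5).
PROOF.  For every `i`, `v ∈ Rg i` one test with centre `v`.  The rows `w` in question are candidates of `K_i`
adjacent to `v` with `N_a v = w` for an `a` (unique, `EC.uniq`) which is in `Q`, or `a = m w'` for some `w' ∈ F0i`,
`w' ≠ w` (if `w' = w` then `a = m w`, and `N_{m w} w = w` (`miss`), but `N_a w = N_a (N_a v) = v ≠ w`).  So the number is at
most `F := ∑_{w ∈ Y1} [label w = 0] + ∑_{(w, w') ∈ Y2} [label w = label w' = 0]`, `Y1 :=` the candidates `w ∈ K_i` with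
`w = N_a v ≠ v`, `a ∈ Q` (at most `|Q| ≤ rho D`), `Y2 :=` the pairs of candidates `w ≠ w'` of `K_i` with
`w = N_a v ≠ v`, `a = m w'` (at most `D t0`, `St_Cf` 7, `2 D t0` is enough).  Mean `≤ rho D / pa + 2 D t0 / pa ^ 2`,
at most `D / (10 ^ 6 pa)` (`rho ≤ 10 ^ (-20)`, `t0 / pa = 1 / X`).  `St_CntQ` with index type `V ⊕ (V × V)`: `R` of at most
2 elements (in `ball 5 v`), `wt = 1`, every `t` is in at most `2 + t0 ≤ 2 t0` of the sets (for given `w` the colour `a`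
is determined, at most `t0` of `w'`; for given `w'` there is at most one `w`), `W := 2 t0 * 2 * (D + 2 D t0)`,
`sqrt (2 W Lam) ≤ nz`.  `b := fmin D / 8 = D / (4000 pa)`. -/
def St_AF5 : Prop := ∀ (P : Par) (V κ : Type) [Fintype V] [Fintype κ] (e : Ed V κ), Hy3 P e →
  Impl e.G P.Lam ((P.D + 2) ^ 10) (fun ω : V → Fin P.pa =>
    ∀ i, ∀ v ∈ e.Rg P i, ((univ.filter (fun w => (fdA P e ω).F0 w ∧ e.K w = some i ∧
      e.G.Adj v w ∧ ∃ a, e.E.N a v = w ∧ (a ∈ e.Q ∨ a ∈ (fdA P e ω).mF i))).card : ℝ) ≤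
      P.fmin * P.D / 8)

/-- [AF6] (from `St_CntQ`, `St_Cf`, `St_PrA`, `St_NumL`) (F6).
PROOF.  For every `i` with `K i = some i` and `k < nbl i` one test with centre `i` (`nbl i ≤ |Pb i| ≤ D`).
`Wt := Wt P i k ≥ |Rg i| / 4 ≥ D / 5`.  `|W0 ∩ FB i a| ≤ ∑_x [F0 x, K x ≠ some i, m x = a] |N(x) ∩ W0 i a|`, so the sum
is at most `F := ∑_x b_x [label x = 0]` over the candidates `x` with `K x ≠ some i`, `m x ∈ Gam i k`,
`b_x := |N(x) ∩ W0 i (m x)| ≤ dk i x ≤ η D` (restrict to `b_x > 0`).  `∑ b_x = ∑_{a ∈ Gam} ∑_{w ∈ W0 i a} #{x ~ w, m x = a} ≤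
t0 Wt` (`r3`; `x` a candidate, so `m x ∈ J1`).  Mean `≤ t0 Wt / pa = Wt / X`; `M := η D`, `W := η D t0 Wt + 1`;
`sqrt (2 W Lam) ≤ Wt / 10 ^ 4` because `2 η D X ^ 7 * 10 ^ 8 ≤ Wt / 2`.  `b := Wt / 100`. -/
def St_AF6 : Prop := ∀ (P : Par) (V κ : Type) [Fintype V] [Fintype κ] (e : Ed V κ), Hy3 P e →
  Impl e.G P.Lam ((P.D + 2) ^ 10) (fun ω : V → Fin P.pa =>
    ∀ i k, k < e.nbl i → 100 * (∑ a ∈ e.Gam i k,
      ((e.W0 P i a) ∩ ((fdA P e ω).FB i a)).card) ≤ e.Wt P i k)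

/-- [Acc] (from `St_NumL`, `St_TstL`, `St_ImpA`, `St_Cf`, `St_AF2`, .., `St_AF6`) Section 4.
PROOF.  `St_ImpA` for the five properties, `N := 5 (D + 2) ^ 10`; `St_TstL`.  f0, f1 by the definition of `fdA`. -/
def St_Acc : Prop := St_Ac10

/-! ### The bipartition -/

/-- the hypotheses of section 5 -/
structure Hy4 {V κ : Type} [Fintype V] [Fintype κ] (P : Par) (f : Fd V κ) : Prop where
  nm : Num10 P
  gr : GrP P f.toGd
  ed : EdP P f.toEd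
  ac : AcP P f

/-- representatives of the orbits of `z` -/
structure Rep {V : Type} (z rep : V → V) : Prop where
  z2 : ∀ v, z (z v) = v
  a : ∀ v, rep v = v ∨ rep v = z v
  b : ∀ v, rep (z v) = rep v

/-- the bipartition and the reserved right vertices given by the coins -/
noncomputable def tdT {V κ : Type} [Fintype V] [Fintype κ] (P : Par) (f : Fd V κ)
    (rep : V → V) (ω : V → Bool × Fin P.MW) : Td V κ :=
  { toFd := f, tau := fun v => (ω (rep v)).1, W := fun v => (ω (rep v)).2.val = 0 }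

/-- the condition `q` for the second coin (`none`: no condition) -/
def cnd {M : ℕ} (q : Option Bool) (x : Fin M) : Prop :=
  q = none ∨ (q = some true ∧ x.val = 0) ∨ (q = some false ∧ x.val ≠ 0)

/-- its probability -/
noncomputable def pq (M : ℕ) (q : Option Bool) : ℝ :=
  match q with
  | none => 1
  | some true => 1 / (M : ℝ)
  | some false => 1 - 1 / (M : ℝ)

/-- [PrT] (from `TCS.St_Box`) Probabilities of the coins.
PROOF.  All events are boxes or disjoint unions of two or four boxes (the values of the first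
coins); `St_Box` (the product over `t` has at most four factors which are not `1`; use
`Finset.prod_eq_..` or `Finset.prod_ite_eq`-type lemmas, or `prod` over `insert`).  `#{x : Bool × Fin M | x.1 = b ∧ cnd q x.2}
= M * pq M q`, so its share in `2 M` is `pq / 2`. -/
def St_PrT : Prop := ∀ (V : Type) [Fintype V] (M : ℕ) (q : Option Bool), 0 < M →
  (∀ (p : V) (b : Bool), mean (fun ω : V → Bool × Fin M =>
    if (ω p).1 = b ∧ cnd q (ω p).2 then (1 : ℝ) else 0) = pq M q / 2) ∧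
  (∀ p r : V, p ≠ r → mean (fun ω : V → Bool × Fin M =>
    if (ω r).1 ≠ (ω p).1 ∧ cnd q (ω r).2 then (1 : ℝ) else 0) = pq M q / 2) ∧
  (∀ (p r : V) (b b' : Bool), p ≠ r → mean (fun ω : V → Bool × Fin M =>
    if (ω p).1 = b ∧ (ω r).1 = b' ∧ cnd q (ω p).2 ∧ cnd q (ω r).2 then (1 : ℝ) else 0) =
      pq M q ^ 2 / 4) ∧
  (∀ p r r' : V, p ≠ r → p ≠ r' → r ≠ r' → mean (fun ω : V → Bool × Fin M =>
    if (ω r).1 ≠ (ω p).1 ∧ (ω r').1 ≠ (ω p).1 ∧ cnd q (ω r).2 ∧ cnd q (ω r').2 then (1 : ℝ)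
      else 0) = pq M q ^ 2 / 4) ∧
  (∀ p p' r r' : V, p ≠ p' → p ≠ r → p ≠ r' → p' ≠ r → p' ≠ r' → r ≠ r' →
    mean (fun ω : V → Bool × Fin M =>
      if (ω r).1 ≠ (ω p).1 ∧ (ω r').1 ≠ (ω p').1 then (1 : ℝ) else 0) = 1 / 4)

/-- [Tal] (from `St_CntQ`, `St_PrT`) Types alpha, beta, gamma, delta.  `T` is a finite set of indices.
PROOF.  `St_CntQ` with `wt = 1`, `R i :=` the set of the `rep` of the vertices which occur (at most 3), `M = 6`: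
`rep (p i) = t` implies `p i ∈ {t, z t}`, so at most 2 indices `i ∈ T` (`p` injective on `T`), the same for `r`, `r'`.
`W := 100 (D + 1) ≥ 6 * 3 * |T|`.  `R i ⊆ ball 8 c` (`rep v ∈ {v, z v}`).  Means by `St_PrT`.  The second half of
every line: the function with the opposite sign. -/
def St_Tal : Prop := ∀ (V I : Type) [Fintype V] (G : SimpleGraph V) (M D : ℕ) (Lam : ℝ)
  (z rep : V → V) (c : V) (T : Finset I) (p r r' : I → V) (q : Option Bool), 0 < M → Rep z rep →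
  (∀ v, z v ≠ v → G.Adj v (z v)) → 0 < Lam → T.card ≤ 4 * (D + 1) →
  Set.InjOn p T → (∀ i ∈ T, p i ∈ ball G 7 c) →
  ((∀ b : Bool, Tst G Lam c (fun ω : V → Bool × Fin M => ((T.filter (fun i =>
      (ω (rep (p i))).1 = b ∧ cnd q (ω (rep (p i))).2)).card : ℝ))
      (pq M q / 2 * T.card + Real.sqrt (200 * ((D : ℝ) + 1) * Lam)) ∧
    Tst G Lam c (fun ω : V → Bool × Fin M => -((T.filter (fun i =>
      (ω (rep (p i))).1 = b ∧ cnd q (ω (rep (p i))).2)).card : ℝ))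
      (-(pq M q / 2 * T.card) + Real.sqrt (200 * ((D : ℝ) + 1) * Lam)))) ∧
  (Set.InjOn r T → (∀ i ∈ T, r i ∈ ball G 7 c) → (∀ i ∈ T, rep (p i) ≠ rep (r i)) →
    (Tst G Lam c (fun ω : V → Bool × Fin M => ((T.filter (fun i =>
      (ω (rep (r i))).1 ≠ (ω (rep (p i))).1 ∧ cnd q (ω (rep (r i))).2)).card : ℝ))
      (pq M q / 2 * T.card + Real.sqrt (200 * ((D : ℝ) + 1) * Lam)) ∧
    Tst G Lam c (fun ω : V → Bool × Fin M => -((T.filter (fun i =>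
      (ω (rep (r i))).1 ≠ (ω (rep (p i))).1 ∧ cnd q (ω (rep (r i))).2)).card : ℝ))
      (-(pq M q / 2 * T.card) + Real.sqrt (200 * ((D : ℝ) + 1) * Lam))) ∧
    (∀ b b' : Bool, Tst G Lam c (fun ω : V → Bool × Fin M => ((T.filter (fun i =>
      (ω (rep (p i))).1 = b ∧ (ω (rep (r i))).1 = b' ∧ cnd q (ω (rep (p i))).2 ∧
        cnd q (ω (rep (r i))).2)).card : ℝ))
      (pq M q ^ 2 / 4 * T.card + Real.sqrt (200 * ((D : ℝ) + 1) * Lam)) ∧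
    Tst G Lam c (fun ω : V → Bool × Fin M => -((T.filter (fun i =>
      (ω (rep (p i))).1 = b ∧ (ω (rep (r i))).1 = b' ∧ cnd q (ω (rep (p i))).2 ∧
        cnd q (ω (rep (r i))).2)).card : ℝ))
      (-(pq M q ^ 2 / 4 * T.card) + Real.sqrt (200 * ((D : ℝ) + 1) * Lam))) ∧
    (Set.InjOn r' T → (∀ i ∈ T, r' i ∈ ball G 7 c) → (∀ i ∈ T, rep (p i) ≠ rep (r' i)) →
      (∀ i ∈ T, rep (r i) ≠ rep (r' i)) →
      Tst G Lam c (fun ω : V → Bool × Fin M => ((T.filter (fun i =>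
        (ω (rep (r i))).1 ≠ (ω (rep (p i))).1 ∧ (ω (rep (r' i))).1 ≠ (ω (rep (p i))).1 ∧
          cnd q (ω (rep (r i))).2 ∧ cnd q (ω (rep (r' i))).2)).card : ℝ))
        (pq M q ^ 2 / 4 * T.card + Real.sqrt (200 * ((D : ℝ) + 1) * Lam))))

/-- [Tb] (from `St_NumL`) Basic facts for section 5.
PROOF.  1: `N_a w ≠ w` and `N_a w` is fixed by `z`, so `N_a w ∉ {w, z w}` (if `N_a w = z w` then `z (N_a w) = w`), and
`rep (N_a w) = N_a w`.  2: the colours `a` with `N_a w ≠ w` are in bijection with the neighbours of `w` except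
possibly `z w` (`sub`, `cov`, `uniq`).  3: `{a | z (N_a u) ≠ N_a u, N_a u ≠ u}` injects into the neighbours of `u` moved
by `z` (`r4`).  4: `f1` (two elements of `F0i i` with the same `m` are partners), `f0`: an element of `F0` in a
cluster is a candidate of the second kind.  5: `a ↦ N_a w` is injective where `N_a w ≠ w`; values are
neighbours outside of the cluster.  6: `sqrt (200 (D + 1) Lam) ≤ nz` by `dev` (`W := 100 (D + 1)`).
7: `q2`.  8: the virtual neighbours of `u` are in `hv i`, `i` one of at most `1 / η` indices, `hv1`. -/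
def St_Tb : Prop := ∀ (P : Par) (V κ : Type) [Fintype V] [Fintype κ] (f : Fd V κ) (rep : V → V),
  Hy4 P f → Rep f.z rep →
  (∀ w a, f.gc w a → rep (f.E.N a w) = f.E.N a w ∧ rep (f.E.N a w) ≠ rep w) ∧
  (∀ w, (univ.filter (fun a => f.E.N a w = w)).card ≤ 2) ∧
  (∀ w, (univ.filter (fun a => f.E.N a w ≠ w ∧ f.z (f.E.N a w) ≠ f.E.N a w)).card ≤ 2 * P.X) ∧
  (∀ i, (f.mF i).card = (f.F0i i).card ∧ ∀ a ∈ f.mF i, a ∈ f.J1 ∧ a ∉ f.J0 ∧ a ∉ f.Q ∧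
    a ∉ f.Pb P i) ∧
  (∀ i w, f.K w = some i →
    (univ.filter (fun a => f.E.N a w ≠ w ∧ f.K (f.E.N a w) ≠ some i)).card ≤ f.oo w) ∧
  Real.sqrt (200 * ((P.D : ℝ) + 1) * P.Lam) ≤ P.nz / P.X ∧
  (f.Q.card : ℝ) ≤ P.rho * P.D ∧
  (∀ u, f.K u = none → ((univ.filter (fun w => f.adj' P u w)).card : ℝ) ≤ 11 / 10 * P.D)

/-- the properties of section 5, as properties of `t` -/
def pS1 {V κ : Type} [Fintype V] [Fintype κ] (P : Par) (t : Td V κ) : Prop :=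
  (∀ u, ((P.D : ℝ) + 1 - t.J0.card) / 2 - P.nz ≤
    ((univ.filter (fun a => a ∉ t.J0 ∧ t.cr u a)).card : ℝ)) ∧
  (∀ u, t.K u = none → ((t.dKU u : ℝ) - t.J0.card) / 2 - P.nz ≤
    ((univ.filter (fun a => a ∉ t.J0 ∧ t.cr u a ∧ t.K (t.E.N a u) ≠ none)).card : ℝ))

/-- (S2) -/
def pS2 {V κ : Type} [Fintype V] [Fintype κ] (P : Par) (t : Td V κ) : Prop :=
  (∀ v, ((univ.filter (fun a => a ∉ t.J0 ∧ (t.A P (t.E.N a v) ∧ ¬ t.F0 (t.E.N a v)) ∧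
      t.tau (t.E.N a v) ≠ t.tau v)).card : ℝ) ≤
    1 / 2 * (t.cj (fun w => t.A P w ∧ ¬ t.F0 w) v : ℝ) + P.nz) ∧
  (∀ v, ((univ.filter (fun a => a ∉ t.J0 ∧ (t.K (t.E.N a v) = none ∧ ¬ t.A P (t.E.N a v)) ∧
      t.tau (t.E.N a v) ≠ t.tau v)).card : ℝ) ≤
    1 / 2 * (t.cj (fun w => t.K w = none ∧ ¬ t.A P w) v : ℝ) + P.nz)

/-- (S3) -/
def pS3 {V κ : Type} [Fintype V] [Fintype κ] (P : Par) (t : Td V κ) : Prop :=
  ∀ u a, t.K u = none → a ∉ t.J0 →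
    (((t.PU P u a).filter (fun w => t.cr w a)).card : ℝ) ≤ ((t.PU P u a).card : ℝ) / 2 + P.nz

/-- (S4) -/
def pS4 {V κ : Type} [Fintype V] [Fintype κ] (P : Par) (t : Td V κ) : Prop :=
  ∀ u a, t.K u = none → a ∉ t.J0 →
    1 / 4 * ((((t.PU P u a) ×ˢ (t.PU P u a)).filter
      (fun w => w.1 ≠ w.2 ∧ ¬ t.adj' P w.1 w.2)).card : ℝ) - P.D * P.nz ≤
    ((((t.PU P u a) ×ˢ (t.PU P u a)).filter
      (fun w => w.1 ≠ w.2 ∧ ¬ t.adj' P w.1 w.2 ∧ t.cr w.1 a ∧ t.cr w.2 a)).card : ℝ)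

/-- (K1) -/
def pK1 {V κ : Type} [Fintype V] [Fintype κ] (P : Par) (t : Td V κ) : Prop :=
  ∀ i a, t.K i = some i → a ∉ t.Pb P i →
    1 / 2 * (1 - 1 / (P.MW : ℝ)) * (((t.Rg P i).card : ℝ) - (t.F0i i).card - P.theta * P.D -
      (t.Spi P i).card - 2 * P.X) - P.nz ≤
    ((univ.filter (fun w => w ∈ t.Rg P i ∧ ¬ t.F0 w ∧ (t.fx w a ∨
      (t.cr w a ∧ t.E.N a w ∈ t.Rg P i ∧ ¬ t.W (t.E.N a w))))).card : ℝ)

/-- (K2), (K3) -/
def pK2 {V κ : Type} [Fintype V] [Fintype κ] (P : Par) (t : Td V κ) : Prop :=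
  (∀ i, ∀ w ∈ t.Rg P i,
    ((univ.filter (fun a => a ∉ t.Q ∧ a ∉ t.mF i ∧ t.cr w a ∧ ¬ t.W (t.E.N a w))).card : ℝ) ≤
    1 / 2 * (1 - 1 / (P.MW : ℝ)) * ((P.D : ℝ) + 1 - t.Q.card - (t.F0i i).card) + P.nz) ∧
  (∀ i, ∀ v ∈ t.Rg P i,
    ((univ.filter (fun a => a ∉ t.Q ∧ a ∉ t.mF i ∧ t.E.N a v ∈ t.Rg P i ∧ ¬ t.F0 (t.E.N a v) ∧
      t.tau (t.E.N a v) ≠ t.tau v)).card : ℝ) ≤
    1 / 2 * ((P.D : ℝ) + 1 - t.Q.card - 2 * (t.F0i i).card + P.fmin * P.D / 8 +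
      2 * P.eta * P.D) + P.nz)

/-- (K4) -/
def pK4 {V κ : Type} [Fintype V] [Fintype κ] (P : Par) (t : Td V κ) : Prop :=
  ∀ i a (T : Finset V), t.K i = some i → a ∉ t.Pb P i →
    (T = ∅ ∨ ∃ x y, t.K x ≠ some i ∧ t.K y ≠ some i ∧ T = nb t.G x ∪ nb t.G y) →
    P.D ≤ 113 * (t.Ki i \ T).card →
    P.D ≤ 300 * P.MW * (univ.filter (fun w => w ∈ t.Rg P i ∧ ¬ t.F0 w ∧ w ∉ t.FB i a ∧ w ∉ T ∧
      (t.fx w a ∨ (t.cr w a ∧ t.E.N a w ∈ t.Rg P i ∧ t.W (t.E.N a w))))).card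

/-- (K5), (K6) -/
def pK5 {V κ : Type} [Fintype V] [Fintype κ] (P : Par) (t : Td V κ) : Prop :=
  (∀ i, ∀ u ∈ t.Rg P i, 45 * P.D ≤ 100 * P.MW *
    (univ.filter (fun a => a ∉ t.Q ∧ a ∉ t.mF i ∧ a ∉ t.Pb P i ∧ t.cr u a ∧
      t.E.N a u ∈ t.Rg P i ∧ t.W (t.E.N a u))).card) ∧
  (∀ i, ∀ w ∈ t.Rg P i, ((t.Q.card : ℝ) - 2 * P.eta * P.D) / (2 * P.MW) - P.nz ≤
    ((t.Q.filter (fun a => t.cr w a ∧ t.E.N a w ∈ t.Rg P i ∧ t.W (t.E.N a w))).card : ℝ)) ∧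
  (∀ i, ∀ w ∈ t.Rg P i, ∀ w' ∈ t.Rg P i, w ≠ w' →
    ((t.Q.filter (fun a => t.cr w a ∧ t.cr w' a ∧ t.W (t.E.N a w) ∧
      t.W (t.E.N a w'))).card : ℝ) ≤ (t.Q.card : ℝ) / (4 * (P.MW : ℝ) ^ 2) + P.nz)

/-- (K7) -/
def pK7 {V κ : Type} [Fintype V] [Fintype κ] (P : Par) (t : Td V κ) : Prop :=
  (∀ i b, ((univ.filter (fun u => u ∈ t.Rg P i ∧ t.gc u b ∧
      t.E.N b u ∈ t.Rg P i)).card : ℝ) / (2 * P.MW) - P.nz ≤
    ((univ.filter (fun u => u ∈ t.Rg P i ∧ t.cr u b ∧ t.E.N b u ∈ t.Rg P i ∧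
      t.W (t.E.N b u))).card : ℝ)) ∧
  (∀ i b b', b ≠ b' → ((univ.filter (fun u => u ∈ t.Rg P i ∧ t.cr u b ∧ t.cr u b' ∧
      t.W (t.E.N b u) ∧ t.W (t.E.N b' u))).card : ℝ) ≤
    ((t.Rg P i).card : ℝ) / (4 * (P.MW : ℝ) ^ 2) + P.nz)

/-- (K8) -/
def pK8 {V κ : Type} [Fintype V] [Fintype κ] (P : Par) (t : Td V κ) : Prop :=
  (∀ i x, t.K x = some i → t.pr x ≠ x → 24 * P.D ≤ 100 *
    (univ.filter (fun a => a ∉ t.Q ∧ a ∉ t.mF i ∧ a ∉ t.Pb P i ∧ t.cr x a ∧ t.cr (t.pr x) a ∧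
      t.E.N a x ∈ t.Rg P i ∧ ¬ t.W (t.E.N a x) ∧ t.E.N a (t.pr x) ∈ t.Rg P i ∧
      ¬ t.W (t.E.N a (t.pr x)))).card) ∧
  (∀ i x, t.K x = some i → t.Irr P x → 48 * P.D ≤ 100 *
    (univ.filter (fun a => a ∉ t.Q ∧ a ∉ t.mF i ∧ a ∉ t.Pb P i ∧ t.cr x a ∧
      t.E.N a x ∈ t.Rg P i ∧ ¬ t.W (t.E.N a x))).card)

/-- (K9) -/
def pK9 {V κ : Type} [Fintype V] [Fintype κ] (P : Par) (t : Td V κ) : Prop :=
  ∀ i k, k < t.nbl i → 49 * t.Wt P i k ≤ 100 * (∑ a ∈ t.Gam i k, (t.W1 P i a).card)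

/-- [TS1] (from `St_Tal`, `St_Tb`) (S1), (S1K).
PROOF.  Tests for `(u, b)`, `b : Bool`, centre `u`: `T := {a | a ∉ J0, gc u a}`, `p a := N_a u` (injective, adjacent to `u`),
`q := none`, sign `-`: `#{a ∈ T | tau (N_a u) = b} ≥ |T| / 2 - nz / X`.  For `b := !tau u` this set is
`{a ∉ J0 | cr u a}`.  `|T| ≥ D + 1 - |J0| - 2 - 2 X`.  (S1K): `T := {a ∉ J0 | gc u a, K (N_a u) ≠ none}`; the colours `a`
with `N_a u ≠ u`, `K (N_a u) ≠ none` are at least `dKU u - 1` (all neighbours in `KU` except `z u`), so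
`|T| ≥ dKU u - 1 - |J0| - 2 X`.  At most 4 tests at every vertex. -/
def St_TS1 : Prop := ∀ (P : Par) (V κ : Type) [Fintype V] [Fintype κ] (f : Fd V κ)
  (rep : V → V), Hy4 P f → Rep f.z rep → Impl f.G P.Lam ((P.D + 2) ^ 10)
    (fun ω : V → Bool × Fin P.MW => pS1 P (tdT P f rep ω))

/-- [TS2] (from `St_Tal`, `St_Tb`) (S2).
PROOF.  Tests for `(v, b)`: `T := {a ∉ J0 | N_a v ≠ v, R (N_a v), rep (N_a v) ≠ rep v}`, `p a := N_a v`, `q := none`, sign `+`: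
`#{a ∈ T | tau (N_a v) = b} ≤ |T| / 2 + nz / X`, `|T| ≤ cj R v`; `b := !tau v`.  If `N_a v = v` or `rep (N_a v) = rep v`
then `tau (N_a v) = tau v`.  Both for `R = (A ∧ ¬ F0)` and `R = (K = none ∧ ¬ A)`. -/
def St_TS2 : Prop := ∀ (P : Par) (V κ : Type) [Fintype V] [Fintype κ] (f : Fd V κ)
  (rep : V → V), Hy4 P f → Rep f.z rep → Impl f.G P.Lam ((P.D + 2) ^ 10)
    (fun ω : V → Bool × Fin P.MW => pS2 P (tdT P f rep ω))

/-- [TS3] (from `St_Tal`, `St_Tb`) (S3).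
PROOF.  Tests for `(u, a)`, centre `u` (at most `D + 1` at `u`): `T := PU u a` (at most `1.1 D` elements, `St_Tb`),
`p w := w`, `r w := N_a w` (injective: `E.inv`), `q := none`, type beta, sign `+`.  `T ⊆ ball 6 u`: a virtual neighbour
`w` of `u` has a neighbour in the same `K_i` as `u`, `K_i ⊆ ball 2 i`.  `rep w ≠ rep (N_a w)` by `St_Tb`. -/
def St_TS3 : Prop := ∀ (P : Par) (V κ : Type) [Fintype V] [Fintype κ] (f : Fd V κ)
  (rep : V → V), Hy4 P f → Rep f.z rep → Impl f.G P.Lam ((P.D + 2) ^ 10)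
    (fun ω : V → Bool × Fin P.MW => pS3 P (tdT P f rep ω))

/-- [TS4] (from `St_CntQ`, `St_PrT`, `St_Tb`) (S4).
PROOF.  Tests for `(u, a)`, centre `u`.  `Js :=` the pairs `(w, w') ∈ PU × PU`, `w ≠ w'`, `¬ adj' w w'` (so `¬ G.Adj w w'`),
`g := - [cr w a ∧ cr w' a]`.  The four vertices `rep w, rep w', N_a w, N_a w'` are different (`N_a w`, `N_a w'` are
fixed by `z`): `rep w = rep w'` gives `w' = z w`, adjacent to `w`; `N_a w ∉ {w, z w}`; `N_a w = w'` is adjacent to `w`;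
`N_a w = z w'` gives `N_a w = z (N_a w) = w'`; `N_a w = N_a w'` gives `w = w'`.  So `mean g = - 1/4` (`St_PrT`).
`R :=` these four vertices, in `ball 8 u`; every `t` is in at most `8 D` of the sets (`w ∈ {t, z t, N_a t}` and `w'`
arbitrary, or conversely: `2 * 3 * |PU|`), `wt = 1`, `W := 8 D * 4 * (1.1 D) ^ 2 + 1 ≤ 40 D ^ 3`,
`sqrt (2 W Lam) ≤ D nz`.  The bound is `b := - |Js| / 4 + D nz`. -/
def St_TS4 : Prop := ∀ (P : Par) (V κ : Type) [Fintype V] [Fintype κ] (f : Fd V κ)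
  (rep : V → V), Hy4 P f → Rep f.z rep → Impl f.G P.Lam ((P.D + 2) ^ 10)
    (fun ω : V → Bool × Fin P.MW => pS4 P (tdT P f rep ω))

/-- [TK1] (from `St_Tal`, `St_Tb`) (K1).
PROOF.  Tests for `(i, a)`, `K i = some i`, `a ∉ Pb i`, centre `i`: `T := {w ∈ Rg i | ¬ F0 w, gc w a, N_a w ∈ Rg i}`,
`p w := w`, `r w := N_a w`, `q := some false`, type beta, sign `-`: at least `(1/2)(1 - 1/MW) |T| - nz / X` rows.  Let `T0`
be the set of the `w ∈ Rg i`, `¬ F0 w`, with `N_a w = w`.  `|T0| + |T| ≥ n - |F0i| - theta D - |Spi| - 2 X`: the other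
rows `w ∈ Rg i \ F0` have `K (N_a w) ≠ some i` (at most `theta D`, `a ∉ Pb i`), or `N_a w ∈ Spi` (at most `|Spi|`,
`N_a` injective), or `N_a w ∈ K_i` moved by `z` (at most `2 X`, `r4'`).  The rows of `T0` are counted with weight 1. -/
def St_TK1 : Prop := ∀ (P : Par) (V κ : Type) [Fintype V] [Fintype κ] (f : Fd V κ)
  (rep : V → V), Hy4 P f → Rep f.z rep → Impl f.G P.Lam ((P.D + 2) ^ 10)
    (fun ω : V → Bool × Fin P.MW => pK1 P (tdT P f rep ω))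

/-- [TK2] (from `St_Tal`, `St_Tb`) (K2), (K3).
PROOF.  (K2) tests for `(i, w, b)`, centre `w`, `w ∈ Rg i`: `T := {a ∉ Q, a ∉ mF i | gc w a}`, `p a := N_a w`,
`q := some false`, type alpha, sign `+`; `|T| ≤ D + 1 - |Q| - |F0i|` (`St_Tb` 4: `mF i` is disjoint from `Q`,
`|mF i| = |F0i i|`).  (K3) tests for `(i, v, b)`, centre `v`: `T := {a ∉ Q, a ∉ mF i | N_a v ≠ v, N_a v ∈ Rg i, ¬ F0 (N_a v),
rep (N_a v) ≠ rep v}`, `p a := N_a v`, `q := none`, type alpha, sign `+` (cells with the same coin have equal `tau`).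
`|T| ≤ D + 1 - |Q| - |F0i| - #{a ∉ Q ∪ mF i | F0 (N_a v), K (N_a v) = some i, N_a v ≠ v}`.  The last number is at least
`|F0i| - aw v - 1 - 1 - fmin D / 8`: the `w ∈ F0i`, `w ≠ v`, adjacent to `v`, `w ≠ z v` are `N_a v` for some `a`
(`cov`), and at most `fmin D / 8` of them have `a ∈ Q ∪ mF i` (`f5`).  `aw v + 2 ≤ oo v + 102 δ D + 2 ≤ 2 η D`
(`v ∈ Rg i` is not irregular: `oo v < η D`). -/
def St_TK2 : Prop := ∀ (P : Par) (V κ : Type) [Fintype V] [Fintype κ] (f : Fd V κ)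
  (rep : V → V), Hy4 P f → Rep f.z rep → Impl f.G P.Lam ((P.D + 2) ^ 10)
    (fun ω : V → Bool × Fin P.MW => pK2 P (tdT P f rep ω))

/-- [TK4] (from `St_Tal`, `St_Tb`) (K4).
PROOF.  Tests for `(i, a, T)`, centre `i`, `K i = some i`, `a ∉ Pb i`, where `T = ∅` or `T = N(x) ∪ N(y)` with
`x, y ∈ ball 3 i`, `K x, K y ≠ some i`, and `D ≤ 113 |K_i \ T|`: index `κ × Option (V × V)`, at most
`(D + 1) (1 + (D + 1) ^ 6) ≤ (D + 2) ^ 8` tests at `i`.  (A general `T = N(x) ∪ N(y)` has the same intersection with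
`K_i ⊇ Rg i` as one of these: an `x ∉ ball 3 i` has no neighbour in `K_i ⊆ ball 2 i`, replace it by `y`; if both
are outside, `T ∩ K_i = ∅`.)  `Y := {w ∈ Rg i | ¬ F0 w, w ∉ FB i a, w ∉ T}`: `|Y| ≥ |K_i \ T| - |Spi| - |F0i| - |FB i a| ≥
D / 113 - 104 δ D / η - 2 D / pa - D / 1000`.  As in (K1), all but `theta D + |Spi| + 2 X` rows of `Y` have
`N_a w = w` (set `T0`) or (`gc w a` and `N_a w ∈ Rg i`) (set `T1`): `|T0| + |T1| ≥ D / 130`.  Type beta for `T1`,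
`q := some true`, sign `-`: at least `|T1| / (2 MW) - nz / X`.  Sum `≥ (|T0| + |T1|) / (2 MW) - nz / X ≥ D / (300 MW)`
(`nz ≤ D / X ^ 100`). -/
def St_TK4 : Prop := ∀ (P : Par) (V κ : Type) [Fintype V] [Fintype κ] (f : Fd V κ)
  (rep : V → V), Hy4 P f → Rep f.z rep → Impl f.G P.Lam ((P.D + 2) ^ 10)
    (fun ω : V → Bool × Fin P.MW => pK4 P (tdT P f rep ω))

/-- [TK5] (from `St_Tal`, `St_Tb`) (K5), (K6).
PROOF.  (K5) tests for `(i, u, b)`, centre `u ∈ Rg i`: `T := {a ∉ Q ∪ mF i ∪ Pb i | gc u a, N_a u ∈ Rg i}`, `p a := N_a u`,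
`q := some true`, alpha, sign `-`; `|T| ≥ D + 1 - rho D - 2 D / pa - pmax D - 2 - 2 X - η D - 104 δ D / η ≥ 0.99 D`
(`N_a u ∈ Spi` for at most `|Spi|` colours).  So at least `0.495 D / MW - nz / X ≥ 0.45 D / MW`.
(K6, first) the same with `T := {a ∈ Q | gc w a, N_a w ∈ Rg i}`, `|T| ≥ |Q| - 2 - 2 X - oo w - |Spi| ≥ |Q| - 2 η D`
(`oo w < η D`, `|Spi| ≤ 104 δ D / η ≤ η D / 2`).  (K6, second) tests for `(i, w, w', b, b')`, centre `i`, `K i = some i`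
(`w, w' ∈ K_i`: at most `|K_i| ^ 2 * 4`): `T := {a ∈ Q | gc w a, gc w' a, N_a w ≠ w'}`, `p a := N_a w`, `r a := N_a w'`, gamma,
`q := some true`, sign `+`, `b := !tau w`, `b' := !tau w'`: at most `|T| / (4 MW ^ 2) + nz / X`; `rep (N_a w) = N_a w ≠ N_a w'`.
At most one `a` has `N_a w = w'` (add `1 ≤ nz / 2`). -/
def St_TK5 : Prop := ∀ (P : Par) (V κ : Type) [Fintype V] [Fintype κ] (f : Fd V κ)
  (rep : V → V), Hy4 P f → Rep f.z rep → Impl f.G P.Lam ((P.D + 2) ^ 10)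
    (fun ω : V → Bool × Fin P.MW => pK5 P (tdT P f rep ω))

/-- [TK7] (from `St_Tal`, `St_Tb`) (K7).
PROOF.  Only `i` with `K i = some i` (otherwise `Rg i = ∅` and `- nz ≤ 0`).  First: tests `(i, b)`, centre `i`, beta,
`T := {u ∈ Rg i | gc u b, N_b u ∈ Rg i}`, `p u := u`, `r u := N_b u`, `q := some true`, sign `-`.  Second: tests `(i, b, b')`, delta,
`T := {u ∈ Rg i | gc u b, gc u b'}`, `p u := u`, `r u := N_b u`, `r' u := N_b' u` (`N_b u ≠ N_b' u` by `EC.uniq`, both fixed by `z`).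
`|T| ≤ |Rg i| ≤ |K_i| ≤ 4 (D + 1)`. -/
def St_TK7 : Prop := ∀ (P : Par) (V κ : Type) [Fintype V] [Fintype κ] (f : Fd V κ)
  (rep : V → V), Hy4 P f → Rep f.z rep → Impl f.G P.Lam ((P.D + 2) ^ 10)
    (fun ω : V → Bool × Fin P.MW => pK7 P (tdT P f rep ω))

/-- [TK8] (from `St_Tal`, `St_Tb`) (K8).
PROOF.  First: tests `(x, b, b')`, centre `x`, `x' := pr x ≠ x` (in the same cluster `i`, not adjacent; `x' ∈ ball 4 x`):
`T := {a ∉ Q ∪ mF i ∪ Pb i | gc x a, gc x' a, N_a x ∈ Rg i, N_a x' ∈ Rg i}`, `p a := N_a x`, `r a := N_a x'` (different, `E.inv`),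
gamma, `q := some false`, sign `-`.  `|T| ≥ D + 1 - rho D - 2 D / pa - pmax D - 2 (2 + 2 X + D / 99 + |Spi|) ≥ 0.979 D`, so at
least `(1/4) (1 - 1/MW) ^ 2 * 0.979 D - nz / X ≥ 0.24 D` colours for `b := !tau x`, `b' := !tau x'`.
Second: tests `(x, b)`, alpha, `T := {a ∉ Q ∪ mF i ∪ Pb i | gc x a, N_a x ∈ Rg i}`, `|T| ≥ 0.989 D`, at least
`(1/2) (1 - 1/MW) * 0.989 D - nz / X ≥ 0.48 D`. -/
def St_TK8 : Prop := ∀ (P : Par) (V κ : Type) [Fintype V] [Fintype κ] (f : Fd V κ)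
  (rep : V → V), Hy4 P f → Rep f.z rep → Impl f.G P.Lam ((P.D + 2) ^ 10)
    (fun ω : V → Bool × Fin P.MW => pK8 P (tdT P f rep ω))

/-- [TK9] (from `St_CntQ`, `St_PrT`, `St_Tb`) (K9).
PROOF.  Tests `(i, k)`, `k < nbl i` (`≤ |Pb i| ≤ D`), `K i = some i` (`gm6`), centre `i`.  `Cells :=` the pairs `(w, a)`, `a ∈ Gam i k`,
`w ∈ W0 i a \ FB i a`; `|Cells| ≥ (99/100) Wt` (`f6`).  Such a cell is fixed or good.  `Js :=` the good ones,
`g (w, a) := - [tau (N_a w) ≠ tau w]`, mean `-1/2`, `R := {rep w, N_a w}`; every `t` is in at most `3 |Gam| ≤ 3 |Pb i| ≤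
3 pmax D =: M` of them (`w ∈ {t, z t}`, or `N_a w = t`; for every `a ∈ Gam`).  `W := 6 pmax D Wt + 1`.  `Wt ≥ |Rg i| / 4 ≥ D / 5`,
so `sqrt (2 W Lam) ≤ Wt / 1000` (`12 pmax D X ^ 3 * 10 ^ 6 ≤ Wt`, `X ^ 4000 pmax ≤ 1`).  Result:
`∑ |W1| ≥ #fixed + #good / 2 - Wt / 1000 ≥ 0.495 Wt - Wt / 1000 ≥ 0.49 Wt`. -/
def St_TK9 : Prop := ∀ (P : Par) (V κ : Type) [Fintype V] [Fintype κ] (f : Fd V κ)
  (rep : V → V), Hy4 P f → Rep f.z rep → Impl f.G P.Lam ((P.D + 2) ^ 10)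
    (fun ω : V → Bool × Fin P.MW => pK9 P (tdT P f rep ω))

/-- [Tau10] (from `St_NumL`, `St_TstL`, `St_ImpA`, `St_TS1`, .., `St_TK9`) Section 5.
PROOF.  `rep v`: choose one element of every orbit `{v, z v}` (e.g. with a linear order or
`Quot.out` for the setoid of the orbits).  `St_ImpA` for the eleven properties, `N := 11 (D + 2) ^ 10`, `St_TstL`
(`Bool × Fin MW` is nonempty).  `tau (z u) = tau u` since `rep (z u) = rep u`. -/
def St_Tau10 : Prop := St_Ta10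

end Pool.TCV
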