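import Pool.Agent.Helper3.TCV.TKc

/-!
# T10: (K5), (K6) (helper25)
-/

set_option autoImplicit false

namespace Pool.TCV

open Pool.TC Pool.TCM Pool.TCS Pool.TN Finset
open scoped Classical

/-- tests `(i, w, b)` with `K w = some i`: at most two at every `w` -/
theorem TK5_cnt {V κ : Type} [Fintype V] [Fintype κ] (f : Fd V κ) (u : V) :
    ((univ.filter (fun j : V × V × Bool => f.K j.2.1 = some j.1)).filter
      (fun j => j.2.1 = u)).card ≤ 2 := by
  revert u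
  refine TKc_cnt _ _ (fun j => j.2.2) (fun _ => univ) (fun _ _ => mem_univ _) ?_ (fun u => ?_)
  · rintro ⟨i, w, b⟩ hj ⟨i', w', b'⟩ hj' h1 h2
    have c1 : f.K w = some i := (mem_filter.1 hj).2
    have c2 : f.K w' = some i' := (mem_filter.1 hj').2
    have h1' : w = w' := h1
    have h2' : b = b' := h2
    subst h1' h2'
    rw [c1] at c2
    have := Option.some.inj c2
    subst this
    rfl
  · rw [card_univ]
    simp

section tk5
variable {V κ : Type} [Fintype V] [Fintype κ] {P : Par} {f : Fd V κ} {rep : V → V}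

/-- (K5) -/
theorem TK5_a (h : TKc P f rep) (hTal : St_Tal) :
    Impl f.G P.Lam 2 (fun ω : V → Bool × Fin P.MW => ∀ i, ∀ u ∈ f.Rg P i, 45 * P.D ≤ 100 * P.MW *
      (univ.filter (fun a => a ∉ f.Q ∧ a ∉ f.mF i ∧ a ∉ f.Pb P i ∧ (tdT P f rep ω).cr u a ∧
        f.E.N a u ∈ f.Rg P i ∧ (tdT P f rep ω).W (f.E.N a u))).card) := by
  have hMW : (0 : ℝ) < P.MW := lt_of_lt_of_le (by norm_num) h.MW6
  let T : V × V × Bool → Finset κ := fun j => (univ.filter fun a => a ∉ f.Q ∧ a ∉ f.mF j.1 ∧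
    a ∉ f.Pb P j.1).filter fun a => f.gc j.2.1 a ∧ f.E.N a j.2.1 ∈ f.Rg P j.1
  refine ⟨V × V × Bool, univ.filter (fun j => f.K j.2.1 = some j.1), fun j => j.2.1,
    fun j ω => -(((T j).filter (fun a => (ω (rep (f.E.N a j.2.1))).1 = j.2.2 ∧
      cnd (some true) (ω (rep (f.E.N a j.2.1))).2)).card : ℝ),
    fun j => -(pq P.MW (some true) / 2 * (T j).card) + P.nz / P.X, TK5_cnt f, ?_, ?_⟩
  · rintro ⟨i, w, b⟩ hj
    exact (h.al hTal w (T (i, w, b)) (fun a => f.E.N a w) (some true) (h.colN _)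
      (fun a ha a' _ e => h.injC (mem_filter.1 (mem_coe.1 ha)).2.1.1 e)
      (fun a ha => ball_mono (n := 1) (by norm_num)
        (adj_mem_ball (h.adj (mem_filter.1 ha).2.1.1))) b).2
  · intro ω hω i u hu
    obtain ⟨-, hK, hS⟩ := mem_filter.1 hu
    have hne : f.K u ≠ none := by
      rw [hK]
      exact Option.some_ne_none i
    have h1 : -(((T (i, u, !(tdT P f rep ω).tau u)).filter (fun a => (ω (rep (f.E.N a u))).1 =
        (!(tdT P f rep ω).tau u) ∧ cnd (some true) (ω (rep (f.E.N a u))).2)).card : ℝ) ≤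
        -(1 / (P.MW : ℝ) / 2 * (T (i, u, !(tdT P f rep ω).tau u)).card) + P.nz / P.X :=
      hω (i, u, !(tdT P f rep ω).tau u) (mem_filter.2 ⟨mem_univ _, hK⟩)
    have h2 : ((T (i, u, !(tdT P f rep ω).tau u)).filter (fun a => (ω (rep (f.E.N a u))).1 =
        (!(tdT P f rep ω).tau u) ∧ cnd (some true) (ω (rep (f.E.N a u))).2)).card ≤
        (univ.filter (fun a => a ∉ f.Q ∧ a ∉ f.mF i ∧ a ∉ f.Pb P i ∧ (tdT P f rep ω).cr u a ∧
        f.E.N a u ∈ f.Rg P i ∧ (tdT P f rep ω).W (f.E.N a u))).card := by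
      refine card_le_card fun a ha => ?_
      obtain ⟨c1, c2, c3⟩ := mem_filter.1 ha
      obtain ⟨c4, c5, c6⟩ := mem_filter.1 c1
      obtain ⟨-, c7, c8, c9⟩ := mem_filter.1 c4
      refine mem_filter.2 ⟨mem_univ _, c7, c8, c9, ⟨c5, ?_⟩, c6, (TKc_cT _).1 c3⟩
      show (ω (rep (f.E.N a u))).1 ≠ (tdT P f rep ω).tau u
      rw [c2]
      exact Bool.not_ne_self _
    have h3 : (((T (i, u, !(tdT P f rep ω).tau u)).filter (fun a => (ω (rep (f.E.N a u))).1 =
        (!(tdT P f rep ω).tau u) ∧ cnd (some true) (ω (rep (f.E.N a u))).2)).card : ℝ) ≤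
        ((univ.filter (fun a => a ∉ f.Q ∧ a ∉ f.mF i ∧ a ∉ f.Pb P i ∧ (tdT P f rep ω).cr u a ∧
        f.E.N a u ∈ f.Rg P i ∧ (tdT P f rep ω).W (f.E.N a u))).card : ℝ) := by
      exact_mod_cast h2
    have h4 := h.out i
    have h5 := h.cols hK (univ.filter fun a => a ∉ f.Q ∧ a ∉ f.mF i ∧ a ∉ f.Pb P i)
    have h6 : (((univ.filter fun a => a ∉ f.Q ∧ a ∉ f.mF i ∧ a ∉ f.Pb P i).filter
      fun a => f.gc u a ∧ f.E.N a u ∈ f.Rg P i).card : ℝ) =
      ((T (i, u, !(tdT P f rep ω).tau u)).card : ℝ) := rfl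
    rw [h6] at h5
    have h7 : (f.oo u : ℝ) ≤ P.eta * P.D := by
      by_contra hc
      exact hS ⟨hne, Or.inr (not_le.1 hc).le⟩
    have h8 := h.spi i
    have h9 := h.small
    have h10 := h.eta6
    have hD := h.D1
    have h11 : 99 / 100 * (P.D : ℝ) ≤ (T (i, u, !(tdT P f rep ω).tau u)).card := by linarith
    have h12 := h.nzM
    have h13 : (45 * P.D : ℝ) ≤ 100 * P.MW *
        ((univ.filter (fun a => a ∉ f.Q ∧ a ∉ f.mF i ∧ a ∉ f.Pb P i ∧ (tdT P f rep ω).cr u a ∧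
        f.E.N a u ∈ f.Rg P i ∧ (tdT P f rep ω).W (f.E.N a u))).card : ℝ) := by
      have h14 : 1 / (P.MW : ℝ) / 2 * (T (i, u, !(tdT P f rep ω).tau u)).card - P.nz / P.X ≤
          ((univ.filter (fun a => a ∉ f.Q ∧ a ∉ f.mF i ∧ a ∉ f.Pb P i ∧ (tdT P f rep ω).cr u a ∧
        f.E.N a u ∈ f.Rg P i ∧ (tdT P f rep ω).W (f.E.N a u))).card : ℝ) := by linarith
      have h15 := mul_le_mul_of_nonneg_left h14 (by positivity : 0 ≤ 100 * (P.MW : ℝ))
      have e : 100 * (P.MW : ℝ) * (1 / (P.MW : ℝ) / 2 * (T (i, u, !(tdT P f rep ω).tau u)).card -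
          P.nz / P.X) = 50 * (T (i, u, !(tdT P f rep ω).tau u)).card -
          1000 * (P.MW : ℝ) * (P.nz / P.X) / 10 := by
        field_simp
        ring
      rw [e] at h15
      linarith
    exact_mod_cast h13

/-- (K6), first half -/
theorem TK5_b (h : TKc P f rep) (hTal : St_Tal) :
    Impl f.G P.Lam 2 (fun ω : V → Bool × Fin P.MW => ∀ i, ∀ w ∈ f.Rg P i,
      ((f.Q.card : ℝ) - 2 * P.eta * P.D) / (2 * P.MW) - P.nz ≤
      ((f.Q.filter (fun a => (tdT P f rep ω).cr w a ∧ f.E.N a w ∈ f.Rg P i ∧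
        (tdT P f rep ω).W (f.E.N a w))).card : ℝ)) := by
  have hMW : (0 : ℝ) < P.MW := lt_of_lt_of_le (by norm_num) h.MW6
  let T : V × V × Bool → Finset κ := fun j => f.Q.filter fun a => f.gc j.2.1 a ∧
    f.E.N a j.2.1 ∈ f.Rg P j.1
  refine ⟨V × V × Bool, univ.filter (fun j => f.K j.2.1 = some j.1), fun j => j.2.1,
    fun j ω => -(((T j).filter (fun a => (ω (rep (f.E.N a j.2.1))).1 = j.2.2 ∧
      cnd (some true) (ω (rep (f.E.N a j.2.1))).2)).card : ℝ),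
    fun j => -(pq P.MW (some true) / 2 * (T j).card) + P.nz / P.X, TK5_cnt f, ?_, ?_⟩
  · rintro ⟨i, w, b⟩ hj
    exact (h.al hTal w (T (i, w, b)) (fun a => f.E.N a w) (some true) (h.colN _)
      (fun a ha a' _ e => h.injC (mem_filter.1 (mem_coe.1 ha)).2.1.1 e)
      (fun a ha => ball_mono (n := 1) (by norm_num)
        (adj_mem_ball (h.adj (mem_filter.1 ha).2.1.1))) b).2
  · intro ω hω i u hu
    obtain ⟨-, hK, hS⟩ := mem_filter.1 hu
    have hne : f.K u ≠ none := by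
      rw [hK]
      exact Option.some_ne_none i
    have h1 : -(((T (i, u, !(tdT P f rep ω).tau u)).filter (fun a => (ω (rep (f.E.N a u))).1 =
        (!(tdT P f rep ω).tau u) ∧ cnd (some true) (ω (rep (f.E.N a u))).2)).card : ℝ) ≤
        -(1 / (P.MW : ℝ) / 2 * (T (i, u, !(tdT P f rep ω).tau u)).card) + P.nz / P.X :=
      hω (i, u, !(tdT P f rep ω).tau u) (mem_filter.2 ⟨mem_univ _, hK⟩)
    have h2 : ((T (i, u, !(tdT P f rep ω).tau u)).filter (fun a => (ω (rep (f.E.N a u))).1 =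
        (!(tdT P f rep ω).tau u) ∧ cnd (some true) (ω (rep (f.E.N a u))).2)).card ≤
        (f.Q.filter (fun a => (tdT P f rep ω).cr u a ∧ f.E.N a u ∈ f.Rg P i ∧
        (tdT P f rep ω).W (f.E.N a u))).card := by
      refine card_le_card fun a ha => ?_
      obtain ⟨c1, c2, c3⟩ := mem_filter.1 ha
      obtain ⟨c4, c5, c6⟩ := mem_filter.1 c1
      refine mem_filter.2 ⟨c4, ⟨c5, ?_⟩, c6, (TKc_cT _).1 c3⟩
      show (ω (rep (f.E.N a u))).1 ≠ (tdT P f rep ω).tau u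
      rw [c2]
      exact Bool.not_ne_self _
    have h3 : (((T (i, u, !(tdT P f rep ω).tau u)).filter (fun a => (ω (rep (f.E.N a u))).1 =
        (!(tdT P f rep ω).tau u) ∧ cnd (some true) (ω (rep (f.E.N a u))).2)).card : ℝ) ≤
        ((f.Q.filter (fun a => (tdT P f rep ω).cr u a ∧ f.E.N a u ∈ f.Rg P i ∧
        (tdT P f rep ω).W (f.E.N a u))).card : ℝ) := by
      exact_mod_cast h2
    have h5 := h.cols hK f.Q
    have h6 : ((f.Q.filter fun a => f.gc u a ∧ f.E.N a u ∈ f.Rg P i).card : ℝ) =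
      ((T (i, u, !(tdT P f rep ω).tau u)).card : ℝ) := rfl
    rw [h6] at h5
    have h7 : (f.oo u : ℝ) ≤ P.eta * P.D := by
      by_contra hc
      exact hS ⟨hne, Or.inr (not_le.1 hc).le⟩
    have h8 := h.spi i
    have h9 := h.small
    have hD := h.D1
    have h10 : (f.Q.card : ℝ) - 2 * P.eta * P.D ≤ (T (i, u, !(tdT P f rep ω).tau u)).card := by
      linarith
    have h11 : ((f.Q.card : ℝ) - 2 * P.eta * P.D) / (2 * P.MW) ≤
        1 / (P.MW : ℝ) / 2 * (T (i, u, !(tdT P f rep ω).tau u)).card := by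
      have e : 1 / (P.MW : ℝ) / 2 * (T (i, u, !(tdT P f rep ω).tau u)).card =
          ((T (i, u, !(tdT P f rep ω).tau u)).card : ℝ) / (2 * P.MW) := by
        field_simp
      rw [e]
      exact div_le_div_of_nonneg_right h10 (by positivity)
    have h12 := h.nzX
    linarith

/-- (K6), second half -/
theorem TK5_c (h : TKc P f rep) (hTal : St_Tal) :
    Impl f.G P.Lam (64 * (P.D + 1) ^ 2) (fun ω : V → Bool × Fin P.MW => ∀ i, ∀ w ∈ f.Rg P i,
      ∀ w' ∈ f.Rg P i, w ≠ w' →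
      ((f.Q.filter (fun a => (tdT P f rep ω).cr w a ∧ (tdT P f rep ω).cr w' a ∧
        (tdT P f rep ω).W (f.E.N a w) ∧ (tdT P f rep ω).W (f.E.N a w'))).card : ℝ) ≤
      (f.Q.card : ℝ) / (4 * (P.MW : ℝ) ^ 2) + P.nz) := by
  have hMW : (0 : ℝ) < P.MW := lt_of_lt_of_le (by norm_num) h.MW6
  let T : V × V × V × Bool × Bool → Finset κ := fun j => f.Q.filter fun a => f.gc j.2.1 a ∧
    f.gc j.2.2.1 a
  refine ⟨V × V × V × Bool × Bool, univ.filter (fun j => f.K j.2.1 = some j.1 ∧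
    f.K j.2.2.1 = some j.1 ∧ j.2.1 ≠ j.2.2.1), fun j => j.1,
    fun j ω => (((T j).filter (fun a => (ω (rep (f.E.N a j.2.1))).1 = j.2.2.2.1 ∧
      (ω (rep (f.E.N a j.2.2.1))).1 = j.2.2.2.2 ∧
      cnd (some true) (ω (rep (f.E.N a j.2.1))).2 ∧
      cnd (some true) (ω (rep (f.E.N a j.2.2.1))).2)).card : ℝ),
    fun j => pq P.MW (some true) ^ 2 / 4 * (T j).card + P.nz / P.X, ?_, ?_, ?_⟩
  · refine TKc_cnt _ _ (fun j => j.2) (fun u => f.Ki u ×ˢ (f.Ki u ×ˢ univ)) ?_ ?_ (fun u => ?_)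
    · rintro ⟨i, w, w', b⟩ hj
      obtain ⟨-, c1, c2, -⟩ := mem_filter.1 hj
      exact mem_product.2 ⟨mem_filter.2 ⟨mem_univ _, c1⟩, mem_product.2
        ⟨mem_filter.2 ⟨mem_univ _, c2⟩, mem_univ _⟩⟩
    · rintro ⟨i, w⟩ _ ⟨i', w'⟩ _ h1 h2
      exact Prod.ext h1 h2
    · have h1 : (f.Ki u).card ≤ 4 * (P.D + 1) := h.rowN (i := u) fun w hw => (mem_filter.1 hw).2
      rw [card_product, card_product, card_univ]
      have h2 : Fintype.card (Bool × Bool) = 4 := by simp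
      rw [h2]
      calc (f.Ki u).card * ((f.Ki u).card * 4) ≤ (4 * (P.D + 1)) * ((4 * (P.D + 1)) * 4) :=
            Nat.mul_le_mul h1 (Nat.mul_le_mul_right _ h1)
        _ = 64 * (P.D + 1) ^ 2 := by ring
  · rintro ⟨i, w, w', b, b'⟩ hj
    obtain ⟨-, c1, c2, c3⟩ := mem_filter.1 hj
    have hball : ∀ v : V, f.K v = some i → ∀ a, f.gc v a → f.E.N a v ∈ ball f.G 7 i :=
      fun v hv a hg => ball_mono (n := 3) (by norm_num) (ball_trans (n := 2) (m := 1)
        (h.clu hv) (adj_mem_ball (h.adj hg.1)))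
    exact (h.ga hTal i (T (i, w, w', b, b')) (fun a => f.E.N a w) (fun a => f.E.N a w')
      (some true) (h.colN _)
      (fun a ha a' _ e => h.injC (mem_filter.1 (mem_coe.1 ha)).2.1.1 e)
      (fun a ha => hball w c1 a (mem_filter.1 ha).2.1)
      (fun a ha a' _ e => h.injC (mem_filter.1 (mem_coe.1 ha)).2.2.1 e)
      (fun a ha => hball w' c2 a (mem_filter.1 ha).2.2)
      (fun a ha => by
        rw [(h.b1 w a (mem_filter.1 ha).2.1).1, (h.b1 w' a (mem_filter.1 ha).2.2).1]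
        exact fun e => c3 (h.injN a e)) b b').1
  · intro ω hω i w hw w' hw' hww
    have hK : f.K w = some i := (mem_filter.1 hw).2.1
    have hK' : f.K w' = some i := (mem_filter.1 hw').2.1
    obtain ⟨Y, hY⟩ : ∃ Y, Y = T (i, w, w', !(tdT P f rep ω).tau w, !(tdT P f rep ω).tau w') :=
      ⟨_, rfl⟩
    have h1 : ((Y.filter (fun a => (ω (rep (f.E.N a w))).1 = (!(tdT P f rep ω).tau w) ∧
      (ω (rep (f.E.N a w'))).1 = (!(tdT P f rep ω).tau w') ∧
      cnd (some true) (ω (rep (f.E.N a w))).2 ∧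
      cnd (some true) (ω (rep (f.E.N a w'))).2)).card : ℝ) ≤
      (1 / (P.MW : ℝ)) ^ 2 / 4 * Y.card + P.nz / P.X := by
      rw [hY]
      exact hω (i, w, w', !(tdT P f rep ω).tau w, !(tdT P f rep ω).tau w')
        (mem_filter.2 ⟨mem_univ _, hK, hK', hww⟩)
    have h2 : (f.Q.filter (fun a => (tdT P f rep ω).cr w a ∧ (tdT P f rep ω).cr w' a ∧
        (tdT P f rep ω).W (f.E.N a w) ∧ (tdT P f rep ω).W (f.E.N a w'))).card ≤
        (Y.filter (fun a => (ω (rep (f.E.N a w))).1 = (!(tdT P f rep ω).tau w) ∧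
      (ω (rep (f.E.N a w'))).1 = (!(tdT P f rep ω).tau w') ∧
      cnd (some true) (ω (rep (f.E.N a w))).2 ∧
      cnd (some true) (ω (rep (f.E.N a w'))).2)).card := by
      rw [hY]
      refine card_le_card fun a ha => ?_
      obtain ⟨c1, c2, c3, c4, c5⟩ := mem_filter.1 ha
      exact mem_filter.2 ⟨mem_filter.2 ⟨c1, c2.1, c3.1⟩, Bool.eq_not_of_ne c2.2,
        Bool.eq_not_of_ne c3.2, (TKc_cT _).2 c4, (TKc_cT _).2 c5⟩
    have h3 : ((f.Q.filter (fun a => (tdT P f rep ω).cr w a ∧ (tdT P f rep ω).cr w' a ∧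
        (tdT P f rep ω).W (f.E.N a w) ∧ (tdT P f rep ω).W (f.E.N a w'))).card : ℝ) ≤
        ((Y.filter (fun a => (ω (rep (f.E.N a w))).1 = (!(tdT P f rep ω).tau w) ∧
      (ω (rep (f.E.N a w'))).1 = (!(tdT P f rep ω).tau w') ∧
      cnd (some true) (ω (rep (f.E.N a w))).2 ∧
      cnd (some true) (ω (rep (f.E.N a w'))).2)).card : ℝ) := by exact_mod_cast h2
    have h4 := h.nzX
    have h5 : (Y.card : ℝ) ≤ f.Q.card := by
      have : Y ⊆ f.Q := by
        rw [hY]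
        exact filter_subset _ _
      exact_mod_cast card_le_card this
    have e : (f.Q.card : ℝ) / (4 * (P.MW : ℝ) ^ 2) = (1 / (P.MW : ℝ)) ^ 2 / 4 * f.Q.card := by
      field_simp
    have h6 := mul_le_mul_of_nonneg_left h5 (by positivity : 0 ≤ (1 / (P.MW : ℝ)) ^ 2 / 4)
    rw [e]
    linarith

end tk5

theorem thm_TK5 (hNumL : St_NumL) (hImpA : St_ImpA) (hTal : St_Tal) (hTb : St_Tb) : St_TK5 := by
  intro P V κ _ _ f rep H R
  have h := TKc_mk hNumL hTb H R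
  obtain ⟨I1, I2⟩ := hImpA V (Bool × Fin P.MW) f.G P.Lam
  refine I2 _ _ _ _ (I1 _ _ _ _ (TK5_a h hTal) (I1 _ _ _ _ (TK5_b h hTal) (TK5_c h hTal))) ?_ ?_
  · have h1 : 256 * (P.D + 2) ^ 2 ≤ (P.D + 2) ^ 10 := by
      have h2 : 2 ^ 8 ≤ (P.D + 2) ^ 8 := Nat.pow_le_pow_left (by omega) 8
      calc 256 * (P.D + 2) ^ 2 ≤ (P.D + 2) ^ 8 * (P.D + 2) ^ 2 :=
            Nat.mul_le_mul_right _ (by simpa using h2)
        _ = (P.D + 2) ^ 10 := by ring
    have h2 : (P.D + 2) ^ 2 = (P.D + 1) ^ 2 + 2 * P.D + 3 := by ring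
    have h3 : 0 ≤ (P.D + 1) ^ 2 := Nat.zero_le _
    have h4 : 0 ≤ P.D := Nat.zero_le _
    rw [h2] at h1
    refine le_trans ?_ h1
    linarith
  · intro ω hω
    exact hω

end Pool.TCV
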