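import Pool.Agent.Helper3.TCV.StB
import Pool.Agent.Helper3.TCM.Ball

/-!
# T10: common lemmas for the tests of section 5 (helper25)
-/

set_option autoImplicit false

namespace Pool.TCV

open Pool.TC Pool.TCM Pool.TCS Pool.TN Finset
open scoped Classical

/-- a larger bound -/
theorem TKc_mono {V α : Type} [Fintype V] [Fintype α] {G : SimpleGraph V} {Lam : ℝ} {u : V}
    {F : (V → α) → ℝ} {b b' : ℝ} (h : Tst G Lam u F b) (hb : b ≤ b') : Tst G Lam u F b' := by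
  obtain ⟨cc, W, h1, h2, h3, h4, h5, h6⟩ := h
  exact ⟨cc, W, h1, h2, h3, h4, h5, h6.trans hb⟩

/-- number of tests at a vertex -/
theorem TKc_cnt {V J X : Type} (Js : Finset J) (ctr : J → V) (f : J → X) (S : V → Finset X)
    (hm : ∀ j ∈ Js, f j ∈ S (ctr j))
    (hinj : ∀ j ∈ Js, ∀ j' ∈ Js, ctr j = ctr j' → f j = f j' → j = j') {N : ℕ}
    (hN : ∀ u, (S u).card ≤ N) (u : V) : (Js.filter (fun j => ctr j = u)).card ≤ N := by
  refine le_trans (card_le_card_of_injOn f ?_ ?_) (hN u)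
  · intro j hj
    have h := mem_filter.1 (mem_coe.1 hj)
    rw [← h.2]
    exact mem_coe.2 (hm j h.1)
  · intro j hj j' hj' h
    have h1 := mem_filter.1 (mem_coe.1 hj)
    have h2 := mem_filter.1 (mem_coe.1 hj')
    exact hinj j h1.1 j' h2.1 (h1.2.trans h2.2.symm) h

variable {V κ : Type} [Fintype V] [Fintype κ]

/-- the facts used in the tests -/
structure TKc (P : Par) (f : Fd V κ) (rep : V → V) : Prop where
  H : Hy4 P f
  R : Rep f.z rep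
  L : NumL P
  b1 : ∀ w a, f.gc w a → rep (f.E.N a w) = f.E.N a w ∧ rep (f.E.N a w) ≠ rep w
  b2 : ∀ w, (univ.filter (fun a => f.E.N a w = w)).card ≤ 2
  b3 : ∀ w, (univ.filter (fun a => f.E.N a w ≠ w ∧ f.z (f.E.N a w) ≠ f.E.N a w)).card ≤ 2 * P.X
  b4 : ∀ i, (f.mF i).card = (f.F0i i).card ∧ ∀ a ∈ f.mF i, a ∈ f.J1 ∧ a ∉ f.J0 ∧ a ∉ f.Q ∧
    a ∉ f.Pb P i
  b5 : ∀ i w, f.K w = some i →
    (univ.filter (fun a => f.E.N a w ≠ w ∧ f.K (f.E.N a w) ≠ some i)).card ≤ f.oo w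
  b6 : Real.sqrt (200 * ((P.D : ℝ) + 1) * P.Lam) ≤ P.nz / P.X
  b7 : (f.Q.card : ℝ) ≤ P.rho * P.D
  b8 : ∀ u, f.K u = none → ((univ.filter (fun w => f.adj' P u w)).card : ℝ) ≤ 11 / 10 * P.D

theorem TKc_mk (hNumL : St_NumL) (hTb : St_Tb) {P : Par} {f : Fd V κ} {rep : V → V} (H : Hy4 P f)
    (R : Rep f.z rep) : TKc P f rep := by
  obtain ⟨h1, h2, h3, h4, h5, h6, h7, h8⟩ := hTb P V κ f rep H R
  exact ⟨H, R, hNumL P H.nm, h1, h2, h3, h4, h5, h6, h7, h8⟩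

section facts

variable {P : Par} {f : Fd V κ} {rep : V → V}

theorem TKc.D1 (h : TKc P f rep) : (1 : ℝ) ≤ P.D := by
  have := h.L.XD 0 (by norm_num)
  rwa [pow_zero] at this

theorem TKc.X0 (h : TKc P f rep) : (0 : ℝ) < P.X := lt_of_lt_of_le (by norm_num) h.L.X1

/-- `nz / X ≤ nz` -/
theorem TKc.nzX (h : TKc P f rep) : P.nz / P.X ≤ P.nz := by
  have h1 := h.L.X1
  have h2 := h.L.nz1
  rw [div_le_iff₀ h.X0]
  nlinarith

theorem TKc.adj (h : TKc P f rep) {w : V} {a : κ} (hw : f.E.N a w ≠ w) : f.G.Adj w (f.E.N a w) :=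
  h.H.ed.sub a w hw

theorem TKc.injN (_h : TKc P f rep) (a : κ) {w w' : V} (hw : f.E.N a w = f.E.N a w') : w = w' := by
  rw [← f.E.inv a w, hw, f.E.inv a w']

theorem TKc.injC (_h : TKc P f rep) {w : V} {a b : κ} (hw : f.E.N a w ≠ w)
    (hab : f.E.N a w = f.E.N b w) : a = b :=
  f.E.uniq a b w hab hw

theorem TKc.clu (h : TKc P f rep) {i w : V} (hw : f.K w = some i) : w ∈ ball f.G 2 i :=
  h.H.gr.loc i w hw

theorem TKc.colN (h : TKc P f rep) (T : Finset κ) : T.card ≤ 4 * (P.D + 1) := by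
  have h1 : T.card ≤ Fintype.card κ := card_le_univ T
  rw [h.H.ed.col] at h1
  omega

theorem TKc.rowN (h : TKc P f rep) {i : V} {T : Finset V} (hT : ∀ w ∈ T, f.K w = some i) :
    T.card ≤ 4 * (P.D + 1) := by
  have h1 : T ⊆ f.Ki i := fun w hw => mem_filter.2 ⟨mem_univ _, hT w hw⟩
  have h2 := h.H.gr.k2 i
  have h3 : (T.card : ℝ) ≤ (f.Ki i).card := by exact_mod_cast card_le_card h1
  have h4 := h.L.del3
  have h5 := h.D1
  have h6 : 102 * P.delta * P.D ≤ 3 * P.D := by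
    have : P.delta * P.D ≤ 1 / 10 ^ 6 * P.D := mul_le_mul_of_nonneg_right h4 (by linarith)
    linarith
  have h7 : (T.card : ℝ) ≤ ((4 * (P.D + 1) : ℕ) : ℝ) := by
    push_cast
    linarith
  exact_mod_cast h7

/-- the rows of a cluster -/
theorem TKc.rows (h : TKc P f rep) {i : V} {a : κ} (ha : a ∉ f.Pb P i) {Y : Finset V} (hY : Y ⊆ f.Rg P i) :
    (Y.card : ℝ) ≤ ((Y.filter fun w => f.E.N a w = w).card : ℝ) +
      ((Y.filter fun w => f.gc w a ∧ f.E.N a w ∈ f.Rg P i).card : ℝ) + P.theta * P.D +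
      (f.Spi P i).card + 2 * P.X := by
  have h1 : Y ⊆ (Y.filter fun w => f.E.N a w = w) ∪ (Y.filter fun w => f.gc w a ∧ f.E.N a w ∈ f.Rg P i) ∪
      (univ.filter fun w => f.K w = some i ∧ f.K (f.E.N a w) ≠ some i) ∪
      (univ.filter fun w => f.E.N a w ∈ f.Spi P i) ∪
      (univ.filter fun w => f.K (f.E.N a w) = some i ∧ f.z (f.E.N a w) ≠ f.E.N a w) := by
    intro w hw
    have hR := mem_filter.1 (hY hw)
    simp only [mem_union, mem_filter, mem_univ, true_and]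
    by_cases c1 : f.E.N a w = w
    · exact Or.inl (Or.inl (Or.inl (Or.inl ⟨hw, c1⟩)))
    by_cases c2 : f.K (f.E.N a w) = some i
    · by_cases c3 : f.z (f.E.N a w) = f.E.N a w
      · by_cases c4 : f.Sp P (f.E.N a w)
        · exact Or.inl (Or.inr (mem_filter.2 ⟨mem_univ _, c2, c4⟩))
        · exact Or.inl (Or.inl (Or.inl (Or.inr ⟨hw, ⟨c1, c3⟩, mem_filter.2 ⟨mem_univ _, c2, c4⟩⟩)))
      · exact Or.inr ⟨c2, c3⟩
    · exact Or.inl (Or.inl (Or.inr ⟨hR.2.1, c2⟩))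
  have h2 := card_le_card h1
  have h3 := (h2.trans (card_union_le _ _)).trans
    (add_le_add ((card_union_le _ _).trans
      (add_le_add ((card_union_le _ _).trans (add_le_add (card_union_le _ _) le_rfl)) le_rfl)) le_rfl)
  have h4 : ((univ.filter fun w => f.K w = some i ∧ f.K (f.E.N a w) ≠ some i).card : ℝ) ≤
      P.theta * P.D := by
    by_contra hc
    exact ha (mem_filter.2 ⟨mem_univ _, not_le.1 hc⟩)
  have h5 : (univ.filter fun w => f.E.N a w ∈ f.Spi P i).card ≤ (f.Spi P i).card :=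
    card_le_card_of_injOn (fun w => f.E.N a w) (fun w hw => mem_coe.2 (mem_filter.1 (mem_coe.1 hw)).2)
      fun w _ w' _ hww => h.injN a hww
  have h6 : (univ.filter fun w => f.K (f.E.N a w) = some i ∧ f.z (f.E.N a w) ≠ f.E.N a w).card ≤ 2 * P.X :=
    (card_le_card_of_injOn (fun w => f.E.N a w) (fun w hw => mem_coe.2 (mem_filter.2
      ⟨mem_univ _, (mem_filter.1 (mem_coe.1 hw)).2⟩)) fun w _ w' _ hww => h.injN a hww).trans
      (h.H.ed.r4' i)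
  have h7 : (Y.card : ℝ) ≤ ((((Y.filter fun w => f.E.N a w = w).card +
      (Y.filter fun w => f.gc w a ∧ f.E.N a w ∈ f.Rg P i).card +
      (univ.filter fun w => f.K w = some i ∧ f.K (f.E.N a w) ≠ some i).card +
      (univ.filter fun w => f.E.N a w ∈ f.Spi P i).card +
      (univ.filter fun w => f.K (f.E.N a w) = some i ∧ f.z (f.E.N a w) ≠ f.E.N a w).card) : ℕ) : ℝ) := by
    exact_mod_cast h3
  push_cast at h7
  have h8 : ((univ.filter fun w => f.E.N a w ∈ f.Spi P i).card : ℝ) ≤ (f.Spi P i).card := by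
    exact_mod_cast h5
  have h9 : ((univ.filter fun w => f.K (f.E.N a w) = some i ∧ f.z (f.E.N a w) ≠ f.E.N a w).card : ℝ) ≤
      2 * P.X := by exact_mod_cast h6
  linarith

/-- the colours at a row of a cluster -/
theorem TKc.cols (h : TKc P f rep) {i w : V} (hw : f.K w = some i) (Y : Finset κ) :
    (Y.card : ℝ) ≤ ((Y.filter fun a => f.gc w a ∧ f.E.N a w ∈ f.Rg P i).card : ℝ) +
      (2 + 2 * P.X + f.oo w + (f.Spi P i).card) := by
  have h1 : Y ⊆ (Y.filter fun a => f.gc w a ∧ f.E.N a w ∈ f.Rg P i) ∪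
      (univ.filter fun a => f.E.N a w = w) ∪
      (univ.filter fun a => f.E.N a w ≠ w ∧ f.z (f.E.N a w) ≠ f.E.N a w) ∪
      (univ.filter fun a => f.E.N a w ≠ w ∧ f.K (f.E.N a w) ≠ some i) ∪
      (univ.filter fun a => f.E.N a w ≠ w ∧ f.E.N a w ∈ f.Spi P i) := by
    intro a ha
    simp only [mem_union, mem_filter, mem_univ, true_and]
    by_cases c1 : f.E.N a w = w
    · exact Or.inl (Or.inl (Or.inl (Or.inr c1)))
    by_cases c2 : f.K (f.E.N a w) = some i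
    · by_cases c3 : f.z (f.E.N a w) = f.E.N a w
      · by_cases c4 : f.Sp P (f.E.N a w)
        · exact Or.inr ⟨c1, mem_filter.2 ⟨mem_univ _, c2, c4⟩⟩
        · exact Or.inl (Or.inl (Or.inl (Or.inl ⟨ha, ⟨c1, c3⟩, mem_filter.2 ⟨mem_univ _, c2, c4⟩⟩)))
      · exact Or.inl (Or.inl (Or.inr ⟨c1, c3⟩))
    · exact Or.inl (Or.inr ⟨c1, c2⟩)
  have h2 := card_le_card h1
  have h3 := (h2.trans (card_union_le _ _)).trans
    (add_le_add ((card_union_le _ _).trans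
      (add_le_add ((card_union_le _ _).trans (add_le_add (card_union_le _ _) le_rfl)) le_rfl)) le_rfl)
  have h5 : (univ.filter fun a => f.E.N a w ≠ w ∧ f.E.N a w ∈ f.Spi P i).card ≤ (f.Spi P i).card :=
    card_le_card_of_injOn (fun a => f.E.N a w) (fun a ha => mem_coe.2 (mem_filter.1 (mem_coe.1 ha)).2.2)
      fun a ha b _ hab => h.injC (mem_filter.1 (mem_coe.1 ha)).2.1 hab
  have b2 := h.b2 w
  have b3 := h.b3 w
  have b5 := h.b5 i w hw
  have h7 : Y.card ≤ (Y.filter fun a => f.gc w a ∧ f.E.N a w ∈ f.Rg P i).card +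
      (2 + 2 * P.X + f.oo w + (f.Spi P i).card) := by omega
  exact_mod_cast h7

/-- `|Spi| ≤ η D / 4`, and the colours outside of `Q ∪ mF ∪ Pb` -/
theorem TKc.spi (h : TKc P f rep) (i : V) : 1000 * ((f.Spi P i).card : ℝ) ≤ P.eta * P.D := by
  have h1 := h.H.gr.sp1 i
  have h2 := h.L.del1
  have h3 := h.L.eta0
  have h4 := h.D1
  have h5 := h.L.X1
  have h6 := h.L.eta1
  have h7 := h.L.del0
  -- `delta ≤ eta^2 / 10^6`
  have h8 : (10 : ℝ) ^ 6 * P.delta ≤ P.eta ^ 2 := by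
    have := h.H.nm.eta
    have hd := h.H.nm.delta
    have hX : (0 : ℝ) < P.X := h.X0
    rw [this, hd, div_pow, one_pow, ← pow_mul, ← mul_div_assoc, mul_one,
      div_le_div_iff₀ (pow_pos hX _) (pow_pos hX _)]
    have e : (P.X : ℝ) ^ 4900 = (P.X : ℝ) ^ (1600 * 2) * (P.X : ℝ) ^ 1700 := by rw [← pow_add]
    rw [e]
    have h9 : (10 : ℝ) ^ 6 ≤ (P.X : ℝ) ^ 1700 := by
      calc (10 : ℝ) ^ 6 ≤ P.X := le_trans (by norm_num) h5
        _ = (P.X : ℝ) ^ 1 := (pow_one _).symm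
        _ ≤ (P.X : ℝ) ^ 1700 := pow_le_pow_right₀ (le_trans (by norm_num) h5) (by norm_num)
    have h10 : 0 < (P.X : ℝ) ^ (1600 * 2) := pow_pos hX _
    nlinarith
  have h9 : 104 * P.delta * P.D / P.eta ≤ P.eta * P.D / 1000 := by
    rw [div_le_iff₀ h3]
    have : P.delta * P.D ≤ P.eta ^ 2 / 10 ^ 6 * P.D :=
      mul_le_mul_of_nonneg_right (by linarith) (by linarith)
    have h10 : 0 ≤ P.eta ^ 2 * P.D := by positivity
    have e : P.eta * P.D / 1000 * P.eta = P.eta ^ 2 * P.D / 1000 := by ring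
    rw [e]
    linarith
  linarith

/-- a set of colours without `Q`, `mF i`, `Pb i` -/
theorem TKc.out (h : TKc P f rep) (i : V) : (P.D : ℝ) + 1 - P.D / 1000 ≤
    ((univ.filter fun a => a ∉ f.Q ∧ a ∉ f.mF i ∧ a ∉ f.Pb P i).card : ℝ) := by
  have h1 : (univ : Finset κ) ⊆ (univ.filter fun a => a ∉ f.Q ∧ a ∉ f.mF i ∧ a ∉ f.Pb P i) ∪ f.Q ∪
      f.mF i ∪ f.Pb P i := by
    intro a _
    simp only [mem_union, mem_filter, mem_univ, true_and]
    by_cases c1 : a ∈ f.Q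
    · exact Or.inl (Or.inl (Or.inr c1))
    by_cases c2 : a ∈ f.mF i
    · exact Or.inl (Or.inr c2)
    by_cases c3 : a ∈ f.Pb P i
    · exact Or.inr c3
    exact Or.inl (Or.inl (Or.inl ⟨c1, c2, c3⟩))
  have h2 := card_le_card h1
  have h3 := (h2.trans (card_union_le _ _)).trans
    (add_le_add ((card_union_le _ _).trans (add_le_add (card_union_le _ _) le_rfl)) le_rfl)
  rw [card_univ, h.H.ed.col, (h.b4 i).1] at h3
  have h4 : ((P.D : ℝ) + 1) ≤ ((univ.filter fun a => a ∉ f.Q ∧ a ∉ f.mF i ∧ a ∉ f.Pb P i).card : ℝ) +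
      f.Q.card + (f.F0i i).card + (f.Pb P i).card := by exact_mod_cast h3
  have b7 := h.b7
  have pb := h.H.ed.pb i
  have D1 := h.D1
  have X1 := h.L.X1
  have X0 := h.X0
  -- `|F0i| ≤ 2 D / pa`
  have f3 : (P.pa : ℝ) * (f.F0i i).card ≤ 2 * P.D := by exact_mod_cast h.H.ac.f3' i
  have hpa : (10 : ℝ) ^ 20 ≤ P.pa := by
    have h5 := h.H.nm.pa
    rw [h5]
    push_cast
    calc (10 : ℝ) ^ 20 ≤ P.X := X1
      _ = (P.X : ℝ) ^ 1 := (pow_one _).symm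
      _ ≤ (P.X : ℝ) ^ 5 := pow_le_pow_right₀ (le_trans (by norm_num) X1) (by norm_num)
  have c1 : ((f.F0i i).card : ℝ) ≤ P.D / 10 ^ 10 := by
    have h6 : (0 : ℝ) ≤ ((f.F0i i).card : ℝ) := Nat.cast_nonneg _
    have h7 : (10 : ℝ) ^ 20 * (f.F0i i).card ≤ 2 * P.D :=
      (mul_le_mul_of_nonneg_right hpa h6).trans f3
    rw [le_div_iff₀ (by norm_num)]
    linarith
  have c2 : P.rho * P.D ≤ P.D / 10 ^ 10 := by
    have h6 := h.L.rho1
    have h7 : (10 : ℝ) ^ 20 ≤ (P.X : ℝ) ^ 13 := by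
      calc (10 : ℝ) ^ 20 ≤ P.X := X1
        _ = (P.X : ℝ) ^ 1 := (pow_one _).symm
        _ ≤ (P.X : ℝ) ^ 13 := pow_le_pow_right₀ (le_trans (by norm_num) X1) (by norm_num)
    have h8 : (10 : ℝ) ^ 20 * P.rho ≤ 1 := by
      rw [← h6]
      exact mul_le_mul_of_nonneg_right h7 h.L.rho0.le
    rw [le_div_iff₀ (by norm_num)]
    nlinarith
  have c3 : P.pmax * P.D ≤ P.D / 10 ^ 10 := by
    have h6 := h.L.pm1
    have h7 : (10 : ℝ) ^ 20 ≤ (P.X : ℝ) ^ 4000 := by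
      calc (10 : ℝ) ^ 20 ≤ P.X := X1
        _ = (P.X : ℝ) ^ 1 := (pow_one _).symm
        _ ≤ (P.X : ℝ) ^ 4000 := pow_le_pow_right₀ (le_trans (by norm_num) X1) (by norm_num)
    have h8 : (10 : ℝ) ^ 20 * P.pmax ≤ 1 :=
      (mul_le_mul_of_nonneg_right h7 h.L.pm0.le).trans h6
    rw [le_div_iff₀ (by norm_num)]
    nlinarith
  linarith

/-- `2 + 2 X ≤ η D / 1000` -/
theorem TKc.small (h : TKc P f rep) : 1000 * (2 + 2 * (P.X : ℝ)) ≤ P.eta * P.D := by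
  have h1 := h.L.eta2
  have X1 := h.L.X1
  have h2 : (P.X : ℝ) ^ 2 ≤ (P.X : ℝ) ^ 100000 := pow_le_pow_right₀ (le_trans (by norm_num) X1) (by norm_num)
  nlinarith

/-- `η ≤ 10 ^ (-6)` -/
theorem TKc.eta6 (h : TKc P f rep) : P.eta * P.D ≤ P.D / 10 ^ 6 := by
  have h1 := h.L.eta1
  have X1 := h.L.X1
  have h7 : (10 : ℝ) ^ 6 ≤ (P.X : ℝ) ^ 1600 := by
    calc (10 : ℝ) ^ 6 ≤ P.X := le_trans (by norm_num) X1
      _ = (P.X : ℝ) ^ 1 := (pow_one _).symm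
      _ ≤ (P.X : ℝ) ^ 1600 := pow_le_pow_right₀ (le_trans (by norm_num) X1) (by norm_num)
  have h8 : (10 : ℝ) ^ 6 * P.eta ≤ 1 := (mul_le_mul_of_nonneg_right h7 h.L.eta0.le).trans h1
  have D1 := h.D1
  rw [le_div_iff₀ (by norm_num)]
  nlinarith

/-- `nz / X` is small compared with `D / MW` -/
theorem TKc.nzM (h : TKc P f rep) : 1000 * (P.MW : ℝ) * (P.nz / P.X) ≤ P.D := by
  have h1 := h.L.nzD 6 (by norm_num)
  have X1 := h.L.X1
  have X0 := h.X0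
  have h2 := h.L.nz1
  rw [h.L.MW1]
  have e : 1000 * (P.X : ℝ) ^ 6 * (P.nz / P.X) = 1000 / P.X * ((P.X : ℝ) ^ 6 * P.nz) := by ring
  rw [e]
  have h3 : 1000 / (P.X : ℝ) ≤ 1 := by
    rw [div_le_one X0]
    exact le_trans (by norm_num) X1
  have h4 : 0 ≤ (P.X : ℝ) ^ 6 * P.nz := by positivity
  calc 1000 / (P.X : ℝ) * ((P.X : ℝ) ^ 6 * P.nz) ≤ 1 * ((P.X : ℝ) ^ 6 * P.nz) :=
        mul_le_mul_of_nonneg_right h3 h4
    _ ≤ P.D := by rw [one_mul]; exact h1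

/-- `MW ≥ 10^6` -/
theorem TKc.MW6 (h : TKc P f rep) : (10 : ℝ) ^ 6 ≤ P.MW := by
  rw [h.L.MW1]
  have X1 := h.L.X1
  calc (10 : ℝ) ^ 6 ≤ P.X := le_trans (by norm_num) X1
    _ = (P.X : ℝ) ^ 1 := (pow_one _).symm
    _ ≤ (P.X : ℝ) ^ 6 := pow_le_pow_right₀ (le_trans (by norm_num) X1) (by norm_num)

end facts

/-! ## the coins -/

section coins

variable {P : Par} {f : Fd V κ} {rep : V → V}

theorem TKc_cN {M : ℕ} (x : Fin M) : cnd none x ↔ True := by simp [cnd]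

theorem TKc_cT {M : ℕ} (x : Fin M) : cnd (some true) x ↔ x.val = 0 := by simp [cnd]

theorem TKc_cF {M : ℕ} (x : Fin M) : cnd (some false) x ↔ x.val ≠ 0 := by simp [cnd]

/-- type alpha -/
theorem TKc.al (h : TKc P f rep) (hTal : St_Tal) {I : Type} (c : V) (T : Finset I) (p : I → V)
    (q : Option Bool) (hT : T.card ≤ 4 * (P.D + 1)) (hp : Set.InjOn p T)
    (hb : ∀ i ∈ T, p i ∈ ball f.G 7 c) (b : Bool) :
    Tst f.G P.Lam c (fun ω : V → Bool × Fin P.MW => ((T.filter (fun i =>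
      (ω (rep (p i))).1 = b ∧ cnd q (ω (rep (p i))).2)).card : ℝ))
      (pq P.MW q / 2 * T.card + P.nz / P.X) ∧
    Tst f.G P.Lam c (fun ω : V → Bool × Fin P.MW => -((T.filter (fun i =>
      (ω (rep (p i))).1 = b ∧ cnd q (ω (rep (p i))).2)).card : ℝ))
      (-(pq P.MW q / 2 * T.card) + P.nz / P.X) := by
  obtain ⟨h1, h2⟩ := (hTal V I f.G P.MW P.D P.Lam f.z rep c T p p p q h.L.MW0 h.R h.H.ed.zadj
    (lt_of_lt_of_le one_pos h.L.La) hT hp hb).1 b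
  exact ⟨TKc_mono h1 (by linarith [h.b6]), TKc_mono h2 (by linarith [h.b6])⟩

/-- type beta -/
theorem TKc.be (h : TKc P f rep) (hTal : St_Tal) {I : Type} (c : V) (T : Finset I) (p r : I → V)
    (q : Option Bool) (hT : T.card ≤ 4 * (P.D + 1)) (hp : Set.InjOn p T)
    (hb : ∀ i ∈ T, p i ∈ ball f.G 7 c) (hr : Set.InjOn r T) (hbr : ∀ i ∈ T, r i ∈ ball f.G 7 c)
    (hpr : ∀ i ∈ T, rep (p i) ≠ rep (r i)) :
    Tst f.G P.Lam c (fun ω : V → Bool × Fin P.MW => ((T.filter (fun i =>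
      (ω (rep (r i))).1 ≠ (ω (rep (p i))).1 ∧ cnd q (ω (rep (r i))).2)).card : ℝ))
      (pq P.MW q / 2 * T.card + P.nz / P.X) ∧
    Tst f.G P.Lam c (fun ω : V → Bool × Fin P.MW => -((T.filter (fun i =>
      (ω (rep (r i))).1 ≠ (ω (rep (p i))).1 ∧ cnd q (ω (rep (r i))).2)).card : ℝ))
      (-(pq P.MW q / 2 * T.card) + P.nz / P.X) := by
  obtain ⟨h1, h2⟩ := ((hTal V I f.G P.MW P.D P.Lam f.z rep c T p r r q h.L.MW0 h.R h.H.ed.zadj
    (lt_of_lt_of_le one_pos h.L.La) hT hp hb).2 hr hbr hpr).1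
  exact ⟨TKc_mono h1 (by linarith [h.b6]), TKc_mono h2 (by linarith [h.b6])⟩

/-- type gamma -/
theorem TKc.ga (h : TKc P f rep) (hTal : St_Tal) {I : Type} (c : V) (T : Finset I) (p r : I → V)
    (q : Option Bool) (hT : T.card ≤ 4 * (P.D + 1)) (hp : Set.InjOn p T)
    (hb : ∀ i ∈ T, p i ∈ ball f.G 7 c) (hr : Set.InjOn r T) (hbr : ∀ i ∈ T, r i ∈ ball f.G 7 c)
    (hpr : ∀ i ∈ T, rep (p i) ≠ rep (r i)) (b b' : Bool) :
    Tst f.G P.Lam c (fun ω : V → Bool × Fin P.MW => ((T.filter (fun i =>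
      (ω (rep (p i))).1 = b ∧ (ω (rep (r i))).1 = b' ∧ cnd q (ω (rep (p i))).2 ∧
        cnd q (ω (rep (r i))).2)).card : ℝ))
      (pq P.MW q ^ 2 / 4 * T.card + P.nz / P.X) ∧
    Tst f.G P.Lam c (fun ω : V → Bool × Fin P.MW => -((T.filter (fun i =>
      (ω (rep (p i))).1 = b ∧ (ω (rep (r i))).1 = b' ∧ cnd q (ω (rep (p i))).2 ∧
        cnd q (ω (rep (r i))).2)).card : ℝ))
      (-(pq P.MW q ^ 2 / 4 * T.card) + P.nz / P.X) := by
  obtain ⟨h1, h2⟩ := ((hTal V I f.G P.MW P.D P.Lam f.z rep c T p r r q h.L.MW0 h.R h.H.ed.zadj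
    (lt_of_lt_of_le one_pos h.L.La) hT hp hb).2 hr hbr hpr).2.1 b b'
  exact ⟨TKc_mono h1 (by linarith [h.b6]), TKc_mono h2 (by linarith [h.b6])⟩

/-- type delta -/
theorem TKc.de (h : TKc P f rep) (hTal : St_Tal) {I : Type} (c : V) (T : Finset I) (p r r' : I → V)
    (q : Option Bool) (hT : T.card ≤ 4 * (P.D + 1)) (hp : Set.InjOn p T)
    (hb : ∀ i ∈ T, p i ∈ ball f.G 7 c) (hr : Set.InjOn r T) (hbr : ∀ i ∈ T, r i ∈ ball f.G 7 c)
    (hpr : ∀ i ∈ T, rep (p i) ≠ rep (r i)) (hr' : Set.InjOn r' T)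
    (hbr' : ∀ i ∈ T, r' i ∈ ball f.G 7 c) (hpr' : ∀ i ∈ T, rep (p i) ≠ rep (r' i))
    (hrr : ∀ i ∈ T, rep (r i) ≠ rep (r' i)) :
    Tst f.G P.Lam c (fun ω : V → Bool × Fin P.MW => ((T.filter (fun i =>
      (ω (rep (r i))).1 ≠ (ω (rep (p i))).1 ∧ (ω (rep (r' i))).1 ≠ (ω (rep (p i))).1 ∧
        cnd q (ω (rep (r i))).2 ∧ cnd q (ω (rep (r' i))).2)).card : ℝ))
      (pq P.MW q ^ 2 / 4 * T.card + P.nz / P.X) := by
  have h1 := ((hTal V I f.G P.MW P.D P.Lam f.z rep c T p r r' q h.L.MW0 h.R h.H.ed.zadj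
    (lt_of_lt_of_le one_pos h.L.La) hT hp hb).2 hr hbr hpr).2.2 hr' hbr' hpr' hrr
  exact TKc_mono h1 (by linarith [h.b6])

/-- `|κ| ≤ (D + 2) ^ 10` -/
theorem TKc.N1 (h : TKc P f rep) : Fintype.card κ ≤ (P.D + 2) ^ 10 := by
  rw [h.H.ed.col]
  calc P.D + 1 ≤ P.D + 2 := by omega
    _ = (P.D + 2) ^ 1 := (pow_one _).symm
    _ ≤ (P.D + 2) ^ 10 := Nat.pow_le_pow_right (by omega) (by norm_num)

theorem TKc_N2 (D m : ℕ) (hm : m ≤ 1024) : m ≤ (D + 2) ^ 10 :=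
  hm.trans (by
    calc 1024 = 2 ^ 10 := by norm_num
      _ ≤ (D + 2) ^ 10 := Nat.pow_le_pow_left (by omega) 10)

end coins

end Pool.TCV
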